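import Pool.Agent.Lib.MP_696deb_nt.EU.C1

/-! Valuations of elliptic units and of the local parameter. -/

set_option autoImplicit false

open scoped Classical NNReal
open Finset

namespace Pool.Agent.Lib.MP_696deb_nt.EU

variable {g : Gam} {v : Plc} {a b m n : O} {P Q R : A}

theorem ub_act (hb : b ≠ 0) (hg : g ∈ G) (P : A) : ub b (g • P) = g (ub b P) :=
  EA.ub_vm hb (mem_G.1 hg) P

theorem dl_eq (h : Q4.red b = 1) (P : A) : ∑ r ∈ Xb b, 2 * yco P / (xco P - r) = dl b P := by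
  have h1 := EA.prod_Xb h fun r => Multiplicative.ofAdd (yco P / (xco P - r))
  simp only [← ofAdd_sum, ← ofAdd_nsmul, EmbeddingLike.apply_eq_iff_eq] at h1
  rw [EA.dl, h1, smul_sum]
  exact sum_congr rfl fun r _ => by rw [nsmul_eq_mul, Nat.cast_ofNat, mul_div_assoc]

theorem C4_red (h : ¬ w ∣ a) : Q4.red a = 1 :=
  (Sm.F2_cases (Q4.red a)).resolve_left fun e => h (EA.w_dvd e)

theorem C4_odd (h : Q4.red a = 1) : ¬ w ∣ a := fun e =>
  absurd (Zsqrtd.isUnit_iff_norm_isUnit _ |>.1 ((EA.cop_w h).isUnit_of_dvd e)) (by decide)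

theorem zc_exact (h : P ∈ Kr w2) (k : w2.V (zc P) ^ 2 < w2.V (io w)) (a : O) :
    w2.V (zc (a • P)) = w2.V (io a) * w2.V (zc P) := by
  rcases eq_or_ne a 0 with rfl | a0
  · simp [EA.zc_zero]
  obtain ⟨s, c, hc, rfl⟩ := WfDvdMonoid.max_power_factor' a0 (x := w)
    fun e => absurd (Zsqrtd.isUnit_iff_norm_isUnit _ |>.1 e) (by decide)
  clear a0
  induction s with
  | zero =>
    rw [pow_zero, one_mul]
    refine EA.V_zc_smul h (k.trans_le ?_)
    rw [V_w2_odd (C4_red hc)]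
    exact EA.V_io_le _ _
  | succ s ih =>
    rw [pow_succ', mul_assoc, mul_smul, EA.V_zc_smul ((Kr w2).smul_mem _ h)
      ((pow_le_pow_left' (EA.zc_smul h _).1 2).trans_lt k), ih, map_mul io w, map_mul _ (io w),
      mul_assoc]

theorem zc_tw (t : Tw) (g : Gam) (P : A) : zc (t.tw g P) * t.ρ⁻¹ = g (zc P * t.ρ⁻¹) := by
  have : t.ρ ≠ 0 := fun e => t.ne (by simpa [e] using t.pw.symm)
  rw [Q4.Tw.tw, EA.zc_vm _ (Q4.zq_four t.ne t.pw g), Q4.zq, map_mul, map_inv₀, RingHom.coe_coe, inv_div]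
  field_simp

theorem ub_pole (h : Q4.red b = 1) (hv : v.p ≠ 2) (k : v.V (io b) = 1)
    (hP : P ∈ Kr v) (h0 : P ≠ 0) : v.V (ub b P) = v.V (xco P) ^ (Xb b).card := by
  have h1 := (EA.mem_Kr.1 hP).resolve_left h0
  rw [EA.ub, map_div₀, map_pow, EA.u0_unit hv h (add_zero EA.T2 ▸ EA.T2_not hv h (smul_zero _))
    fun R _ => EA.T2_not hv h, one_pow, div_one, EA.u0, map_prod, ← prod_const]
  refine prod_congr rfl fun r hr => ?_
  obtain ⟨R, ⟨r0, r1⟩, rfl⟩ := (EA.mem_Xb (EA.ne_of_red h)).1 hr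
  have h2 : v.V (xco P / xco R) = v.V (xco P) := by
    rw [map_div₀, EA.V_x_one hv fun e => r0 (EA.Kr_tors k (EA.Kr_cop (EA.cop_w h) r1 e) r1),
      div_one]
  rw [v.V.map_sub_eq_of_lt_right (by rwa [map_one, h2]), h2]

theorem C4_not (hm : m ≠ 0) (hd : a ∣ m) (hv : v.V (io a) = 1) (hP : P ∈ Im m)
    (hn : ∀ c, c ≠ 0 → ¬ a * c ∣ n * c) (hR : n • R = 0) : P + R ∉ Kr v := by
  obtain ⟨c, rfl⟩ := hd
  have e : (n * c) • (P + R) = (n * c) • P := by
    rw [smul_add, mul_comm n, mul_smul c n R, hR, smul_zero, add_zero]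
  refine EA.not_Kr hv (c := n * c) ?_ fun k => hn c (right_ne_zero_of_mul hm) (Im_dvd hm hP ?_)
  · rw [e, smul_smul, mul_left_comm, mul_smul, Im_kill hm hP, smul_zero]
  · rwa [e] at k

theorem Im_notMem (hm : m ≠ 0) (k : w ^ 3 ∣ m) (hv : v.p ≠ 2) (hP : P ∈ Im m)
    (hn : Q4.red n = 1) (hR : n • R = 0) : P + R ∉ Kr v := by
  exact C4_not hm ((dvd_pow_self w three_ne_zero).trans k) (EA.V_w hv) hP
    (fun c hc e => C4_odd hn ((mul_dvd_mul_iff_right hc).1 e)) hR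

theorem Im_ne (hm : m ≠ 0) (k : w ^ 3 ∣ m) (hP : P ∈ Im m) (hn : Q4.red n = 1) : n • P ≠ 0 := by
  exact fun e => C4_odd hn (((dvd_pow_self w three_ne_zero).trans k).trans (Im_dvd hm hP e))

theorem Im_unit (h : Q4.red b = 1) (hm : m ≠ 0) (k : w ^ 3 ∣ m) (hv : v.p ≠ 2)
    (hP : P ∈ Im m) : v.V (ub b P) = 1 := by
  exact EA.ub_unit hv h fun R hR => Im_notMem hm k hv hP h hR

theorem Im_notMem_w2 (hm : m ≠ 0) {π : O} (hp : Prime π) (hπ : Q4.red π = 1) (hd : π ∣ m)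
    (hP : P ∈ Im m) (hn : ¬ π ∣ n) (hR : n • R = 0) : P + R ∉ Kr w2 := by
  have _ := hp
  exact C4_not hm hd (V_w2_odd hπ) hP (fun c hc e => hn ((mul_dvd_mul_iff_right hc).1 e)) hR

theorem C4_y (h : R ≠ -R) : yco R ≠ 0 := fun e => by
  rcases R with _ | ⟨x, y, k⟩
  · exact h neg_zero.symm
  · obtain ⟨k', e'⟩ := Q4.gen_neg k
    obtain rfl : y = 0 := e
    exact h (by rw [e']; simp)

/-- The denominators at two are bounded. -/
theorem x_bd (h : Q4.red b = 1) : ∃ c : ℕ, ∀ P : A,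
    (∀ R, b • R = 0 → P + R ∉ Kr w2) → ∀ r ∈ Xb b, w2.V (2 ^ c) ≤ w2.V (xco P - r) := by
  have b0 := EA.ne_of_red h
  have h2 : w2.V 2 < 1 := by simpa [w2_p] using (B2.b4a_V_p w2).2
  obtain ⟨c, hc⟩ := (((En b).erase 0).eventually_all.2 fun R hR =>
    (NNReal.tendsto_pow_atTop_nhds_zero_of_lt_one h2).eventually_le_const
      (u := w2.V (2 * yco R)) (pos_iff_ne_zero.2 (w2.V.ne_zero_iff.2 (mul_ne_zero two_ne_zero
        (C4_y (EA.ne_neg_of h ((EA.mem_En0 b0).1 hR).1 ((EA.mem_En0 b0).1 hR).2)))))).exists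
  refine ⟨c, fun P hP r hr => ?_⟩
  obtain ⟨R, ⟨r0, r1⟩, rfl⟩ := (EA.mem_Xb b0).1 hr
  rw [map_pow]
  exact (hc R ((EA.mem_En0 b0).2 ⟨r0, r1⟩)).trans (EA.sep (add_zero P ▸ hP 0 (smul_zero _))
    (fun e => r0 (EA.Kr_tors (V_w2_odd h) e r1)) (hP R r1)
    (sub_eq_add_neg P R ▸ hP _ (by rw [smul_neg, r1, neg_zero])))

theorem C4_add (hP : P ≠ 0) (hQ : Q ≠ 0) (k : P + Q ≠ 0) (hx : xco P - xco Q ≠ 0) :
    xco (P + Q) = xco P +
      ((3 * xco P ^ 2 - 1) * xco Q - (xco P + xco P ^ 3)) / (xco P - xco Q) ^ 2 +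
        -2 * yco P * yco Q / (xco P - xco Q) ^ 2 := by
  obtain ⟨l, n, h1, h2, -, h4, -⟩ := EA.line hP hQ k
  have h5 : yco P - yco Q = l * (xco P - xco Q) := by linear_combination h1 - h2
  field_simp
  linear_combination (xco P - xco Q) ^ 2 * h4 - (yco P - yco Q + l * (xco P - xco Q)) * h5 +
    EA.co_eq hP + EA.co_eq hQ

/-- The abscissas of the translates by a point of the formal group. -/
theorem x_shift (hP : P ∉ Kr v) (h : Q ∈ Kr v) : ∃ δ ε : Qbar,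
    xco (P + Q) = xco P + δ + ε ∧ xco (P - Q) = xco P + δ - ε ∧
    v.V δ ≤ v.V (zc Q) ^ 2 ∧ v.V (ε - 2 * yco P * zc Q) ≤ v.V (zc Q) ^ 3 := by
  by_cases q0 : Q = 0
  · exact ⟨0, 0, by simp [q0], by simp [q0], by simp, by simp [q0, EA.zc_zero]⟩
  have a1 := (EA.mem_Kr.1 h).resolve_left q0
  have a0 := zero_lt_one.trans a1
  have hx := EA.V_x hP
  have p0 : P ≠ 0 := fun e => hP (e ▸ zero_mem _)
  have d1 : v.V (xco P - xco Q) = v.V (xco Q) := v.V.map_sub_eq_of_lt_right (hx.trans_lt a1)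
  have d0 : xco P - xco Q ≠ 0 := v.V.ne_zero_iff.1 (d1 ▸ a0.ne')
  have y0 : yco Q ≠ 0 := fun e => by
    have := EA.V_xy a1
    rw [e, map_zero, zero_pow two_ne_zero] at this
    exact pow_ne_zero _ a0.ne' this.symm
  have z2 := EA.V_zc a1
  have i2 : v.V 2 ≤ 1 := by simpa using v.V_int_le 2
  have i3 : v.V 3 ≤ 1 := by simpa using v.V_int_le 3
  have x2 : ∀ j : ℕ, v.V (xco P ^ j) ≤ 1 := fun j => by rw [map_pow]; exact pow_le_one' hx j
  have e1 := C4_add p0 q0 (fun e => hP (eq_neg_of_add_eq_zero_left e ▸ neg_mem h)) d0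
  have e2 := C4_add p0 (neg_ne_zero.2 q0) (fun e => hP (by
    rw [eq_neg_of_add_eq_zero_left e, neg_neg]; exact h)) (by rwa [xco_neg])
  rw [xco_neg, EA.co_neg, mul_neg, neg_div, ← sub_eq_add_neg, ← sub_eq_add_neg] at e2
  refine ⟨_, _, e1, e2, ?_, ?_⟩
  · rw [map_div₀, map_pow, d1, div_le_iff₀ (pow_pos a0 2), sq (v.V (xco Q)), ← mul_assoc, z2,
      one_mul]
    refine v.V.map_sub_le ?_ ((v.V.map_add_le hx (x2 3)).trans a1.le)
    rw [map_mul]
    exact mul_le_of_le_one_left' (v.V.map_sub_le (by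
      rw [map_mul]; exact mul_le_one' i3 (x2 2)) (map_one v.V).le)
  · have z3 : v.V (zc Q) ^ 3 * v.V (yco Q) = 1 := by
      rw [pow_succ, mul_assoc, ← map_mul, EA.zc, div_mul_cancel₀ _ y0, v.V.map_neg]
      exact z2
    have e3 : -2 * yco P * yco Q / (xco P - xco Q) ^ 2 - 2 * yco P * zc Q =
        2 * yco P * ((1 + xco P ^ 2) * xco Q - 2 * xco P * xco Q ^ 2) /
          (yco Q * (xco P - xco Q) ^ 2) := by
      rw [EA.zc]
      field_simp
      linear_combination -yco P * EA.co_eq q0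
    rw [e3, map_div₀, map_mul _ (yco Q), map_pow, d1, div_le_iff₀ (mul_pos
      (pos_iff_ne_zero.2 (v.V.ne_zero_iff.2 y0)) (pow_pos a0 2)), ← mul_assoc, z3, one_mul,
      map_mul, map_mul]
    refine (mul_le_of_le_one_left' (mul_le_one' i2 (EA.V_y hP))).trans (v.V.map_sub_le ?_ ?_)
    · rw [map_mul]
      exact (mul_le_of_le_one_left' (v.V.map_add_le (map_one v.V).le (x2 2))).trans
        (le_self_pow₀ a1.le two_ne_zero)
    · rw [map_mul, map_mul, map_pow]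
      exact mul_le_of_le_one_left' (mul_le_one' i2 hx)

end Pool.Agent.Lib.MP_696deb_nt.EU
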