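import Pool.Agent.Lib.MP_696deb_nt.EU.C1
import Pool.Agent.Lib.MP_696deb_nt.EA.L3

/-! Quadratic characters, the index modulo a prime. -/

set_option autoImplicit false

open scoped Classical NNReal
open Finset

namespace Pool.Agent.Lib.MP_696deb_nt.EU

variable {g σ : Gam} {v : Plc} {a n : O}

theorem c5_sn (b : ZMod 2) : (Sm.sn b : Qbar) = zeta 1 ^ ZMod.val (n := 2 ^ 1) b := by
  change _ = (-1 : Qbar) ^ ZMod.val (n := 2) b
  rcases Sm.F2_cases b with rfl | rfl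
  · simp [Sm.sn_zero]
  · rw [ZMod.val_one]
    simp [Sm.sn_one]

theorem kum_chB {H : Subgroup Gam} {x : Qbar} (h0 : x ≠ 0) (hx : Fx H x) : Kum 1 H x (chB x) := by
  refine ⟨Sm.rt x, fun e => h0 (by rw [← Sm.rt_mul_self x, e, mul_zero]),
    (sq _).trans (Sm.rt_mul_self x), fun g hg => ?_⟩
  rw [Sm.chB_spec (Sm.rt_mul_self x) (hx g hg), mul_comm, c5_sn]

theorem chB_of_kum {H : Subgroup Gam} {x : Qbar} {κ : Gam → ZMod 2} (h : Kum 1 H x κ)
    (hg : g ∈ H) : κ g = chB x g := by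
  obtain ⟨x0, -⟩ := h.fx
  obtain ⟨r, -, h1, h2⟩ := h
  exact (Sm.chB_eq x0 ((sq r).symm.trans h1) (by rw [h2 g hg, c5_sn, mul_comm])).symm

theorem b4_chB {H : Subgroup Gam} {x : Qbar} (h0 : x ≠ 0) (hx : Fx H x) : B4bG H (chB x) :=
  ⟨(kum_chB h0 hx).sm, fun g hg k hk => Sm.chB_mul_g h0 (hx g hg) (hx k hk)⟩

theorem chB_ine (hv : v.p ≠ 2) {x : Qbar} (hx : Fx G x) (h : v.V x = 1) (hσ : σ ∈ Ine v) :
    chB x σ = 0 :=
  (kum_chB (fun e => by simp [e] at h) hx).unr hv h σ ⟨ine_le hv hσ, hσ⟩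

theorem chB_sigma (t : TP) : chB (io t.π) t.σ = 1 := by
  have p0 := (B2.b4a_V_p t.v).1
  have h1 : Fx G (io t.π / t.v.p) := fun g hg => by rw [map_div₀, io_fx _ g hg, map_natCast]
  have h2 : t.v.V (io t.π / t.v.p) = 1 := by
    rw [map_div₀, t.V_pi, t.v.hV, div_self (t.v.hV ▸ (map_ne_zero t.v.V).2 p0)]
  have h3 : chB (t.v.p : Qbar) t.σ = 1 := by
    rw [← Int.cast_natCast]
    exact B2.xi_eq_one.2 t.tm.gen.2
  rw [← div_mul_cancel₀ (io t.π) p0, Sm.chB_mul (fun e => by simp [e] at h2) p0 (h1 _ t.σ_mem)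
    (map_natCast _ _), chB_ine t.odd h1 h2 t.σ_ine, h3, zero_add]

theorem c5_zero {x z : Qbar} (hz : z * z = x) : chB x g = 0 ↔ g z = z := by
  have : chB x g = 0 ↔ g (Sm.rt x) = Sm.rt x := by simp [chB]
  rcases mul_self_eq_mul_self_iff.1 (hz.trans (Sm.rt_mul_self x).symm) with e | e <;>
    rw [this, e]
  rw [map_neg, neg_inj]

theorem c5_near (hv : v.p ≠ 2) (hg : g ∈ Dec v) {x c : Qbar} (h : v.V x = 1) (hx : g x = x)
    (hc : g c = c) (k : v.V (x - c ^ 2) < 1) : chB x g = 0 := by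
  have e := Sm.rt_mul_self x
  have h1 : v.V (Sm.rt x) = 1 := by
    rw [← e, map_mul, ← sq] at h
    exact (pow_eq_one_iff_of_nonneg zero_le two_ne_zero).1 h
  obtain ⟨d, h2, h3⟩ : ∃ d, g d = d ∧ v.V (Sm.rt x - d) < 1 := by
    by_contra! n
    rw [show x - c ^ 2 = (Sm.rt x - c) * (Sm.rt x - -c) by linear_combination -e, map_mul] at k
    exact k.not_ge (one_le_mul (n c hc) (n _ (by rw [map_neg, hc])))
  refine (Sm.F2_cases _).resolve_right fun n => ?_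
  have h4 := v.V.map_sub_lt h3 ((B2.mem_Dec.1 hg _).trans_lt h3)
  rw [map_sub g, h2, Sm.chB_spec e hx, n, Sm.sn_one,
    show Sm.rt x - d - (((-1 : ℤ) : Qbar) * Sm.rt x - d) = 2 * Sm.rt x by push_cast; ring,
    map_mul, h1, EA.V_two hv, mul_one] at h4
  exact h4.false

theorem c5_card (t : TP) : Nat.card (O ⧸ Ideal.span {t.π}) = nm t.π := by
  rw [nm, ← EA.card_quot, Int.natAbs_natCast]

theorem c5_max (t : TP) : (Ideal.span {t.π}).IsMaximal :=
  PrincipalIdealRing.isMaximal_of_irreducible t.prime.irreducible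

theorem c5_fin (t : TP) : Finite (O ⧸ Ideal.span {t.π}) :=
  Nat.finite_of_card_ne_zero (by have := t.nm_mod; rw [c5_card]; omega)

theorem c5_q {π b : O} :
    π ∣ a - b ↔ Ideal.Quotient.mk (Ideal.span {π}) a = Ideal.Quotient.mk _ b :=
  (Ideal.Quotient.eq.trans Ideal.mem_span_singleton).symm

theorem c5_q0 {π : O} : Ideal.Quotient.mk (Ideal.span {π}) a = 0 ↔ π ∣ a :=
  Ideal.Quotient.eq_zero_iff_mem.trans Ideal.mem_span_singleton

/-- Integral numbers fixed by the Frobenius element are congruent to Gaussian integers. -/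
theorem c5_res (t : TP) {y : Qbar} (h : t.v.V y ≤ 1) (k : t.φ y = y) :
    ∃ b, t.v.V (y - io b) < 1 := by
  have := c5_max t
  have := c5_fin t
  let _ := Ideal.Quotient.field (Ideal.span {t.π})
  let S := t.v.V.valuationSubring
  let j : O →+* S := io.codRestrict S fun a => EA.V_io_le t.v a
  have z : ∀ x : S, IsLocalRing.residue S x = 0 ↔ t.v.V x < 1 := fun x =>
    (IsLocalRing.residue_eq_zero_iff x).trans (Valuation.mem_maximalIdeal_iff _ _)
  let f := Ideal.Quotient.lift (Ideal.span {t.π}) ((IsLocalRing.residue S).comp j) fun a ha =>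
    (z _).2 (t.V_lt.2 (Ideal.mem_span_singleton.1 ha))
  obtain ⟨c, e⟩ := (Polynomial.splits_X_pow_nat_card_sub_X
    (K := O ⧸ Ideal.span {t.π})).mem_range_of_isRoot
    (FiniteField.X_pow_card_sub_X_ne_zero _ Finite.one_lt_card) (i := f)
    (x := IsLocalRing.residue S ⟨y, h⟩) (by
      rw [Polynomial.map_sub, Polynomial.map_pow, Polynomial.map_X, Polynomial.IsRoot,
        Polynomial.eval_sub, Polynomial.eval_pow, Polynomial.eval_X, ← map_pow, ← map_sub, z,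
        c5_card]
      have := t.tm.frob.2 y h
      rwa [k, t.v.V.map_sub_swap] at this)
  obtain ⟨b, rfl⟩ := Ideal.Quotient.mk_surjective c
  exact ⟨b, (z (⟨y, h⟩ - j b)).1 (by rw [map_sub, ← e]; exact sub_self _)⟩

theorem c5_pow (t : TP) (ha : ¬ t.π ∣ a) {y : Qbar} {m : ℕ} (e : y ^ m = io a) (hm : m ≠ 0)
    (k : t.φ y = y) : ∃ b, t.π ∣ a - b ^ m := by
  have h1 := t.V_eq.2 ha
  rw [← e, map_pow, pow_eq_one_iff_of_nonneg zero_le hm] at h1
  obtain ⟨b, hb⟩ := c5_res t h1.le k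
  refine ⟨b, t.V_lt.1 ?_⟩
  have := EA.V_prod_sub (range m) (f := fun _ => y) (EA.V_io_le t.v b) fun _ _ => hb
  rwa [prod_const, card_range, e, ← map_pow, ← map_sub] at this

theorem chB_frob (t : TP) (h : ¬ t.π ∣ a) : chB (io a) t.φ = 0 ↔ ∃ b, t.π ∣ a - b ^ 2 := by
  have h1 := t.V_eq.2 h
  refine ⟨fun k => c5_pow t h ((sq _).trans (Sm.rt_mul_self _)) two_ne_zero
    ((c5_zero (Sm.rt_mul_self _)).1 k), fun ⟨b, e⟩ => ?_⟩
  exact c5_near t.odd t.tm.frob.1 h1 (io_fx a _ t.φ_mem) (io_fx b _ t.φ_mem) (by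
    rw [← map_pow, ← map_sub]; exact t.V_lt.2 e)

theorem chB_frob_one (t : TP) {x : Qbar} (hx : Fx G x) (h : t.v.V (x - 1) < 1) :
    chB x t.φ = 0 :=
  c5_near t.odd t.tm.frob.1 (EA.V_one_of h) (hx _ t.φ_mem) (map_one _) (by rwa [one_pow])

theorem c5_cy (hg : g ∈ G) : chB (io ii) g = 0 ↔ cy 3 g = 1 := by
  have h1 : zeta 3 * zeta 3 = zeta 2 := (sq _).symm.trans (B2.zeta_succ_sq 2)
  have h2 : zeta 2 * zeta 2 = II * II :=
    (sq _).symm.trans ((B2.zeta_succ_sq 1).trans Q4.II_mul.symm)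
  have h3 : io ii = -II := by simp [EA.io_apply, ii]
  have h4 : g (zeta 3) = zeta 3 ↔ cy 3 g = 1 :=
    ⟨fun e => (B2.b1b_cy_eq (k := 1) (e.trans (pow_one _).symm)).trans Nat.cast_one, fun e => by
      rw [B2.b1b_spec, e]; exact pow_one _⟩
  rw [← h4, h3]
  rcases mul_self_eq_mul_self_iff.1 h2 with e | e
  · rw [c5_zero (z := II * zeta 3) (by
      linear_combination (zeta 3 * zeta 3) * Q4.II_mul - h1 - e), map_mul, mem_G.1 hg,
      mul_right_inj' fun e => by simpa [e] using Q4.II_mul]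
  · exact c5_zero (h1.trans e)

theorem chB_ii_frob (t : TP) : chB (io ii) t.φ = 0 ↔ nm t.π % 8 = 1 := by
  rw [c5_cy t.φ_mem, cy, t.cyc_φ, map_natCast, ← Nat.cast_one (R := ZMod (2 ^ 3)),
    ZMod.natCast_eq_natCast_iff']
  rfl

theorem chB_ii_cy (hg : g ∈ G) : chB (io ii) g = 0 ↔ cy 3 g = 1 := c5_cy hg

theorem cm2 (t : TP) (hg : g ∈ G) : chB (io t.π) g = 0 ↔ ∃ b, t.π ∣ cm t.π g - b ^ 2 := by
  have p0 := t.prime.ne_zero
  have h := cm_dvd p0 hg (EA.cm_spec p0 (mem_G.1 hg) (EA.m_tq p0))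
  rw [EA.cm_sq t.prime t.prim (mem_G.1 hg)]
  exact exists_congr fun b => by rw [c5_q, c5_q, c5_q.1 h]

theorem c5_cm (t : TP) (hg : g ∈ G) : ¬ t.π ∣ cm t.π g :=
  t.prime.irreducible.coprime_iff_not_dvd.1 (cm_cop t.prime.ne_zero hg).symm

theorem c5_ii (t : TP) : ¬ t.π ∣ ii := fun e =>
  t.prime.not_dvd_one ((show ii ^ 4 = 1 by decide) ▸ e.pow four_ne_zero)

theorem exists_ix (t : TP) {s : ℕ} (hs : 0 < s) (h : 2 ^ (s + 2) ∣ nm t.π - 1) :
    Nonempty (Ix t s) := by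
  have := c5_max t
  have := c5_fin t
  let _ := Ideal.Quotient.field (Ideal.span {t.π})
  obtain ⟨γ, hγ⟩ := IsCyclic.exists_monoid_generator (α := (O ⧸ Ideal.span {t.π})ˣ)
  have ho : orderOf γ = nm t.π - 1 := by
    rw [orderOf_eq_card_of_forall_mem_powers hγ, Nat.card_units, c5_card]
  obtain ⟨L, hL⟩ : ∃ L : O ⧸ Ideal.span {t.π} → ℕ, ∀ x, x ≠ 0 → (γ ^ L x : (_)ˣ) = x := by
    have : ∀ x : O ⧸ Ideal.span {t.π}, ∃ n : ℕ, x ≠ 0 → (γ ^ n : (_)ˣ) = x := fun x => by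
      by_cases e : x = 0
      · exact ⟨0, fun k => absurd e k⟩
      · obtain ⟨n, hn⟩ := hγ (Units.mk0 x e)
        exact ⟨n, fun _ => congrArg Units.val hn⟩
    exact ⟨_, fun x => (this x).choose_spec⟩
  have md : ∀ {i j : ℕ}, ((γ ^ i : (_)ˣ) : O ⧸ Ideal.span {t.π}) = (γ ^ j : (_)ˣ) →
      i ≡ j [MOD 2 ^ (s + 2)] := fun e => (pow_eq_pow_iff_modEq.1 (Units.ext e)).of_dvd (ho ▸ h)
  have n0 : ∀ {a : O}, ¬ t.π ∣ a → Ideal.Quotient.mk (Ideal.span {t.π}) a ≠ 0 := mt c5_q0.1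
  have pr : ∀ a, ¬ t.π ∣ a → (Even (L (Ideal.Quotient.mk _ a)) ↔ ∃ b, t.π ∣ a - b ^ 2) :=
    fun a ha => ⟨fun ⟨l, e⟩ => by
      obtain ⟨b, hb⟩ := Ideal.Quotient.mk_surjective ((γ ^ l : (_)ˣ) : O ⧸ Ideal.span {t.π})
      exact ⟨b, c5_q.2 (by rw [← hL _ (n0 ha), e, pow_add, map_pow, hb, sq, Units.val_mul])⟩,
    fun ⟨b, e⟩ => by
      have b0 := n0 fun k : t.π ∣ b => ha (by simpa using e.add (k.pow two_ne_zero))
      have := (md (i := L (Ideal.Quotient.mk _ a)) (j := L (Ideal.Quotient.mk _ b) * 2) (by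
        rw [hL _ (n0 ha), pow_mul, Units.val_pow_eq_pow_val, hL _ b0, c5_q.1 e, map_pow])).of_dvd
        (dvd_pow_self 2 (Nat.succ_ne_zero _))
      rw [Nat.even_iff]
      unfold Nat.ModEq at this
      omega⟩
  have c0 := c5_cm t t.σ_mem
  have c1 : Odd (L (Ideal.Quotient.mk _ (cm t.π t.σ))) := Nat.not_even_iff_odd.1 fun e => by
    have := (cm2 t t.σ_mem).2 ((pr _ c0).1 e)
    rw [chB_sigma] at this
    exact one_ne_zero this
  obtain ⟨u, hu⟩ := ((ZMod.isUnit_iff_coprime _ (2 ^ s)).2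
    ((Nat.coprime_two_right.2 c1).pow_right s)).exists_left_inv
  let ψ := ZMod.castHom (dvd_pow_self 2 hs.ne') (ZMod 2)
  refine ⟨⟨fun a => u * L (Ideal.Quotient.mk _ a), fun a b ha hb => ?_,
    fun a b e => by rw [c5_q.1 e], ?_, hu, fun a ha => ?_, h, hs⟩⟩
  · rw [← mul_add, ← Nat.cast_add, (ZMod.natCast_eq_natCast_iff _ _ _).2 ((md ?_).of_dvd
      (pow_dvd_pow 2 (Nat.le_add_right s 2)))]
    rw [pow_add, Units.val_mul, hL _ (n0 ha), hL _ (n0 hb), map_mul,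
      hL _ (mul_ne_zero (n0 ha) (n0 hb))]
  · have := (Nat.modEq_zero_iff_dvd.1 (md (i := L (Ideal.Quotient.mk _ ii) * 2 ^ 2) (j := 0) (by
      rw [pow_mul, Units.val_pow_eq_pow_val, hL _ (n0 (c5_ii t)), ← map_pow,
        show ii ^ 2 ^ 2 = 1 by decide, map_one, pow_zero, Units.val_one])))
    rw [pow_add, Nat.mul_dvd_mul_iff_right (by norm_num)] at this
    rw [(ZMod.natCast_eq_zero_iff _ _).2 this, mul_zero]
  · have k : ψ u ≠ 0 := left_ne_zero_of_mul_eq_one (by rw [← map_mul, hu, map_one])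
    rw [← pr a ha, ← ZMod.natCast_eq_zero_iff_even, ← ZMod.cast_eq_val,
      ← ZMod.castHom_apply (h := dvd_pow_self 2 hs.ne'), map_mul, mul_eq_zero, or_iff_right k,
      map_natCast, ZMod.natCast_eq_zero_iff_even]

theorem pow_of_fix (t : TP) (h : nm t.π = t.v.p) {e : ℕ} (ha : ¬ t.π ∣ a)
    (k : t.φ (rt2 e (io a)) = rt2 e (io a)) : ∃ b, t.π ∣ a - b ^ 2 ^ e :=
  have _ := h
  c5_pow t ha (rt2_pow e _) (pow_ne_zero e two_ne_zero) k

namespace Ix

variable {t : TP} {s : ℕ} (x : Ix t s)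

theorem one : x.ind 1 = 0 := by
  have := x.mul 1 1 t.prime.not_dvd_one t.prime.not_dvd_one
  rwa [mul_one, left_eq_add] at this

theorem pow (ha : ¬ t.π ∣ a) (k : ℕ) : x.ind (a ^ k) = k * x.ind a := by
  induction k with
  | zero => rw [pow_zero, x.one, Nat.cast_zero, zero_mul]
  | succ k ih =>
    rw [pow_succ, x.mul _ _ (mt t.prime.dvd_of_dvd_pow ha) ha, ih, Nat.cast_succ, add_one_mul]

theorem c5_prod {S : Finset O} (h : ∀ a ∈ S, ¬ t.π ∣ a) :
    x.ind (∏ a ∈ S, a) = ∑ a ∈ S, x.ind a := by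
  induction S using Finset.induction_on with
  | empty => exact x.one
  | insert a S ha ih =>
    have k := fun b hb => h b (mem_insert_of_mem hb)
    rw [prod_insert ha, sum_insert ha, x.mul _ _ (h a (mem_insert_self _ _)) fun e => ?_, ih k]
    obtain ⟨b, hb, e⟩ := t.prime.exists_mem_finset_dvd e
    exact k b hb e

theorem sum {R : Finset O} (hR : EA.IsRep t.π R) : ∑ a ∈ R with ¬ t.π ∣ a, x.ind a = 0 := by
  have := c5_max t
  have := c5_fin t
  let _ := Ideal.Quotient.field (Ideal.span {t.π})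
  have := Fintype.ofFinite (O ⧸ Ideal.span {t.π})ˣ
  have e := congrArg Units.val
    (FiniteField.prod_univ_units_id_eq_neg_one (K := O ⧸ Ideal.span {t.π}))
  rw [Units.coe_prod, ← prod_bij (s := R.filter fun a => ¬ t.π ∣ a)
    (f := fun a => Ideal.Quotient.mk _ a)
    (fun a ha => Units.mk0 (Ideal.Quotient.mk _ a) (mt c5_q0.1 (mem_filter.1 ha).2))
    (fun _ _ => mem_univ _) (fun a ha b hb e => hR.uq a (mem_filter.1 ha).1 b (mem_filter.1 hb).1
      (c5_q.2 (congrArg Units.val e))) (fun u _ => ?_) fun _ _ => rfl, ← map_prod] at e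
  · rw [← x.c5_prod fun a ha => (mem_filter.1 ha).2, x.per _ (ii * ii) (c5_q.2 (e.trans (by
      rw [show ii * ii = -1 by decide, map_neg, map_one]; rfl))),
      x.mul _ _ (c5_ii t) (c5_ii t), x.unit, add_zero]
  · obtain ⟨a, ha⟩ := Ideal.Quotient.mk_surjective (u : O ⧸ Ideal.span {t.π})
    obtain ⟨r, hr, k⟩ := hR.ex a
    rw [c5_q, ha] at k
    exact ⟨r, mem_filter.2 ⟨hr, mt c5_q0.2 (k ▸ u.ne_zero)⟩, Units.ext k.symm⟩

theorem sm_ig : Sm G x.ig := (sm_cm t.prime.ne_zero).comp x.ind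

theorem hom_ig : IsHom G x.ig := fun _ hg _ hh =>
  (x.per _ _ (cm_mul t.prime.ne_zero hg hh)).trans (x.mul _ _ (c5_cm t hg) (c5_cm t hh))

theorem ig_sigma : x.ig t.σ = 1 := x.sig

theorem ig_ine (hv : v.p ≠ 2) (h : v.V (io t.π) = 1) (hσ : σ ∈ Ine v) : x.ig σ = 0 :=
  (x.per _ _ (cm_ine hv h hσ)).trans x.one

theorem ig_frob (t' : TP) (h : t'.π ≠ t.π) : x.ig t'.φ = x.ind t'.π :=
  x.per _ _ (cm_frob t' (t'.not_dvd t h))

theorem ig_par (hg : g ∈ G) : Even (x.ig g).val ↔ chB (io t.π) g = 0 :=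
  (x.par _ (c5_cm t hg)).trans (cm2 t hg).symm

/-- The same index for another Frobenius element. -/
noncomputable def adj (σ : Gam) (h : σ ∈ Ine t.v) : Ix (t.adj σ h) s :=
  ⟨x.ind, x.mul, x.per, x.unit, x.sig, x.par, x.dvd, x.pos⟩

end Ix

end Pool.Agent.Lib.MP_696deb_nt.EU
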