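import Pool.Agent.Lib.MP_696deb_nt.EU.C5

/-! The index is unramified at two. -/

set_option autoImplicit false

open scoped Classical NNReal
open Finset

namespace Pool.Agent.Lib.MP_696deb_nt.EU

section

variable {t : TP} {s : ℕ} (x : Ix t s) (F : CFT) {v : Plc} {q q' : Qbar} {a b : O}

/-- The local symbol of the index and a Gaussian number. -/
noncomputable def c6I (v : Plc) (q : Qbar) : ZMod (2 ^ s) :=
  if h : ∃ κ, Kum s G q κ then F.inv s G v (cup s x.ig h.choose) else 0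

theorem c6_sm (v : Plc) : Sm (G ⊓ Dec v) x.ig := x.sm_ig.mono inf_le_left

theorem c6_hom (v : Plc) : IsHom (G ⊓ Dec v) x.ig := fun g hg h hh => x.hom_ig g hg.1 h hh.1

theorem c6_c2 {κ : Gam → ZMod (2 ^ s)} (h : Kum s G q κ) : C2 s G (cup s x.ig κ) :=
  B2.c2_cup x.sm_ig x.hom_ig h.sm h.coc

theorem c6_eq {κ : Gam → ZMod (2 ^ s)} (h : Kum s G q κ) (v : Plc) :
    c6I x F v q = F.inv s G v (cup s x.ig κ) := by
  have e : ∃ κ, Kum s G q κ := ⟨κ, h⟩
  rw [c6I, dif_pos e]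
  exact F.cup_congr op_G (c6_sm x v) (c6_hom x v) (e.choose_spec.mono inf_le_left)
    (h.mono inf_le_left)

theorem c6_mul (h0 : q ≠ 0) (h : Fx G q) (k0 : q' ≠ 0) (k : Fx G q') (v : Plc) :
    c6I x F v (q * q') = c6I x F v q + c6I x F v q' := by
  obtain ⟨κ, h1⟩ := B2.exists_kum s h0 h
  obtain ⟨κ', k1⟩ := B2.exists_kum s k0 k
  rw [c6_eq x F h1, c6_eq x F k1, c6_eq x F (h1.mul k1),
    ← F.add op_G ((c6_c2 x h1).mono inf_le_left) ((c6_c2 x k1).mono inf_le_left)]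
  exact F.congr fun g _ h _ => mul_add _ _ _

theorem c6_near (h0 : q ≠ 0) (h : Fx G q) (k : v.V (q - 1) < v.V (2 ^ (s + 1))) :
    c6I x F v q = 0 := by
  obtain ⟨κ, h1⟩ := B2.exists_kum s h0 h
  rw [c6_eq x F h1]
  exact F.cup_pow op_G (c6_sm x v) (c6_hom x v) (h1.mono inf_le_left)
    (B2.exists_root inf_le_right s (fun g hg => h g hg.1) k)

theorem c6_away (t' : TP) {S : Finset Plc} (h : B2.Away G S v) (k : t'.v ∈ S) :
    v.V (io t'.π) = 1 :=
  (EA.V_io_le v _).eq_or_lt.resolve_right fun e =>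
    (t'.conj e).elim fun g hg => h _ k g hg.1 hg.2

theorem c6_recip (S : Finset Plc) (hS : B2.Apart G S) (h1 : w2 ∈ S) (h2 : t.v ∈ S) (h0 : a ≠ 0)
    (h : ∀ v, B2.Away G S v → v.V (io a) = 1) : ∑ v ∈ S, c6I x F v (io a) = 0 := by
  obtain ⟨κ, k⟩ := B2.exists_kum s (EA.io_ne h0) (io_fx a)
  simp only [c6_eq x F k]
  refine F.recip S op_G (c6_c2 x k) (.inl tc_G) hS fun v hv => ?_
  have hp : v.p ≠ 2 := fun e => (conj_w2 e).elim fun g hg => hv _ h1 g hg.1 hg.2
  exact F.unit op_G (c6_sm x v) (c6_hom x v)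
    (fun σ hσ => x.ig_ine hp (c6_away t hv h2) hσ.2) (k.mono inf_le_left) (h v hv)

theorem c6_ne (t' : TP) (g : Gam) : g • w2 ≠ t'.v := fun e =>
  t'.odd (by rw [← e, B2.smul_p, w2_p])

theorem c6_ne' (t' : TP) (g : Gam) : g • t'.v ≠ w2 := fun e =>
  t'.odd (by rw [← B2.smul_p g, e, w2_p])

theorem c6_ne_tp (t t' : TP) (h : t.π ≠ t'.π) {g : Gam} (hg : g ∈ G) : g • t.v ≠ t'.v := fun e => by
  have k := t'.lt
  rw [← e, B2.smul_V, io_fx _ _ (inv_mem hg), t.V_lt] at k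
  exact t.not_dvd t' h k

theorem c6_V_unit (v : Plc) (h : IsUnit a) : v.V (io a) = 1 := by
  obtain ⟨c, e⟩ := h.exists_right_inv
  have k : v.V (io a) * v.V (io c) = 1 := by rw [← map_mul, ← map_mul, e, map_one, map_one]
  exact (EA.V_io_le v a).eq_or_lt.resolve_right fun l =>
    (mul_lt_one_of_lt_of_le l (EA.V_io_le v c)).ne k

theorem c6_ndvd (t : TP) (h : IsUnit a) : ¬ t.π ∣ a := fun e =>
  t.prime.not_isUnit (isUnit_of_dvd_unit e h)

theorem c6_unit_ii : IsUnit ii := IsUnit.of_mul_eq_one (-ii) (by decide)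

theorem c6_red (h : Q4.red (a * b) = 1) : Q4.red a = 1 ∧ Q4.red b = 1 := by
  rw [Q4.red_mul] at h
  revert h
  generalize Q4.red a = y, Q4.red b = z
  revert y z
  decide

theorem c6_ind_unit (h : IsUnit a) : x.ind a = 0 := by
  obtain ⟨c, e⟩ := h.exists_right_inv
  obtain ⟨n, hn⟩ := exists_prim (c6_red (e ▸ Q4.red_one)).1
  have k := prim_assoc hn (b := 1) (prim_iff.2 (by simp))
    (associated_one_iff_isUnit.2 ((c6_unit_ii.pow n).mul h))
  have l := x.mul _ _ (c6_ndvd t (c6_unit_ii.pow n)) (c6_ndvd t h)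
  rwa [k, x.one, x.pow (c6_ndvd t c6_unit_ii), x.unit, mul_zero, zero_add, eq_comm] at l

/-- The sum of the local symbols. -/
noncomputable def c6J (a : O) : ZMod (2 ^ s) :=
  c6I x F w2 (io a) + c6I x F t.v (io a) + x.ind a

theorem c6J_mul (ha : ¬ t.π ∣ a) (hb : ¬ t.π ∣ b) : c6J x F (a * b) = c6J x F a + c6J x F b := by
  have a0 : io a ≠ 0 := EA.io_ne fun e => ha (e ▸ dvd_zero _)
  have b0 : io b ≠ 0 := EA.io_ne fun e => hb (e ▸ dvd_zero _)
  rw [c6J, c6J, c6J, map_mul, c6_mul x F a0 (io_fx a) b0 (io_fx b),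
    c6_mul x F a0 (io_fx a) b0 (io_fx b), x.mul a b ha hb]
  ring

theorem c6J_unit (h : IsUnit a) : c6J x F a = 0 := by
  have n : w2 ≠ t.v := c6_ne t 1
  have := c6_recip x F {w2, t.v} (fun v hv v' hv' g hg e => by
    simp only [mem_insert, mem_singleton] at hv hv'
    rcases hv with rfl | rfl <;> rcases hv' with rfl | rfl
    exacts [rfl, absurd e (c6_ne t g), absurd e (c6_ne' t g), rfl]) (by simp) (by simp) h.ne_zero
    fun v _ => c6_V_unit v h
  rwa [c6J, c6_ind_unit x h, add_zero, ← sum_pair (f := fun v => c6I x F v (io a)) n]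

theorem c6J_tp (t' : TP) (h : t'.π ≠ t.π) : c6J x F t'.π = 0 := by
  have n1 : w2 ≠ t.v := c6_ne t 1
  have n2 : w2 ≠ t'.v := c6_ne t' 1
  have n3 : t.v ≠ t'.v := c6_ne_tp t t' h.symm (one_mem _)
  have := c6_recip x F {w2, t.v, t'.v} (fun v hv v' hv' g hg e => by
    simp only [mem_insert, mem_singleton] at hv hv'
    rcases hv with rfl | rfl | rfl <;> rcases hv' with rfl | rfl | rfl
    exacts [rfl, absurd e (c6_ne t g), absurd e (c6_ne t' g), absurd e (c6_ne' t g), rfl,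
      absurd e (c6_ne_tp t t' h.symm hg), absurd e (c6_ne' t' g), absurd e (c6_ne_tp t' t h hg),
      rfl]) (by simp) (by simp) t'.prime.ne_zero fun v hv => c6_away t' hv (by simp)
  obtain ⟨κ, k⟩ := B2.exists_kum s (EA.io_ne t'.prime.ne_zero) (io_fx t'.π)
  rw [sum_insert (by simp [n1, n2]), sum_pair n3, c6_eq x F k t'.v,
    F.kum 1 op_G t'.tm.ine t'.tm.mem (t'.tm.deg ▸ t'.tm.frob) (c6_sm x _) (c6_hom x _)
      (fun σ hσ => x.ig_ine t'.odd (t'.V_eq.2 (t'.not_dvd t h)) hσ) (k.mono inf_le_left)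
      (by rw [t'.V_pi, zpow_one]), x.ig_frob t' h, Int.cast_one, mul_one, ← add_assoc] at this
  exact this

theorem c6J_zero (h : Q4.red a = 1) (k : ¬ t.π ∣ a) : c6J x F a = 0 := by
  induction a using UniqueFactorizationMonoid.induction_on_prime with
  | h₁ => exact absurd (dvd_zero _) k
  | h₂ u hu => exact c6J_unit x F hu
  | h₃ c p _ hp ih =>
    have k1 : ¬ t.π ∣ p := fun e => k (e.mul_right c)
    have k2 : ¬ t.π ∣ c := fun e => k (e.mul_left p)
    obtain ⟨n, hn⟩ := exists_prim (c6_red h).1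
    have u := c6_unit_ii.pow n
    obtain ⟨t', e⟩ := exists_tp ((associated_unit_mul_right p _ u).prime hp) hn
    have l := c6J_tp x F t' fun e' => k1 ((u.dvd_mul_left).1 (by rw [← e, e']))
    rw [e, c6J_mul x F (c6_ndvd t u) k1, c6J_unit x F u, zero_add] at l
    rw [c6J_mul x F k1 k2, l, ih (c6_red h).2 k2, add_zero]

theorem c6_one (h : Q4.red b = 1) (k : t.π ∣ b - 1) : c6I x F w2 (io b) = 0 := by
  have n : ¬ t.π ∣ b := fun e => c6_ndvd t isUnit_one (by simpa using dvd_sub e k)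
  have l := c6J_zero x F h n
  have two : t.v.V 2 = 1 := by
    have := (t.v.V_int_eq_one (a := 2)).2 fun e => t.odd
      ((Nat.prime_dvd_prime_iff_eq t.v.prime Nat.prime_two).1 (by exact_mod_cast e))
    exact_mod_cast this
  rwa [c6J, x.per b 1 k, x.one, add_zero, c6_near x F (v := t.v) (EA.io_ne (EA.ne_of_red h))
    (io_fx b) (by
      rw [map_pow, two, one_pow, ← map_one io, ← map_sub]
      exact t.V_lt.2 k), add_zero] at l

theorem c6_odd (h : Q4.red a = 1) : c6I x F w2 (io a) = 0 := by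
  obtain ⟨c, d, e⟩ := (EA.cop_two t.red).pow_left (m := s + 2)
  have a0 := EA.io_ne (EA.ne_of_red h)
  have r : Q4.red (a + 2 ^ (s + 2) * (c * (1 - a))) = 1 := by
    rw [EA.red_iff] at h ⊢
    rw [pow_succ', mul_assoc, two_mul, Zsqrtd.re_add, Zsqrtd.im_add, Zsqrtd.re_add, Zsqrtd.im_add]
    omega
  have l := c6_one x F r ⟨d * (a - 1), by linear_combination (1 - a) * e⟩
  generalize c * (1 - a) = z at r l
  have b0 := EA.io_ne (EA.ne_of_red r)
  have f : Fx G (io (a + 2 ^ (s + 2) * z) / io a) := fun g hg => by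
    rw [map_div₀, io_fx _ g hg, io_fx _ g hg]
  have two : w2.V 2 = 2⁻¹ := by
    have := w2.hV
    rw [w2_p] at this
    exact_mod_cast this
  rwa [← div_mul_cancel₀ (io (a + 2 ^ (s + 2) * z)) a0,
    c6_mul x F (div_ne_zero b0 a0) f a0 (io_fx a), c6_near x F (div_ne_zero b0 a0) f (by
      rw [div_sub_one a0, ← map_sub, add_sub_cancel_left, map_div₀, V_w2_odd h, div_one, map_mul,
        map_pow, map_ofNat, map_mul, map_pow, map_pow, two, pow_succ _ (s + 1), mul_assoc]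
      exact mul_lt_of_lt_one_right (by positivity)
        (mul_lt_one_of_lt_of_le (inv_lt_one_of_one_lt₀ one_lt_two) (EA.V_io_le _ z))),
    zero_add] at l

end

theorem Ix.ig_w2 {t : TP} {s : ℕ} (x : Ix t s) {σ : Gam} (h : σ ∈ G ⊓ Ine w2) : x.ig σ = 0 := by
  obtain ⟨F⟩ := B2.exists_cft
  refine F.crit op_G (c6_sm x w2) (c6_hom x w2) (fun q κ hq hv k => ?_) σ h
  obtain ⟨a, b, b0, e⟩ := fx_G hq
  have wu : ¬ IsUnit w := fun k => absurd ((Zsqrtd.isUnit_iff_norm_isUnit _).1 k) (by decide)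
  have odd : ∀ c : O, ¬ w ∣ c → Q4.red c = 1 := fun c hc =>
    (Sm.F2_cases _).resolve_left fun e => hc (EA.w_dvd e)
  obtain ⟨n, b, hb, rfl⟩ := WfDvdMonoid.max_power_factor' b0 wu
  have hb' := odd b hb
  obtain ⟨a, rfl⟩ : w ^ n ∣ a := V_w2_dvd.1 (by
    rw [← e, map_mul, hv, one_mul, map_mul, map_mul, V_w2_odd hb', mul_one, map_pow, map_pow])
  have e' : q * io b = io a := mul_left_cancel₀ (EA.io_ne (left_ne_zero_of_mul b0))
    (by rw [← map_mul io, ← e, map_mul]; ring)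
  have ha : Q4.red a = 1 := odd a fun l => by
    have l1 := (V_w2_dvd (a := a) (n := 1)).2 (by rwa [pow_one])
    rw [← e', map_mul, hv, V_w2_odd hb', one_mul, pow_one] at l1
    have l2 := one_le_pow₀ (n := 2) l1
    rw [V_w2] at l2
    exact (inv_lt_one_of_one_lt₀ one_lt_two).not_ge l2
  have l := c6_odd x F ha
  rwa [← e', c6_mul x F k.fx.1 hq (EA.io_ne (EA.ne_of_red hb')) (io_fx b), c6_odd x F hb',
    add_zero, c6_eq x F k] at l

end Pool.Agent.Lib.MP_696deb_nt.EU
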