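import Pool.Agent.Lib.MP_696deb_nt.EU.C5
import Pool.Agent.Lib.MP_696deb_nt.EA.L3

/-! The character of the twisted curve. -/

set_option autoImplicit false

open scoped Classical NNReal
open Finset

namespace Pool.Agent.Lib.MP_696deb_nt.EU

variable {g h σ : Gam} {v : Plc} {a : O} {P : A}

/-- The finite part of the Hecke character. -/
structure Phi (D : ℤ) (φ : O → O) : Prop where
  gch : Gch (2 * D) φ
  per : Per (8 * D.natAbs) φ
  qc : ∀ (p : ℕ) [Fact p.Prime] (z : O) (ρ : O →+* ZMod p) (χ : MulChar (ZMod p) O),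
    QF.Qc p z ρ χ → ¬ (p : ℤ) ∣ D → φ z = star (χ D)

theorem c7_cm {m : O} (hm : m ≠ 0) (hg : g ∈ G) : m ∣ cm m g - EA.cm m g :=
  cm_dvd hm hg (EA.cm_spec hm (mem_G.1 hg) (EA.m_tq hm))

theorem c7_four (t : Tw) (g : Gam) : zq t.ρ g ^ 4 = 1 := Q4.zq_four t.ne t.pw g

theorem c7_ne (t : Tw) : t.ρ ≠ 0 := fun e => t.ne (by simpa [e] using t.pw.symm)

theorem norm_psi (hg : g ∈ G) : (psi g).norm = cyc g := by
  refine PadicInt.ext_of_toZModPow.1 fun e => ?_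
  obtain ⟨h1, h2⟩ := two_pow_dvd_Ow.1 (psi_spec e hg)
  have k : ((2 : ℕ) : ℤ_[2]) ^ e ∣ (psi g).norm - (oW (cm (2 ^ e) g)).norm := by
    rw [norm_Ow, norm_Ow, add_sub_add_comm]
    exact (h1.trans (sub_dvd_pow_sub_pow _ _ 2)).add (h2.trans (sub_dvd_pow_sub_pow _ _ 2))
  rw [← Ideal.mem_span_singleton, ← PadicInt.ker_toZModPow, RingHom.mem_ker, map_sub,
    sub_eq_zero, oW_norm, map_intCast] at k
  rw [k, EA.norm_cong (c7_cm (pow_ne_zero _ two_ne_zero) hg), EA.link_cy e (mem_G.1 hg)]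
  rfl

theorem un_four {u : Qbar} (h : u ^ 4 = 1) : un u ^ 4 = 1 ∧ un u * star (un u) = 1 := by
  rcases Q4.ell_root h with rfl | rfl | rfl | rfl
  · rw [Q4.un_one]; decide
  · rw [Q4.ell_un.1]; decide
  · rw [Q4.ell_un.2.1]; decide
  · rw [Q4.ell_un.2.2]; decide

theorem io_un {u : Qbar} (h : u ^ 4 = 1) : io (un u) * u = 1 := by
  have e : io ii = -II := by simp [EA.io_apply, ii]
  rcases Q4.ell_root h with rfl | rfl | rfl | rfl
  · rw [Q4.un_one, map_one, one_mul]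
  · rw [Q4.ell_un.1, map_neg, map_one, neg_mul_neg, one_mul]
  · rw [Q4.ell_un.2.1, e, neg_mul, Q4.II_mul, neg_neg]
  · rw [Q4.ell_un.2.2, map_neg, e, neg_neg, mul_neg, Q4.II_mul, neg_neg]

theorem un_zq_mul (t : Tw) (hg : g ∈ G) (h : Gam) :
    un (zq t.ρ (g * h)) = un (zq t.ρ g) * un (zq t.ρ h) := by
  rw [EA.zq_mul_g t.ne t.pw (mem_G.1 hg), Q4.un_mul (c7_four t g) (c7_four t h)]

theorem c7_dvd (D : ℤ) : ((8 * D.natAbs : ℕ) : O) ∣ ((8 * D : ℤ) : O) := by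
  rw [← Int.cast_natCast]
  exact map_dvd (Int.castRingHom O) (by
    rw [Nat.cast_mul]
    exact mul_dvd_mul_left _ (Int.natAbs_dvd.2 dvd_rfl))

theorem Phi.per' {D : ℤ} {φ : O → O} (hφ : Phi D φ) {m a b : O} (hm : ((8 * D : ℤ) : O) ∣ m)
    (k : m ∣ a - b) : φ a = φ b := by
  exact EA.per_dvd hφ.per ((c7_dvd D).trans (hm.trans k))

theorem Phi.unit {D : ℤ} {φ : O → O} (hφ : Phi D φ) (hD : D ≠ 0)
    (k : IsCoprime a ((2 * D : ℤ) : O)) : φ a ^ 4 = 1 ∧ φ a * star (φ a) = 1 := by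
  have k1 := hφ.gch.bd a
  have k2 := GaussianInt.norm_pos.2 (EA.phi_ne hφ.gch hφ.per
    ((k.pow_right (n := 3)).of_isCoprime_of_dvd_right ((c7_dvd D).trans
      ⟨D ^ 2, by push_cast; ring⟩)))
  generalize φ a = u at k1 k2
  obtain ⟨x, y⟩ := u
  simp only [Zsqrtd.norm_def] at k1 k2
  have : -1 ≤ x ∧ x ≤ 1 ∧ -1 ≤ y ∧ y ≤ 1 := by
    refine ⟨?_, ?_, ?_, ?_⟩ <;> nlinarith [mul_self_nonneg x, mul_self_nonneg y]
  obtain ⟨_, _, _, _⟩ := this
  interval_cases x <;> interval_cases y <;> first | decide | simp at k1 k2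

theorem Phi.link {φ : O → O} (t : Tw) (hφ : Phi t.N φ) {m : O} (h0 : m ≠ 0)
    (hm : ((8 * t.N : ℤ) : O) ∣ m) (hg : g ∈ G) : φ (cm m g) = un (zq t.ρ g) := by
  have hM : 0 < 8 * t.N.natAbs := mul_pos (by norm_num) (Int.natAbs_pos.2 t.ne)
  rw [EA.per_dvd hφ.per (cm_of_dvd h0 hg ((c7_dvd _).trans hm)),
    EA.per_dvd hφ.per (c7_cm (Nat.cast_ne_zero.2 hM.ne') hg)]
  exact EA.link_phi t.ne hφ.gch hM hφ.per hφ.qc t.pw (mem_G.1 hg)

variable (t : Tw)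

theorem rho0_mul (hg : g ∈ G) (hh : h ∈ G) : rho0 t (g * h) = rho0 t g * rho0 t h := by
  rw [rho0, rho0, rho0, un_zq_mul t hg, psi_mul hg hh, map_mul, mul_mul_mul_comm]

theorem rho0_one : rho0 t 1 = 1 := by
  rw [rho0, psi_one, zq, AlgEquiv.one_apply, div_self (c7_ne t), Q4.un_one, map_one, one_mul]

theorem sm_rho0 (e : ℕ) :
    Sm G fun g => Ideal.Quotient.mk (Ideal.span {(2 : Ow) ^ e}) (rho0 t g) := by
  exact ((B2.sm_apply t.ρ).comp₂ (sm_psi e) fun x y =>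
    Ideal.Quotient.mk _ (oW (un (x / t.ρ))) * y).congr fun _ _ => (map_mul _ _ _).symm

theorem norm_rho0 (hg : g ∈ G) : (rho0 t g).norm = cyc g := by
  have e : (un (zq t.ρ g)).norm = 1 := by
    have := (un_four (c7_four t g)).2
    rw [← Zsqrtd.norm_eq_mul_conj] at this
    exact_mod_cast this
  rw [rho0, map_mul, oW_norm, e, norm_psi hg, Int.cast_one, one_mul]

theorem rho0_w (hg : g ∈ G) : wO ∣ rho0 t g - 1 := by
  obtain ⟨c, e⟩ := psi_w3 hg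
  refine ⟨oW (Q4.uu (zq t.ρ g)) * psi g + wO ^ 2 * c, ?_⟩
  rw [rho0, Q4.un_eq, map_add, map_one, map_mul, show oW w = wO from rfl]
  linear_combination e

theorem tw_rho0 {e : ℕ} (hg : g ∈ G) (hP : (2 : O) ^ e • P = 0)
    (k : (2 : Ow) ^ e ∣ rho0 t g - oW a) : t.tw g P = a • P := by
  obtain ⟨c, e1⟩ : (2 : O) ^ e ∣ un (zq t.ρ g) * cm (2 ^ e) g - a := by
    refine dvd_oW.1 ?_
    convert k.sub ((psi_spec e hg).mul_left (oW (un (zq t.ρ g)))) using 1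
    rw [rho0, map_sub, map_mul]
    ring
  rw [tw_eq t hg, cm_spec (pow_ne_zero _ two_ne_zero) hg hP, smul_smul, eq_add_of_sub_eq e1,
    add_smul, mul_comm, mul_smul, hP, smul_zero, zero_add]

theorem rho0_ine (hv : v.p ≠ 2) (k : ¬ (v.p : ℤ) ∣ t.N) (hσ : σ ∈ Ine v) : rho0 t σ = 1 := by
  have r1 : v.V t.ρ = 1 := (pow_eq_one_iff_left four_ne_zero).1 (by
    rw [← map_pow, t.pw, v.V_int_eq_one.2 k])
  have e : zq t.ρ σ = 1 := v.eq_one_of_root (n := 4) (fun e => hv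
    ((Nat.prime_dvd_prime_iff_eq v.prime Nat.prime_two).1 (v.prime.dvd_of_dvd_pow (n := 2) e)))
    (c7_four t σ) (by
      rw [zq, div_sub_one (c7_ne t), map_div₀, r1, div_one]
      exact hσ.2 _ r1.le)
  rw [rho0, psi_ine hv hσ, e, Q4.un_one, map_one, one_mul]

theorem rho0_sigma (r : TP) (k : Odd (padicValInt r.v.p t.N)) :
    rho0 t r.σ = oW ii ∨ rho0 t r.σ = -oW ii := by
  have hp := r.v.prime
  have := Fact.mk hp
  have p0 : (r.v.p : ℤ) ≠ 0 := Int.natCast_ne_zero.2 hp.ne_zero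
  obtain ⟨j, hj⟩ := k
  obtain ⟨d, hd⟩ := (padicValInt_dvd_iff (p := r.v.p) (2 * j + 1) t.N).2 (.inr hj.ge)
  have d0 : d ≠ 0 := fun e => t.ne (by rw [hd, e, mul_zero])
  have h1 : ¬ (r.v.p : ℤ) ∣ 2 * d := fun e => by
    rcases (Nat.prime_iff_prime_int.1 hp).dvd_or_dvd e with e | ⟨c, e⟩
    · exact r.odd ((Nat.prime_dvd_prime_iff_eq hp Nat.prime_two).1 (by exact_mod_cast e))
    · have := ((padicValInt_dvd_iff (p := r.v.p) (2 * j + 2) t.N).1
        ⟨c, by rw [hd, e]; ring⟩).resolve_left t.ne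
      omega
  have h2 : Sm.chi t.N r.σ = 1 := by
    rw [hd, show (r.v.p : ℤ) ^ (2 * j + 1) * d = r.v.p * (d * (r.v.p ^ j * r.v.p ^ j)) by ring,
      Sm.chi_mul p0 (by positivity), Sm.chi_mul d0 (by positivity), Sm.chi_sq,
      show Sm.chi r.v.p r.σ = 1 from B2.xi_eq_one.2 r.tm.gen.2,
      show Sm.chi d r.σ = 0 from B2.xi_eq_zero.2 (B2.chi_ine h1 r.σ_ine), add_zero, add_zero]
  have h3 := Q4.zq_sq t.ne t.pw r.σ
  rw [h2, Sm.sn_one, Int.cast_neg, Int.cast_one] at h3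
  rw [rho0, psi_ine r.odd r.σ_ine, mul_one]
  rcases Q4.ell_root2 h3 with e | e <;> rw [e]
  · exact .inl (by rw [Q4.ell_un.2.1])
  · exact .inr (by rw [Q4.ell_un.2.2, map_neg])

/-- The auxiliary prime. -/
theorem exists_alpha {D : ℤ} (hD : D ≠ 0) : ∃ α : Bool → TP, (α false).π ≠ (α true).π ∧
    (∀ b, nm (α b).π % 8 = 5 ∧ ¬ (α b).π ∣ (D : O)) ∧ chB (io w) (α true).φ = 0 := by
  obtain ⟨p, h1, hp, h2⟩ := Nat.forall_exists_prime_gt_and_modEq D.natAbs (q := 8) (a := 5)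
    (by norm_num) (by norm_num)
  have h3 : p % 8 = 5 := h2
  have := Fact.mk hp
  obtain ⟨z, ρ, χ, q⟩ := QF.exists_qc (p := p) (by omega)
  have key : ∀ z : O, Prim z → z.norm = p → (∃ b, z ∣ w - b ^ 2) → ∃ α : Bool → TP,
      (α false).π ≠ (α true).π ∧ (∀ b, nm (α b).π % 8 = 5 ∧ ¬ (α b).π ∣ (D : O)) ∧
        chB (io w) (α true).φ = 0 := fun z z1 z2 z3 => by
    have z4 : (star z).norm = p := (Zsqrtd.norm_conj z).trans z2
    obtain ⟨r, hr⟩ := exists_tp (QF.f3_prime hp z2) z1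
    obtain ⟨r', hr'⟩ := exists_tp (QF.f3_prime hp z4) (EA.prim_star z1)
    have n : ∀ y c : O, y.norm = p → y ∣ c → (p : ℤ) ∣ c.norm := by
      rintro y _ e ⟨c, rfl⟩
      rw [Zsqrtd.norm_mul, e]
      exact dvd_mul_right _ _
    have n1 : ∀ y : O, y.norm = p → nm y % 8 = 5 ∧ ¬ y ∣ (D : O) := fun y e => by
      refine ⟨by rw [nm, e, Int.natAbs_natCast, h3], fun k => ?_⟩
      have k1 := n _ _ e k
      rw [Zsqrtd.norm_intCast] at k1
      exact (Nat.le_of_dvd (Int.natAbs_pos.2 hD) (Int.natCast_dvd.1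
        (((Nat.prime_iff_prime_int.1 hp).dvd_or_dvd k1).elim id id))).not_gt h1
    refine ⟨fun b => bif b then r else r', fun e => ?_, ?_, (chB_frob r fun k => ?_).2 (hr ▸ z3)⟩
    · have e1 : star z = z := hr' ▸ hr ▸ e
      have e2 := congrArg Zsqrtd.im e1
      rw [Zsqrtd.im_star] at e2
      rw [Zsqrtd.norm_def, show z.im = 0 by omega, mul_zero, sub_zero] at z2
      exact (Nat.prime_iff_prime_int.1 hp).irreducible.not_isSquare ⟨_, z2.symm⟩
    · rintro (_ | _)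
      exacts [n1 _ (hr' ▸ z4), n1 _ (hr ▸ z2)]
    · have k1 := Int.le_of_dvd (by decide) (n _ _ (hr ▸ z2) k)
      rw [show w.norm = 2 by decide] at k1
      omega
  have sq : ∀ c : O, IsSquare (ρ c) → ∃ b : ℤ, z ∣ c - (b : O) ^ 2 := fun c ⟨x, e⟩ => by
    obtain ⟨b, rfl⟩ := ZMod.intCast_surjective x
    exact ⟨b, (q.ker _).1 (by rw [map_sub, map_pow, map_intCast, e, sq, sub_self])⟩
  by_cases a1 : IsSquare (ρ w)
  · exact key z q.prim q.norm ((sq _ a1).elim fun b k => ⟨b, k⟩)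
  by_cases a2 : IsSquare (ρ (star w))
  · exact key (star z) (EA.prim_star q.prim) ((Zsqrtd.norm_conj z).trans q.norm)
      ((sq _ a2).elim fun b k => ⟨b, QF.f3_star (by simpa using k)⟩)
  have p2 : p ≠ 2 := by omega
  have a3 : quadraticChar (ZMod p) (ρ (w * star w)) = 1 := by
    rw [map_mul, map_mul, quadraticChar_neg_one_iff_not_isSquare.2 a1,
      quadraticChar_neg_one_iff_not_isSquare.2 a2, neg_mul_neg, one_mul]
  rw [show w * star w = 2 by decide, map_ofNat, quadraticChar_one_iff_isSquare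
    (by exact_mod_cast (ZMod.natCast_eq_zero_iff 2 p).not.2 fun e =>
      p2 ((Nat.prime_dvd_prime_iff_eq hp Nat.prime_two).1 e)), ZMod.exists_sq_eq_two_iff p2] at a3
  omega

end Pool.Agent.Lib.MP_696deb_nt.EU
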