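import Pool.Agent.Lib.MP_696deb_nt.EU.C4
import Pool.Agent.Lib.MP_696deb_nt.EA.L4

/-! Local points at two. -/

set_option autoImplicit false

open scoped Classical NNReal
open Finset

namespace Pool.Agent.Lib.MP_696deb_nt.EU

variable {v : Plc} {P Q : A}

theorem ind_near (hP : P ∉ Kr v) (hQ : Q ∉ Kr v) (hx : v.V (xco P - xco Q) < v.V 8)
    (hy : v.V (yco P - yco Q) < v.V 8) : P - Q ∈ Kr v := by
  by_contra h
  have n0 : ∀ {S : A}, S ∉ Kr v → S ≠ 0 := fun k e => k (e ▸ zero_mem _)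
  rw [sub_eq_add_neg] at h
  obtain ⟨l, n, h1, h2, -, e1, e2, -⟩ := EA.line (n0 hP) (neg_ne_zero.2 (n0 hQ)) (n0 h)
  rw [xco_neg] at h2 e1 e2
  rw [EA.co_neg] at h2
  have a1 := EA.V_x hP
  have a2 := EA.V_x hQ
  have a3 : v.V l ≤ 1 := (pow_le_one_iff_of_nonneg zero_le two_ne_zero).1 (by
    rw [← map_pow, ← e1]
    exact v.V.map_add_le (v.V.map_add_le a1 a2) (EA.V_x h))
  have m : ∀ {a b : Qbar}, v.V a ≤ 1 → v.V b < v.V 8 → v.V (a * b) < v.V 8 := fun h k => by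
    rw [map_mul]
    exact (mul_le_of_le_one_left' h).trans_lt k
  have i : ∀ a : ℤ, v.V a ≤ 1 := v.V_int_le
  have b1 : v.V (2 * yco P) < v.V 8 := by
    convert v.V.map_add_lt (m a3 hx) hy using 2
    linear_combination h1 - h2
  have b2 : v.V (3 * xco P ^ 2 - 1) < v.V 8 := by
    convert v.V.map_add_lt (m a3 hy) (m (v.V.map_add_le (v.V.map_add_le a1 a1) a2) hx) using 2
    linear_combination (xco P + xco Q) * e1 - e2 - l * (h1 + h2)
  refine lt_irrefl (v.V 8) ?_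
  convert v.V.map_sub_lt (m (a := 4 * (3 * xco P ^ 2 - 2)) ?_ b2)
    (m (a := 9 * xco P * (2 * yco P)) ?_ b1) using 2
  · linear_combination 36 * xco P * EA.co_eq (n0 hP)
  · rw [map_mul]
    refine mul_le_one' (by simpa using i 4) (v.V.map_sub_le ?_ (EA.V_two_le v))
    rw [map_mul, map_pow]
    exact mul_le_one' (by simpa using i 3) (pow_le_one' a1 2)
  · simp only [map_mul]
    exact mul_le_one' (mul_le_one' (by simpa using i 9) a1)
      (mul_le_one' (EA.V_two_le v) (EA.V_y hP))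

theorem ind_q : 0 < w2.V (io w) ∧ w2.V (io w) < 1 ∧ w2.V (io w) ^ 2 = w2.V 2 := by
  have h := V_w2
  refine ⟨B2.b3a_pos _ (EA.io_ne (by decide)), (pow_lt_one_iff_of_nonneg zero_le two_ne_zero).1
    (h ▸ inv_lt_one_of_one_lt₀ one_lt_two), h.trans ?_⟩
  simpa [w2_p] using w2.hV.symm

variable (t : Tw)

theorem ind_rho : t.ρ ≠ 0 ∧ w2.V t.ρ ≤ 1 :=
  ⟨fun e => t.ne (by simpa [e] using t.pw.symm), (pow_le_one_iff_of_nonneg zero_le four_ne_zero).1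
    (by rw [← map_pow, t.pw]; exact w2.V_int_le _)⟩

theorem ind_co (g : Gam) (P : A) : xco (t.tw g P) * t.ρ ^ 2 = g (xco P * t.ρ ^ 2) ∧
    yco (t.tw g P) * t.ρ ^ 3 = g (yco P * t.ρ ^ 3) := by
  obtain ⟨h1, h2⟩ := EA.xco_vm (g : Qbar →+* Qbar) (Q4.zq_four t.ne t.pw g) P
  have := (ind_rho t).1
  refine ⟨(congrArg (· * _) h1).trans ?_, (congrArg (· * _) h2).trans ?_⟩ <;>
  · simp only [zq, map_mul, map_pow, RingHom.coe_coe]
    field_simp

/-- A local point of infinite order. -/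
theorem exists_Q0 : ∃ Q ∈ Kr w2, Q ≠ 0 ∧ (∀ g ∈ Hw, t.tw g Q = Q) ∧
    w2.V (zc Q) ^ 2 < w2.V (io w) := by
  obtain ⟨q0, q1, q2⟩ := ind_q
  obtain ⟨r0, r1⟩ := ind_rho t
  have t0 : 0 < w2.V 2 := q2 ▸ pow_pos q0 2
  have t1 : w2.V 2 < 1 := q2 ▸ pow_lt_one' q1 two_ne_zero
  obtain ⟨s, s1, s2, -⟩ := B2.exists_sqrt (D := Hw) (w := w2) inf_le_right (a := 1 - 16 * t.N)
    (fun g _ => by simp [map_ofNat]) (by
      rw [sub_sub_cancel_left, w2.V.map_neg, show (16 * t.N : Qbar) = 4 * (2 * (2 * t.N)) by ring,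
        map_mul, map_mul, map_mul]
      exact mul_lt_of_lt_one_right (B2.b3a_pos _ (by norm_num)) (mul_lt_one_of_lt_of_le t1
        (mul_le_one' t1.le (w2.V_int_le _))))
  have k : Q4.NS (4 * t.ρ ^ 2)⁻¹ (s / (8 * t.ρ ^ 3)) := Q4.ns_iff.2 (by
    rw [div_pow, s2, ← t.pw]
    field_simp
    ring)
  have a1 : w2.V (4 * t.ρ ^ 2) ≤ w2.V 2 ^ 2 := by
    rw [map_mul, show (4 : Qbar) = 2 ^ 2 by norm_num, map_pow, map_pow]
    exact mul_le_of_le_one_right' (pow_le_one' r1 2)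
  have a0 := B2.b3a_pos w2 (x := 4 * t.ρ ^ 2) (mul_ne_zero (by norm_num) (pow_ne_zero 2 r0))
  have a2 : 1 < w2.V (4 * t.ρ ^ 2)⁻¹ := by
    rw [map_inv₀]
    exact (one_lt_inv₀ a0).2 (a1.trans_lt (pow_lt_one' t1 two_ne_zero))
  refine ⟨.some _ _ k, EA.mem_Kr.2 (.inr a2), WeierstrassCurve.Affine.Point.some_ne_zero _,
    fun g hg => ?_, ?_⟩
  · obtain ⟨h1, e⟩ := Q4.vm_some (f := (g : Qbar →+* Qbar)) (Q4.zq_four t.ne t.pw g) k
    have := (map_ne_zero g).2 r0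
    refine e.trans (Q4.pt_ext ?_ ?_) <;>
    · simp only [zq, map_mul, map_pow, map_inv₀, map_div₀, map_ofNat, RingHom.coe_coe, s1 g hg]
      field_simp
  · have h := EA.V_zc (P := .some _ _ k) a2
    rw [xco_some, map_inv₀, mul_inv_eq_one₀ a0.ne'] at h
    rw [h]
    refine a1.trans_lt ?_
    rw [← q2, ← pow_mul]
    exact pow_lt_self_of_lt_one₀ q0 q1 (by norm_num)

/-- The formal group has finite index in the group of local points. -/
theorem exists_idx : ∃ N : ℕ, 0 < N ∧ ∀ R : A, (∀ g ∈ Hw, t.tw g R = R) → (N : O) • R ∈ Kr w2 := by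
  obtain ⟨q0, q1, -⟩ := ind_q
  obtain ⟨r0, r1⟩ := ind_rho t
  have r2 := B2.b3a_pos w2 r0
  obtain ⟨n, hn⟩ := (B2.b3a_small 1 q1
    (mul_pos (B2.b3a_pos w2 (x := 8) (by norm_num)) (pow_pos r2 3))).exists
  rw [one_mul] at hn
  obtain ⟨S, hS, -⟩ := EA.exists_rep (n := w ^ n) (pow_ne_zero _ (by decide))
  have ap : ∀ x : Qbar, ∃ a, Fx Hw x → w2.V x ≤ 1 → a ∈ S ∧ w2.V (x - io a) ≤ w2.V (io w) ^ n :=
    fun x => by
      by_cases h : Fx Hw x ∧ w2.V x ≤ 1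
      · obtain ⟨a, ha⟩ := approx_w2 h.1 h.2 n
        obtain ⟨r, hr, k⟩ := hS.ex a
        refine ⟨r, fun _ _ => ⟨hr, ?_⟩⟩
        convert w2.V.map_add_le ha (V_w2_dvd.2 k) using 2
        rw [map_sub, sub_add_sub_cancel]
      · exact ⟨0, fun h1 h2 => absurd ⟨h1, h2⟩ h⟩
  choose f hf using ap
  refine ⟨((S ×ˢ S).card + 1).factorial, Nat.factorial_pos _, fun R hR => by_contra fun h => ?_⟩
  have k : ∀ j : ℕ, 0 < j → j ≤ (S ×ˢ S).card + 1 → (j : O) • R ∉ Kr w2 := fun j j0 j1 e => h (by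
    obtain ⟨c, hc⟩ := Nat.dvd_factorial j0 j1
    rw [hc, mul_comm, Nat.cast_mul, mul_smul]
    exact (Kr w2).smul_mem _ e)
  have fx : ∀ j ∈ Icc 1 ((S ×ˢ S).card + 1),
      (Fx Hw (xco ((j : O) • R) * t.ρ ^ 2) ∧ w2.V (xco ((j : O) • R) * t.ρ ^ 2) ≤ 1) ∧
        Fx Hw (yco ((j : O) • R) * t.ρ ^ 3) ∧ w2.V (yco ((j : O) • R) * t.ρ ^ 3) ≤ 1 := fun j hj => by
    have h1 := k j (mem_Icc.1 hj).1 (mem_Icc.1 hj).2
    refine ⟨⟨fun g hg => ?_, ?_⟩, fun g hg => ?_, ?_⟩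
    · rw [← (ind_co t g _).1, tw_smul t hg.1, hR g hg]
    · rw [map_mul, map_pow]
      exact mul_le_one' (EA.V_x h1) (pow_le_one' r1 _)
    · rw [← (ind_co t g _).2, tw_smul t hg.1, hR g hg]
    · rw [map_mul, map_pow]
      exact mul_le_one' (EA.V_y h1) (pow_le_one' r1 _)
  have cl : ∀ {x y : Qbar} {e : ℕ}, e ≤ 3 → Fx Hw (x * t.ρ ^ e) ∧ w2.V (x * t.ρ ^ e) ≤ 1 →
      Fx Hw (y * t.ρ ^ e) ∧ w2.V (y * t.ρ ^ e) ≤ 1 → f (x * t.ρ ^ e) = f (y * t.ρ ^ e) →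
      w2.V (x - y) < w2.V 8 := fun {x y e} he hx hy h => by
    have := w2.V.map_sub_le (hf _ hx.1 hx.2).2 (hf _ hy.1 hy.2).2
    rw [h, sub_sub_sub_cancel_right, ← sub_mul, map_mul, map_pow] at this
    exact lt_of_mul_lt_mul_right ((this.trans_lt hn).trans_le
      (mul_le_mul_right (pow_le_pow_of_le_one zero_le r1 he) _)) zero_le
  have key : ∀ i ∈ Icc 1 ((S ×ˢ S).card + 1), ∀ j ∈ Icc 1 ((S ×ˢ S).card + 1), i < j →
      (f (xco ((j : O) • R) * t.ρ ^ 2), f (yco ((j : O) • R) * t.ρ ^ 3)) ≠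
        (f (xco ((i : O) • R) * t.ρ ^ 2), f (yco ((i : O) • R) * t.ρ ^ 3)) := fun i hi j hj h e => by
    have := ind_near (k j (mem_Icc.1 hj).1 (mem_Icc.1 hj).2) (k i (mem_Icc.1 hi).1 (mem_Icc.1 hi).2)
      (cl (by norm_num) (fx j hj).1 (fx i hi).1 (congrArg Prod.fst e))
      (cl le_rfl (fx j hj).2 (fx i hi).2 (congrArg Prod.snd e))
    rw [← sub_smul, ← Nat.cast_sub h.le] at this
    exact k _ (Nat.sub_pos_of_lt h) ((Nat.sub_le _ _).trans (mem_Icc.1 hj).2) this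
  obtain ⟨i, hi, j, hj, h1, h2⟩ := exists_ne_map_eq_of_card_lt_of_maps_to
    (s := Icc 1 ((S ×ˢ S).card + 1)) (t := S ×ˢ S) (by simp)
    (f := fun j => (f (xco ((j : O) • R) * t.ρ ^ 2), f (yco ((j : O) • R) * t.ρ ^ 3))) fun j hj =>
      mem_product.2 ⟨(hf _ (fx j hj).1.1 (fx j hj).1.2).1, (hf _ (fx j hj).2.1 (fx j hj).2.2).1⟩
  rcases h1.lt_or_gt with h | h
  · exact key i hi j hj h h2.symm
  · exact key j hj i hi h h2

theorem ind_small (h : P ∈ Kr w2) (k : ∀ g ∈ Hw, t.tw g P = P) (j : ℕ) :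
    w2.V (zc ((2 : O) ^ (j + 2) • P)) ≤ w2.V 2 ^ j := by
  obtain ⟨q0, q1, q2⟩ := ind_q
  have r0 := (ind_rho t).1
  have i2 : io 2 = 2 := map_ofNat io 2
  have a1 : w2.V (zc P) ^ 4 ≤ w2.V (io w) ^ 1 := by
    by_cases z0 : zc P = 0
    · simp [z0]
    obtain ⟨n, hn⟩ := V_fx_w2 (x := zc P ^ 4) (fun g hg => by
      have := congrArg (· ^ 4) (zc_tw t g P)
      simp only [k g hg, map_mul, mul_pow, map_inv₀, inv_pow, ← map_pow, t.pw, map_intCast] at this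
      exact (mul_right_cancel₀ (inv_ne_zero (Int.cast_ne_zero.2 t.ne)) this).symm)
      (pow_ne_zero 4 z0)
    have h1 := pow_lt_one' (EA.V_zc_lt h) four_ne_zero
    rw [← map_pow, hn] at h1 ⊢
    rw [← zpow_natCast]
    exact zpow_le_zpow_right_of_le_one₀ q0 q1.le ((zpow_lt_one_iff_right_of_lt_one₀ q0 q1).1 h1)
  have st : ∀ {P : A} {n : ℕ}, P ∈ Kr w2 → n ≤ 4 → w2.V (zc P) ^ 4 ≤ w2.V (io w) ^ n →
      w2.V (zc ((2 : O) • P)) ^ 4 ≤ w2.V (io w) ^ (3 * n) := fun {P n} h hn k => by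
    have := w2.V.map_add (zc ((2 : O) • P) - io 2 * zc P) (io 2 * zc P)
    rw [sub_add_cancel, le_max_iff] at this
    rcases this with e | e
    · refine (pow_le_pow_left' (e.trans (EA.zc_smul h 2).2) 4).trans ?_
      rw [← pow_mul, mul_comm, pow_mul, mul_comm, pow_mul]
      exact pow_le_pow_left' k 3
    · refine (pow_le_pow_left' e 4).trans ?_
      rw [map_mul, i2, ← q2, mul_pow, ← pow_mul]
      refine (mul_le_mul_right k _).trans ?_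
      rw [← pow_add]
      exact pow_le_pow_of_le_one zero_le q1.le (by omega)
  have h1 := (Kr w2).smul_mem 2 h
  have a2 : w2.V (zc ((2 : O) • (2 : O) • P)) ^ 2 ≤ w2.V 2 := by
    refine le_of_pow_le_pow_left₀ two_ne_zero zero_le ?_
    rw [← pow_mul, ← q2, ← pow_mul]
    exact (st h1 (by norm_num) (st h (by norm_num) a1)).trans
      (pow_le_pow_of_le_one zero_le q1.le (by norm_num))
  have h2 := (Kr w2).smul_mem 2 h1
  rw [pow_add, mul_smul, sq, mul_smul]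
  generalize (2 : O) • (2 : O) • P = Q at a2 h2
  induction j with
  | zero => simpa using (EA.V_zc_lt h2).le
  | succ j ih =>
    rw [pow_succ', mul_smul, pow_succ']
    refine (EA.V_zc_smul_le ((Kr w2).smul_mem _ h2) ?_).trans (by rw [i2]; exact mul_le_mul_right ih _)
    exact (pow_le_pow_left' (EA.zc_smul h2 _).1 2).trans (by rwa [i2])

/-- The local point is not divisible. -/
theorem ind_dvd (h : Q ∈ Kr w2) (h0 : Q ≠ 0) (hz : w2.V (zc Q) ^ 2 < w2.V (io w)) :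
    ∃ c : ℕ, ∀ (j : ℕ) (d : O) (R : A), (∀ g ∈ Hw, t.tw g R = R) →
      d • Q = (2 : O) ^ (j + c) • R → 2 ^ j ∣ d := by
  obtain ⟨q0, q1, q2⟩ := ind_q
  obtain ⟨N, N0, hN⟩ := exists_idx t
  have p0 : 0 < w2.V (io N) * w2.V (zc Q) := mul_pos
    (B2.b3a_pos _ (EA.io_ne (Nat.cast_ne_zero.2 N0.ne'))) (B2.b3a_pos _ (mt (EA.zc_eq_zero h) h0))
  obtain ⟨c, hc⟩ := (B2.b3a_small 1 (q2 ▸ pow_lt_one' q1 two_ne_zero : w2.V 2 < 1) p0).exists
  refine ⟨c + 2, fun j d R hR e => ?_⟩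
  have k := ind_small t (hN R hR) (fun g hg => by rw [tw_smul t hg.1, hR g hg]) (j + c)
  rw [smul_comm, add_assoc, ← e, smul_smul, zc_exact h hz, map_mul, map_mul, pow_add,
    mul_right_comm, mul_comm] at k
  have k2 := le_of_mul_le_mul_right (k.trans (mul_le_mul_right (one_mul (w2.V 2 ^ c) ▸ hc.le) _)) p0
  rw [← q2, ← pow_mul, V_w2_dvd, pow_mul] at k2
  exact (pow_dvd_pow_of_dvd ⟨ii, by decide⟩ j).trans k2

end Pool.Agent.Lib.MP_696deb_nt.EU
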