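import Pool.Agent.Lib.MP_696deb_nt.EU.T1
import Pool.Agent.Lib.MP_696deb_nt.EU.Ind
import Pool.Agent.Lib.MP_696deb_nt.QA.TopE
import Pool.Agent.Lib.MP_696deb_nt.QA.Fin4

/-! The data exist. -/

set_option autoImplicit false

open scoped Classical NNReal
open Finset PowerSeries

namespace Pool.Agent.Lib.MP_696deb_nt.EU

theorem rho0_sigma' (t : Tw) (r : TP) (h : ¬ 4 ∣ padicValInt r.v.p t.N) :
    rho0 t r.σ = oW ii ∨ rho0 t r.σ = -oW ii ∨ rho0 t r.σ = -1 := by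
  rcases Nat.even_or_odd (padicValInt r.v.p t.N) with k | k
  swap
  · exact (rho0_sigma t r k).imp_right .inl
  have hp := Fact.mk r.v.prime
  obtain ⟨j, hj⟩ : ∃ j, padicValInt r.v.p t.N = 4 * j + 2 :=
    ⟨padicValInt r.v.p t.N / 4, by have := Nat.even_iff.1 k; omega⟩
  obtain ⟨d, hd⟩ := (padicValInt_dvd_iff (p := r.v.p) (4 * j + 2) t.N).2 (.inr hj.ge)
  have d0 : d ≠ 0 := fun e => t.ne (by rw [hd, e, mul_zero])
  have h1 : ¬ (r.v.p : ℤ) ∣ d := fun ⟨c, e⟩ => by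
    have := ((padicValInt_dvd_iff (p := r.v.p) (4 * j + 3) t.N).1
      ⟨c, by rw [hd, e]; ring⟩).resolve_left t.ne
    omega
  have p0 : (r.v.p : Qbar) ≠ 0 := Nat.cast_ne_zero.2 r.v.prime.ne_zero
  obtain ⟨s, s2⟩ : ∃ s : Qbar, s ^ 2 = ((r.v.p : ℤ) : Qbar) := ⟨_, B2.rt_sq _⟩
  have s1 : r.σ s = -s := by rw [B2.chi_spec s2, r.tm.gen.2]; simp
  rw [Int.cast_natCast] at s2
  have s0 : s ≠ 0 := fun e => p0 (by rw [← s2, e, zero_pow two_ne_zero])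
  let t' : Tw := ⟨t.ρ / (r.v.p ^ j * s), d, d0, by
    rw [div_pow, t.pw, hd, mul_pow, show s ^ 4 = (s ^ 2) ^ 2 by ring, s2,
      div_eq_iff (mul_ne_zero (pow_ne_zero _ (pow_ne_zero _ p0)) (pow_ne_zero _ p0))]
    push_cast
    ring⟩
  have e : zq t.ρ r.σ = -1 * zq t'.ρ r.σ := by
    have := c7_ne t
    simp only [t', zq, map_div₀, map_mul, map_pow, map_natCast, s1]
    field_simp
  refine .inr (.inr ?_)
  rw [rho0, e, Q4.un_mul (by norm_num) (c7_four t' _), Q4.ell_un.1, map_mul, mul_assoc, ← rho0,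
    rho0_ine t' r.odd h1 r.σ_ine, mul_one, map_neg, map_one]

theorem c8_dvd (r : TP) {n : ℤ} (h : r.π ∣ (n : O)) : (r.v.p : ℤ) ∣ n :=
  by_contra fun k => (r.V_lt.2 h).ne (by rw [map_intCast]; exact r.v.V_int_eq_one.2 k)

theorem c8_fin {a : O} (h : a ≠ 0) : {π : O | Prime π ∧ Prim π ∧ π ∣ a}.Finite :=
  ((range (nm a + 1)).biUnion QF.reps).finite_toSet.subset fun π ⟨_, _, c, e⟩ =>
    mem_coe.2 (mem_biUnion.2 ⟨nm π, mem_range.2 (Nat.lt_succ_of_le (Nat.le_of_dvd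
      (Int.natAbs_pos.2 (GaussianInt.norm_pos.2 h).ne') ⟨nm c, by rw [e, g1_nm_mul]⟩)),
      QF.mem_reps.2 (Int.natAbs_of_nonneg (GaussianInt.norm_nonneg π)).symm⟩)

theorem exists_cb {D : ℤ} (hD : QA.Fam D) {q : ℕ} (hq : q.Prime) (h2 : q ≠ 2)
    (hv : Odd (padicValInt q D)) {φ : O → O} (hφ : Phi D φ) :
    ∃ c : Cb, c.t.N = D ∧ c.φ = φ := by
  let t : Tw := ⟨Q4.q4 D, D, hD.ne, Q4.q4_pow D⟩
  choose tp htp using fun i : {π : O | Prime π ∧ Prim π ∧ π ∣ (D : O)} => exists_tp i.2.1 i.2.2.1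
  have dv : ∀ i, (tp i).π ∣ (D : O) := fun i => htp i ▸ i.2.2.2
  obtain ⟨α, a1, a2, a3⟩ := exists_alpha hD.ne
  obtain ⟨Q, q1, q2, q3, q4⟩ := exists_Q0 t
  obtain ⟨v, rfl⟩ := B2.exists_plc hq
  obtain ⟨π, p1, p2, p3⟩ := g1_pi h2
  have p4 : π ∣ ((v.p : ℤ) : O) := (g1_lt p1 p3).1 (g1_p v)
  have hp := Fact.mk hq
  have p5 : π ∣ (D : O) := p4.trans (map_dvd (Int.castRingHom O)
    (pow_one (v.p : ℤ) ▸ (padicValInt_dvd_iff 1 D).2 (.inr hv.pos)))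
  have p6 : (tp ⟨π, p1, p2, p5⟩).v.p = v.p := (Nat.prime_dvd_prime_iff_eq (B2.Plc.prime _) hq).1
    (Int.natCast_dvd_natCast.1 (c8_dvd _ (by rw [htp]; exact p4)))
  refine ⟨⟨t, φ, hφ, _, (c8_fin (Int.cast_ne_zero.2 hD.ne)).fintype, tp,
    fun i j e => Subtype.ext (by rwa [htp, htp] at e), dv, fun p k1 k2 => ?_,
    fun i => rho0_sigma' t _ fun k => ?_, ⟨π, p1, p2, p5⟩, rho0_sigma t _ (p6 ▸ hv), α, a1,
    fun b => (a2 b).1, fun b => (a2 b).2, a3, Q, q1, q2, q3, q4⟩, rfl, rfl⟩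
  · by_cases k : w ∣ p
    · exact .inl (g1_w.associated_of_dvd k1 k).symm.dvd
    obtain ⟨n, hn⟩ := exists_prim (C4_red k)
    have u : Associated (ii ^ n * p) p := associated_unit_mul_left _ _
      ((IsUnit.of_mul_eq_one (-ii) (by decide)).pow n)
    exact .inr ⟨⟨_, u.symm.prime k1, hn, u.dvd.trans k2⟩, by rw [htp]; exact u.symm.dvd⟩
  · have := hD.val (tp i).v.prime (c8_dvd _ (dv i))
    change 4 ∣ padicValInt _ D at k
    omega

theorem c8_zero {D : ℤ} {φ : O → O} (h : Gch (2 * D) φ) {e : ℕ} {a : O}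
    (k : ¬ IsCoprime a ((D.natAbs * 2 ^ e : ℕ) : O)) : φ a = 0 := by
  have k1 : ¬ (nm a).Coprime (D.natAbs * 2 ^ e) := fun l => k (by
    have := Nat.Coprime.cast (R := O) l
    rw [nm, ← Int.cast_natCast, Int.natAbs_of_nonneg (GaussianInt.norm_nonneg a),
      Zsqrtd.norm_eq_mul_conj] at this
    exact this.of_mul_left_left)
  obtain ⟨p, hp, h1, h2⟩ := Nat.Prime.not_coprime_iff_dvd.1 k1
  refine h.zero p hp ?_ a (Int.natCast_dvd.2 h1)
  rcases (Nat.Prime.dvd_mul hp).1 h2 with l | l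
  · exact (Int.natCast_dvd.2 l).mul_left 2
  · exact (Int.natCast_dvd_natCast.2 (hp.dvd_of_dvd_pow l)).mul_right D

theorem Cb.van (c : Cb) (h : ∀ m : ℕ, 0 < m → 8 * c.t.N.natAbs ∣ m → ∀ (b d : O) (R : Finset O),
    IsCoprime b m → IsCoprime d m → EA.IsRep m R →
      ∑ a ∈ R with Prim a, io (star (c.φ a)) * dl b (a • tq d m) = 0) : c.Van := by
  intro e b
  have m0 := c.m0_ne e
  obtain ⟨R, hR, -⟩ := EA.exists_rep m0
  obtain ⟨d1, d2, -⟩ := c.dvd_m0 e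
  have k := h _ (Nat.pos_of_ne_zero (Nat.cast_ne_zero.1 m0))
    ⟨2 ^ e, by ring⟩ (c.α b).π 1 R ((c.α b).prime.irreducible.coprime_iff_not_dvd.2
      (c.nd_m0 e _ (c.α_nd b))) isCoprime_one_left hR
  refine (sum_congr rfl fun P hP => by rw [co_spec m0 (Im_kill m0 hP)]).trans ((sum_Im m0 d1 hR
    (fun a => io (star (c.φ a)) * dl (c.α b).π (tq a (c.m0 e))) fun a a' l => by
      rw [c.phi.per' d2 l, (tq_eq_iff m0).2 l]).trans (Eq.trans ?_ k))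
  rw [← filter_filter, sum_filter]
  refine sum_congr rfl fun a _ => ?_
  split_ifs with l
  · rw [EA.tq_eq a m0]
    rfl
  · rw [c8_zero c.phi.gch l, star_zero, map_zero, zero_mul]

end Pool.Agent.Lib.MP_696deb_nt.EU
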