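import Pool.Agent.Lib.MP_696deb_nt.EU.Lc

/-! Determinants of a presentation. -/

set_option autoImplicit false

open scoped Classical NNReal
open Finset Matrix

namespace Pool.Agent.Lib.MP_696deb_nt.EU

variable {S : Type} [CommRing S] {ι : Type} [Fintype ι]

/-- The determinant of a matrix of relations that is completed by two linear forms. -/
noncomputable def Dt (B : Matrix ι (ι ⊕ Fin 2) S) (l l' : ι ⊕ Fin 2 → S) : S :=
  (Matrix.of (Sum.elim B ![l, l']) : Matrix (ι ⊕ Fin 2) (ι ⊕ Fin 2) S).det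

/-- The exterior product of two vectors at two linear forms. -/
noncomputable def wd {κ : Type} [Fintype κ] (a c l l' : κ → S) : S :=
  (l ⬝ᵥ a) * (l' ⬝ᵥ c) - (l' ⬝ᵥ a) * (l ⬝ᵥ c)

/-- The exterior product is `p / q` times the determinant. -/
def Rat (B : Matrix ι (ι ⊕ Fin 2) S) (a c : ι ⊕ Fin 2 → S) (p q : S) : Prop :=
  ∀ l l', q * wd a c l l' = p * Dt B l l'

/-- The old indices among the new ones. -/
def old : ι ⊕ Fin 2 → Option ι ⊕ Fin 2 := Sum.map some id

/-- At least `m` independent vectors modulo `I`. -/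
def Indep {κ : Type} (I : Ideal S) {m : ℕ} (x : Fin m → κ → S) : Prop :=
  ∀ t : Fin m → S, (∀ j, ∑ i, t i * x i j ∈ I) → ∀ i, t i ∈ I

theorem det_def [DecidableEq (ι ⊕ Fin 2)] (B : Matrix ι (ι ⊕ Fin 2) S) (l l' : ι ⊕ Fin 2 → S) :
    Dt B l l' = (Matrix.of (Sum.elim B ![l, l']) : Matrix (ι ⊕ Fin 2) (ι ⊕ Fin 2) S).det := by
  unfold Dt
  congr

theorem det_key {B : Matrix ι (ι ⊕ Fin 2) S} {D : S} (A : ι ⊕ Fin 2 → ι → S)
    (hA : ∀ i i', (B i ⬝ᵥ fun r => A r i') = if i = i' then D else 0) {a c : ι ⊕ Fin 2 → S}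
    (ha : B *ᵥ a = 0) (hc : B *ᵥ c = 0) :
    ∃ δ : S, ∀ m m', Dt B m m' * δ = D ^ Fintype.card ι * wd a c m m' := by
  let P : Matrix (ι ⊕ Fin 2) (ι ⊕ Fin 2) S := Matrix.of fun r => Sum.elim (A r) ![a r, c r]
  refine ⟨P.det, fun m m' => ?_⟩
  have h1 : (Matrix.of (Sum.elim B ![m, m']) : Matrix (ι ⊕ Fin 2) (ι ⊕ Fin 2) S) * P =
      Matrix.fromBlocks (D • (1 : Matrix ι ι S)) 0
        (Matrix.of fun k i => ![m, m'] k ⬝ᵥ fun r => A r i)
        !![m ⬝ᵥ a, m ⬝ᵥ c; m' ⬝ᵥ a, m' ⬝ᵥ c] := by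
    ext r s
    rw [Matrix.mul_apply']
    rcases r with i | k <;> rcases s with i' | k'
    · refine (hA i i').trans ?_
      simp [Matrix.one_apply]
    · fin_cases k'
      · exact congrFun ha i
      · exact congrFun hc i
    · rfl
    · fin_cases k <;> fin_cases k' <;> rfl
  rw [Dt, ← Matrix.det_mul, h1, Matrix.det_fromBlocks_zero₁₂, Matrix.det_smul, Matrix.det_one,
    Matrix.det_fin_two_of, wd]
  ring

theorem rat_of [IsDomain S] {B : Matrix ι (ι ⊕ Fin 2) S} {a c l l' : ι ⊕ Fin 2 → S} {p q : S}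
    (ha : B *ᵥ a = 0) (hc : B *ᵥ c = 0) (h0 : Dt B l l' ≠ 0)
    (h : q * wd a c l l' = p * Dt B l l') : Rat B a c p q := by
  intro m m'
  have hN := Matrix.mul_adjugate
    (Matrix.of (Sum.elim B ![l, l']) : Matrix (ι ⊕ Fin 2) (ι ⊕ Fin 2) S)
  obtain ⟨δ, hδ⟩ := det_key (B := B) (D := Dt B l l') (fun r i => (Matrix.of (Sum.elim B ![l, l']) :
    Matrix (ι ⊕ Fin 2) (ι ⊕ Fin 2) S).adjugate r (.inl i)) (by
      intro i i'
      refine (congrFun (congrFun hN (.inl i)) (.inl i')).trans ?_
      simp [Matrix.one_apply, Dt]) ha hc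
  have h1 := hδ l l'
  have h2 := hδ m m'
  refine mul_left_cancel₀ (mul_ne_zero h0 (pow_ne_zero (Fintype.card ι) h0)) ?_
  linear_combination (-q * Dt B l l') * h2 + q * Dt B m m' * h1 +
    Dt B m m' * Dt B l l' ^ Fintype.card ι * h

theorem dt_step (B : Matrix ι (ι ⊕ Fin 2) S) (B' : Matrix (Option ι) (Option ι ⊕ Fin 2) S)
    (h : ∀ i j, B' (some i) (old j) = B i j) (j : ι ⊕ Fin 2) : ∃ ε : S, IsUnit ε ∧
    Dt B' (Pi.single (.inl none) 1) (Pi.single (old j) 1) =
      ε * Dt B (fun j => B' none (old j)) (Pi.single j 1) := by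
  refine ⟨-1, isUnit_one.neg, ?_⟩
  let e : (ι ⊕ Fin 2) ⊕ Unit ≃ Option ι ⊕ Fin 2 :=
    { toFun := Sum.elim old fun _ => .inl none
      invFun := Sum.elim (fun o => o.elim (.inr ()) fun i => .inl (.inl i)) fun k => .inl (.inr k)
      left_inv := by rintro ((i | k) | u) <;> rfl
      right_inv := by rintro ((_ | i) | k) <;> rfl }
  let N' : Matrix (Option ι ⊕ Fin 2) (Option ι ⊕ Fin 2) S :=
    Matrix.of (Sum.elim B' ![Pi.single (.inl none) 1, Pi.single (old j) 1])
  have h1 := Matrix.det_permute (Equiv.swap (Sum.inl none : Option ι ⊕ Fin 2) (.inr 0)) N'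
  rw [Equiv.Perm.sign_swap (by simp), ← Matrix.det_submatrix_equiv_self e] at h1
  have hold : Function.Injective (old : ι ⊕ Fin 2 → Option ι ⊕ Fin 2) :=
    Sum.map_injective.2 ⟨Option.some_injective _, Function.injective_id⟩
  have hne : ∀ s : ι ⊕ Fin 2, old s ≠ .inl none := by rintro (i | k) <;> simp [old]
  have h2 : (N'.submatrix (Equiv.swap (Sum.inl none : Option ι ⊕ Fin 2) (.inr 0)) id).submatrix
      e e = Matrix.fromBlocks (Matrix.of (Sum.elim B ![fun j => B' none (old j), Pi.single j 1]))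
        (Matrix.of fun r _ => N' (Equiv.swap (Sum.inl none : Option ι ⊕ Fin 2) (.inr 0) (old r))
          (.inl none)) 0 1 := by
    ext r s
    rcases r with r | u <;> rcases s with s | u'
    · rcases r with i | k
      · have : Equiv.swap (Sum.inl none : Option ι ⊕ Fin 2) (.inr 0) (.inl (some i)) =
            .inl (some i) := Equiv.swap_apply_of_ne_of_ne (by simp) (by simp)
        change N' (Equiv.swap (Sum.inl none : Option ι ⊕ Fin 2) (.inr 0) (.inl (some i))) (old s) =
          B i s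
        rw [this]
        exact h i s
      · fin_cases k
        · change N' (Equiv.swap (Sum.inl none : Option ι ⊕ Fin 2) (.inr 0) (.inr 0)) (old s) =
            B' none (old s)
          rw [Equiv.swap_apply_right]
          rfl
        · have : Equiv.swap (Sum.inl none : Option ι ⊕ Fin 2) (.inr 0) (.inr 1) = .inr 1 :=
            Equiv.swap_apply_of_ne_of_ne (by simp) (by simp)
          change N' (Equiv.swap (Sum.inl none : Option ι ⊕ Fin 2) (.inr 0) (.inr 1)) (old s) =
            (Pi.single j 1 : ι ⊕ Fin 2 → S) s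
          rw [this]
          change (Pi.single (old j) 1 : Option ι ⊕ Fin 2 → S) (old s) = _
          simp only [Pi.single_apply, hold.eq_iff]
    · rfl
    · change N' (Equiv.swap (Sum.inl none : Option ι ⊕ Fin 2) (.inr 0) (.inl none)) (old s) = 0
      rw [Equiv.swap_apply_left]
      exact Pi.single_eq_of_ne (hne s) _
    · change N' (Equiv.swap (Sum.inl none : Option ι ⊕ Fin 2) (.inr 0) (.inl none)) (.inl none) = 1
      rw [Equiv.swap_apply_left]
      change (Pi.single (.inl none) 1 : Option ι ⊕ Fin 2 → S) (.inl none) = 1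
      simp
  rw [h2, Matrix.det_fromBlocks_zero₂₁, Matrix.det_one] at h1
  have h3 : Dt B' (Pi.single (.inl none) 1) (Pi.single (old j) 1) = N'.det := det_def _ _ _
  rw [h3, Dt]
  push_cast at h1
  linear_combination h1

theorem rat_step [IsDomain S] {B : Matrix ι (ι ⊕ Fin 2) S}
    {B' : Matrix (Option ι) (Option ι ⊕ Fin 2) S} {a c : ι ⊕ Fin 2 → S}
    {a' c' : Option ι ⊕ Fin 2 → S} {p q : S} (h : ∀ i j, B' (some i) (old j) = B i j)
    (ha : B' *ᵥ a' = 0) (hc : B' *ᵥ c' = 0) (a0 : a ≠ 0) (a1 : ∀ j, a' (old j) = a j)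
    (a2 : a' (.inl none) = 0) (c1 : c' (.inl none) = -((fun j => B' none (old j)) ⬝ᵥ c))
    (c0 : c' (.inl none) ≠ 0) (hq : q ≠ 0) (hr : Rat B a c p q) :
    (∃ l l', Dt B' l l' ≠ 0) ∧ ∃ ε : S, IsUnit ε ∧ Rat B' a' c' (ε * p) q := by
  obtain ⟨j, hj⟩ := Function.ne_iff.1 a0
  obtain ⟨ε, hε, he⟩ := dt_step B B' h j
  obtain ⟨u, rfl⟩ := hε
  have hra : (fun j => B' none (old j)) ⬝ᵥ a = 0 := by
    have := congrFun ha none
    simp only [Matrix.mulVec, dotProduct, Fintype.sum_sum_type, Fintype.sum_option, a2, mul_zero,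
      zero_add, Pi.zero_apply] at this
    simp only [dotProduct, Fintype.sum_sum_type, ← a1]
    exact this
  have h1 := hr (fun j => B' none (old j)) (Pi.single j 1)
  simp only [wd, hra, zero_mul, single_one_dotProduct, zero_sub] at h1
  have h2 : p * Dt B (fun j => B' none (old j)) (Pi.single j 1) ≠ 0 := by
    rw [← h1, ← mul_neg, ← c1]
    exact mul_ne_zero hq (mul_ne_zero hj c0)
  have h3 : Dt B' (Pi.single (.inl none) 1) (Pi.single (old j) 1) ≠ 0 := by
    rw [he]
    exact mul_ne_zero u.ne_zero (right_ne_zero_of_mul h2)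
  refine ⟨⟨_, _, h3⟩, -((u⁻¹ : Sˣ) : S), (u⁻¹).isUnit.neg, rat_of ha hc h3 ?_⟩
  simp only [wd, single_one_dotProduct, a1, a2, c1, he]
  linear_combination -h1 + p * Dt B (fun j => B' none (old j)) (Pi.single j 1) * u.inv_mul

/-- The map to the fraction field of the quotient. -/
noncomputable def det_phi (I : Ideal S) : S →+* FractionRing (S ⧸ I) :=
  (algebraMap (S ⧸ I) (FractionRing (S ⧸ I))).comp (Ideal.Quotient.mk I)

theorem det_phi_eq (I : Ideal S) (s : S) : det_phi I s = 0 ↔ s ∈ I := by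
  rw [det_phi, RingHom.comp_apply, map_eq_zero_iff _ (IsFractionRing.injective _ _),
    Ideal.Quotient.eq_zero_iff_mem]

theorem det_clear (I : Ideal S) [I.IsPrime] {α : Type} [Finite α]
    (t : α → FractionRing (S ⧸ I)) :
    ∃ d, det_phi I d ≠ 0 ∧ ∃ s : α → S, ∀ i, det_phi I (s i) = det_phi I d * t i := by
  obtain ⟨b, hb⟩ := IsLocalization.exist_integer_multiples_of_finite (nonZeroDivisors (S ⧸ I)) t
  choose s hs using hb
  obtain ⟨d, hd⟩ := Ideal.Quotient.mk_surjective b.1
  choose s' hs' using fun i => Ideal.Quotient.mk_surjective (s i)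
  refine ⟨d, ?_, s', fun i => ?_⟩
  · rw [det_phi, RingHom.comp_apply, hd]
    exact fun h => nonZeroDivisors.ne_zero b.2
      ((map_eq_zero_iff _ (IsFractionRing.injective _ _)).1 h)
  · simp only [det_phi, RingHom.comp_apply, hd, hs', hs, Algebra.smul_def]

theorem det_indep (I : Ideal S) [I.IsPrime] {κ : Type} {m : ℕ} {x : Fin m → κ → S} :
    Indep I x ↔ LinearIndependent (FractionRing (S ⧸ I)) fun i j => det_phi I (x i j) := by
  rw [Fintype.linearIndependent_iff]
  constructor
  · intro h t ht i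
    obtain ⟨d, hd, s, hs⟩ := det_clear I t
    have h1 := h s (fun j => by
      rw [← det_phi_eq]
      have := congrFun ht j
      simp only [Finset.sum_apply, Pi.smul_apply, smul_eq_mul, Pi.zero_apply] at this
      simp only [map_sum, map_mul, hs, mul_assoc, ← Finset.mul_sum, this, mul_zero]) i
    rw [← det_phi_eq, hs] at h1
    exact (mul_eq_zero.1 h1).resolve_left hd
  · intro h t ht i
    rw [← det_phi_eq]
    refine h (fun i => det_phi I (t i)) ?_ i
    ext j
    have := (det_phi_eq I _).2 (ht j)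
    simpa using this

theorem det_lift {I : Ideal S} [I.IsPrime] {κ μ : Type} [Fintype κ] [Fintype μ] {m : ℕ}
    (B : Matrix μ κ S) (h : m ≤ Module.finrank (FractionRing (S ⧸ I))
      (LinearMap.ker (B.map (det_phi I)).mulVecLin)) :
    ∃ x : Fin m → κ → S, Indep I x ∧ ∀ i j, (B *ᵥ x i) j ∈ I := by
  obtain ⟨f, hf⟩ := exists_linearIndependent_of_le_finrank h
  have hf' := hf.map' (Submodule.subtype _) (Submodule.ker_subtype _)
  obtain ⟨d, hd, s, hs⟩ := det_clear I fun p : Fin m × κ => (f p.1).1 p.2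
  refine ⟨fun i j => s (i, j), (det_indep I).2 ?_, fun i j => ?_⟩
  · rw [Fintype.linearIndependent_iff] at hf' ⊢
    intro t ht i
    have := hf' (fun i => t i * det_phi I d) (by
      rw [← ht]
      ext j
      simp [hs, mul_assoc]) i
    exact (mul_eq_zero.1 this).resolve_right hd
  · rw [← det_phi_eq]
    have := congrFun (f i).2 j
    simp only [Matrix.mulVecLin_apply, Matrix.mulVec, dotProduct, Matrix.map_apply,
      Pi.zero_apply] at this
    simp only [Matrix.mulVec, dotProduct, map_sum, map_mul, hs, mul_left_comm _ (det_phi I d),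
      ← Finset.mul_sum, this, mul_zero]

/-- If all determinants vanish modulo a prime, the kernel has rank at least three. -/
theorem three_of_dt {I : Ideal S} (hI : I.IsPrime) {B : Matrix ι (ι ⊕ Fin 2) S}
    (h : ∀ l l', Dt B l l' ∈ I) :
    ∃ x : Fin 3 → ι ⊕ Fin 2 → S, Indep I x ∧ ∀ i j, (B *ᵥ x i) j ∈ I := by
  have := hI
  apply det_lift
  by_contra hlt
  have h1 := LinearMap.finrank_range_add_finrank_ker (B.map (det_phi I)).mulVecLin
  have h2 := Submodule.finrank_le (LinearMap.range (B.map (det_phi I)).mulVecLin)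
  simp only [Module.finrank_fintype_fun_eq_card, Fintype.card_sum, Fintype.card_fin] at h1 h2
  have h3 : LinearMap.range (B.map (det_phi I)).mulVecLin = ⊤ :=
    Submodule.eq_top_of_finrank_eq (by rw [Module.finrank_fintype_fun_eq_card]; omega)
  have h4 : ∀ i' : ι, ∃ v, (B.map (det_phi I)) *ᵥ v = Pi.single i' 1 := fun i' =>
    LinearMap.range_eq_top.1 h3 _
  choose A hA using h4
  obtain ⟨f, hf⟩ := exists_linearIndependent_of_le_finrank
    (show 2 ≤ Module.finrank (FractionRing (S ⧸ I))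
      (LinearMap.ker (B.map (det_phi I)).mulVecLin) by omega)
  have hf' := hf.map' (Submodule.subtype _) (Submodule.ker_subtype _)
  obtain ⟨δ, hδ⟩ := det_key (B := B.map (det_phi I)) (D := 1) (fun r i => A i r)
    (fun i i' => (congrFun (hA i') i).trans (by simp [Pi.single_apply]))
    (f 0).2 (f 1).2
  have h5 : ∀ j j', (f 0).1 j * (f 1).1 j' - (f 0).1 j' * (f 1).1 j = 0 := by
    intro j j'
    have h6 := hδ (Pi.single j 1) (Pi.single j' 1)
    have h7 : Dt (B.map (det_phi I)) (Pi.single j 1) (Pi.single j' 1) =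
        det_phi I (Dt B (Pi.single j 1) (Pi.single j' 1)) := by
      rw [Dt, Dt, RingHom.map_det]
      congr 1
      ext r s
      rcases r with i | k
      · rfl
      · have hs : ∀ j, (Pi.single j 1 : ι ⊕ Fin 2 → FractionRing (S ⧸ I)) s =
            det_phi I ((Pi.single j 1 : ι ⊕ Fin 2 → S) s) := fun j => by
          simp [Pi.single_apply, apply_ite (det_phi I)]
        fin_cases k
        · exact hs j
        · exact hs j'
    rw [h7, (det_phi_eq I _).2 (h _ _)] at h6
    simpa [wd] using h6.symm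
  obtain ⟨j, hj⟩ := Function.ne_iff.1 (hf'.ne_zero 0)
  have h8 := Fintype.linearIndependent_iff.1 hf' ![-(f 1).1 j, (f 0).1 j] (by
    ext j'
    simp only [Fin.sum_univ_two, Function.comp_apply, Submodule.subtype_apply, Pi.add_apply,
      Pi.smul_apply, smul_eq_mul, Matrix.cons_val_zero, Matrix.cons_val_one, Pi.zero_apply]
    linear_combination h5 j j') 1
  exact hj h8

/-- More unknowns than equations. -/
theorem exists_indep {I : Ideal S} (hI : I.IsPrime) {κ μ : Type} [Fintype κ] [Fintype μ] {m : ℕ}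
    (B : Matrix μ κ S) (h : Fintype.card μ + m ≤ Fintype.card κ) :
    ∃ x : Fin m → κ → S, Indep I x ∧ ∀ i j, (B *ᵥ x i) j ∈ I := by
  have := hI
  apply det_lift
  have h1 := LinearMap.finrank_range_add_finrank_ker (B.map (det_phi I)).mulVecLin
  have h2 := Submodule.finrank_le (LinearMap.range (B.map (det_phi I)).mulVecLin)
  simp only [Module.finrank_fintype_fun_eq_card] at h1 h2
  omega

theorem Indep.le {I : Ideal S} (hI : I.IsPrime) {κ : Type} [Fintype κ] {m : ℕ}
    {x : Fin m → κ → S} (h : Indep I x) : m ≤ Fintype.card κ := by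
  have := hI
  simpa using ((det_indep I).1 h).fintype_card_le_finrank

/-- A full family of independent vectors spans a multiple of everything. -/
theorem Indep.span {I : Ideal S} (hI : I.IsPrime) {m : ℕ} {x : Fin m → Fin m → S}
    (h : Indep I x) : ∃ d ∉ I, ∀ y : Fin m → S, ∃ t : Fin m → S,
      ∀ j, ∑ i, t i * x i j - d * y j ∈ I := by
  have := hI
  refine ⟨(Matrix.of x).det, ?_, fun y => ⟨y ᵥ* (Matrix.of x).adjugate, fun j => ?_⟩⟩
  · have h1 : IsUnit ((Matrix.of x).map (det_phi I)) :=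
      Matrix.linearIndependent_rows_iff_isUnit.1 ((det_indep I).1 h)
    rw [← det_phi_eq, RingHom.map_det]
    exact ((Matrix.isUnit_iff_isUnit_det _).1 h1).ne_zero
  · have h1 : (y ᵥ* (Matrix.of x).adjugate) ᵥ* Matrix.of x = (Matrix.of x).det • y := by
      rw [Matrix.vecMul_vecMul, Matrix.adjugate_mul, Matrix.vecMul_smul, Matrix.vecMul_one]
    have h2 : ∑ i, (y ᵥ* (Matrix.of x).adjugate) i * x i j = (Matrix.of x).det * y j :=
      congrFun h1 j
    rw [h2, sub_self]
    exact I.zero_mem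

/-- One more vector is added to an independent family. -/
theorem Indep.cons {I : Ideal S} (hI : I.IsPrime) {κ : Type} {m : ℕ} {x : Fin m → κ → S}
    (h : Indep I x) {y : κ → S}
    (k : ∀ d, ∀ t : Fin m → S, (∀ j, d * y j - ∑ i, t i * x i j ∈ I) → d ∈ I) :
    Indep I (Fin.cons y x : Fin (m + 1) → κ → S) := by
  have _ := hI
  intro t ht
  simp only [Fin.sum_univ_succ, Fin.cons_zero, Fin.cons_succ] at ht
  have h0 := k (t 0) (fun i => -t i.succ) (by simpa using ht)
  have h1 := h (fun i => t i.succ) fun j => by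
    simpa using I.sub_mem (ht j) (I.mul_mem_right (y j) h0)
  exact Fin.cases h0 h1

theorem det_diag {n : Type} [Fintype n] [DecidableEq n] (M : Matrix n n S) (w : S) (r0 : n)
    (h : ∀ r s, r ≠ s → r ≠ r0 → w ∣ M r s) : w ∣ M.det - ∏ r, M r r := by
  rw [Matrix.det_apply', ← Finset.add_sum_erase _ _ (Finset.mem_univ 1)]
  simp only [Equiv.Perm.sign_one, Units.val_one, Int.cast_one, one_mul, Equiv.Perm.coe_one, id_eq,
    add_sub_cancel_left]
  refine Finset.dvd_sum fun σ hσ => Dvd.dvd.mul_left ?_ _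
  obtain ⟨i, hi⟩ : ∃ i, σ i ≠ i := by
    by_contra hc
    push Not at hc
    exact (Finset.mem_erase.1 hσ).1 (Equiv.ext hc)
  by_cases h0 : σ i = r0
  · have h1 : σ r0 ≠ r0 := fun h2 => hi (by rw [h0]; exact σ.injective (h2.trans h0.symm))
    exact (h _ _ h1 h1).trans (Finset.dvd_prod_of_mem (fun i => M (σ i) i) (Finset.mem_univ r0))
  · exact (h _ _ hi h0).trans (Finset.dvd_prod_of_mem (fun i => M (σ i) i) (Finset.mem_univ i))

/-- The determinant at the lowest level. -/
theorem dt_base {κ : Type} [Fintype κ] (B : Matrix (Option κ) (Option κ ⊕ Fin 2) La)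
    (h1 : ∀ i, Tu 1 (B (some i) (.inl (some i))))
    (h2 : ∀ i j, j ≠ .inl (some i) → ww ∣ B (some i) j) (h3 : Tu 1 (B none (.inr 1))) :
    Tu (Fintype.card κ + 1) (Dt B (Pi.single (.inl none) 1) (Pi.single (.inr 0) 1)) := by
  let N : Matrix (Option κ ⊕ Fin 2) (Option κ ⊕ Fin 2) La :=
    Matrix.of (Sum.elim B ![Pi.single (.inl none) 1, Pi.single (.inr 0) 1])
  let σ : Equiv.Perm (Option κ ⊕ Fin 2) :=
    Equiv.swap (.inl none) (.inr 0) * Equiv.swap (.inr 0) (.inr 1)
  have s1 : ∀ i, σ (.inl (some i)) = .inl (some i) := fun i => by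
    simp [σ, Equiv.swap_apply_of_ne_of_ne]
  have s2 : σ (.inl none) = .inr 0 := by simp [σ, Equiv.swap_apply_of_ne_of_ne]
  have s3 : σ (.inr 0) = .inr 1 := by simp [σ, Equiv.swap_apply_of_ne_of_ne]
  have s4 : σ (.inr 1) = .inl none := by simp [σ]
  have h4 := Matrix.det_permute σ N
  have h5 : Equiv.Perm.sign σ = 1 := by simp [σ]
  have h6 : Dt B (Pi.single (.inl none) 1) (Pi.single (.inr 0) 1) = N.det := det_def _ _ _
  have h7 := det_diag (N.submatrix σ id) ww (.inr 1) (by
    rintro ((_ | i) | k) s hs h0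
    · change ww ∣ N (σ (.inl none)) s
      rw [s2]
      change ww ∣ (Pi.single (.inl none) 1 : Option κ ⊕ Fin 2 → La) s
      simp [hs.symm]
    · change ww ∣ N (σ (.inl (some i))) s
      rw [s1]
      exact h2 i s hs.symm
    · fin_cases k
      · change ww ∣ N (σ (.inr 0)) s
        rw [s3]
        change ww ∣ (Pi.single (.inr 0) 1 : Option κ ⊕ Fin 2 → La) s
        have hs' : s ≠ .inr 0 := hs.symm
        simp [hs']
      · exact (h0 rfl).elim)
  have h8 : ∏ r, N.submatrix σ id r r = (∏ i, B (some i) (.inl (some i))) * B none (.inr 1) := by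
    simp only [Fintype.prod_sum_type, Fintype.prod_option, Fin.prod_univ_two,
      Matrix.submatrix_apply, id_eq, s1, s2, s3, s4]
    change (Pi.single (.inl none) 1 : Option κ ⊕ Fin 2 → La) (.inl none) *
      (∏ i, B (some i) (.inl (some i))) *
      ((Pi.single (.inr 0) 1 : Option κ ⊕ Fin 2 → La) (.inr 0) * B none (.inr 1)) = _
    simp
  have h9 := ((Tu.prod Finset.univ fun i _ => h1 i).mul h3).add h7
  rw [← h8, h4, h5, Finset.card_univ] at h9
  rw [h6]
  simpa using h9

end Pool.Agent.Lib.MP_696deb_nt.EU
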