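import Pool.Agent.Lib.MP_696deb_nt.EU.Kf
import Pool.Agent.Lib.MP_696deb_nt.EU.C4

/-! The Euler system of elliptic units. -/

set_option autoImplicit false

open scoped Classical NNReal
open Finset

namespace Pool.Agent.Lib.MP_696deb_nt.EU

variable {R : Type} [CommRing R] {e : ℕ} {m b n : O} {W : O → R} {θ : Gam → R} {g : Gam}

/-- A weight of conductor `m` that transforms by the character `θ`. -/
structure Kb (m b : O) (W : O → R) (θ : Gam → R) : Prop where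
  ne : m ≠ 0
  w3 : w ^ 3 ∣ m
  red : Q4.red b = 1
  cop : IsCoprime m b
  per : ∀ a a', m ∣ a - a' → W a = W a'
  eqv : ∀ g ∈ G, ∀ a, IsCoprime a m → Prim a → W (cm m g * a) = θ g * W a
  chr : Chr θ

/-- The class of the elliptic units of level `m`. -/
noncomputable def FE (f : ZMod (2 ^ e) →+* R) (m b : O) (W : O → R) : Gam → R :=
  FF f (Im m) (yb b e) fun P => W (co m P)

variable (f : ZMod (2 ^ e) →+* R)

theorem es_pow (b : O) (e : ℕ) (P : A) : yb b e P ^ 2 ^ e = ub b P := rt2_pow e _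

theorem es_ne {P : A} (hb : Q4.red b = 1) (h : b • P ≠ 0) : yb b e P ≠ 0 := fun k =>
  EA.ub_ne hb h (by rw [← es_pow b e, k, zero_pow (pow_ne_zero _ two_ne_zero)])

theorem es_tr {S : Finset A} {y y' : A → Qbar} {V : A → R} {a : R}
    (h : ∀ x ∈ S, V (g • x) = a * V x) : XX f S y y' (tr V g) = a * XX f S y y' V := by
  rw [XX, XX, mul_sum]
  exact sum_congr rfl fun x hx => by rw [tr, h x hx, mul_left_comm]

theorem fam_yb {S : Finset A} (hb : Q4.red b = 1) (h1 : ∀ g ∈ G, ∀ P ∈ S, g • P ∈ S)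
    (h2 : ∀ P ∈ S, b • P ≠ 0) (e : ℕ) : Fam G e S (yb b e) :=
  ⟨h1, fun P _ => sm_act G P, fun P hP => es_ne hb (h2 P hP), fun g hg P _ => by
    rw [es_pow, es_pow, ub_act (EA.ne_of_red hb) hg]⟩

theorem fam_Im (hm : m ≠ 0) (k : w ^ 3 ∣ m) (hb : Q4.red b = 1) (e : ℕ) :
    Fam G e (Im m) (yb b e) :=
  fam_yb hb (fun _ hg _ => act_Im hm k hg) (fun _ hP => Im_ne hm k hP hb) e

/-- The norm relation for roots. -/
theorem push_pow {S : Finset A} (hb : Q4.red b = 1) (hn : n ≠ 0) (hc : IsCoprime n b) {B : A}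
    (hB : B ∈ S) (h0 : B ≠ 0) (e : ℕ) :
    yb b e B ^ 2 ^ e = push (pre n S) (fun P : A => n • P) (yb b e) B ^ 2 ^ e := by
  obtain ⟨Q, rfl⟩ := exists_div hn B
  rw [push, ← prod_pow, es_pow, ← EA.ub_norm hb hc h0, ← pre_fibre hn hB rfl]
  exact prod_congr (by convert rfl) fun P _ => (es_pow b e P).symm

theorem FF_down {S : Finset A} (hb : Q4.red b = 1) (hn : n ≠ 0) (hc : IsCoprime n b)
    (h1 : ∀ g ∈ G, ∀ P ∈ S, g • P ∈ S) (h2 : ∀ P ∈ S, b • P ≠ 0) (V : A → R) (hg : g ∈ G) :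
    FF f (pre n S) (yb b e) (fun P => V (n • P)) g = FF f S (yb b e) V g +
      (f (cy e g) * XX f S (push (pre n S) (fun P : A => n • P) (yb b e)) (yb b e) (tr V g) -
        XX f S (push (pre n S) (fun P : A => n • P) (yb b e)) (yb b e) V) := by
  have k : Fam G e (pre n S) (yb b e) := fam_yb hb (fun g hg P hP => (mem_pre hn).2 (by
    rw [← act_smul hg]; exact h1 g hg _ ((mem_pre hn).1 hP))) (fun P hP e =>
      h2 _ ((mem_pre hn).1 hP) (by rw [smul_comm, e, smul_zero])) e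
  have h3 : ∀ g ∈ G, ∀ P ∈ pre n S, n • g • P = g • n • P := fun g hg P _ => (act_smul hg n P).symm
  rw [FF_push f k (fun _ => (mem_pre hn).1) h3 hg V]
  exact FF_root f (k.push h1 (fun P _ => sm_act G P) h3) (fun B hB => push_pow hb hn hc hB
    (fun e => h2 B hB (by rw [e, smul_zero])) e) hg

namespace Kb

theorem act (h : Kb m b W θ) (hg : g ∈ G) {P : A} (hP : P ∈ Im m) :
    W (co m (g • P)) = θ g * W (co m P) := by
  rw [h.per _ _ (co_act h.ne hg (Im_kill h.ne hP)), h.eqv g hg _ (co_cop h.ne hP)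
    (co_prim h.ne h.w3 hP)]

theorem frob (h : Kb m b W θ) (r : TP) (hr : ¬ r.π ∣ m) {a : O} (h1 : IsCoprime a m) (h2 : Prim a) :
    W (r.π * a) = θ r.φ * W a := by
  rw [← h.eqv _ r.φ_mem a h1 h2]
  refine (h.per _ _ ?_).symm
  rw [← sub_mul]
  exact (cm_frob r hr).mul_right a

theorem up (h : Kb m b W θ) (hn : n ≠ 0) (hc : IsCoprime n b) : Kb (m * n) b W θ :=
  ⟨mul_ne_zero h.ne hn, h.w3.mul_right n, h.red, h.cop.mul_left hc,
    fun a a' k => h.per a a' ((dvd_mul_right m n).trans k), fun g hg a h1 h2 => by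
      rw [← h.eqv g hg a h1.of_mul_right_left h2]
      refine h.per _ _ ?_
      rw [← sub_mul]
      exact (cm_of_dvd (mul_ne_zero h.ne hn) hg (dvd_mul_right m n)).mul_right a, h.chr⟩

theorem map (h : Kb m b W θ) {R' : Type} [CommRing R'] (π : R →+* R') :
    Kb m b (fun a => π (W a)) fun g => π (θ g) :=
  ⟨h.ne, h.w3, h.red, h.cop, fun a a' k => congrArg π (h.per a a' k), fun g hg a h1 h2 => by
    rw [h.eqv g hg a h1 h2, map_mul], h.chr.map π⟩

theorem chr' (h : Kb m b W θ) : Chr fun g => f (cy e g) * θ g :=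
  ⟨(B2.sm_cy e).comp₂ h.chr.sm fun x y => f x * y, by rw [g1_cy_one, map_one, h.chr.one, mul_one],
    fun g hg k hk => by rw [B2.b3b_cy, map_mul, h.chr.mul g hg k hk, mul_mul_mul_comm]⟩

theorem zc (h : Kb m b W θ) : Zc G (fun g => f (cy e g) * θ g) (FE f m b W) :=
  zc_FF f (fam_Im h.ne h.w3 h.red e) fun _ hg _ hP => h.act hg hP

theorem unr (h : Kb m b W θ) {v : Plc} (hv : v.p ≠ 2) (k : v.V (io m) = 1) {σ : Gam}
    (hσ : σ ∈ Ine v) : FE f m b W σ = 0 := by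
  refine sum_eq_zero fun P hP => ?_
  have h1 := (fam_Im h.ne h.w3 h.red e).root (ine_le hv hσ) hP
  have h2 := es_ne (e := e) h.red (Im_ne h.ne h.w3 hP h.red)
  have h3 : v.V (yb b e P) = 1 := (pow_eq_one_iff_of_nonneg zero_le
    (pow_ne_zero e two_ne_zero)).1 (by rw [← map_pow, es_pow, Im_unit h.red h.ne h.w3 hv hP])
  rw [kc]
  rw [act_ine hv k (inv_mem hσ) (Im_kill h.ne hP)] at h1 ⊢
  rw [root_eq hv h1 (one_pow _) (B2.b4a_unit hσ h3 (mul_div_cancel₀ _ h2).symm), lg_one, map_zero,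
    zero_mul]

theorem es_down (h : Kb m b W θ) (hn : n ≠ 0) (hc : IsCoprime n b) :
    ∃ x, ∀ g ∈ G, FF f (pre n (Im m)) (yb b e) (fun P => W (co m (n • P))) g =
      FE f m b W g + (f (cy e g) * θ g - 1) * x :=
  ⟨_, fun g hg => by
    rw [FF_down f h.red hn hc (fun _ hg _ => act_Im h.ne h.w3 hg)
      (fun _ hP => Im_ne h.ne h.w3 hP h.red) (fun P => W (co m P)) hg,
      es_tr f fun _ => h.act hg, sub_mul, one_mul, mul_assoc, FE]⟩

theorem es_up (h : Kb m b W θ) (hn : n ≠ 0) :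
    FF f (Im (m * n)) (yb b e) (fun P => W (co m (n • P))) g = FE f (m * n) b W g :=
  FF_congr f fun P hP => h.per _ _ (co_down h.ne hn (by
    rw [Im_kill (mul_ne_zero h.ne hn) hP]))

theorem es_frob (h : Kb m b W θ) (r : TP) (hr : ¬ r.π ∣ m) {y : A → Qbar} :
    FF f (Im m) y (fun P => W (co m (r.π • P))) g =
      θ r.φ * FF f (Im m) y (fun P => W (co m P)) g := by
  rw [← FF_smul]
  exact FF_congr f fun P hP => (h.per _ _ (co_smul h.ne _ (Im_kill h.ne hP))).trans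
    (h.frob r hr (co_cop h.ne hP) (co_prim h.ne h.w3 hP))

theorem ram (h : Kb m b W θ) (hn : n ≠ 0) (hp : ∀ p, Prime p → p ∣ n → p ∣ m) :
    ∃ x, ∀ g ∈ G, FE f (m * n) b W g = FE f m b W g + (f (cy e g) * θ g - 1) * x := by
  have hc : IsCoprime n b := isCoprime_of_prime_dvd (fun e => hn e.1)
    fun z hz h3 h4 => hz.not_isUnit (h.cop.isUnit_of_dvd' (hp z hz h3) h4)
  obtain ⟨x, hx⟩ := h.es_down f hn hc
  exact ⟨x, fun g hg => by rw [← hx g hg, pre_ram h.ne hn h.w3 hp, h.es_up f hn]⟩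

theorem euler (h : Kb m b W θ) (r : TP) (hr : ¬ r.π ∣ m) (hc : IsCoprime r.π b) :
    ∃ x, ∀ g ∈ G, FE f (m * r.π) b W g =
      (1 - θ r.φ) * FE f m b W g + (f (cy e g) * θ g - 1) * x := by
  obtain ⟨x, hx⟩ := h.es_down f r.prime.ne_zero hc
  obtain ⟨h1, h2⟩ := pre_new h.ne h.w3 r.prime r.prim hr
  refine ⟨x, fun g hg => ?_⟩
  have := hx g hg
  rw [h1, FF, sum_union h2, ← FF, ← FF, h.es_up f r.prime.ne_zero, h.es_frob f r hr, ← FE] at this
  linear_combination this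

theorem es_sym (r : TP) (h : Kb m b W θ) (h' : Kb m r.π W θ) :
    Fam G e (Im m) (fun P => yb b e (r.π • P)) ∧ ∀ g ∈ G, θ r.φ * FF f (Im m)
      (fun P => yb b e (r.π • P)) (fun P => W (co m P)) g = FE f m b W g := by
  have k := fam_Im h.ne h.w3 h.red e
  have k' := smul_Im h.ne h.w3 r.prim h'.cop.symm
  refine ⟨⟨k.stab, k.sm, fun P hP => k.ne _ (k'.mapsTo hP), fun g hg P hP => by
    rw [k.eqv g hg _ (k'.mapsTo hP), act_smul hg]⟩, fun g hg => ?_⟩
  rw [← h.es_frob f r fun d => r.prime.not_isUnit (h'.cop.isUnit_of_dvd' d dvd_rfl)]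
  exact FF_bij f k' (fun P _ => (act_smul (inv_mem hg) _ P).symm) fun P => W (co m P)

theorem sym (a a' : TP) (h : Kb m a.π W θ) (h' : Kb m a'.π W θ) :
    ∃ x, ∀ g ∈ G, θ a.φ * (1 - f (cy e a'.φ) * θ a'.φ) * FE f m a.π W g -
      θ a'.φ * (1 - f (cy e a.φ) * θ a.φ) * FE f m a'.π W g = (f (cy e g) * θ g - 1) * x := by
  obtain ⟨k1, e1⟩ := es_sym f a' h h'
  obtain ⟨k2, e2⟩ := es_sym f a h' h
  have f1 := fam_Im h.ne h.w3 h.red e
  have f2 := fam_Im h.ne h.w3 h'.red e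
  have cy' : ∀ t : TP, f (cy e t.φ) = nm t.π := fun t => by
    rw [B2.cy, t.cyc_φ, map_natCast, map_natCast]
  refine ⟨θ a.φ * θ a'.φ * XX f (Im m) (fun P => yb a.π e (a'.π • P) * yb a'.π e P ^ nm a.π)
    (fun P => yb a'.π e (a.π • P) * yb a.π e P ^ nm a'.π) fun P => W (co m P), fun g hg => ?_⟩
  have := FF_root f (W := fun P => W (co m P)) (k1.mul (f2.pow (nm a.π)))
    (y' := fun P => yb a'.π e (a.π • P) * yb a.π e P ^ nm a'.π) (fun P hP => by
      simp only [mul_pow, pow_right_comm _ (nm _), es_pow]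
      exact (EA.ub_symm h.red h'.red (Im_ne h.ne h.w3 hP h.red)
        (Im_ne h.ne h.w3 hP h'.red)).symm) hg
  rw [FF_mul f k1 (f2.pow _) hg, FF_mul f k2 (f1.pow _) hg, FF_pow f f1 hg, FF_pow f f2 hg,
    es_tr f fun _ => h.act hg, ← FE, ← FE] at this
  rw [cy', cy']
  linear_combination θ a.φ * θ a'.φ * this - θ a.φ * e1 g hg + θ a'.φ * e2 g hg

end Kb

theorem FE_map {R' : Type} [CommRing R'] (π : R →+* R') :
    π (FE f m b W g) = FE (π.comp f) m b (fun a => π (W a)) g := FF_map f π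

end Pool.Agent.Lib.MP_696deb_nt.EU
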