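import Pool.Agent.Lib.MP_696deb_nt.EU.P3

/-! The reciprocity law for cocycles with values in a ring. -/

set_option autoImplicit false

open scoped Classical NNReal
open Finset

namespace Pool.Agent.Lib.MP_696deb_nt.EU

variable {R : Type} [CommRing R] {ι : Type} {t : ι → TP} {ρ ρ' c c' : Gam → R} {e : ℕ}

/-- The unit in the formula for the local symbol. -/
noncomputable def du (e : ℕ) (r : TP) : ZMod (2 ^ e) :=
  if h : ((nm r.π : ℕ) : ZMod (2 ^ (e + 1))) = 1 then ((r.tm.deep_inv h).choose : (ZMod (2 ^ e))ˣ)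
  else 1

theorem du_unit (e : ℕ) (r : TP) : IsUnit (du e r) := by
  unfold du
  split_ifs
  exacts [Units.isUnit _, isUnit_one]

/-- The cup product along an additive map. -/
def cupR (l : R →+ ZMod (2 ^ e)) (ρ' c c' : Gam → R) (g h : Gam) : ZMod (2 ^ e) :=
  l (c g * (ρ' g * c' h))

theorem p5_lin (f : ZMod (2 ^ e) →+* R) (l : R →+ ZMod (2 ^ e)) (z : ZMod (2 ^ e)) (x : R) :
    l (f z * x) = z * l x := by
  rw [← ZMod.natCast_zmod_val z, map_natCast, ← nsmul_eq_mul, map_nsmul, nsmul_eq_mul]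

theorem p5_kill (f : ZMod (2 ^ e) →+* R) (x : R) : 2 ^ e • x = 0 := by
  rw [nsmul_eq_mul, ← map_natCast f, ZMod.natCast_self, map_zero, zero_mul]

/-- Additive maps to a cyclic group separate points. -/
theorem p5_sep {B : Type} [AddCommGroup B] [Finite B] {n : ℕ} [NeZero n] (hB : ∀ x : B, n • x = 0)
    {x : B} (h : ∀ l : B →+ ZMod n, l x = 0) : x = 0 := by
  by_contra hx
  have i1 : HasEnoughRootsOfUnity (Multiplicative (ZMod n)) n := by
    refine ⟨⟨Multiplicative.ofAdd 1, ?_⟩, ?_⟩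
    · rw [IsPrimitiveRoot.iff_orderOf, orderOf_ofAdd_eq_addOrderOf, ZMod.addOrderOf_one]
    · have : IsCyclic (Multiplicative (ZMod n))ˣ :=
        isCyclic_of_surjective (toUnits (G := Multiplicative (ZMod n))) toUnits.surjective
      infer_instance
  have i2 : HasEnoughRootsOfUnity (Multiplicative (ZMod n)) (Monoid.exponent (Multiplicative B)) :=
    HasEnoughRootsOfUnity.of_dvd _ (Monoid.exponent_dvd_of_forall_pow_eq_one fun g => hB g.toAdd)
  obtain ⟨φ, hφ⟩ := CommGroup.exists_apply_ne_one_of_hasEnoughRootsOfUnity (Multiplicative B)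
    (Multiplicative (ZMod n)) (a := Multiplicative.ofAdd x) hx
  exact hφ (Units.ext (h (AddMonoidHom.toMultiplicative.symm ((Units.coeHom _).comp φ))))

theorem c2_cupR (f : ZMod (2 ^ e) →+* R) {H : Subgroup Gam} (hH : H ≤ G) (h : Chr ρ) (h' : Chr ρ')
    (hd : ∀ g ∈ G, ρ g * ρ' g = f (cy e g)) (hc : Zc H ρ c) (hc' : Zc H ρ' c')
    (l : R →+ ZMod (2 ^ e)) : C2 e H (cupR l ρ' c c') := by
  refine ⟨(hc.1.comp₂ (h'.sm.mono hH) Prod.mk).left.comp₂ hc'.1.right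
    fun x y => l (x.1 * (x.2 * y)), fun g hg k hk j hj => ?_⟩
  simp only [cupR]
  rw [← p5_lin f, ← hd g (hH hg), hc.2 g hg k hk, hc'.2 k hk j hj, h'.mul g (hH hg) k (hH hk),
    ← map_add, ← map_add]
  simp only [smul_eq_mul]
  congr 1
  ring

theorem spl_cupR (f : ZMod (2 ^ e) →+* R) {H : Subgroup Gam} (hH : H ≤ G) (h : Chr ρ) (h' : Chr ρ')
    (hd : ∀ g ∈ G, ρ g * ρ' g = f (cy e g)) {x : R} (hc : ∀ g ∈ H, c g = (ρ g - 1) * x)
    (hc' : Zc H ρ' c') (l : R →+ ZMod (2 ^ e)) : Spl e H (cupR l ρ' c c') := by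
  refine ⟨fun g => l (x * c' g), hc'.1.comp fun y => l (x * y), fun g hg k hk => ?_⟩
  simp only [cupR]
  rw [← p5_lin f, ← hd g (hH hg), hc g hg, hc'.2 g hg k hk, ← map_add, ← map_sub, smul_eq_mul]
  congr 1
  ring

theorem p5_apart (hi : ∀ i j, (t i).π = (t j).π → i = j) {i j : ι} {g : Gam} (hg : g ∈ G)
    (k : g • (t i).v = (t j).v) : i = j := by
  have h1 : (t j).v.V (io (t i).π) < 1 := by
    rw [← k, B2.smul_V, io_fx _ _ (inv_mem hg)]
    exact (t i).lt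
  by_contra hne
  exact TP.not_dvd (t j) (t i) (fun e => hne (hi i j e.symm)) ((t j).V_lt.1 h1)

theorem p5_unr (F : CFT) (f : ZMod (2 ^ e) →+* R) (h : Chr ρ) (h' : Chr ρ')
    (hd : ∀ g ∈ G, ρ g * ρ' g = f (cy e g)) (hc : Zc G ρ c) (hc' : Zc G ρ' c') {v : Plc}
    (k : ∀ σ ∈ Ine v, ρ' σ - 1 = 0) (u : ∀ σ ∈ Ine v, c σ = 0) (u' : ∀ σ ∈ Ine v, c' σ = 0)
    (l : R →+ ZMod (2 ^ e)) : F.inv e G v (cupR l ρ' c c') = 0 := by
  refine F.unr op_G ((c2_cupR f le_rfl h h' hd hc hc' l).mono inf_le_left)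
    fun g hg j hj σ hσ τ hτ => ?_
  rw [cupR, cupR, hc.2 g hg.1 σ hσ.1, hc'.2 j hj.1 τ hτ.1, u σ hσ.2, u' τ hτ.2, smul_zero,
    smul_zero, add_zero, add_zero, h'.mul g hg.1 σ hσ.1, sub_eq_zero.1 (k σ hσ.2), mul_one]

theorem p5_deep [Lo2 R] (F : CFT) (f : ZMod (2 ^ e) →+* R) (h : Chr ρ)
    (hd : ∀ g ∈ G, ρ g * ρ' g = f (cy e g)) (hc : Zc G ρ c) (hc' : Zc G ρ' c') {r : TP}
    (k1 : ρ r.φ = 1) (k2 : ρ r.σ = 1) (k3 : ((nm r.π : ℕ) : ZMod (2 ^ (e + 1))) = 1)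
    (l : R →+ ZMod (2 ^ e)) :
    F.inv e G r.v (cupR l ρ' c c') = l (f (du e r) * (c r.φ * c' r.σ - c r.σ * c' r.φ)) := by
  have ha : ∀ g ∈ G ⊓ Dec r.v, ∀ x : R, sa R ρ g x = x := fun g hg x =>
    r.tm.fix (p5_kill f) (h.act inf_le_left) (by rw [sa_apply, k2, one_smul])
      (by rw [sa_apply, k1, one_smul]) hg
  have ha' : ∀ g ∈ G ⊓ Dec r.v, ∀ x : R, sa R ρ' g x = x := fun g hg x => by
    have e1 : ρ g = 1 := by simpa [sa_apply] using ha g hg 1
    have e2 := hd g hg.1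
    rw [e1, one_mul, r.tm.cy_one (B2.lo2_red k3) hg, map_one] at e2
    rw [sa_apply, e2, one_smul]
  have e3 := (r.tm.deep_inv k3).choose_spec F R R (AddMonoidHom.mul.compr₂ l) (sa R ρ) (sa R ρ')
    c c' (p5_kill f) (p5_kill f) ha ha' (hc.mono inf_le_left) (hc'.mono inf_le_left)
  rw [p5_lin f, du, dif_pos k3, map_sub]
  exact e3

theorem recip [Lo2 R] [Fintype ι] (f : ZMod (2 ^ e) →+* R) (h : Adm t ρ) (h' : Adm t ρ')
    (hd : ∀ g ∈ G, ρ g * ρ' g = f (cy e g)) (dp : ι → Prop)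
    (h1 : ∀ i, dp i → ρ (t i).φ = 1 ∧ ρ (t i).σ = 1 ∧ ((nm (t i).π : ℕ) : ZMod (2 ^ (e + 1))) = 1)
    {δ : R} (h2 : ∀ i, ¬ dp i → ρ (t i).σ - 1 ∣ δ ∨ ρ (t i).φ - 1 ∣ δ)
    (hc : Zc G ρ c) (hu : Unr t c) (hc' : Zc G ρ' c') (hu' : Unr t c')
    (hw : ∀ l : R →+ ZMod (2 ^ e), Spl e Hw (cupR l ρ' (fun g => δ * c g) c')) :
    δ * ∑ i with dp i, f (du e (t i)) * (c (t i).φ * c' (t i).σ - c (t i).σ * c' (t i).φ) = 0 := by
  obtain ⟨F⟩ := B2.m_cft
  have hC : Zc G ρ fun g => δ * c g := hc.smul δ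
  have inj : Function.Injective fun i => (t i).v := fun i j k =>
    p5_apart h.inj (one_mem G) ((one_smul _ _).trans k)
  have n2 : ∀ i, ∀ g : Gam, g • w2 ≠ (t i).v := fun i g k =>
    (t i).odd (by rw [← k, B2.smul_p, w2_p])
  refine p5_sep (p5_kill f) fun l => ?_
  have c2 := c2_cupR f le_rfl h.chr h'.chr hd hC hc' l
  have key := F.recip (insert w2 (univ.image fun i => (t i).v)) op_G c2 (.inl tc_G)
    (fun v hv v' hv' g hg k => by
      rcases mem_insert.1 hv with rfl | hv <;> rcases mem_insert.1 hv' with rfl | hv'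
      · rfl
      · obtain ⟨j, -, rfl⟩ := mem_image.1 hv'
        exact absurd k (n2 j g)
      · obtain ⟨j, -, rfl⟩ := mem_image.1 hv
        exact absurd (by rw [← k, inv_smul_smul]) (n2 j g⁻¹)
      · obtain ⟨i, -, rfl⟩ := mem_image.1 hv
        obtain ⟨j, -, rfl⟩ := mem_image.1 hv'
        rw [p5_apart h.inj hg k])
    fun v hv => by
      have o1 : v.p ≠ 2 := fun k => by
        obtain ⟨g, hg, k⟩ := conj_w2 k
        exact hv _ (mem_insert_self _ _) g hg k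
      have o2 : Off t v := (off_or t o1).resolve_right fun ⟨i, g, hg, k⟩ =>
        hv _ (mem_insert_of_mem (mem_image_of_mem _ (mem_univ i))) g hg k
      exact p5_unr F f h.chr h'.chr hd hC hc' (h'.unr v o2)
        (fun σ hσ => by rw [hu v o2 σ hσ, mul_zero]) (hu' v o2) l
  rw [sum_insert fun k => by
      obtain ⟨j, -, k⟩ := mem_image.1 k
      exact n2 j 1 ((one_smul _ _).trans k.symm),
    (F.zero_iff op_G (c2.mono inf_le_left)).2 (hw l), zero_add,
    sum_image fun i _ j _ k => inj k] at key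
  rw [← key, mul_sum, map_sum, sum_filter]
  refine sum_congr rfl fun i _ => ?_
  split_ifs with hi
  · obtain ⟨k1, k2, k3⟩ := h1 i hi
    rw [p5_deep F f h.chr hd hC hc' k1 k2 k3]
    congr 1
    ring
  · refine ((F.zero_iff op_G (c2.mono inf_le_left)).2 ?_).symm
    rcases h2 i hi with ⟨y, rfl⟩ | ⟨y, rfl⟩
    · refine spl_cupR f inf_le_left h.chr h'.chr hd (x := y * c (t i).σ) (fun g hg => ?_)
        (hc'.mono inf_le_left) l
      have k := Zc.cob_σ h.chr (h.geo i) (hc.mono inf_le_left) g hg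
      simp only [smul_eq_mul] at k
      linear_combination y * k
    · refine spl_cupR f inf_le_left h.chr h'.chr hd (x := y * c (t i).φ) (fun g hg => ?_)
        (hc'.mono inf_le_left) l
      have k := Zc.cob_φ h.chr (h.geo i) (hc.mono inf_le_left) g hg
      simp only [smul_eq_mul] at k
      linear_combination y * k

end Pool.Agent.Lib.MP_696deb_nt.EU
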