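import Pool.Agent.Lib.MP_696deb_nt.EU.S4
import Pool.Agent.Lib.MP_696deb_nt.EU.Es
import Pool.Agent.Lib.MP_696deb_nt.EU.P5

/-! The explicit reciprocity law for the class of the elliptic units. -/

set_option autoImplicit false

open scoped Classical NNReal
open Finset

namespace Pool.Agent.Lib.MP_696deb_nt.EU

theorem Fam.kf {X : Type} [MulAction Gam X] {H : Subgroup Gam} {e : ℕ} {S : Finset X}
    {y : X → Qbar} (k : Fam H e S y) : KF H S (fun x => y x ^ 2 ^ e) (kc e y) :=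
  ⟨y, fun x hx => ⟨k.ne x hx, rfl⟩, fun g hg x hx => by
    rw [kc, ← lg_spec (k.root hg hx), mul_div_cancel₀ _ (k.ne x hx)]⟩

theorem add_hom_mul {R : Type} [CommRing R] {e : ℕ} (f : ZMod (2 ^ e) →+* R)
    (l : R →+ ZMod (2 ^ e)) (a : ZMod (2 ^ e)) (x : R) : l (f a * x) = a * l x := by
  rw [← ZMod.natCast_zmod_val a, map_natCast, ← nsmul_eq_mul, map_nsmul, nsmul_eq_mul]

/-- The explicit reciprocity law for the class of the elliptic units. -/
theorem erl_FE {t : Tw} {φ : O → O} (hφ : Phi t.N φ) {b π : O} (hp : Prime π)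
    (hπ : Q4.red π = 1) (h1 : π ∣ (t.N : O)) (hb : Q4.red b = 1) (h2 : ¬ π ∣ b) {Q0 : A}
    (hQ : Q0 ∈ Kr w2) (hf : ∀ g ∈ Hw, t.tw g Q0 = Q0) : ∃ c : ℕ, ∀ (e n τ : ℕ) (d : ℤ) (m : O),
    m = d * 2 ^ n → e < n → ((8 * t.N : ℤ) : O) ∣ m → e + n + c ≤ 3 * τ →
    ∑ P ∈ Im m, io (star (φ (co m P))) * dl b P = 0 → ∀ Q1 : A, (2 : O) ^ e • Q1 = Q0 →
    ∀ (R : Type) [CommRing R] (f : ZMod (2 ^ e) →+* R) (ι : O →+* R) (W : O → R) (θ : Gam → R),
    Kb m b W θ → (∀ a, IsCoprime a m → Prim a → W a * ι (star a) = ι (φ a)) →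
    ∀ l : R →+ ZMod (2 ^ e), Spl e Hw (cupR l (fun g => f (cy e g) * θ g)
      (fun g => 2 ^ (τ + 1) * d * ι (star (co (2 ^ e) (t.cob Q1 g)))) (FE f m b W)) := by
  obtain ⟨c, hc⟩ := erl_core hφ hb hp hπ h1 h2 hQ hf
  refine ⟨c, fun e n τ d m hd hn hm hτ hL Q1 hQ1 R _ f ι W θ k hW l => ?_⟩
  have e0 : ι (2 ^ e) = 0 := by
    rw [map_pow, map_ofNat, ← map_ofNat f, ← map_pow, ← Nat.cast_ofNat (R := ZMod (2 ^ e)),
      ← Nat.cast_pow, ZMod.natCast_self, map_zero]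
  have ex : ∀ P, ∃ z : O, P ∈ Im m →
      2 ^ e ∣ z * star (co m P) - φ (co m P) ∧ ι z = W (co m P) := fun P => by
    by_cases hP : P ∈ Im m
    · obtain ⟨u, v, h⟩ := (co_cop k.ne hP).of_isCoprime_of_dvd_right
        ((pow_dvd_pow 2 hn.le).trans (hd ▸ dvd_mul_left _ _))
      have h' := congrArg star h
      simp only [star_add, star_mul', star_pow, star_ofNat, star_one] at h'
      have h3 := congrArg ι h'
      rw [map_add, map_mul, map_mul, e0, mul_zero, add_zero, map_one] at h3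
      refine ⟨φ (co m P) * star u, fun _ => ⟨⟨-(φ (co m P) * star v), by
        linear_combination φ (co m P) * h'⟩, ?_⟩⟩
      rw [map_mul, ← hW _ (co_cop k.ne hP) (co_prim k.ne k.w3 hP), mul_assoc, mul_comm _ (ι _), h3,
        mul_one]
    · exact ⟨0, fun h => absurd h hP⟩
  choose z hz using ex
  have fm := (fam_Im k.ne k.w3 hb e).mono (inf_le_left : Hw ≤ G)
  refine spl_congr (hc e n τ d m hd k.ne hn hm hτ hL Q1 hQ1 (l.comp ι.toAddMonoidHom) z
    (fun P hP => (hz P hP).1) _ (fm.kf.congr fun P _ => (es_pow b e P).symm)) fun g hg h _ => ?_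
  rw [cupR, FE, FF, SS, ← fm.sum_act (inv_mem hg), mul_sum, mul_sum, map_sum, mul_sum]
  refine sum_congr rfl fun P hP => ?_
  have a1 := k.act hg.1 (fm.stab _ (inv_mem hg) P hP)
  rw [smul_inv_smul] at a1
  change _ = _ * (l (ι _) * _ * _)
  rw [map_mul ι, map_mul ι, map_intCast, (hz P hP).2, a1, mul_assoc (l _), mul_comm (l _),
    ← mul_assoc (2 ^ (τ + 1) : ZMod (2 ^ e)), ← add_hom_mul f]
  congr 1
  simp only [map_mul, map_pow, map_ofNat]
  ring

end Pool.Agent.Lib.MP_696deb_nt.EU
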