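import Pool.Agent.Lib.MP_696deb_nt.EU.T2
import Pool.Agent.Lib.MP_696deb_nt.EU.S5

/-! The explicit reciprocity law at finite level. -/

set_option autoImplicit false

open scoped Classical NNReal
open Finset PowerSeries

namespace Pool.Agent.Lib.MP_696deb_nt.EU

variable {R : Type} [CommRing R] {ρ ρ' c c' : Gam → R} {e : ℕ}

theorem spl_cupR' (f : ZMod (2 ^ e) →+* R) {H : Subgroup Gam} (hH : H ≤ G) (h : Chr ρ) (h' : Chr ρ')
    (hd : ∀ g ∈ G, ρ g * ρ' g = f (cy e g)) (hc : Zc H ρ c) {x : R}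
    (hc' : ∀ g ∈ H, c' g = (ρ' g - 1) * x) (l : R →+ ZMod (2 ^ e)) :
    Spl e H (cupR l ρ' c c') := by
  refine ⟨fun g => l (-(c g * (ρ' g * x))), hc.1.comp₂ (h'.sm.mono hH) fun y z => l (-(y * (z * x))),
    fun g hg k hk => ?_⟩
  simp only [cupR]
  rw [← p5_lin f, ← hd g (hH hg), hc' k hk, hc.2 g hg k hk, h'.mul g (hH hg) k (hH hk), ← map_add,
    ← map_sub, smul_eq_mul]
  congr 1
  ring

theorem KF.down' {X : Type} [MulAction Gam X] {H : Subgroup Gam} {S : Finset X} {a : X → Qbar}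
    {E : ℕ} {l : Gam → X → ZMod (2 ^ E)} (h : KF H S a l) (k : e ≤ E) :
    KF H S a fun g P => (((l g P).val : ℕ) : ZMod (2 ^ e)) := by
  obtain ⟨r, rfl⟩ := Nat.exists_eq_add_of_le k
  simpa only [ZMod.castHom_apply, ZMod.natCast_val] using h.down

theorem erl_cy {E : ℕ} (k : e ≤ E) (g : Gam) : (((cy E g).val : ℕ) : ZMod (2 ^ e)) = cy e g := by
  obtain ⟨r, rfl⟩ := Nat.exists_eq_add_of_le k
  simpa only [ZMod.castHom_apply, ZMod.natCast_val] using dn_cy (e := e) r g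

theorem erl_lin {E : ℕ} (f : ZMod (2 ^ E) →+* R) (l : R →+ ZMod (2 ^ e)) (n : ℕ)
    (a b : ZMod (2 ^ E)) (x : R) : l (2 ^ n * f a * f b * x) =
      2 ^ n * (l x * ((a.val : ℕ) : ZMod (2 ^ e)) * ((b.val : ℕ) : ZMod (2 ^ e))) := by
  have := map_nsmul l (2 ^ n * a.val * b.val) x
  rw [nsmul_eq_mul, nsmul_eq_mul] at this
  conv_lhs => rw [← ZMod.natCast_zmod_val a, ← ZMod.natCast_zmod_val b, map_natCast, map_natCast]
  push_cast at this
  rw [this]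
  ring

namespace Cx

theorem erl_fin (c : Cx) (hv : c.Van) : ∃ a : ℕ, ∀ j k τ, j ≤ k → 2 * j + a ≤ 3 * τ →
    ∀ (f : ZMod (2 ^ (k + 1)) →+* La ⧸ JX j) (l : La ⧸ JX j →+ ZMod (2 ^ (j + 1))) (z : La ⧸ JX j),
    Spl (j + 1) Hw (cupR l (md (JX j) (c.ρ true k))
      (fun g => z * (2 ^ (τ + 1) * c.t.N.natAbs * md (JX j) (c.ks k) g))
      (FE f (c.m0 (j + 1)) (c.α true).π (c.Wq (JX j) k))) := by
  obtain ⟨a, ha⟩ := erl_core c.phi (c.α true).red (c.tp c.i0).prime (c.tp c.i0).red (c.dvd _)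
    (fun h => c.α_nd true (((c.tp c.i0).prime.irreducible.dvd_symm (c.α true).prime.irreducible
      h).trans (c.dvd _))) c.Q_mem c.Q_fix
  refine ⟨a + 5, fun j k τ hj hτ f l z => ?_⟩
  have kb := c.kb0 true hj
  have hH : Hw ≤ G := inf_le_left
  have fm := (fam_Im kb.ne kb.w3 kb.red (k + 1)).mono hH
  have e2 : (2 : O) ^ (j + 1) * 2 ^ (k - j) = 2 ^ (k + 1) := by
    rw [← pow_add]; congr 1; omega
  have od : ∀ P ∈ Im (c.m0 (j + 1)), ¬ w ∣ co (c.m0 (j + 1)) P := fun P hP h =>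
    g1_w.not_isUnit ((co_cop kb.ne hP).isUnit_of_dvd' h ((dvd_pow_self w three_ne_zero).trans kb.w3))
  refine spl_congr (ha (j + 1) (j + 1 + 3) τ c.t.N.natAbs _ (by rw [c.m0_eq, Int.cast_natCast])
    kb.ne (by omega) (c.dvd_m0 _).2.1 (by omega) (hv _ true) ((2 : O) ^ (k - j) • c.Q1 (k + 1))
    (by rw [← mul_smul, e2, c.Q1_spec])
    (l.comp ((AddMonoidHom.mulLeft z).comp (oq (JX j)).toAddMonoidHom))
    (fun P => Tht c.φ (k + 1) (co (c.m0 (j + 1)) P))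
    (fun P hP => (Dvd.intro _ e2).trans (tht_spec c.φ (od P hP))) _
    ((fm.kf.congr fun P _ => (es_pow _ _ P).symm).down' (by omega))) fun g hg h _ => ?_
  have a0 : oq (JX j) (star (co (2 ^ (j + 1)) (c.t.cob ((2 : O) ^ (k - j) • c.Q1 (k + 1)) g))) =
      md (JX j) (c.ks k) g := by
    have a4 : ((2 : O) ^ (j + 1) * 2 ^ (k - j)) • c.t.cob (c.Q1 (k + 1)) g = 0 := by
      rw [e2, Q4.Tw.cob, smul_sub, ← tw_smul _ (hH hg), c.Q1_spec, c.Q_fix g hg, sub_self]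
    obtain ⟨u, hu⟩ := co_down (pow_ne_zero _ two_ne_zero) (pow_ne_zero _ two_ne_zero) a4
    rw [e2, Q4.Tw.cob, smul_sub, ← tw_smul _ (hH hg)] at hu
    refine sub_eq_zero.1 ((map_sub (oq (JX j)) _ _).symm.trans (oq_zero.2 ⟨star u, ?_⟩))
    rw [← star_sub]
    refine (congrArg star hu).trans ?_
    rw [star_mul', star_pow, star_ofNat]
  rw [cupR, FE, FF, SS, ← fm.sum_act (inv_mem hg), mul_sum, mul_sum, map_sum, mul_sum]
  refine sum_congr rfl fun P hP => ?_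
  have a1 := kb.act (hH hg) (fm.stab _ (inv_mem hg) P hP)
  rw [smul_inv_smul] at a1
  change _ = _ * (l (z * oq (JX j) _) * _ * _)
  rw [map_mul (oq _), map_mul (oq _), map_intCast, a0, ← c.Wq_JX, a1, ← c.cy_θ f (hH hg),
    ← erl_cy (Nat.succ_le_succ hj), ← erl_lin f, Int.cast_natCast]
  congr 1
  ring

end Cx

end Pool.Agent.Lib.MP_696deb_nt.EU
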