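import Pool.Agent.Lib.MP_696deb_nt.EU.La
import Pool.Agent.Lib.MP_696deb_nt.EA.L2
import Pool.Agent.Lib.MP_696deb_nt.B2.LO2
import Pool.Agent.Lib.MP_696deb_nt.B2.GWd
import Pool.Agent.Lib.MP_696deb_nt.B2.MCF
import Pool.Agent.Lib.MP_696deb_nt.B2.MCH

/-! Definitions on the Galois side and on the curve. -/

set_option autoImplicit false

open scoped Classical
open Finset

namespace Pool.Agent.Lib.MP_696deb_nt.EU

export B2 (Qbar Gam Plc Dec Ine IsFrob Op Sm IsHom Fx Gen GK cc zeta cyc cy C2 Spl Kum cup CFT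
  Tm Act Coc B4bG)
export Q4 (O A w ii II un zq Tw)
export QF (Prim Gch Per)
export EA (io tq En Kr dl Xb ub zc)
export Sm (chB)

/-- The Galois group of the field of Gaussian numbers. -/
noncomputable abbrev G : Subgroup Gam := GK 1

/-- A place above two. -/
noncomputable def w2 : Plc := (B2.exists_plc Nat.prime_two).choose

theorem w2_p : w2.p = 2 := (B2.exists_plc Nat.prime_two).choose_spec

/-- The decomposition group at the place above two. -/
noncomputable abbrev Hw : Subgroup Gam := G ⊓ Dec w2

/-- The norm as a natural number. -/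
def nm (a : O) : ℕ := a.norm.natAbs

/-- A primary prime with a place, a Frobenius element and a generator of tame inertia. -/
structure TP where
  π : O
  v : Plc
  φ : Gam
  σ : Gam
  prime : Prime π
  prim : Prim π
  lt : v.V (io π) < 1
  tm : Tm G v (nm π) φ σ

/-- The place is odd and prime to the given elements. -/
def Off {ι : Type} (t : ι → TP) (v : Plc) : Prop := v.p ≠ 2 ∧ ∀ i, v.V (io (t i).π) = 1

/-- Functions that vanish on the inertia groups away from two and the given primes. -/
def Unr {ι M : Type} [Zero M] (t : ι → TP) (c : Gam → M) : Prop :=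
  ∀ v, Off t v → ∀ σ ∈ Ine v, c σ = 0

/-- Two elements of the inertia group at two that are dual to the characters of `i` and `1 + i`. -/
def IsGw (x : Fin 2 → Gam) : Prop :=
  (∀ j, x j ∈ G ⊓ Ine w2) ∧ chB (io ii) (x 0) = 1 ∧ chB (io w) (x 0) = 0 ∧
    chB (io ii) (x 1) = 0 ∧ chB (io w) (x 1) = 1

/-- The chosen elements. -/
noncomputable def gw : Fin 2 → Gam := if h : ∃ x, IsGw x then h.choose else 1

/-- Four elements of the decomposition group at two that detect its quadratic characters. -/
def IsEw (x : Fin 4 → Gam) : Prop :=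
  (∀ j, x j ∈ Hw) ∧ ∀ χ, B4bG Hw χ → (∀ j, χ (x j) = 0) → ∀ g ∈ Hw, χ g = 0

/-- The chosen elements. -/
noncomputable def ew : Fin 4 → Gam := if h : ∃ x, IsEw x then h.choose else 1

/-- Generators. -/
noncomputable def gen {ι : Type} (t : ι → TP) : ι ⊕ Fin 2 → Gam := Sum.elim (fun i => (t i).σ) gw

section

variable {R : Type} [CommRing R]

/-- Smooth characters. -/
structure Chr (ρ : Gam → R) : Prop where
  sm : Sm G ρ
  one : ρ 1 = 1
  mul : ∀ g ∈ G, ∀ h ∈ G, ρ (g * h) = ρ g * ρ h

/-- The action through a character. -/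
def sa (M : Type) [AddCommGroup M] [Module R M] (ρ : Gam → R) (g : Gam) : M →+ M :=
  DistribSMul.toAddMonoidHom M (ρ g)

theorem sa_apply {M : Type} [AddCommGroup M] [Module R M] (ρ : Gam → R) (g : Gam) (x : M) :
    sa M ρ g x = ρ g • x := rfl

/-- Cocycles for a character. -/
def Zc {M : Type} [AddCommGroup M] [Module R M] (H : Subgroup Gam) (ρ : Gam → R) (c : Gam → M) :
    Prop := Sm H c ∧ ∀ g ∈ H, ∀ h ∈ H, c (g * h) = c g + ρ g • c h

theorem zc_iff {M : Type} [AddCommGroup M] [Module R M] {H : Subgroup Gam} {ρ : Gam → R}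
    {c : Gam → M} : Zc H ρ c ↔ Coc H (sa M ρ) c := Iff.rfl

/-- Linear forms that express the values of all cocycles by their values at the generators. -/
def Val {ι : Type} [Fintype ι] (t : ι → TP) (ρ : Gam → R) (L : Gam → ι ⊕ Fin 2 → R) : Prop :=
  ∀ (M : Type) [AddCommGroup M] [Module R M] [Finite M] (c : Gam → M), Zc G ρ c → Unr t c →
    ∀ g ∈ G, c g = ∑ j, L g j • c (gen t j)

/-- The order of the tame generator divides the order of the multiplicative group, strongly. -/
def Geo (ρ : Gam → R) (t : TP) : Prop := ∑ i ∈ range (nm t.π - 1), ρ t.σ ^ i = 0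

/-- What is needed of a character and a family of primes. -/
structure Adm {ι : Type} (t : ι → TP) (ρ : Gam → R) : Prop where
  inj : ∀ i j, (t i).π = (t j).π → i = j
  chr : Chr ρ
  unr : Unr t fun g => ρ g - 1
  geo : ∀ i, Geo ρ (t i)

end

/-- Open subgroups, normal and of two-power exponent in `G`. -/
structure Nice (U : Subgroup Gam) : Prop where
  le : U ≤ G
  op : Op U
  conj : ∀ g ∈ G, ∀ u ∈ U, g * u * g⁻¹ ∈ U
  two : ∀ g ∈ G, ∃ n : ℕ, g ^ 2 ^ n ∈ U

/-- The Galois action on points. -/
noncomputable instance actA : DistribMulAction Gam A where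
  smul g P := Q4.vm (g : Qbar →+* Qbar) 1 P
  one_smul P := Q4.vm_one P
  mul_smul g h P := by
    change _ = Q4.vm _ 1 (Q4.vm _ 1 P)
    rw [Q4.vm_comp (one_pow 4) (one_pow 4), map_one, mul_one]
    rfl
  smul_zero g := map_zero (Q4.vm _ 1)
  smul_add g := map_add (Q4.vm _ 1)

theorem act_def (g : Gam) (P : A) : g • P = Q4.vm (g : Qbar →+* Qbar) 1 P := rfl

/-- The scalar by which `g` acts on the points that are killed by `m`. -/
noncomputable def cm (m : O) (g : Gam) : O :=
  if h : ∃ a : O, ∀ P : A, m • P = 0 → g • P = a • P then h.choose else 1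

/-- The scalar by which `g` acts on the points of two-power order. -/
noncomputable def psi (g : Gam) : Ow := ulO fun e => oW (cm (2 ^ e) g)

/-- The scalar of the twisted action. -/
noncomputable def rho0 (t : Tw) (g : Gam) : Ow := oW (un (zq t.ρ g)) * psi g

/-- The primary generators of the points that are killed by `m`. -/
noncomputable def Im (m : O) : Finset A :=
  (En m).filter fun P => ∃ a, IsCoprime a m ∧ Prim a ∧ P = tq a m

/-- The coordinate of a point. -/
noncomputable def co (m : O) (P : A) : O := if h : ∃ a, P = tq a m then h.choose else 0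

/-- The points whose multiple lies in `S`. -/
noncomputable def pre (n : O) (S : Finset A) : Finset A :=
  S.biUnion fun B => (En n).image fun T => (if h : ∃ Q, n • Q = B then h.choose else 0) + T

/-- A root of order `2 ^ e`. -/
noncomputable def rt2 (e : ℕ) (x : Qbar) : Qbar :=
  (IsAlgClosed.exists_pow_nat_eq x (pow_pos two_pos e)).choose

theorem rt2_pow (e : ℕ) (x : Qbar) : rt2 e x ^ 2 ^ e = x :=
  (IsAlgClosed.exists_pow_nat_eq x (pow_pos two_pos e)).choose_spec

/-- A root of the elliptic unit. -/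
noncomputable def yb (b : O) (e : ℕ) (P : A) : Qbar := rt2 e (ub b P)

/-- An index modulo a prime. -/
structure Ix (t : TP) (s : ℕ) where
  ind : O → ZMod (2 ^ s)
  mul : ∀ a b, ¬ t.π ∣ a → ¬ t.π ∣ b → ind (a * b) = ind a + ind b
  per : ∀ a b, t.π ∣ a - b → ind a = ind b
  unit : ind ii = 0
  sig : ind (cm t.π t.σ) = 1
  par : ∀ a, ¬ t.π ∣ a → (Even (ind a).val ↔ ∃ b, t.π ∣ a - b ^ 2)
  dvd : 2 ^ (s + 2) ∣ nm t.π - 1
  pos : 0 < s

/-- The index as a character of the Galois group. -/
noncomputable def Ix.ig {t : TP} {s : ℕ} (x : Ix t s) (g : Gam) : ZMod (2 ^ s) := x.ind (cm t.π g)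

end Pool.Agent.Lib.MP_696deb_nt.EU
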