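import Pool.Agent.Lib.MP_696deb_nt.EU.G0

/-! The Gaussian field, its places, and the density theorem. -/

set_option autoImplicit false

open scoped Classical NNReal
open Finset

namespace Pool.Agent.Lib.MP_696deb_nt.EU

variable {g h σ : Gam} {v : Plc} {a : O}

theorem op_G : Op G := B2.op_GK 1

theorem normal_G : G.Normal := B2.normal_GK 1

theorem tc_G : B2.TC G := B2.tc_of_le one_pos le_rfl

theorem mem_G : g ∈ G ↔ g II = II := B2.B4c_mem.trans B2.chi_eq_one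

theorem io_fx (a : O) : Fx G (io a) := fun g hg => by
  simp [EA.io_apply, mem_G.1 hg]

theorem fx_G {x : Qbar} (h : Fx G x) : ∃ a b : O, b ≠ 0 ∧ x * io b = io a := by
  obtain ⟨a, b, e⟩ := B2.fx_GK one_pos h
  have e' : x = a + b * II := e
  have a0 : (a.den : Qbar) ≠ 0 := Nat.cast_ne_zero.2 a.den_ne_zero
  have b0 : (b.den : Qbar) ≠ 0 := Nat.cast_ne_zero.2 b.den_ne_zero
  refine ⟨⟨a.num * b.den, -(b.num * a.den)⟩, a.den * b.den,
    mul_ne_zero (Nat.cast_ne_zero.2 a.den_ne_zero) (Nat.cast_ne_zero.2 b.den_ne_zero), ?_⟩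
  rw [map_mul, map_natCast, map_natCast, EA.io_apply, e', Rat.cast_def, Rat.cast_def]
  push_cast
  field_simp
  ring

theorem cc_io (a : O) : cc (io a) = io (star a) := by
  have h : cc II = -II :=
    (B2.rt_or (-1) cc).resolve_left fun e => B2.cc_notMem one_pos (mem_G.2 e)
  simp [EA.io_apply, h]

theorem ine_le (hv : v.p ≠ 2) : Ine v ≤ G := fun _ hg => mem_G.2 (EA.ine_II hv hg)

theorem TP.odd (t : TP) : t.v.p ≠ 2 := t.tm.odd

theorem TP.φ_mem (t : TP) : t.φ ∈ G := t.tm.mem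

theorem TP.σ_ine (t : TP) : t.σ ∈ Ine t.v := t.tm.gen.1

theorem TP.σ_mem (t : TP) : t.σ ∈ G := ine_le t.odd t.σ_ine

theorem TP.red (t : TP) : Q4.red t.π = 1 := EA.prim_red t.prim

theorem TP.nm_mod (t : TP) : nm t.π % 4 = 1 := EA.prim_norm t.prim

theorem g1_unit {u : O} (hu : IsUnit u) : v.V (io u) = 1 := by
  obtain ⟨c, e⟩ := hu.exists_right_inv
  have := congrArg (fun x => v.V (io x)) e
  simp only [map_mul, map_one] at this
  exact le_antisymm (EA.V_io_le v u) (this.symm.trans_le (mul_le_of_le_one_right' (EA.V_io_le v c)))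

theorem g1_dvd {π : O} (h : v.V (io π) < 1) (k : π ∣ a) : v.V (io a) < 1 := by
  obtain ⟨c, rfl⟩ := k
  rw [map_mul, map_mul]
  exact mul_lt_one_of_lt_of_le h (EA.V_io_le v c)

theorem g1_lt {π : O} (hp : Prime π) (h : v.V (io π) < 1) : v.V (io a) < 1 ↔ π ∣ a := by
  refine ⟨fun k => by_contra fun e => ?_, g1_dvd h⟩
  obtain ⟨s, t, e⟩ := (hp.irreducible.coprime_iff_not_dvd).2 e
  have := v.V.map_add_lt (g1_dvd h (dvd_mul_left π s)) (g1_dvd k (dvd_mul_left a t))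
  rw [← map_add, e, map_one, map_one] at this
  exact this.ne rfl

theorem g1_eq {π : O} (hp : Prime π) (h : v.V (io π) < 1) : v.V (io a) = 1 ↔ ¬ π ∣ a := by
  rw [← g1_lt hp h, not_lt]
  exact ⟨fun e => e.ge, le_antisymm (EA.V_io_le v a)⟩

theorem g1_p (v : Plc) : v.V (io v.p) < 1 := by
  rw [map_natCast]
  exact B2.b2a_p_lt v

theorem TP.V_lt (t : TP) : t.v.V (io a) < 1 ↔ t.π ∣ a := g1_lt t.prime t.lt

theorem TP.V_eq (t : TP) : t.v.V (io a) = 1 ↔ ¬ t.π ∣ a := g1_eq t.prime t.lt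

theorem TP.V_pi (t : TP) : t.v.V (io t.π) = (t.v.p : ℝ≥0)⁻¹ := by
  obtain ⟨k, hk⟩ := B2.V_of_fx_ine (w := t.v) (fun g hg => io_fx t.π g (ine_le t.odd hg))
    (EA.io_ne t.prime.ne_zero)
  have h1 := B2.b2a_one_lt t.v
  have h0 := zero_lt_one.trans h1
  have h2 := t.lt
  obtain ⟨c, e⟩ := t.V_lt.1 (g1_p t.v)
  have h3 : t.v.V (io t.v.p) ≤ t.v.V (io t.π) := by
    rw [e, map_mul, map_mul]
    exact mul_le_of_le_one_right' (EA.V_io_le _ c)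
  rw [map_natCast, t.v.hV, hk, inv_le_inv₀ h0 (zpow_pos h0 k), ← zpow_one (t.v.p : ℝ≥0),
    ← zpow_mul, zpow_le_zpow_iff_right₀ h1] at h3
  rw [hk, inv_lt_one₀ (zpow_pos h0 k), one_lt_zpow_iff_right₀ h1] at h2
  rw [hk, show k = 1 by omega, zpow_one]

theorem TP.dvd_p (t : TP) : t.π ∣ (t.v.p : O) := t.V_lt.1 (g1_p t.v)

theorem TP.cyc_φ (t : TP) : cyc t.φ = nm t.π := B2.cyc_frob t.odd t.tm.frob

theorem TP.cyc_σ (t : TP) : cyc t.σ = 1 := B2.cyc_ine t.odd t.σ_ine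

theorem g1_prim : Prim a ↔ w ^ 3 ∣ a - 1 := by
  refine ⟨fun h => (EA.prim_eq h).imp fun c e => by rw [e, add_sub_cancel_left], fun ⟨c, e⟩ => ?_⟩
  rw [eq_add_of_sub_eq e, show w ^ 3 = ⟨-2, 2⟩ by decide, Prim]
  simp only [Zsqrtd.re_add, Zsqrtd.im_add, Zsqrtd.re_mul, Zsqrtd.im_mul, Zsqrtd.re_one,
    Zsqrtd.im_one]
  omega

theorem prim_assoc {a b : O} (ha : Prim a) (hb : Prim b) (h : Associated a b) : a = b := by
  obtain ⟨u, rfl⟩ := h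
  have h1 : Prim (u : O) := g1_prim.2 (by
    have := (g1_prim.1 hb).sub ((g1_prim.1 ha).mul_right u)
    rwa [show a * u - 1 - (a - 1) * u = u - 1 by ring] at this)
  have h2 : (u : O).norm = 1 := (Zsqrtd.norm_eq_one_iff' (by norm_num) _).2 u.isUnit
  obtain ⟨h3, h4⟩ := h1
  rw [Zsqrtd.norm_def] at h2
  have h5 : (u : O).im ≤ 1 ∧ -1 ≤ (u : O).im ∧ (u : O).re ≤ 1 ∧ -1 ≤ (u : O).re :=
    ⟨by nlinarith, by nlinarith, by nlinarith [mul_self_nonneg (u : O).im],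
      by nlinarith [mul_self_nonneg (u : O).im]⟩
  rw [show (u : O) = 1 from Zsqrtd.ext (by rw [Zsqrtd.re_one]; omega)
    (by rw [Zsqrtd.im_one]; omega), mul_one]

theorem exists_prim (h : Q4.red a = 1) : ∃ n : ℕ, Prim (ii ^ n * a) := by
  rw [EA.red_iff] at h
  have : Prim (ii ^ 0 * a) ∨ Prim (ii ^ 1 * a) ∨ Prim (ii ^ 2 * a) ∨ Prim (ii ^ 3 * a) := by
    simp [QF.Prim, Q4.ii, pow_succ]
    omega
  rcases this with k | k | k | k <;> exact ⟨_, k⟩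

theorem prim_iff : Prim a ↔ w ^ 3 ∣ a - 1 := g1_prim

theorem prim_mul {b : O} (ha : Prim a) (hb : Prim b) : Prim (a * b) := g1_prim.2 (by
  have := ((g1_prim.1 ha).mul_right b).add (g1_prim.1 hb)
  rwa [show (a - 1) * b + (b - 1) = a * b - 1 by ring] at this)

theorem TP.not_dvd (t t' : TP) (h : t.π ≠ t'.π) : ¬ t.π ∣ t'.π := fun e =>
  h (prim_assoc t.prim t'.prim (t.prime.associated_of_dvd t'.prime e))

theorem g1_fac (h0 : a ≠ 0) (h : v.V (io a) < 1) : ∃ π, Prime π ∧ v.V (io π) < 1 := by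
  induction a using UniqueFactorizationMonoid.induction_on_prime with
  | h₁ => exact absurd rfl h0
  | h₂ u hu => exact absurd (g1_unit hu) h.ne
  | h₃ a p a0 hp ih =>
    by_cases k : v.V (io p) < 1
    · exact ⟨p, hp, k⟩
    · rw [map_mul, map_mul, le_antisymm (EA.V_io_le v p) (not_lt.1 k), one_mul] at h
      exact ih a0 h

theorem g1_pi (hv : v.p ≠ 2) : ∃ π, Prime π ∧ Prim π ∧ v.V (io π) < 1 := by
  obtain ⟨π, h1, h2⟩ := g1_fac (Nat.cast_ne_zero.2 v.prime.ne_zero) (g1_p v)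
  obtain ⟨n, hn⟩ := exists_prim ((EA.red_prime h1).resolve_right fun e =>
    (g1_dvd h2 e.symm.dvd).ne (EA.V_w hv))
  exact ⟨_, (prime_isUnit_mul (Q4.isUnit_ii.pow n)).2 h1, hn, g1_dvd h2 (dvd_mul_left _ _)⟩

theorem g1_nm_mul (a b : O) : nm (a * b) = nm a * nm b := by
  rw [nm, Zsqrtd.norm_mul, Int.natAbs_mul, nm, nm]

theorem g1_nm_nat (n : ℕ) : nm n = n ^ 2 := by
  rw [nm, Zsqrtd.norm_natCast, Int.natAbs_mul, Int.natAbs_natCast, sq]

theorem g1_nm_one : nm a = 1 ↔ IsUnit a := Zsqrtd.norm_eq_one_iff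

theorem g1_nm {π : O} (hp : Prime π) (h : v.V (io π) < 1) : nm π = v.p ∨ nm π = v.p ^ 2 := by
  obtain ⟨c, e⟩ := (g1_lt hp h).1 (g1_p v)
  have h1 : nm π ∣ v.p ^ 2 := ⟨nm c, by rw [← g1_nm_mul, ← e, g1_nm_nat]⟩
  obtain ⟨i, hi, k⟩ := (Nat.dvd_prime_pow v.prime).1 h1
  interval_cases i
  · exact absurd (g1_nm_one.1 k) hp.not_isUnit
  · exact .inl (k.trans (pow_one _))
  · exact .inr k

theorem g1_dec {φ : Gam} (hv : v.p ≠ 2) (hφ : IsFrob v v.p φ) (k : φ ∈ G) : Dec v ≤ G := by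
  intro g hg
  obtain ⟨n, σ, h1, h2, -⟩ := B2.dec_gen hφ hg op_G
  exact (mul_mem_cancel_left (inv_mem (mul_mem (pow_mem k n) (ine_le hv h1)))).1 h2

theorem g1_split {π : O} {φ : Gam} (h1 : Prime π) (h2 : Prim π) (h3 : v.V (io π) < 1)
    (hφ : IsFrob v v.p φ) (k : φ ∈ G) : nm π = v.p := by
  refine (g1_nm h1 h3).resolve_right fun e => ?_
  have hv := EA.V_two_of (EA.prim_red h2) h3
  obtain ⟨c, e'⟩ := (g1_lt h1 h3).1 (g1_p v)
  have h4 := g1_nm_mul π c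
  rw [← e', g1_nm_nat, e, left_eq_mul₀ (pow_ne_zero 2 v.prime.ne_zero), g1_nm_one] at h4
  have : Fact v.p.Prime := ⟨v.prime⟩
  have h5 := (GaussianInt.prime_iff_mod_four_eq_three_of_nat_prime v.p).1
    (e' ▸ (prime_mul_isUnit h4).2 h1)
  have h6 := B2.chi_frob (a := -1) (fun d => hv ((Nat.prime_dvd_prime_iff_eq v.prime
    Nat.prime_two).1 (Int.natCast_dvd_natCast.1 (by simpa using d)))) hφ
  rw [show B2.chi (-1) φ = 1 from k, jacobiSym.at_neg_one (v.prime.odd_of_ne_two hv),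
    ZMod.χ₄_nat_three_mod_four h5] at h6
  exact absurd h6 (by decide)

theorem exists_tp_v (hv : v.p ≠ 2) : ∃ t : TP, t.v = v := by
  obtain ⟨π, h1, h2, h3⟩ := g1_pi hv
  obtain ⟨φ, hφ⟩ := B2.exists_frob v
  obtain ⟨τ, hτ⟩ := B2.exists_gen hv
  by_cases k : φ ∈ G
  · exact ⟨⟨π, v, φ, τ, h1, h2, h3, g1_split h1 h2 h3 hφ k ▸
      B2.tm_split op_G hv (g1_dec hv hφ k) hφ hτ⟩, rfl⟩
  · have e : nm π = v.p ^ 2 := (g1_nm h1 h3).resolve_left fun e =>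
      k (mem_G.2 (EA.frob_II (e ▸ EA.prim_norm h2) hv hφ))
    exact ⟨⟨π, v, φ * φ, τ, h1, h2, h3, e ▸ B2.tm_inert hv (ine_le hv) hφ k hτ⟩, rfl⟩

theorem exists_tp {π : O} (h : Prime π) (k : Prim π) : ∃ t : TP, t.π = π := by
  have : ∃ v : Plc, v.V (io π) < 1 := by
    obtain ⟨p, hp, c, e⟩ := Nat.exists_prime_and_dvd (mt g1_nm_one.1 h.not_isUnit)
    obtain ⟨v, rfl⟩ := B2.exists_plc hp
    have h1 : v.V (io (π * star π)) < 1 := g1_dvd (g1_p v) ⟨c, by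
      rw [← Zsqrtd.norm_eq_mul_conj, ← Int.natAbs_of_nonneg (GaussianInt.norm_nonneg π),
        Int.cast_natCast, ← Nat.cast_mul, ← e, nm]⟩
    by_cases h2 : v.V (io π) < 1
    · exact ⟨v, h2⟩
    · rw [map_mul, map_mul, le_antisymm (EA.V_io_le v π) (not_lt.1 h2), one_mul] at h1
      exact ⟨cc⁻¹ • v, by rwa [B2.smul_V, inv_inv, cc_io]⟩
  obtain ⟨v, hv⟩ := this
  obtain ⟨t, rfl⟩ := exists_tp_v (EA.V_two_of (EA.prim_red k) hv)
  exact ⟨t, prim_assoc t.prim k (t.prime.associated_of_dvd h (t.V_lt.1 hv))⟩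

theorem g1_fx {x : Qbar} (h : Fx G x) : ∃ a b : O, IsRelPrime a b ∧ x * io b = io a := by
  obtain ⟨a, b, b0, e⟩ := fx_G h
  obtain ⟨a, b, c, k, rfl, rfl⟩ := UniqueFactorizationMonoid.exists_reduced_factors' a b b0
  refine ⟨a, b, k, mul_left_cancel₀ (EA.io_ne (left_ne_zero_of_mul b0)) ?_⟩
  rw [← map_mul, ← e, map_mul, mul_left_comm]

theorem TP.conj (t : TP) (h : v.V (io t.π) < 1) : ∃ g ∈ G, g • t.v = v := by
  refine B2.plc_conj_of op_G.closed fun x hx => ?_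
  obtain ⟨a, b, h1, e⟩ := g1_fx hx
  have key : ∀ v : Plc, v.V (io t.π) < 1 → (v.V x < 1 ↔ t.π ∣ a) := fun v h => by
    have e' := congrArg v.V e
    rw [map_mul] at e'
    refine ⟨fun k => (g1_lt t.prime h).1 (e' ▸ mul_lt_one_of_lt_of_le k (EA.V_io_le v b)),
      fun k => ?_⟩
    rw [(g1_eq t.prime h).2 fun k' => t.prime.not_isUnit (h1 k k'), mul_one] at e'
    exact e' ▸ g1_dvd h k
  rw [key _ t.lt, key _ h]

theorem g1_ram : ∃ σ ∈ Dec w2, σ ∉ G := by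
  obtain ⟨σ, h1, h2, -⟩ := B2.exists_ine_two w2_p (-1) 1
  exact ⟨σ, h1.1, B2.B4c_notMem.2 h2⟩

theorem conj_w2 (h : v.p = 2) : ∃ g ∈ G, g • w2 = v := by
  obtain ⟨σ, h1, h2⟩ := g1_ram
  exact B2.conj_of_inert (h.trans w2_p.symm) h1 h2

theorem V_w2 : w2.V (io w) ^ 2 = 2⁻¹ := by
  have h := w2.hV
  rw [w2_p, ← map_natCast io, Nat.cast_ofNat, Q4.two_eq, map_mul, map_mul,
    g1_unit Q4.isUnit_ii.neg, one_mul, map_pow, map_pow] at h
  exact_mod_cast h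

theorem V_w2_odd (h : Q4.red a = 1) : w2.V (io a) = 1 := by
  by_contra k
  exact EA.V_two_of h ((EA.V_io_le _ a).lt_of_ne k) w2_p

theorem relIndex_w2 : Hw.relIndex (Dec w2) = 2 := by
  obtain ⟨σ, h1, h2⟩ := g1_ram
  exact B2.relIndex_inert h1 h2

theorem g1_w : Prime w := QF.f3_prime Nat.prime_two (by decide)

theorem g1_w_pos : 0 < w2.V (io w) := B2.b3a_pos w2 (EA.io_ne g1_w.ne_zero)

theorem g1_w_lt : w2.V (io w) < 1 :=
  (pow_lt_one_iff_of_nonneg zero_le two_ne_zero).1 (V_w2.trans_lt (by norm_num))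

/-- Elements of the local field are approximated by Gaussian integers. -/
theorem approx_w2 {x : Qbar} (hx : Fx Hw x) (h : w2.V x ≤ 1) (n : ℕ) :
    ∃ a : O, w2.V (x - io a) ≤ w2.V (io w) ^ n := by
  obtain ⟨y, hy, k⟩ := B2.approx op_G hx (pow_pos g1_w_pos n)
  have k1 : w2.V y ≤ 1 := by
    rw [show y = x - (x - y) by ring]
    exact w2.V.map_sub_le h (k.le.trans (pow_le_one' g1_w_lt.le n))
  obtain ⟨a, b, h1, e⟩ := g1_fx hy
  have k2 : ¬ w ∣ b := fun d => g1_w.not_isUnit (h1 ((g1_lt g1_w g1_w_lt).1 (by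
    rw [← e, map_mul, mul_comm]
    exact mul_lt_one_of_lt_of_le (g1_dvd g1_w_lt d) k1)) d)
  obtain ⟨s, t, e'⟩ := ((g1_w.irreducible.coprime_iff_not_dvd).2 k2).pow_left (m := n)
  refine ⟨t * a, ?_⟩
  have e2 := congrArg io e'
  rw [map_add, map_mul, map_mul, map_pow, map_one] at e2
  rw [show x - io (t * a) = x - y + y * io s * io w ^ n by
    rw [map_mul, ← e]; linear_combination y * e2.symm]
  refine w2.V.map_add_le k.le ?_
  rw [map_mul, map_mul, map_pow]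
  exact mul_le_of_le_one_left' (mul_le_one' k1 (EA.V_io_le _ s))

theorem g1_val (h : a ≠ 0) : ∃ n : ℕ, w2.V (io a) = w2.V (io w) ^ n := by
  obtain ⟨n, c, k, rfl⟩ := WfDvdMonoid.max_power_factor h g1_w.irreducible
  exact ⟨n, by rw [map_mul, map_mul, (g1_eq g1_w g1_w_lt).2 k, mul_one, map_pow, map_pow]⟩

theorem V_fx_w2 {x : Qbar} (hx : Fx Hw x) (h0 : x ≠ 0) : ∃ n : ℤ, w2.V x = w2.V (io w) ^ n := by
  obtain ⟨y, hy, k⟩ := B2.approx op_G hx (B2.b3a_pos w2 h0)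
  have k1 : w2.V y = w2.V x := by
    rw [show y = x - (x - y) by ring]
    exact w2.V.map_sub_eq_of_lt_left k
  obtain ⟨a, b, b0, e⟩ := fx_G hy
  have a0 : a ≠ 0 := fun a0 => by
    rw [a0, map_zero, mul_eq_zero_iff_right (EA.io_ne b0)] at e
    rw [e, map_zero] at k1
    exact (B2.b3a_pos w2 h0).ne k1
  obtain ⟨i, hi⟩ := g1_val a0
  obtain ⟨j, hj⟩ := g1_val b0
  refine ⟨i - j, ?_⟩
  rw [zpow_sub₀ g1_w_pos.ne', zpow_natCast, zpow_natCast, ← hi, ← e, map_mul, k1, hj,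
    mul_div_cancel_right₀ _ (pow_pos g1_w_pos j).ne']

theorem V_w2_dvd {n : ℕ} : w2.V (io a) ≤ w2.V (io w) ^ n ↔ w ^ n ∣ a := by
  constructor
  · induction n generalizing a with
    | zero => exact fun _ => by simp
    | succ n ih =>
      intro h
      obtain ⟨c, rfl⟩ := (g1_lt g1_w g1_w_lt).1 (h.trans_lt (pow_lt_one' g1_w_lt n.succ_ne_zero))
      rw [map_mul, map_mul, pow_succ', mul_le_mul_iff_right₀ g1_w_pos] at h
      rw [pow_succ']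
      exact mul_dvd_mul_left w (ih h)
  · rintro ⟨c, rfl⟩
    rw [map_mul, map_mul, map_pow, map_pow]
    exact mul_le_of_le_one_right' (EA.V_io_le _ c)

/-- Changing the Frobenius element by an element of the inertia group. -/
noncomputable def TP.adj (t : TP) (σ : Gam) (h : σ ∈ Ine t.v) : TP :=
  ⟨t.π, t.v, t.φ * σ, t.σ, t.prime, t.prim, t.lt, t.tm.mul_ine h⟩

theorem nice_G : Nice G :=
  ⟨le_rfl, op_G, fun _ hg _ hu => mul_mem (mul_mem hg hu) (inv_mem hg), fun _ hg =>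
    ⟨0, pow_mem hg _⟩⟩

theorem g1_pow {U : Subgroup Gam} {m : ℕ} (h : g ^ 2 ^ m ∈ U) (n : ℕ) : g ^ 2 ^ (m + n) ∈ U := by
  rw [pow_add, pow_mul]
  exact pow_mem h _

theorem Nice.inf {U U' : Subgroup Gam} (h : Nice U) (k : Nice U') : Nice (U ⊓ U') :=
  ⟨inf_le_left.trans h.le, h.op.inf k.op, fun g hg u hu => ⟨h.conj g hg u hu.1, k.conj g hg u hu.2⟩,
    fun g hg => by
      obtain ⟨m, hm⟩ := h.two g hg
      obtain ⟨n, hn⟩ := k.two g hg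
      exact ⟨m + n, g1_pow hm n, add_comm n m ▸ g1_pow hn m⟩⟩

theorem nice_fin {ι : Type} [Finite ι] {p : ι → Gam → Prop}
    (h : ∀ i, ∃ U, Nice U ∧ ∀ u ∈ U, p i u) : ∃ U, Nice U ∧ ∀ u ∈ U, ∀ i, p i u := by
  have := Fintype.ofFinite ι
  have key (s : Finset ι) : ∃ U, Nice U ∧ ∀ u ∈ U, ∀ i ∈ s, p i u := by
    induction s using Finset.induction_on with
    | empty => exact ⟨G, nice_G, by simp⟩
    | insert i s _ ih =>
      obtain ⟨U, h1, h2⟩ := ih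
      obtain ⟨U', h3, h4⟩ := h i
      exact ⟨_, h1.inf h3, fun u hu => forall_mem_insert _ _ _ |>.2 ⟨h4 u hu.2, h2 u hu.1⟩⟩
  obtain ⟨U, h1, h2⟩ := key univ
  exact ⟨U, h1, fun u hu i => h2 u hu i (mem_univ i)⟩

theorem g1_ker {F : Type} [Group F] {π : Gam → F} (h1 : Sm G π) (h2 : B2.IsMul G π)
    (h3 : ∀ g ∈ G, ∃ n : ℕ, π g ^ 2 ^ n = 1) : ∃ U, Nice U ∧ ∀ u ∈ U, π u = 1 := by
  let f : G →* F := MonoidHom.mk' (fun g => π g) fun g k => h2 g g.2 k k.2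
  have m : ∀ g, g ∈ f.ker.map G.subtype ↔ g ∈ G ∧ π g = 1 := fun g =>
    ⟨by rintro ⟨k, hk, rfl⟩; exact ⟨k.2, hk⟩, fun k => ⟨⟨g, k.1⟩, k.2, rfl⟩⟩
  refine ⟨f.ker.map G.subtype, ⟨fun g hg => ((m g).1 hg).1, ?_, ?_, fun g hg => ?_⟩,
    fun u hu => ((m u).1 hu).2⟩
  · obtain ⟨U, u1, -, u3⟩ := h1
    exact Subgroup.isOpen_mono (H₁ := G ⊓ U) (fun g hg => (m g).2 ⟨hg.1,
      (u3 1 (one_mem _) g hg.1 (by simpa using hg.2)).symm.trans (B2.b4a_one h2)⟩) (op_G.inf u1)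
  · rintro g hg _ ⟨u, hu, rfl⟩
    exact ⟨_, f.normal_ker.conj_mem u hu ⟨g, hg⟩, rfl⟩
  · obtain ⟨n, hn⟩ := h3 g hg
    exact ⟨n, (m _).2 ⟨pow_mem hg _, (B2.b4a_pow h2 hg _).trans hn⟩⟩

theorem nice_coc {M : Type} [AddCommGroup M] [Finite M] {m : ℕ} (hM : ∀ x : M, 2 ^ m • x = 0)
    {α : Gam → M →+ M} {c : Gam → M} (ha : Act G α) (h : Coc G α c) :
    ∃ U, Nice U ∧ ∀ u ∈ U, c u = 0 ∧ ∀ x, α u x = x := by
  obtain ⟨U, h1, h2⟩ := g1_ker (B2.loAff_sm ha h) (B2.loAff_mul ha h)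
    fun g hg => B2.loAff_two hM ha h hg
  refine ⟨U, h1, fun u hu => ?_⟩
  have := B2.loAff_eq ha h (h1.le hu) (one_mem _)
    ((h2 u hu).trans (B2.b4a_one (B2.loAff_mul ha h)).symm)
  exact ⟨this.1.trans (h.lo_one ha), fun x => (this.2 x).trans (ha.one x)⟩

theorem g1_two {m : ℕ} (x : ZMod (2 ^ m)) : 2 ^ m • x = 0 := by
  rw [nsmul_eq_mul, ZMod.natCast_self, zero_mul]

theorem nice_hom {m : ℕ} {χ : Gam → ZMod (2 ^ m)} (h : Sm G χ) (k : IsHom G χ) :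
    ∃ U, Nice U ∧ ∀ u ∈ U, χ u = 0 :=
  g1_ker (h.comp Multiplicative.ofAdd) k fun g _ => ⟨m, congrArg Multiplicative.ofAdd (g1_two (χ g))⟩

theorem g1_cy_one (m : ℕ) : cy m 1 = 1 := by rw [B2.cy, B2.cyc_one, map_one]

theorem g1_act (m : ℕ) : Act G fun g => AddMonoidHom.mulLeft (cy m g) := by
  refine ⟨(B2.sm_cy m).comp _, fun x => ?_, fun g _ k _ x => ?_, fun g _ => ⟨m - 1, fun x => ?_⟩⟩
  · rw [g1_cy_one]; exact one_mul x
  · rw [B2.b3b_cy]; exact mul_assoc _ _ _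
  · let f : Gam →* ZMod (2 ^ m) := ⟨⟨cy m, g1_cy_one m⟩, B2.b3b_cy m⟩
    have h := congrArg Units.val (ZMod.pow_totient (f.toHomUnits g))
    rw [show Nat.totient (2 ^ m) = 2 ^ (m - 1) by
      cases m
      · rfl
      · rw [Nat.totient_prime_pow_succ Nat.prime_two]; simp, ← map_pow] at h
    exact (congrArg (· * x) h).trans (one_mul x)

theorem nice_cy (m : ℕ) : ∃ U, Nice U ∧ ∀ u ∈ U, cy m u = 1 := by
  obtain ⟨U, h1, h2⟩ := nice_coc g1_two (g1_act m) (B2.Coc.zero _ _)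
  exact ⟨U, h1, fun u hu => (mul_one _).symm.trans ((h2 u hu).2 1)⟩

theorem nice_root (e : ℕ) {x : Qbar} (h : Fx G x) :
    ∃ U, Nice U ∧ ∀ u ∈ U, u (rt2 e x) = rt2 e x := by
  by_cases r0 : rt2 e x = 0
  · exact ⟨G, nice_G, fun u _ => by rw [r0, map_zero]⟩
  have : ∀ g : Gam, ∃ c : ZMod (2 ^ e), g ∈ G → g (rt2 e x) = rt2 e x * zeta e ^ c.val := fun g => by
    by_cases hg : g ∈ G
    · obtain ⟨ζ, h1, h2⟩ := B2.b4a_root r0 (rt2_pow e x) (h g hg)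
      obtain ⟨c, rfl⟩ := B2.exists_zeta_val h1
      exact ⟨c, fun _ => h2⟩
    · exact ⟨0, fun k => absurd k hg⟩
  choose κ hκ using this
  have k : Kum e G x κ := ⟨_, r0, rt2_pow e x, hκ⟩
  obtain ⟨U, h1, h2⟩ := nice_coc g1_two (g1_act e) ⟨k.sm, k.coc⟩
  exact ⟨U, h1, fun u hu => by rw [hκ u (h1.le hu), (h2 u hu).1, ZMod.val_zero, pow_zero, mul_one]⟩

/-- The density theorem. -/
theorem cheb {U : Subgroup Gam} (hU : Nice U) (hg : g ∈ G) (B : Finset ℕ) :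
    ∃ (t : TP) (n : ℕ), Odd n ∧ t.v.p ∉ B ∧ nm t.π = t.v.p ∧ t.φ⁻¹ * g ^ n ∈ U := by
  obtain ⟨U', u1, u2, u3⟩ := B2.exists_normal_le hU.op
  obtain ⟨m, hm⟩ := hU.two g hg
  obtain ⟨n, hn⟩ := hU.two _ (normal_G.conj_mem g hg cc)
  obtain ⟨v, φ, a, h1, h2, h3, h4⟩ := B2.m_cheb U.normalCore g (m + n) (insert 2 B)
    (Subgroup.isOpen_mono (Subgroup.normal_le_normalCore.2 u3) u1) inferInstance fun b => by
      by_cases hb : b ∈ G
      · exact hU.conj b hb _ (g1_pow hm n)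
      · have := hU.conj _ (B2.mul_mem_GK hb (mt inv_mem_iff.1 (B2.cc_notMem one_pos))) _
          (g1_pow hn m)
        rw [conj_pow, add_comm n] at this
        simpa [mul_assoc] using this
  rw [mem_insert, not_or] at h1
  have h5 := U.normalCore_le h4
  have h6 : φ ∈ G := inv_mem_iff.1 ((mul_mem_cancel_right (pow_mem hg a)).1 (hU.le h5))
  obtain ⟨π, k1, k2, k3⟩ := g1_pi h1.1
  obtain ⟨τ, hτ⟩ := B2.exists_gen h1.1
  have e := g1_split k1 k2 k3 h2 h6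
  exact ⟨⟨π, v, φ, τ, k1, k2, k3, e ▸ B2.tm_split op_G h1.1 (g1_dec h1.1 h2 h6) h2 hτ⟩, a, h3,
    h1.2, e, h5⟩

/-- Double commutators fix the roots of Gaussian numbers. -/
theorem comm_root (e : ℕ) {x : Qbar} (hx : Fx G x) (hg : g ∈ G) (hh : h ∈ G) (h1 : cyc g = 1) :
    (g * (g * h * g⁻¹ * h⁻¹) * g⁻¹ * (g * h * g⁻¹ * h⁻¹)⁻¹) (rt2 e x) = rt2 e x := by
  have c1 : cy e g = 1 := by rw [B2.cy, h1, map_one]
  have c2 : cy e (g * h * g⁻¹ * h⁻¹) = 1 := by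
    rw [B2.b3b_cy, B2.b3b_cy, B2.b3b_cy, mul_right_comm (cy e g), ← B2.b3b_cy, mul_inv_cancel,
      g1_cy_one, one_mul, ← B2.b3b_cy, mul_inv_cancel, g1_cy_one]
  have m : g * h * g⁻¹ * h⁻¹ ∈ G := mul_mem (mul_mem (mul_mem hg hh) (inv_mem hg)) (inv_mem hh)
  generalize g * h * g⁻¹ * h⁻¹ = k at *
  have fix : ∀ {u : Gam} {ζ : Qbar}, cy e u = 1 → ζ ^ 2 ^ e = 1 → u ζ = ζ := fun hu hζ => by
    obtain ⟨c, rfl⟩ := B2.exists_zeta_val hζ
    rw [B2.smul_zeta_val, hu, one_mul]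
  have hs : (g⁻¹ (k⁻¹ (rt2 e x))) ^ 2 ^ e = x := by
    rw [← map_pow, ← map_pow, rt2_pow, hx _ (inv_mem m), hx _ (inv_mem hg)]
  have key : ∀ s : Qbar, s ^ 2 ^ e = x → g (k s) = k (g s) := fun s hs => by
    by_cases s0 : s = 0
    · simp [s0]
    obtain ⟨ζ, a1, a2⟩ := B2.b4a_root s0 hs (hx g hg)
    obtain ⟨ξ, a3, a4⟩ := B2.b4a_root s0 hs (hx k m)
    rw [a2, a4, map_mul, map_mul, a2, a4, fix c1 a3, fix c2 a1, mul_right_comm]
  exact (key _ hs).trans ((congrArg k (g.apply_symm_apply _)).trans (k.apply_symm_apply _))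

end Pool.Agent.Lib.MP_696deb_nt.EU
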