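import Pool.Agent.Lib.MP_696deb_nt.EU.C5

/-! Quadratic characters with restricted ramification. -/

set_option autoImplicit false

open scoped Classical NNReal
open Finset

namespace Pool.Agent.Lib.MP_696deb_nt.EU

variable {ι : Type} {t : ι → TP}

theorem p1_ii : (ii : O) ≠ 0 := by decide

theorem p1_w : (w : O) ≠ 0 := by decide

theorem p1_V_ii (v : Plc) : v.V (io ii) = 1 :=
  v.V_root_of_unity four_ne_zero (by rw [← map_pow, show ii ^ 4 = 1 by decide, map_one])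

theorem p1_V_sq (v : Plc) : v.V (io w) ^ 2 = v.V 2 := by
  rw [← map_pow, ← map_pow, show w ^ 2 = ii * 2 by decide, map_mul, map_mul, p1_V_ii, one_mul,
    map_ofNat]

theorem p1_V_w {v : Plc} (hv : v.p ≠ 2) : v.V (io w) = 1 := by
  have h := (v.V_int_eq_one (a := 2)).2 fun k => hv
    ((Nat.prime_dvd_prime_iff_eq v.prime Nat.prime_two).1 (Int.natCast_dvd_natCast.1 k))
  rw [Int.cast_ofNat, ← p1_V_sq] at h
  exact (pow_eq_one_iff_of_nonneg zero_le two_ne_zero).1 h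

theorem p1_lt : w2.V (io w) < 1 := by
  refine lt_of_pow_lt_pow_left₀ 2 zero_le ?_
  rw [V_w2, one_pow]
  exact two_inv_lt_one

theorem p1_odd {x : Qbar} (h : w2.V x ^ 2 = w2.V (io w)) : ∃ σ ∈ G ⊓ Ine w2, σ x ≠ x := by
  by_contra! k
  have h0 := B2.b3a_pos w2 (EA.io_ne p1_w)
  have x0 : x ≠ 0 := by
    rintro rfl
    rw [map_zero, zero_pow two_ne_zero] at h
    exact h0.ne h
  obtain ⟨y, hy, e⟩ := B2.b3a_unr op_G (w := w2) k x0
  obtain ⟨n, hn⟩ := V_fx_w2 hy fun e' => (B2.b3a_pos w2 x0).ne (by rw [← e, e', map_zero])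
  rw [← e, hn, ← zpow_natCast, ← zpow_mul] at h
  have := zpow_right_injective₀ h0 p1_lt.ne (h.trans (zpow_one _).symm)
  omega

theorem p1_mul {a b : O} (ha : a ≠ 0) (hb : b ≠ 0) {g : Gam} (hg : g ∈ G) :
    chB (io (a * b)) g = chB (io a) g + chB (io b) g := by
  rw [map_mul, Sm.chB_mul (EA.io_ne ha) (EA.io_ne hb) (io_fx a g hg) (io_fx b g hg)]

theorem p1_b4 {a : O} (ha : a ≠ 0) : B4bG G (chB (io a)) := b4_chB (EA.io_ne ha) (io_fx a)

theorem p1_ram {a : O} (h : w2.V (io a) = w2.V (io w)) : ∃ σ ∈ G ⊓ Ine w2, chB (io a) σ = 1 := by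
  obtain ⟨σ, h1, h2⟩ := p1_odd (x := Sm.rt (io a))
    (by rw [pow_two, ← map_mul, Sm.rt_mul_self, h])
  exact ⟨σ, h1, if_neg h2⟩

theorem p1_ram_ii : ∃ σ ∈ G ⊓ Ine w2, chB (io ii) σ = 1 := by
  have h0 := B2.b3a_pos w2 (EA.io_ne p1_w)
  have h1 : w2.V (Sm.rt (io ii) - 1) * w2.V (Sm.rt (io ii) - 1 + 2) = w2.V (io w) := by
    rw [← map_mul, ← one_mul (w2.V (io w)), ← p1_V_ii w2, ← map_mul, ← map_mul,
      show ii * w = ii - 1 by decide, map_sub, map_one]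
    congr 1
    linear_combination Sm.rt_mul_self (io ii)
  have h2 : w2.V 2 < w2.V (Sm.rt (io ii) - 1) := by
    by_contra! k
    have h3 := mul_le_mul' k (w2.V.map_add_le k le_rfl)
    rw [h1, ← p1_V_sq, ← pow_add] at h3
    exact absurd h3 (not_le.2 (pow_lt_self_of_lt_one₀ h0 p1_lt (by norm_num)))
  rw [w2.V.map_add_eq_of_lt_left h2, ← pow_two] at h1
  obtain ⟨σ, h3, h4⟩ := p1_odd h1
  exact ⟨σ, h3, if_neg fun k => h4 (by rw [map_sub, k, map_one])⟩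

theorem gw_spec : IsGw gw := by
  have key : ∃ x, IsGw x := by
    obtain ⟨a, ha, a1⟩ := p1_ram_ii
    obtain ⟨b, hb, b1⟩ := p1_ram (a := w) rfl
    obtain ⟨c, hc, c1⟩ := p1_ram (a := ii * w) (by rw [map_mul, map_mul, p1_V_ii, one_mul])
    rw [p1_mul p1_ii p1_w hc.1] at c1
    have k : ∀ x ∈ G ⊓ Ine w2, ∀ y ∈ G ⊓ Ine w2, chB (io ii) x = 1 → chB (io w) x = 0 →
        chB (io ii) y = 0 → chB (io w) y = 1 → ∃ x, IsGw x := fun x hx y hy h1 h2 h3 h4 =>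
      ⟨![x, y], fun j => by fin_cases j <;> assumption, h1, h2, h3, h4⟩
    have mi := (p1_b4 p1_ii).2
    have mw := (p1_b4 p1_w).2
    rcases Sm.F2_cases (chB (io ii) c) with e | e
    · rw [e, zero_add] at c1
      rcases Sm.F2_cases (chB (io w) a) with f | f
      · exact k a ha c hc a1 f e c1
      · exact k _ (mul_mem ha hc) c hc (by rw [mi a ha.1 c hc.1, a1, e, add_zero])
          (by rw [mw a ha.1 c hc.1, f, c1]; decide) e c1
    · rw [e, add_eq_left] at c1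
      rcases Sm.F2_cases (chB (io ii) b) with f | f
      · exact k c hc b hb e c1 f b1
      · exact k c hc _ (mul_mem hb hc) e c1 (by rw [mi b hb.1 c hc.1, f, e]; decide)
          (by rw [mw b hb.1 c hc.1, b1, c1, add_zero])
  rw [gw, dif_pos key]
  exact key.choose_spec

theorem p1_one {D : Subgroup Gam} {χ : Gam → ZMod 2} (h : IsHom D χ) : χ 1 = 0 := by
  simpa using h 1 D.one_mem 1 D.one_mem

theorem ew_spec : IsEw ew := by
  have key : ∃ x, IsEw x := by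
    by_contra k
    have st : ∀ a ∈ Hw, ∀ b ∈ Hw, ∀ c ∈ Hw, ∀ d ∈ Hw, ∃ χ, B4bG Hw χ ∧ χ a = 0 ∧ χ b = 0 ∧
        χ c = 0 ∧ χ d = 0 ∧ ∃ g ∈ Hw, χ g ≠ 0 := fun a ha b hb c hc d hd => by
      by_contra! e
      exact k ⟨![a, b, c, d], fun j => by fin_cases j <;> assumption,
        fun χ h1 h2 => e χ h1 (h2 0) (h2 1) (h2 2) (h2 3)⟩
    have o := Hw.one_mem
    obtain ⟨x0, a0, -, -, -, -, g0, b0, c0⟩ := st 1 o 1 o 1 o 1 o
    obtain ⟨x1, a1, d10, -, -, -, g1, b1, c1⟩ := st g0 b0 1 o 1 o 1 o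
    obtain ⟨x2, a2, d20, d21, -, -, g2, b2, c2⟩ := st g0 b0 g1 b1 1 o 1 o
    obtain ⟨x3, a3, d30, d31, d32, -, g3, b3, c3⟩ := st g0 b0 g1 b1 g2 b2 1 o
    obtain ⟨x4, a4, d40, d41, d42, d43, g4, b4, c4⟩ := st g0 b0 g1 b1 g2 b2 g3 b3
    have h := B2.m_li G w2 5 ![x0, x1, x2, x3, x4] op_G w2_p
      (fun i => by fin_cases i <;> assumption) fun s hs => by
      by_contra ne
      have ne := nonempty_iff_ne_empty.2 ne
      have m : ∀ i, ![g0, g1, g2, g3, g4] i ∈ Hw := fun i => by fin_cases i <;> assumption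
      have d : ∀ i, ![x0, x1, x2, x3, x4] i (![g0, g1, g2, g3, g4] i) ≠ 0 := fun i => by
        fin_cases i <;> assumption
      have z : ∀ i j, i < j → ![x0, x1, x2, x3, x4] j (![g0, g1, g2, g3, g4] i) = 0 := fun i j => by
        fin_cases i <;> fin_cases j <;> first | exact fun _ => ‹_› | exact fun e => absurd e (by decide)
      have e := hs _ (m (s.min' ne))
      rw [sum_eq_single_of_mem _ (s.min'_mem ne) fun j hj e =>
        z _ j ((s.min'_le j hj).lt_of_ne e.symm)] at e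
      exact d _ e
    rw [relIndex_w2] at h
    omega
  rw [ew, dif_pos key]
  exact key.choose_spec

theorem gw_mem (j : Fin 2) : gw j ∈ G := (gw_spec.1 j).1

theorem gw_Hw (j : Fin 2) : gw j ∈ Hw := ⟨(gw_spec.1 j).1, B2.Ine_le _ (gw_spec.1 j).2⟩

theorem ew_mem (j : Fin 4) : ew j ∈ Hw := ew_spec.1 j

theorem gen_mem (t : ι → TP) (j : ι ⊕ Fin 2) : gen t j ∈ G := by
  rcases j with i | j
  exacts [(t i).σ_mem, gw_mem j]

theorem cyc_gw : cyc (gw 0) ≠ 1 := by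
  intro h
  have k := (chB_ii_cy (gw_mem 0)).2 (by rw [cy, h, map_one])
  rw [gw_spec.2.1] at k
  exact one_ne_zero k

theorem off_or (t : ι → TP) {v : Plc} (hv : v.p ≠ 2) :
    Off t v ∨ ∃ i, ∃ g ∈ G, g • (t i).v = v := by
  by_cases h : ∀ i, v.V (io (t i).π) = 1
  · exact .inl ⟨hv, h⟩
  · obtain ⟨i, h⟩ := not_forall.1 h
    exact .inr ⟨i, (t i).conj ((EA.V_io_le v _).lt_of_ne h)⟩

theorem p1_int {x : Qbar} (h0 : x ≠ 0) (hx : Fx G x) :
    ∃ n : O, n ≠ 0 ∧ ∀ g ∈ G, chB x g = chB (io n) g := by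
  obtain ⟨a, b, hb, e⟩ := fx_G hx
  have b0 := EA.io_ne hb
  refine ⟨a * b, mul_ne_zero (fun k => mul_ne_zero h0 b0 (by rw [e, k, map_zero])) hb,
    fun g hg => ?_⟩
  rw [map_mul, ← e, mul_assoc, Sm.chB_mul h0 (mul_ne_zero b0 b0) (hx g hg)
    (by rw [map_mul, io_fx b g hg]), Sm.chB_sq (io_fx b g hg), add_zero]

theorem p1_pow (k : ℕ) {g : Gam} (hg : g ∈ G) : chB (io (ii ^ k)) g = k * chB (io ii) g := by
  induction k with
  | zero => simpa using Sm.chB_sq (w := 1) (map_one g)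
  | succ k ih =>
    rw [pow_succ, p1_mul (pow_ne_zero k p1_ii) p1_ii hg, ih]
    push_cast
    ring

theorem p1_unit {u : O} (h : IsUnit u) :
    ∃ a : ZMod 2, ∀ g ∈ G, chB (io u) g = a * chB (io ii) g := by
  obtain ⟨v, hv⟩ := h.exists_right_inv
  have h1 : Q4.red v = 1 := (Sm.F2_cases _).resolve_left fun e => by
    have := Q4.red_mul u v
    rw [hv, e, mul_zero, Q4.red_one] at this
    exact one_ne_zero this
  obtain ⟨k, hk⟩ := exists_prim h1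
  have h2 : IsUnit (ii ^ k * v) := ((IsUnit.of_mul_eq_one (-ii) (by decide)).pow k).mul
    (IsUnit.of_mul_eq_one u (by rw [mul_comm, hv]))
  have h3 := prim_assoc hk (b := 1) (prim_iff.2 (by simp)) (associated_one_iff_isUnit.2 h2)
  refine ⟨k, fun g hg => ?_⟩
  rw [← p1_pow k hg, show ii ^ k = u by linear_combination u * h3 - ii ^ k * hv]

theorem p1_prime {p : O} (hp : Prime p) :
    Associated w p ∨ ∃ π, Prime π ∧ Prim π ∧ Associated π p := by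
  refine (EA.red_prime hp).symm.imp_right fun h => ?_
  obtain ⟨k, hk⟩ := exists_prim h
  have e := associated_unit_mul_left p _ ((IsUnit.of_mul_eq_one (a := ii) (-ii) (by decide)).pow k)
  exact ⟨_, e.symm.prime hp, hk, e⟩

theorem p1_fac {n : O} (hn : n ≠ 0) : ∃ (a b : ZMod 2) (S : Finset O),
    (∀ π ∈ S, Prime π ∧ Prim π) ∧ ∀ g ∈ G,
      chB (io n) g = a * chB (io ii) g + b * chB (io w) g + ∑ π ∈ S, chB (io π) g := by
  induction n using UniqueFactorizationMonoid.induction_on_prime with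
  | h₁ => exact absurd rfl hn
  | h₂ u hu =>
    obtain ⟨a, h⟩ := p1_unit hu
    exact ⟨a, 0, ∅, by simp, fun g hg => by simp [h g hg]⟩
  | h₃ n p n0 hp ih =>
    obtain ⟨a, b, S, h1, h2⟩ := ih n0
    rcases p1_prime hp with ⟨u, rfl⟩ | ⟨π, k1, k2, u, rfl⟩ <;> obtain ⟨c, hc⟩ := p1_unit u.isUnit
    · refine ⟨a + c, b + 1, S, h1, fun g hg => ?_⟩
      rw [p1_mul hp.ne_zero n0 hg, p1_mul p1_w u.ne_zero hg, hc g hg, h2 g hg]
      ring
    · by_cases k : π ∈ S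
      · refine ⟨a + c, b, S.erase π, fun x hx => h1 x (mem_of_mem_erase hx), fun g hg => ?_⟩
        rw [p1_mul hp.ne_zero n0 hg, p1_mul k1.ne_zero u.ne_zero hg, hc g hg, h2 g hg,
          ← add_sum_erase _ _ k]
        linear_combination CharTwo.add_self_eq_zero (chB (io π) g)
      · refine ⟨a + c, b, insert π S, (forall_mem_insert _ _ _).2 ⟨⟨k1, k2⟩, h1⟩, fun g hg => ?_⟩
        rw [p1_mul hp.ne_zero n0 hg, p1_mul k1.ne_zero u.ne_zero hg, hc g hg, h2 g hg,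
          sum_insert k]
        ring

theorem p1_sig (s : TP) {π : O} (h1 : Prime π) (h2 : Prim π) :
    chB (io π) s.σ = if π = s.π then 1 else 0 := by
  split_ifs with h
  · rw [h, chB_sigma]
  · exact chB_ine s.odd (io_fx π) (s.V_eq.2 fun k => h (prim_assoc s.prim h2
      (s.prime.associated_of_dvd h1 k)).symm) s.σ_ine

theorem p1_unr_ii {v : Plc} (hv : v.p ≠ 2) {σ : Gam} (h : σ ∈ Ine v) : chB (io ii) σ = 0 :=
  chB_ine hv (io_fx _) (p1_V_ii v) h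

theorem p1_unr_w {v : Plc} (hv : v.p ≠ 2) {σ : Gam} (h : σ ∈ Ine v) : chB (io w) σ = 0 :=
  chB_ine hv (io_fx _) (p1_V_w hv) h

theorem p1_closed : IsClosed (G : Set Gam) := G.isClosed_of_isOpen op_G

/-- Characters that are unramified at all odd places. -/
theorem chi_two {χ : Gam → ZMod 2} (h : B4bG G χ) (k : ∀ v : Plc, v.p ≠ 2 → ∀ σ ∈ Ine v, χ σ = 0) :
    ∃ a b : ZMod 2, ∀ g ∈ G, χ g = a * chB (io ii) g + b * chB (io w) g := by
  obtain ⟨x, hx⟩ := B2.kum_surj (m := 1) p1_closed h.1 (B2.b4b_coc h.2)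
  obtain ⟨n, n0, hn⟩ := p1_int hx.fx.1 hx.fx.2
  obtain ⟨a, b, S, h1, h2⟩ := p1_fac n0
  have e : ∀ g ∈ G, χ g = _ := fun g hg => (chB_of_kum hx hg).trans ((hn g hg).trans (h2 g hg))
  refine ⟨a, b, fun g hg => ?_⟩
  rw [e g hg, eq_empty_of_forall_notMem (s := S) fun π hπ => ?_, sum_empty, add_zero]
  obtain ⟨s, rfl⟩ := exists_tp (h1 π hπ).1 (h1 π hπ).2
  have h3 := e _ s.σ_mem
  rw [k _ s.odd _ s.σ_ine, p1_unr_ii s.odd s.σ_ine, p1_unr_w s.odd s.σ_ine,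
    sum_congr rfl fun x hx => p1_sig s (h1 x hx).1 (h1 x hx).2, sum_ite_eq', if_pos hπ] at h3
  simp at h3

theorem p1_tame (s : TP) {f : Gam → ZMod 2} (h1 : Sm (Ine s.v) f) (h2 : IsHom (Ine s.v) f)
    (h : f s.σ = 0) {σ : Gam} (hσ : σ ∈ Ine s.v) : f σ = 0 := by
  obtain ⟨k, e⟩ := B2.tame_gen (π := fun g => Multiplicative.ofAdd (f g)) s.odd s.tm.gen (h1.comp _)
    (fun a ha b hb => congrArg Multiplicative.ofAdd (h2 a ha b hb))
    (fun a _ => ⟨1, by rw [pow_one, pow_two, ← ofAdd_add, CharTwo.add_self_eq_zero, ofAdd_zero]⟩) hσ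
  rwa [h, ofAdd_zero, one_pow, ofAdd_eq_one] at e

theorem det2 {χ : Gam → ZMod 2} (h : B4bG G χ) (k : Unr t χ) (h0 : ∀ j, χ (gen t j) = 0) :
    ∀ g ∈ G, χ g = 0 := by
  obtain ⟨a, b, e⟩ := chi_two h fun v hv σ hσ => by
    rcases off_or t hv with k' | ⟨i, g, hg, rfl⟩
    · exact k v k' σ hσ
    · have h1 := B2.mem_Ine_smul.1 hσ
      have h2 := ine_le (t i).odd
      have h3 := p1_tame (t i) (h.1.mono h2) (fun a ha b hb => h.2 a (h2 ha) b (h2 hb))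
        (h0 (.inl i)) h1
      have h4 := h.2 g hg _ (h2 h1)
      rw [h3, add_zero, ← mul_assoc, mul_inv_cancel_left, h.2 _ (ine_le hv hσ) g hg] at h4
      exact add_eq_right.1 h4
  obtain ⟨-, k1, k2, k3, k4⟩ := gw_spec
  have a0 := (e _ (gw_mem 0)).symm.trans (h0 (.inr 0))
  have b0 := (e _ (gw_mem 1)).symm.trans (h0 (.inr 1))
  rw [k1, k2, mul_one, mul_zero, add_zero] at a0
  rw [k3, k4, mul_one, mul_zero, zero_add] at b0
  intro g hg
  rw [e g hg, a0, b0, zero_mul, zero_mul, add_zero]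

theorem p1_sum {κ : Type} (s : Finset κ) {x : κ → Gam → ZMod 2} (h : ∀ i ∈ s, B4bG G (x i)) :
    B4bG G fun g => ∑ i ∈ s, x i g := by
  induction s using Finset.induction_on with
  | empty => exact ⟨.const _, fun _ _ _ _ => by simp⟩
  | insert i s hi ih =>
    simp only [sum_insert hi]
    exact (h i (mem_insert_self _ _)).add (ih fun j hj => h j (mem_insert_of_mem hj))

theorem sur2 [Fintype ι] (hi : ∀ i j, (t i).π = (t j).π → i = j) (x : ι ⊕ Fin 2 → ZMod 2) :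
    ∃ χ, B4bG G χ ∧ Unr t χ ∧ ∀ j, χ (gen t j) = x j := by
  obtain ⟨-, k1, k2, k3, k4⟩ := gw_spec
  set y : Gam → ZMod 2 := fun g => ∑ i, x (.inl i) * chB (io (t i).π) g with hy
  refine ⟨fun g => y g + (x (.inr 0) - y (gw 0)) * chB (io ii) g +
    (x (.inr 1) - y (gw 1)) * chB (io w) g,
    ((p1_sum _ fun i _ => (p1_b4 (t i).prime.ne_zero).smul _).add ((p1_b4 p1_ii).smul _)).add
      ((p1_b4 p1_w).smul _), fun v hv σ hσ => ?_, ?_⟩
  · simp only [hy, p1_unr_ii hv.1 hσ, p1_unr_w hv.1 hσ,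
      fun i => chB_ine hv.1 (io_fx (t i).π) (hv.2 i) hσ]
    simp
  · rintro (i | j)
    · simp only [gen, Sum.elim_inl, p1_unr_ii (t i).odd (t i).σ_ine, p1_unr_w (t i).odd (t i).σ_ine,
        mul_zero, add_zero, hy]
      rw [sum_eq_single_of_mem i (mem_univ i) fun j _ e => by
        rw [p1_sig _ (t j).prime (t j).prim, if_neg (mt (hi j i) e), mul_zero], chB_sigma, mul_one]
    · fin_cases j <;> simp [gen, k1, k2, k3, k4]

theorem p1_fin {n : O} (hn : n ≠ 0) : {π : O | Prime π ∧ Prim π ∧ π ∣ n}.Finite := by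
  induction n using UniqueFactorizationMonoid.induction_on_prime with
  | h₁ => exact absurd rfl hn
  | h₂ u hu => exact Set.finite_empty.subset fun π h => h.1.not_isUnit (isUnit_of_dvd_unit h.2.2 hu)
  | h₃ n p n0 hp ih =>
    have h : {π : O | Prim π ∧ Associated π p}.Subsingleton := fun a ha b hb =>
      prim_assoc ha.1 hb.1 (ha.2.trans hb.2.symm)
    exact (h.finite.union (ih n0)).subset fun π k => (k.1.dvd_or_dvd k.2.2).imp
      (fun e => ⟨k.2.1, k.1.associated_of_dvd hp e⟩) fun e => ⟨k.1, k.2.1, e⟩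

/-- The ramification of a function that is additive on inertia groups is removed. -/
theorem exists_fix (t : ι → TP) {f : Gam → ZMod 2} (hs : Sm G f)
    (h1 : ∀ v, Off t v → IsHom (Ine v) f)
    (h2 : ∀ v, Off t v → ∀ σ ∈ Ine v, ∀ g ∈ G, f (g * σ * g⁻¹) = f σ) :
    ∃ χ, B4bG G χ ∧ ∀ v, Off t v → ∀ σ ∈ Ine v, χ σ = f σ := by
  have fin : {π : O | ∃ s : TP, s.π = π ∧ Off t s.v ∧ f s.σ ≠ 0}.Finite := by
    obtain ⟨U, hU, -, h⟩ := hs
    obtain ⟨B, hB⟩ := B2.finite_ram hU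
    refine ((B.filter (· ≠ 0)).finite_toSet.biUnion fun p hp =>
      p1_fin (n := p) (Nat.cast_ne_zero.2 (mem_filter.1 hp).2)).subset ?_
    rintro _ ⟨s, rfl, k1, k2⟩
    refine Set.mem_biUnion (x := s.v.p) (mem_filter.2 ⟨by_contra fun e => k2 ?_,
      s.v.prime.ne_zero⟩) ⟨s.prime, s.prim, s.dvd_p⟩
    rw [← h 1 G.one_mem _ s.σ_mem (by simpa using hB _ e s.σ_ine), p1_one (h1 _ k1)]
  have pr : ∀ π ∈ fin.toFinset, Prime π ∧ Prim π := fun π h => by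
    obtain ⟨s, rfl, -⟩ := fin.mem_toFinset.1 h
    exact ⟨s.prime, s.prim⟩
  have b := p1_sum fin.toFinset fun π h => p1_b4 (pr π h).1.ne_zero
  refine ⟨_, b, fun v hv σ hσ => ?_⟩
  obtain ⟨s, rfl⟩ := exists_tp_v hv.1
  have l := ine_le hv.1
  refine sub_eq_zero.1 (p1_tame s (f := fun g => ∑ π ∈ fin.toFinset, chB (io π) g - f g)
    ((b.1.mono l).comp₂ (hs.mono l) (· - ·)) (fun a ha c hc => ?_) ?_ hσ)
  · simp only [b.2 a (l ha) c (l hc), h1 _ hv a ha c hc]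
    ring
  rw [sum_congr rfl fun x hx => p1_sig s (pr x hx).1 (pr x hx).2, sum_ite_eq', sub_eq_zero]
  split_ifs with k
  · obtain ⟨r, e, k1, k2⟩ := fin.mem_toFinset.1 k
    obtain ⟨g, hg, e'⟩ := r.conj (e ▸ s.lt)
    refine ((Sm.F2_cases _).resolve_left fun z => k2 ?_).symm
    rw [← h2 _ k1 _ r.σ_ine g hg]
    refine p1_tame s (hs.mono l) (h1 _ hv) z ?_
    rw [← e', B2.mem_Ine_smul]
    simpa [mul_assoc] using r.σ_ine
  · exact (not_not.1 fun z => k (fin.mem_toFinset.2 ⟨s, rfl, hv, z⟩)).symm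

theorem p1_frob : ∃ φ ∈ G, IsFrob w2 w2.p φ := by
  obtain ⟨φ, h⟩ := B2.exists_frob w2
  by_cases k : φ ∈ G
  · exact ⟨φ, k, h⟩
  · obtain ⟨σ, h1, h2, -⟩ := B2.exists_ine_two w2_p (-1) 1
    exact ⟨_, B2.mul_mem_GK k (B2.B4c_notMem.2 h2), h.mul_ine h1⟩

theorem p1_dec {χ : Gam → ZMod 2} (h : B4bG Hw χ) (k : ∀ σ ∈ G ⊓ Ine w2, χ σ = 0) {φ : Gam}
    (h1 : φ ∈ G) (h2 : IsFrob w2 w2.p φ) (h3 : χ φ = 0) : ∀ g ∈ Hw, χ g = 0 := fun g hg => by
  obtain ⟨U, hU, -, e⟩ := h.1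
  obtain ⟨n, σ, s1, ⟨s2, s3⟩, -⟩ := B2.dec_gen h2 hg.2 (hU.inf op_G)
  have s4 : σ ∈ G := by
    have := G.mul_mem (G.inv_mem (G.pow_mem h1 n)) (G.mul_mem hg.1 (G.inv_mem s3))
    simpa [mul_assoc] using this
  have m : φ ∈ Hw := ⟨h1, h2.1⟩
  have s5 : σ ∈ Hw := ⟨s4, B2.Ine_le _ s1⟩
  have p : ∀ n : ℕ, χ (φ ^ n) = 0 := fun n => by
    induction n with
    | zero => exact p1_one h.2
    | succ n ih => rw [pow_succ, h.2 _ (pow_mem m n) _ m, ih, h3, add_zero]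
  rw [← e _ (mul_mem (pow_mem m n) s5) g hg s2, h.2 _ (pow_mem m n) _ s5, p, k σ ⟨s4, s1⟩, add_zero]

/-- The local symbol at two is nondegenerate. -/
theorem nondeg_w2 {χ : Gam → ZMod 2} (h : B4bG Hw χ)
    (k : ∀ a : O, a ≠ 0 → Spl 1 Hw (cup 1 χ (chB (io a)))) : ∀ g ∈ Hw, χ g = 0 := by
  obtain ⟨F⟩ := B2.m_cft
  have h1 := F.crit (m := 1) (w := w2) op_G h.1 h.2 fun a κ ha _ hκ => by
    obtain ⟨n, n0, hn⟩ := p1_int hκ.fx.1 ha
    refine (F.congr fun g _ g' hg' => ?_).trans ((F.zero_iff op_G (k n n0).c2).2 (k n n0))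
    rw [cup, cup, chB_of_kum hκ hg'.1, hn g' hg'.1]
  obtain ⟨φ, h2, h3⟩ := p1_frob
  refine p1_dec h h1 h2 h3 ((Sm.F2_cases _).resolve_right fun e => ?_)
  have i5 : ∀ σ ∈ Ine w2, B2.chi 5 σ = 1 := fun σ => B2.chi_ine_two w2_p rfl
  have f5 := B2.chi_frob_two w2_p (w2_p ▸ h3)
  have h4 := p1_dec (h.add (.xi _ 5)) (fun σ hσ => by
    rw [h1 σ hσ, B2.xi_eq_zero.2 (i5 σ hσ.2), add_zero]) h2 h3
    (by rw [e, B2.xi_eq_one.2 f5]; decide)
  have h5 : Kum 1 Hw ((5 : ℤ) : Qbar) χ := by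
    obtain ⟨r, r0, r1, r2⟩ := B2.kum_xi (H := Hw) (a := 5) (by norm_num)
    exact ⟨r, r0, r1, fun g hg => by rw [r2 g hg, B2.b4b_eq (h4 g hg)]⟩
  obtain ⟨x, y, hx, hy, h6⟩ := B2.norm_of_spl h5
    (kum_chB (EA.io_ne p1_w) fun g hg => io_fx w g hg.1) (p1_closed.inter (B2.closed_Dec w2))
    (k w p1_w)
  have r2 := B2.rt_sq 5
  have m : φ ∈ Hw := ⟨h2, h3.1⟩
  have h7 : φ (x - B2.rt 5 * y) = x + B2.rt 5 * y := by
    rw [map_sub, map_mul, hx φ m, hy φ m, B2.chi_spec r2, f5]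
    simp
  obtain ⟨σ, s1, s2⟩ := p1_odd (x := x - B2.rt 5 * y) (by
    nth_rw 1 [pow_two]
    nth_rw 2 [← B2.mem_Dec.1 h3.1]
    rw [h7, ← map_mul, h6, ← r2]
    congr 1
    ring)
  have s3 : σ ∈ Hw := ⟨s1.1, B2.Ine_le _ s1.2⟩
  exact s2 (by rw [map_sub, map_mul, hx σ s3, hy σ s3, B2.chi_eq_one.1 (i5 σ s1.2)])

end Pool.Agent.Lib.MP_696deb_nt.EU
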