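import Pool.Agent.Lib.MP_696deb_nt.EU.C6
import Pool.Agent.Lib.MP_696deb_nt.EU.P1
import Pool.Agent.Lib.MP_696deb_nt.EU.S1

/-! The index vanishes on the decomposition group at two if it kills the prime above two. -/

set_option autoImplicit false

open scoped Classical NNReal
open Finset

namespace Pool.Agent.Lib.MP_696deb_nt.EU

section

variable {t : TP} {s : ℕ} (x : Ix t s) (F : CFT) {a : O}

theorem k0_ndvd (t : TP) : ¬ t.π ∣ w := t.V_eq.1 (p1_V_w t.odd)

/-- The symbol of the prime above two at the tame place. -/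
theorem k0_tv : c6I x F t.v (io w) + x.ind w = 0 := by
  have r : Q4.red (w + t.π) = 1 := by
    have h := EA.red_iff.1 t.red
    rw [EA.red_iff, Zsqrtd.re_add, Zsqrtd.im_add, show w.re = 1 from rfl, show w.im = 1 from rfl]
    omega
  have n : ¬ t.π ∣ w + t.π := fun k => k0_ndvd t (by simpa using k)
  have l := c6J_zero x F r n
  have a0 := EA.io_ne p1_w
  have b0 := EA.io_ne (EA.ne_of_red r)
  have f : Fx G (io (w + t.π) / io w) := fun g hg => by
    rw [map_div₀, io_fx _ g hg, io_fx _ g hg]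
  rwa [c6J, c6_odd x F r, zero_add, x.per _ w (by simp), ← div_mul_cancel₀ (io (w + t.π)) a0,
    c6_mul x F (div_ne_zero b0 a0) f a0 (io_fx w), c6_near x F (div_ne_zero b0 a0) f (by
      rw [div_sub_one a0, ← map_sub, add_sub_cancel_left, map_div₀, p1_V_w t.odd, div_one,
        map_pow, EA.V_two t.odd, one_pow]
      exact t.lt), zero_add] at l

/-- The symbol of the prime above two at two. -/
theorem k0_w : c6I x F w2 (io w) = x.ind w := by
  have n : w2 ≠ t.v := c6_ne t 1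
  have := c6_recip x F {w2, t.v} (fun v hv v' hv' g hg e => by
    simp only [mem_insert, mem_singleton] at hv hv'
    rcases hv with rfl | rfl <;> rcases hv' with rfl | rfl
    exacts [rfl, absurd e (c6_ne t g), absurd e (c6_ne' t g), rfl]) (by simp) (by simp) p1_w
    fun v hv => p1_V_w fun e => (conj_w2 e).elim fun g hg => hv w2 (by simp) g hg.1 hg.2
  rw [sum_pair (f := fun v => c6I x F v (io w)) n] at this
  linear_combination this - k0_tv x F

theorem k0_all (h : x.ind w = 0) (h0 : a ≠ 0) : c6I x F w2 (io a) = 0 := by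
  have wu : ¬ IsUnit w := fun k => absurd ((Zsqrtd.isUnit_iff_norm_isUnit _).1 k) (by decide)
  obtain ⟨n, b, hb, rfl⟩ := WfDvdMonoid.max_power_factor' h0 wu
  have hb' : Q4.red b = 1 := (Sm.F2_cases _).resolve_left fun e => hb (EA.w_dvd e)
  clear h0
  induction n with
  | zero => rw [pow_zero, one_mul, c6_odd x F hb']
  | succ n ih =>
    rw [pow_succ', mul_assoc, map_mul, c6_mul x F (EA.io_ne p1_w) (io_fx w)
      (EA.io_ne (mul_ne_zero (pow_ne_zero n p1_w) (EA.ne_of_red hb'))) (io_fx _), ih, k0_w, h,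
      add_zero]

end

theorem k0_inc_inj {n : ℕ} {z : ZMod (2 ^ 1)} (h : inc n z = 0) : z = 0 :=
  B2.zeta_val_inj (by rw [← zeta_inc n z, h, ZMod.val_zero, ZMod.val_zero, pow_zero, pow_zero])

theorem k0_two {n : ℕ} {z : ZMod (2 ^ (1 + n))} (h : 2 * z = 0) : ∃ y, z = 2 ^ n * y := by
  have e : ((2 * z.val : ℕ) : ZMod (2 ^ (1 + n))) = 0 := by
    rw [Nat.cast_mul, ZMod.natCast_zmod_val, Nat.cast_ofNat, h]
  obtain ⟨c, hc⟩ : 2 ^ n ∣ z.val := Nat.dvd_of_mul_dvd_mul_left two_pos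
    (((pow_succ' 2 n).symm.trans (congrArg _ (add_comm n 1))).dvd.trans
      ((ZMod.natCast_eq_zero_iff _ _).1 e))
  exact ⟨c, by rw [← ZMod.natCast_zmod_val z, hc]; push_cast; rfl⟩

theorem k0_down {H : Subgroup Gam} {e n : ℕ} {q : Qbar} {κ : Gam → ZMod (2 ^ (e + n))}
    (h : Kum (e + n) H q κ) : Kum e H q fun g => dn e n (κ g) := by
  obtain ⟨r, h0, h1, h2⟩ := h
  refine ⟨r ^ 2 ^ n, pow_ne_zero _ h0, by rw [← pow_mul, ← pow_add, add_comm, h1], fun g hg => ?_⟩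
  rw [map_pow, h2 g hg, mul_pow, ← pow_mul, mul_comm _ (2 ^ n), pow_mul, zeta_add_pow, zeta_dn]

/-- Characters that are killed by two. -/
theorem k0_step (F : CFT) {n : ℕ} {ψ : Gam → ZMod (2 ^ (1 + n))} (h1 : Sm Hw ψ) (h2 : IsHom Hw ψ)
    (h3 : ∀ g ∈ Hw, 2 * ψ g = 0)
    (h4 : ∀ a : O, a ≠ 0 → ∃ κ, Kum (1 + n) G (io a) κ ∧ F.inv (1 + n) G w2 (cup _ ψ κ) = 0) :
    ∀ g ∈ Hw, ψ g = 0 := by
  choose! y hy using fun z (h : 2 * z = 0) => k0_two (n := n) h
  have e : ∀ g ∈ Hw, inc n (dn 1 n (y (ψ g))) = ψ g := fun g hg => by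
    rw [inc_dn, ← hy _ (h3 g hg)]
  have b : B4bG Hw fun g => dn 1 n (y (ψ g)) := by
    refine ⟨h1.comp fun z => dn 1 n (y z), fun g hg k hk => sub_eq_zero.1 (k0_inc_inj (n := n) ?_)⟩
    rw [← map_add, ← map_sub, inc_dn, mul_sub, mul_add, ← hy _ (h3 g hg), ← hy _ (h3 k hk),
      ← hy _ (h3 _ (mul_mem hg hk)), h2 g hg k hk, sub_self]
  have := nondeg_w2 b fun a ha => by
    obtain ⟨κ, k1, k2⟩ := h4 a ha
    have k3 := (k0_down k1).mono (inf_le_left : Hw ≤ G)
    have k4 := kum_chB (H := Hw) (EA.io_ne ha) fun g hg => io_fx a g hg.1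
    have c := B2.c2_cup (m := 1) b.1 b.2 k3.sm k3.coc
    refine (F.zero_iff op_G (B2.c2_cup (m := 1) b.1 b.2 k4.sm k4.coc)).1 ?_
    rw [F.cup_congr op_G b.1 b.2 k4 k3]
    refine k0_inc_inj (n := n) ((F.inc n op_G c).symm.trans ((F.congr fun g hg k _ => ?_).trans k2))
    change inc n _ = _
    rw [cup, cup, ← dn_cy n, ← map_mul, ← map_mul, inc_dn, ← mul_assoc, ← mul_assoc,
      ← hy _ (h3 g hg)]
  intro g hg
  rw [← e g hg, this g hg]
  simp [inc]

theorem k0_ig {t : TP} {s : ℕ} (x : Ix t s) (h : x.ind w = 0) : ∀ g ∈ Hw, x.ig g = 0 := by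
  obtain ⟨F⟩ := B2.exists_cft
  obtain ⟨n, rfl⟩ := Nat.exists_eq_add_of_le x.pos
  have key : ∀ j : ℕ, (∀ g ∈ Hw, 2 ^ j * x.ig g = 0) → ∀ g ∈ Hw, x.ig g = 0 := by
    intro j
    induction j with
    | zero => simp
    | succ j ih =>
      refine fun k => ih (k0_step F ((c6_sm x w2).comp (2 ^ j * ·)) (fun g hg l hl => by
        rw [c6_hom x w2 g hg l hl, mul_add]) (fun g hg => by
        rw [← mul_assoc, ← pow_succ', k g hg]) fun a ha => ?_)
      obtain ⟨κ, hκ⟩ := B2.exists_kum (1 + n) (EA.io_ne ha) (io_fx a)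
      refine ⟨κ, hκ, ?_⟩
      have l := F.smul op_G ((c6_c2 x hκ).mono (inf_le_left : Hw ≤ G)) (2 ^ j)
      rw [← c6_eq x F hκ, k0_all x F h ha, mul_zero] at l
      exact (F.congr fun g _ k _ => by rw [cup, cup, mul_assoc, mul_assoc, mul_assoc]).trans l
  refine key (1 + n) fun g _ => ?_
  rw [show (2 : ZMod (2 ^ (1 + n))) ^ (1 + n) = 0 by
    exact_mod_cast ZMod.natCast_self (2 ^ (1 + n)), zero_mul]

end Pool.Agent.Lib.MP_696deb_nt.EU
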