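import Pool.Agent.Lib.MP_696deb_nt.EU.T0
import Pool.Agent.Lib.MP_696deb_nt.EU.C6
import Pool.Agent.Lib.MP_696deb_nt.EU.K0x

/-! The first derivative of the tame series and special primes. -/

set_option autoImplicit false

open scoped Classical NNReal
open Finset PowerSeries

namespace Pool.Agent.Lib.MP_696deb_nt.EU

/-- The first derivative of the series of central values in the direction of a prime. -/
noncomputable def kur (φ : O → O) (m b : O) {r : TP} {u : ℕ} (x : Ix r u) : Qbar :=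
  ∑ P ∈ Im (m * r.π), io (star (φ (co (m * r.π) P))) * ((x.ind (co (m * r.π) P)).val : Qbar) * dl b P

/-- Admissible primes. -/
structure AdmR (N : ℤ) (φ : O → O) (b : O) (r : TP) (u : ℕ) : Prop where
  split : nm r.π = r.v.p
  nd : ¬ r.π ∣ ((10 * N * nm b : ℤ) : O)
  one : (2 : O) ^ u ∣ φ r.π * r.π - 1
  five : ¬ ∃ a : O, r.π ∣ a ^ 4 - 5

/-- The derivatives tend to zero. -/
def Cb.Small (c : Cb) : Prop := ∀ e a : ℕ, ∃ v, ∀ u ≥ v, ∀ (r : TP) (x : Ix r u),
  AdmR c.t.N c.φ (c.α true).π r u → w2.V (kur c.φ (c.m0 e) (c.α true).π x) < w2.V (2 ^ a)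

/-- Special stages. -/
def Cx.Sp (c : Cx) (s : c.Stg 1) : Prop := ∀ k, ∃ r : DP (k + 1), s.J k = {r} ∧ r.t = s.t k none ∧
  r.x.ind w = 0 ∧ AdmR c.t.N c.φ (c.α true).π r.t (k + 1)

theorem Ix.ig_Hw {t : TP} {s : ℕ} (x : Ix t s) (h : x.ind w = 0) : ∀ g ∈ Hw, x.ig g = 0 :=
  k0_ig x h

end Pool.Agent.Lib.MP_696deb_nt.EU
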