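import Pool.Agent.Lib.MP_696deb_nt.EU.K0
import Pool.Agent.Lib.MP_696deb_nt.EU.T2

/-! The derived class at the bottom of the tower. -/

set_option autoImplicit false

open scoped Classical NNReal
open Finset PowerSeries

namespace Pool.Agent.Lib.MP_696deb_nt.EU

section

variable {R : Type} [CommRing R] {e : ℕ} {m b n : O} {W : O → R} {θ : Gam → R} {g : Gam}
  {r : DP e} (f : ZMod (2 ^ e) →+* R)

theorem kp_act (k : Kb m b W θ) (d : r.t.π ∣ m) (h2 : r.x.ind w = 0) (hg : g ∈ Hw) {P : A}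
    (hP : P ∈ Im m) : WJ f W {r} (co m (g • P)) = θ g * WJ f W {r} (co m P) := by
  rw [WJ, WJ, prod_singleton, prod_singleton, k.act hg.1 hP,
    r.x.per _ _ (kol_co k.ne d hg.1 hP), r.x.mul _ _ (c5_cm r.t hg.1) fun e =>
      r.t.prime.not_isUnit ((co_cop k.ne hP).isUnit_of_dvd' e d), ← Ix.ig, r.x.ig_Hw h2 g hg,
    zero_add, mul_assoc]

theorem kp_per (k : Kb m b W θ) (d : r.t.π ∣ m) {a a' : O} (h : m ∣ a - a') :
    WJ f W {r} a = WJ f W {r} a' := by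
  rw [WJ, WJ, prod_singleton, prod_singleton, k.per _ _ h, r.x.per _ _ (d.trans h)]

theorem kp_dn (k : Kb m b W θ) (d : r.t.π ∣ m) (h2 : r.x.ind w = 0) (hn : n ≠ 0)
    (hc : IsCoprime n b) : ∃ x, ∀ g ∈ Hw,
      FF f (pre n (Im m)) (yb b e) (fun P => WJ f W {r} (co m (n • P))) g =
        FE f m b (WJ f W {r}) g + (f (cy e g) * θ g - 1) * x :=
  ⟨_, fun g hg => by
    rw [FF_down f k.red hn hc (fun _ hg _ => act_Im k.ne k.w3 hg)
      (fun _ hP => Im_ne k.ne k.w3 hP k.red) (fun P => WJ f W {r} (co m P)) hg.1,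
      es_tr f fun _ => kp_act f k d h2 hg, sub_mul, one_mul, mul_assoc, FE]⟩

theorem kp_up (k : Kb m b W θ) (d : r.t.π ∣ m) (hn : n ≠ 0) :
    FF f (Im (m * n)) (yb b e) (fun P => WJ f W {r} (co m (n • P))) g =
      FE f (m * n) b (WJ f W {r}) g :=
  FF_congr f fun P hP => kp_per f k d (co_down k.ne hn (by
    rw [Im_kill (mul_ne_zero k.ne hn) hP]))

theorem kp_kap (k : Kb m b W θ) (d : r.t.π ∣ m) (h2 : r.x.ind w = 0) (hg : g ∈ Hw) (a : R)
    (g0 : Gam) : kap f (Im m) (yb b e) a g0 (fun P => WJ f W {r} (co m P)) g =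
      a * FE f m b (WJ f W {r}) g - (f (cy e g) * θ g - 1) * FE f m b (WJ f W {r}) g0 := by
  rw [kap, FF_congr f (W := tr (fun P => WJ f W {r} (co m P)) g) fun P hP =>
    kp_act f k d h2 hg hP, FF_smul, FE]
  ring

theorem kp_ram (k : Kb m b W θ) (d : r.t.π ∣ m) (h2 : r.x.ind w = 0) (hn : n ≠ 0)
    (hp : ∀ p, Prime p → p ∣ n → p ∣ m) : ∃ x, ∀ g ∈ Hw, FE f (m * n) b (WJ f W {r}) g =
      FE f m b (WJ f W {r}) g + (f (cy e g) * θ g - 1) * x := by
  obtain ⟨x, hx⟩ := kp_dn f k d h2 hn (isCoprime_of_prime_dvd (fun e => hn e.1)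
    fun z hz h3 h4 => hz.not_isUnit (k.cop.isUnit_of_dvd' (hp z hz h3) h4))
  exact ⟨x, fun g hg => by rw [← hx g hg, pre_ram k.ne hn k.w3 hp, kp_up f k d hn]⟩

theorem kp_euler (k : Kb m b W θ) (h2 : r.x.ind w = 0) (h3 : ¬ r.t.π ∣ m)
    (h4 : IsCoprime r.t.π b) (h5 : θ r.t.φ = 1) (l : TP) (hl : ¬ l.π ∣ m * r.t.π)
    (hc : IsCoprime l.π b) : ∃ x, ∀ g ∈ Hw, FE f (m * r.t.π * l.π) b (WJ f W {r}) g =
      (1 - θ l.φ) * FE f (m * r.t.π) b (WJ f W {r}) g + (f (cy e g) * θ g - 1) * x := by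
  have k' := k.up r.t.prime.ne_zero h4
  have d := dvd_mul_left r.t.π m
  obtain ⟨x, hx⟩ := kp_dn f k' d h2 l.prime.ne_zero hc
  obtain ⟨y, hy⟩ := k.euler f r.t h3 h4
  obtain ⟨u1, u2⟩ := pre_new k'.ne k'.w3 l.prime l.prim hl
  refine ⟨x - θ l.φ * f (r.x.ind l.π) * y, fun g hg => ?_⟩
  have h6 := hx g hg
  have h7 := hy g hg.1
  have h8 : FF f (Im (m * r.t.π)) (yb b e) (fun P => WJ f W {r} (co (m * r.t.π) (l.π • P))) g =
      θ l.φ * FE f (m * r.t.π) b (WJ f W {r}) g +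
        θ l.φ * f (r.x.ind l.π) * FE f (m * r.t.π) b W g := by
    rw [FE, FE, ← FF_smul, ← FF_smul, ← FF_add]
    refine FF_congr f fun P hP => ?_
    have c1 := co_cop k'.ne hP
    rw [kp_per f k' d (co_smul k'.ne _ (Im_kill k'.ne hP)), WJ, WJ, prod_singleton, prod_singleton,
      k'.frob l hl c1 (co_prim k'.ne k'.w3 hP), r.x.mul _ _ (fun e => hl
        ((r.t.prime.associated_of_dvd l.prime e).symm.dvd.trans d))
        fun e => r.t.prime.not_isUnit (c1.isUnit_of_dvd' e d), map_add]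
    ring
  rw [u1, FF, sum_union u2, ← FF, ← FF, kp_up f k' d l.prime.ne_zero, h8] at h6
  rw [h5] at h7
  linear_combination h6 - θ l.φ * f (r.x.ind l.π) * h7

end

namespace Cx

variable {c : Cx} {j k : ℕ}

theorem zc_WJ (h : j ≤ k) (r : DP (k + 1)) (h1 : r.t.π ≠ (c.α true).π)
    (h2 : r.x.ind w = 0) (f : ZMod (2 ^ (k + 1)) →+* La ⧸ JX j) :
    Zc Hw (md (JX j) (c.ρ true k))
      (FE f (c.m0 (j + 1) * r.t.π) (c.α true).π (WJ f (c.Wq (JX j) k) {r})) := by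
  have q := (c.kb0 true h).up r.t.prime.ne_zero
    (r.t.prime.coprime_iff_not_dvd.2 (TP.not_dvd _ _ h1))
  exact (zc_FF f ((fam_Im q.ne q.w3 q.red _).mono inf_le_left) fun g hg P hP =>
    kp_act f q (dvd_mul_left _ _) h2 hg hP).congr (fun g hg => (c.cy_θ f hg.1).symm) fun _ _ => rfl

theorem kp_down (s : c.Stg 1) (h : j ≤ k) {r : DP (k + 1)} (hJ : s.J k = {r}) (h2 : r.x.ind w = 0)
    (f : ZMod (2 ^ (k + 1)) →+* La ⧸ JX j) : ∃ z x, ∀ g ∈ Hw, md (JX j) (s.kp true k) g =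
      z * FE f (c.m0 (j + 1) * r.t.π) (c.α true).π (WJ f (c.Wq (JX j) k) {r}) g +
        (md (JX j) (c.ρ true k) g - 1) * x := by
  have e : c.m0 (k + 1) = c.m0 (j + 1) * 2 ^ (k - j) := by
    rw [c.m0_eq, c.m0_eq, mul_assoc, ← pow_add]
    congr 2
    omega
  have h0 : (2 : O) ^ (k - j) ≠ 0 := pow_ne_zero _ two_ne_zero
  have h1 := (c.kb true k).cop
  have hA : aa k ≤ JX j := aa_le_sup h _
  have gd := s.good k true
  rw [hJ] at gd
  have n1 := gd.nd r (mem_singleton_self r)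
  have n2 := gd.cop r (mem_singleton_self r)
  have n3 : md (JX j) (c.θ k) r.t.φ = 1 :=
    (congrArg (Ideal.Quotient.factor hA) (gd.th r (mem_singleton_self r))).trans (map_one _)
  rw [m, e] at h1 n1
  have q0 := c.kb0 true h
  have q1 := q0.up h0 h1.of_mul_left_left.of_mul_left_right
  obtain ⟨x, hx⟩ := kp_ram f (q0.up r.t.prime.ne_zero n2) (dvd_mul_left _ _) h2 h0 fun p hp d =>
    ((hp.dvd_of_dvd_pow d).trans
      ((dvd_pow_self 2 j.succ_ne_zero).trans (c.dvd_m0 _).2.2)).mul_right _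
  obtain ⟨y, hy⟩ := kp_euler f q1 h2 (fun d => n1 (d.mul_right _)) n2 n3 (c.lv k).lam
    (fun d => ((c.lv k).lam.prime.dvd_or_dvd d).elim (e ▸ c.nd_m0 _ _ (c.lv k).nd) fun d =>
      n1 ((((c.lv k).lam.prime.associated_of_dvd r.t.prime d).symm.dvd).mul_left _))
    h1.of_mul_left_right
  have e2 : mJ (c.m k) {r} = c.m0 (j + 1) * 2 ^ (k - j) * r.t.π * (c.lv k).lam.π := by
    rw [mJ, prod_singleton, m, e, mul_right_comm]
  have q2 := (q1.up r.t.prime.ne_zero n2).up (c.lv k).lam.prime.ne_zero h1.of_mul_left_right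
  have e3 : ∀ g, md (JX j) (s.kp true k) g = kol f (c.m k) (c.α true).π (c.Wq (JX j) k)
      (md (JX j) (c.θ k)) c.g0 {r} g := fun g => by
    rw [RingHom.ext_zmod f ((Ideal.Quotient.factor hA).comp (fa k)), ← hJ]
    refine (congrArg (Ideal.Quotient.factor hA) (congrFun (md_lft _) g)).trans
      ((kap_map _ _).trans ?_)
    simp only [kol, WJ, map_sub, map_one, map_mul, map_prod]
    rfl
  refine ⟨(md (JX j) (c.θ k) c.g0 - 1) * (1 - md (JX j) (c.θ k) (c.lv k).lam.φ),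
    (md (JX j) (c.θ k) c.g0 - 1) * ((1 - md (JX j) (c.θ k) (c.lv k).lam.φ) * x + y) -
      FE f (mJ (c.m k) {r}) (c.α true).π (WJ f (c.Wq (JX j) k) {r}) c.g0, fun g hg => ?_⟩
  rw [e3, kol, e2, kp_kap f q2 ((dvd_mul_left _ _).mul_right _) h2 hg, hy g hg,
    mul_right_comm (c.m0 (j + 1)), hx g hg, c.cy_θ f hg.1]
  ring

end Cx

end Pool.Agent.Lib.MP_696deb_nt.EU
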