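import Pool.Agent.Lib.MP_696deb_nt.EU.T3
import Pool.Agent.Lib.MP_696deb_nt.EU.T2
import Pool.Agent.Lib.MP_696deb_nt.EU.LimA
import Pool.Agent.Lib.MP_696deb_nt.EU.Kol2

/-! The tower: new primes. -/

set_option autoImplicit false

open scoped Classical NNReal
open Finset PowerSeries

namespace Pool.Agent.Lib.MP_696deb_nt.EU

theorem t5_ne {t t' : TP} (h : t'.v.p ≠ t.v.p) : t'.π ≠ t.π := fun e => t.prime.not_isUnit
  (((Nat.coprime_primes t'.v.prime t.v.prime).2 h).cast.isUnit_of_dvd' (e ▸ t'.dvd_p) t.dvd_p)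

theorem t5_V {t t' : TP} (h : t'.π ≠ t.π) : t.v.V (io t'.π) = 1 :=
  t.V_eq.2 (t.not_dvd t' h.symm)

theorem t5_off {ι : Type} {u : ι → TP} {t : TP} (h : ∀ i, (u i).π ≠ t.π) : Off u t.v :=
  ⟨t.odd, fun i => t5_V (h i)⟩

theorem t5_adj {t : TP} {e : ℕ} (x : Ix t e) : x.ig (t.φ * t.σ ^ (-x.ig t.φ).val) = 0 := by
  have h (j : ℕ) : x.ig (t.σ ^ j) = j := by
    induction j with
    | zero => simpa using x.hom_ig 1 (one_mem _) 1 (one_mem _)
    | succ j ih =>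
      rw [pow_succ, x.hom_ig _ (pow_mem t.σ_mem j) _ t.σ_mem, ih, x.ig_sigma, Nat.cast_succ]
  rw [x.hom_ig _ t.φ_mem _ (pow_mem t.σ_mem _), h, ZMod.natCast_zmod_val, add_neg_cancel]

theorem t5_unit {a : ℕ} (h : Odd a) : IsUnit (a : La) := by
  obtain ⟨m, rfl⟩ := h
  rw [unit_La, map_natCast, Nat.cast_add, Nat.cast_one, Nat.cast_mul, Nat.cast_ofNat,
    dvd_add_right (la_two.mul_right _)]
  exact prime_wO.not_dvd_one

theorem t5_pow {R : Type} [CommRing R] {ρ f : Gam → R} (h : Zc G ρ f) (hρ : Chr ρ) {x : Gam}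
    (hx : x ∈ G) (h1 : ρ x = 1) (a : ℕ) : f (x ^ a) = a * f x := by
  induction a with
  | zero => simpa [hρ.one] using h.2 1 (one_mem _) 1 (one_mem _)
  | succ a ih =>
    rw [pow_succ', h.2 _ hx _ (pow_mem hx a), ih, h1, one_smul, Nat.cast_succ]
    ring

theorem t5_mul {R : Type} [CommRing R] {ρ f : Gam → R} (h : Zc G ρ f) {x y : Gam} (hx : x ∈ G)
    (hy : y ∈ G) (h0 : f (x⁻¹ * y) = 0) : f y = f x := by
  have := h.2 x hx _ (mul_mem (inv_mem hx) hy)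
  rwa [mul_inv_cancel_left, h0, smul_zero, add_zero] at this

namespace Cx

variable {c : Cx} {n : ℕ}

theorem Stg.t5_pow {s : c.Stg n} {k : ℕ} {x : Gam} (hx : x ∈ G) (h : s.InN k x) (a : ℕ) :
    s.InN k (x ^ a) := by
  induction a with
  | zero => rw [pow_zero]; exact .one s k
  | succ a ih => rw [pow_succ]; exact ih.mul h (pow_mem hx a) hx

theorem Stg.t5_J (s : c.Stg n) {k : ℕ} {t : TP} (h : ∀ i, (s.t k i).π ≠ t.π) :
    ∀ r ∈ s.J k, r.t.π ≠ t.π := fun r hr => by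
  obtain ⟨i, -, e⟩ := s.ofJ k r hr
  exact e ▸ h i

/-- A new prime at level `k`. -/
theorem Stg.exists_dp (s : c.Stg n) (k : ℕ) {x : Gam} (hx : x ∈ G) (h : s.InN k x)
    {U : Subgroup Gam} (hU : Nice U) : ∃ (r : DP (k + 1)) (a : ℕ) (φ : Gam), Odd a ∧ φ ∈ G ∧
      φ⁻¹ * x ^ a ∈ U ∧ φ⁻¹ * r.t.φ ∈ Ine r.t.v ∧ (∀ i, (s.t k i).π ≠ r.t.π) ∧
      ∀ b, Good (c.m k) (c.α b).π (md (aa k) (c.θ k)) c.g0 (insert r (s.J k)) := by
  obtain ⟨V, hV, hV'⟩ := s.nice k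
  obtain ⟨t, a, ha, hB, hn, hm⟩ := cheb (hU.inf hV) hx
    ((univ.image fun i => (s.t k i).v.p) ∪ univ.image fun b => (c.α b).v.p)
  have h1 : ∀ i, (s.t k i).π ≠ t.π := fun i => t5_ne fun e =>
    hB (mem_union_left _ (mem_image.2 ⟨i, mem_univ _, e⟩))
  have h2 : ∀ b, (c.α b).π ≠ t.π := fun b => t5_ne fun e =>
    hB (mem_union_right _ (mem_image.2 ⟨b, mem_univ _, e⟩))
  have h3 : ∀ i, (c.t0 k i).π ≠ t.π := fun i => s.base k i ▸ h1 _
  have hJ := s.t5_J h1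
  have hφ : s.InN k t.φ := by
    have := (Stg.t5_pow hx h a).mul ((hV' _ hm.2).inv (hV.le hm.2)) (pow_mem hx a)
      (inv_mem (hV.le hm.2))
    rwa [mul_inv_rev, inv_inv, mul_inv_cancel_left] at this
  have hq : 2 ^ (k + 1 + 2) ∣ nm t.π - 1 := by
    have h4 : 1 ≤ nm t.π := by have := t.nm_mod; omega
    have h5 := hφ.cy
    rw [cy, t.cyc_φ, map_natCast] at h5
    rw [← ZMod.natCast_eq_zero_iff, Nat.cast_sub h4, Nat.cast_one]
    exact sub_eq_zero.2 h5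
  obtain ⟨y⟩ := exists_ix t k.succ_pos hq
  have hσ : t.σ ^ (-y.ig t.φ).val ∈ Ine t.v := pow_mem t.σ_ine _
  have hσ' := ine_le t.odd hσ
  have hN : ¬ t.π ∣ (c.t.N : O) := fun e => by
    rcases c.all _ t.prime e with e | ⟨i, e⟩
    · exact t.V_eq.1 (p1_V_w t.odd) e
    · exact t.not_dvd _ (h3 (some i)).symm e
  refine ⟨⟨t.adj _ hσ, y.adj _ hσ⟩, a, t.φ, ha, t.φ_mem, hm.1, ?_, h1, fun b => ?_⟩
  · change t.φ⁻¹ * (t.φ * _) ∈ _
    rwa [inv_mul_cancel_left]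
  have g := s.good k b
  refine ⟨g.mem, g.cy0, forall_mem_insert .. |>.2 ⟨fun e => ?_, g.nd⟩,
    forall_mem_insert .. |>.2 ⟨?_, g.cop⟩, forall_mem_insert .. |>.2 ⟨?_, g.th⟩,
    forall_mem_insert .. |>.2 ⟨?_, g.ig0⟩,
    forall_mem_insert .. |>.2 ⟨forall_mem_insert .. |>.2 ⟨t5_adj y, fun r hr => ?_⟩,
      fun r hr => forall_mem_insert .. |>.2 ⟨?_, g.ig r hr⟩⟩,
    forall_mem_insert .. |>.2 ⟨forall_mem_insert .. |>.2 ⟨fun _ => rfl,
      fun r hr e => absurd e.symm (hJ r hr)⟩, fun r hr => forall_mem_insert .. |>.2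
        ⟨fun e => absurd e (hJ r hr), g.inj r hr⟩⟩⟩
  · exact (t.prime.dvd_or_dvd e).elim (c.nd_m0 _ t hN) (t.not_dvd _ (h3 none).symm)
  · exact t.prime.coprime_iff_not_dvd.2 (t.not_dvd _ (h2 b).symm)
  · have e := c.cy_θ (k := k) (fa k) (mul_mem t.φ_mem hσ')
    rw [show cy (k + 1) (t.φ * _) = 1 from k2_cy ⟨t.adj _ hσ, y.adj _ hσ⟩, map_one, one_mul,
      (c.chr true k).mul _ t.φ_mem _ hσ', md, md, md, c.ρ_ine true (t5_off h3) hσ, ← map_mul, mul_one,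
      Ideal.Quotient.eq.2 (hφ.ρ true), map_one] at e
    exact e
  · exact y.ig_ine (c.tp c.i0).odd (t5_V (h3 (some c.i0)).symm) (c.tp c.i0).σ_ine
  · change r.x.ig (t.φ * _) = 0
    rw [r.x.hom_ig _ t.φ_mem _ hσ', hφ.ig r hr, r.x.ig_ine t.odd (t5_V (hJ r hr)) hσ, add_zero]
  · have h4 := t.not_dvd _ (hJ r hr).symm
    obtain ⟨z, hz⟩ := pow_of_fix t hn h4 (hφ.rt r hr)
    have h5 : ¬ t.π ∣ z := fun e => h4 (by
      simpa using dvd_add hz (dvd_pow e (pow_pos two_pos (k + 1)).ne'))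
    change y.ig r.t.φ = 0
    rw [y.ig_frob _ (hJ r hr), y.per _ _ hz, y.pow h5, ZMod.natCast_self, zero_mul]

/-- The next stage. -/
theorem Stg.exists_ex (s : c.Stg n) (r : ∀ k, DP (k + 1)) (h1 : ∀ k i, (s.t k i).π ≠ (r k).t.π)
    (h2 : ∀ k b, Good (c.m k) (c.α b).π (md (aa k) (c.θ k)) c.g0 (insert (r k) (s.J k))) :
    ∃ s' : c.Stg (n + 1), s.Ex s' ∧ ∀ k, s'.t k none = (r k).t := by
  let t : ℕ → Option (Jx c.κ n) → TP := fun k o => o.elim (r k).t (s.t k)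
  choose L hL hL' using fun b k =>
    (s.val b k).ext (c.chr b k) (s.adm b k).unr (t' := t k) fun _ => rfl
  let M : Bool → ℕ → Gam → Option (Jx c.κ n) ⊕ Fin 2 → La := fun b k g =>
    Sum.elim (fun o => o.elim (Quotient.out (L b k g (.inl none))) fun i => s.L b k g (.inl i))
      fun i => s.L b k g (.inr i)
  have hM (b : Bool) (k : ℕ) : mdL (aa k) (M b k) = L b k := by
    funext g j
    rcases j with (_ | i) | i
    exacts [Ideal.Quotient.mk_out _, (hL' b k g (.inl i)).symm, (hL' b k g (.inr i)).symm]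
  refine ⟨⟨t, fun k => insert (r k) (s.J k), M, s.base, fun k i hi => ?_, fun k r' hr => ?_,
    fun k i j e => ?_, h2, fun b k => hM b k ▸ hL b k⟩, ⟨fun _ _ => rfl, fun k g j => ?_,
      fun k => ⟨r k, fun h => s.t5_J (h1 k) _ h rfl, rfl, rfl⟩⟩, fun _ => rfl⟩
  · rcases i with _ | i
    · exact ⟨r k, mem_insert_self _ _, rfl⟩
    · exact (s.toJ k i hi).imp fun _ h => ⟨mem_insert_of_mem h.1, h.2⟩
  · rcases mem_insert.1 hr with rfl | hr
    · exact ⟨none, trivial, rfl⟩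
    · obtain ⟨i, h⟩ := s.ofJ k r' hr
      exact ⟨some i, h⟩
  · rcases i with _ | i <;> rcases j with _ | j
    exacts [rfl, absurd e.symm (h1 k j), absurd e (h1 k i), congrArg some (s.inj k i j e)]
  · rcases j with i | i <;> rfl

theorem Stg.Ex.ext {s : c.Stg n} {s' : c.Stg (n + 1)} (h : s.Ex s')
    : ∀ b k, s'.kp b k (s'.t k none).σ + s.kp b k (s'.t k none).φ ∈ aa k := by
  intro b k
  obtain ⟨r, hr, e, hJ⟩ := h.J k
  have := kol_σ (fa k) (hJ ▸ s'.good k b) (c.kb b k) hr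
  rw [← Ideal.Quotient.eq_zero_iff_mem, map_add, ← e]
  change md _ (lft _) _ + md _ (lft _) _ = 0
  rw [md_lft, md_lft, hJ, this, neg_add_cancel]

theorem Stg.Ex.t5_ext {s : c.Stg n} {s' : c.Stg (n + 1)} (h : s.Ex s') : c.dat.Ext s s' where
  gen j := funext fun k => Subtype.ext (by
    rcases j with i | i
    exacts [congrArg TP.σ (h.t k i), rfl])
  φ i := funext fun k => Subtype.ext (congrArg TP.φ (h.t k i))
  L g j := congrArg ul (funext fun k => h.L k _ j)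
  le _ _ := ZL_le h.t
  zero _ _ := ZL_zero h.t fun k i e => Option.some_ne_none i (s'.inj k _ _ (h.t k i ▸ e))
  unr b _ hI := ZL_unr h.t (s.adm b) hI.ne_top
  kap b := (ul_congr (.of_forall fun k => by
    rw [sub_neg_eq_add]
    exact h.ext b k)).trans (ul_neg _)

variable (c)

theorem ok_step : ∀ {n : ℕ} (s : c.dat.St n), ∀ x ∈ c.dat.N s, ∀ (m : ℕ) (f : Fin m → GG → La)
    (b : Fin m → Bool) (J : Fin m → Ideal La), (∀ i, Pr (J i) ∧ f i ∈ c.dat.Z s (b i) (J i)) →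
    ∃ (s' : c.dat.St (n + 1)) (t : La), c.dat.Ext s s' ∧ IsUnit t ∧
      ∀ i, f i (c.dat.φ s' none) - t * f i x ∈ J i := by
  intro n s x hx m f b J hf
  choose z hz e using fun i => (hf i).2
  obtain ⟨jj, j1, j2, j3⟩ := diag fun j => Filter.eventually_all.2 fun i => hz i j
  have hU (k : ℕ) : ∃ U, Nice U ∧ ∀ u ∈ U, ∀ i,
      Zc G (md (J i ⊔ aa (jj k)) (c.ρ (b i) k)) (md (J i ⊔ aa (jj k)) (z i k)) →
        md (J i ⊔ aa (jj k)) (z i k) u = 0 := nice_fin fun i => by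
    by_cases h : Zc G (md (J i ⊔ aa (jj k)) (c.ρ (b i) k)) (md (J i ⊔ aa (jj k)) (z i k))
    · have := (hf i).1.lo2 (jj k)
      obtain ⟨p, hp⟩ := Lo2.kill (La ⧸ (J i ⊔ aa (jj k)))
      obtain ⟨U, h1, h2⟩ := nice_coc (hp _)
        (((c.chr (b i) k).fac (aa_le_sup (j1 k) _)).act le_rfl) (zc_iff.1 h)
      exact ⟨U, h1, fun u hu _ => (h2 u hu).1⟩
    · exact ⟨G, nice_G, fun _ _ h' => absurd h' h⟩
  choose U hU hU' using hU
  choose r a φ a1 a2 a3 a4 a5 a6 using fun k => Stg.exists_dp s k (x k).2 (hx k) (hU k)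
  obtain ⟨s', h1, h2⟩ := Stg.exists_ex s r a5 a6
  refine ⟨s', ul fun k => (a k : La), h1.t5_ext, ul_unit (.of_forall fun k => t5_unit (a1 k)),
    fun i => ?_⟩
  rw [e i, lim, lim, ← ul_mul, ← ul_sub, ul_mem_iff]
  refine fun j => (j2.and (j3 j)).mono fun k hk => sup_le_sup_left (aa_anti hk.2) _ ?_
  obtain ⟨b1, b2⟩ := hk.1 i
  have l := aa_le_sup (j1 k) (J i)
  rw [← Ideal.Quotient.eq, map_mul, map_natCast]
  change md _ (z i k) (s'.t k none).φ = _ * md _ (z i k) (x k)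
  rw [h2, t5_mul b1 (a2 k) (r k).t.φ_mem (b2 _ (t5_off (a5 k)) _ (a4 k)),
    ← t5_mul b1 (a2 k) (pow_mem (x k).2 _) (hU' k _ (a3 k) i b1),
    t5_pow b1 ((c.chr (b i) k).fac l) (x k).2
      ((Ideal.Quotient.eq.2 (l ((hx k).ρ (b i)))).trans (map_one _))]

theorem ok_kap_mem : ∀ {n : ℕ} (s : c.dat.St n) (b : Bool), c.dat.kap s b ∈ c.dat.Z s true ⊥ :=
  fun s b => (LC.of (Stg.zc_kp s b) ⊥).lim_mem

theorem ok_kap_φ : ∀ {n : ℕ} (s : c.dat.St n) (b : Bool) (i : Jx c.κ n), i.deep →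
    c.dat.kap s b (c.dat.φ s i) = 0 := by
  refine fun s b i hi => (ul_congr (.of_forall fun k => ?_)).trans (ul_const 0)
  obtain ⟨r, hr, e⟩ := Stg.toJ s k i hi
  rw [sub_zero, ← Ideal.Quotient.eq_zero_iff_mem]
  change md _ (lft _) (Stg.t s k i).φ = 0
  rw [md_lft, ← e, kol_φ (fa k) (Stg.good s k b) (c.kb b k) hr]

theorem ok_F_mem : ∀ b, c.dat.F b ∈ c.dat.Z c.dat.s0 true ⊥ :=
  fun b => (LC.of (fun k => ⟨(c.zc_Fk b k).1,
    funext (Stg.t_zero c.dat.s0 k) ▸ (c.zc_Fk b k).2⟩) ⊥).lim_mem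

theorem ok_kap0 : ∀ b g, c.dat.kap c.dat.s0 b g = c.dat.hat true (c.dat.F b) g := by
  refine fun b g => (ul_congr (.of_forall fun k => Stg.kp_zero c.dat.s0 b k (g k).2)).trans ?_
  rw [ul_sub, ul_mul, ul_mul, ul_sub, ul_sub, ul_const]
  rfl

theorem ok_sym : ∃ x, ∀ g, c.dat.cc false * c.dat.F true g - c.dat.cc true * c.dat.F false g =
    (c.dat.ρ true g - 1) * x := by
  choose x hx using c.sym_Fk
  refine ⟨ul x, fun g => ?_⟩
  have := ul_congr (.of_forall fun k => hx k _ (g k).2)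
  rw [ul_sub, ul_mul, ul_mul, ul_mul, ul_sub, ul_const] at this
  exact this

end Cx

end Pool.Agent.Lib.MP_696deb_nt.EU
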