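import Pool.Agent.Lib.MP_696deb_nt.EU.Sel

/-! Two Selmer classes are dependent. -/

set_option autoImplicit false

open scoped Classical NNReal
open Finset

namespace Pool.Agent.Lib.MP_696deb_nt.EU

/-- Selmer cocycles over the rational numbers. -/
structure KsQ (t : Tw) (e : ℕ) (ξ : Gam → A) : Prop where
  sm : Sm ⊤ ξ
  tor : ∀ g, (2 : O) ^ e • ξ g = 0
  coc : ∀ g h, ξ (g * h) = ξ g + t.tw g (ξ h)
  inf : ∃ S, ξ cc = t.cob S cc
  loc : ∀ v : Plc, ∃ S, ∀ g ∈ Dec v, ξ g = t.cob S g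

/-- Cohomologous cochains. -/
def ksR (t : Tw) (e : ℕ) : Setoid (Gam → A) where
  r ξ η := ∃ S : A, (2 : O) ^ e • S = 0 ∧ ∀ g, ξ g - η g = t.cob S g
  iseqv :=
    { refl := fun ξ => ⟨0, smul_zero _, fun g => by rw [Q4.Tw.cob, map_zero, sub_self, sub_self]⟩
      symm := fun ⟨S, h1, h2⟩ => ⟨-S, by rw [smul_neg, h1, neg_zero], fun g => by
        rw [← neg_sub, h2, Q4.Tw.cob, Q4.Tw.cob, map_neg]
        abel⟩
      trans := fun ⟨S, h1, h2⟩ ⟨S', h3, h4⟩ => ⟨S + S', by rw [smul_add, h1, h3, add_zero],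
        fun g => by rw [t.cob_add, Pi.add_apply, ← h2, ← h4, sub_add_sub_cancel]⟩ }

theorem ks_count (t : Tw) (h : B2.Stmt.CorankLE (QP.EQ t.N) 1) : ∃ C : ℕ, ∀ (e : ℕ)
    (s : Finset (Gam → A)), (∀ ξ ∈ s, KsQ t e ξ) → (∀ ξ ∈ s, ∀ η ∈ s, ksR t e ξ η → ξ = η) →
    s.card ≤ C * 2 ^ e := by
  obtain ⟨C, hC⟩ := h
  refine ⟨C, fun e s hs hi => ?_⟩
  have c2 : ∀ (k : ℕ) (P : A), (2 : O) ^ k • P = 2 ^ k • P := fun k P => by
    rw [← Nat.cast_smul_eq_nsmul O, Nat.cast_pow, Nat.cast_ofNat]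
  let _ := QP.cw t.N t.ne
  let Ψ : Pool.Agent.B6.EE ≃+ A := Q4.linkPsi t.ne t.pw
  have e1 : ∀ (g : Gam) (P : A), g • Ψ.symm P = Ψ.symm (t.tw g P) := fun g P =>
    Ψ.injective ((Q4.link_pm t.ne t.pw t.pw (g : Qbar →+* Qbar) (Ψ.symm P)).trans (by
      rw [Ψ.apply_symm_apply]
      exact congrArg (t.tw g) (Ψ.apply_symm_apply P)))
  have e2 : ∀ (ξ : Gam → A) (S : A) (g : Gam), ξ g = t.cob S g → Ψ.symm (ξ g) =
      Pool.Agent.B6.tw 1 g (Ψ.symm S) - Ψ.symm S := fun ξ S g k => by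
    rw [QP.tw_one, e1, k, Q4.Tw.cob, map_sub]
  let F : (Gam → A) → Gam → Pool.Agent.B6.EE := fun ξ g => Ψ.symm (ξ g)
  have e3 : ∀ ξ ∈ s, B2.Stmt.IsSel (QP.EQ t.N) (2 ^ e) (F ξ) := fun ξ hξ => QP.lkq_isSel
    ⟨(hs ξ hξ).sm.comp fun P => Ψ.symm P, fun g k => by
      simp only [QP.tw_one, e1, (hs ξ hξ).coc, map_add],
      fun v => ((hs ξ hξ).loc v).elim fun S k => ⟨_, fun g hg => e2 ξ S g (k g hg)⟩,
      (hs ξ hξ).inf.elim fun S k => ⟨_, e2 ξ S _ k⟩⟩ fun g => by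
      rw [← map_nsmul, ← c2, (hs ξ hξ).tor, map_zero]
  have e4 : Function.Injective F := fun ξ η k => funext fun g => Ψ.symm.injective (congrFun k g)
  have := hC e (s.image F) (fun x hx => by
    obtain ⟨ξ, hξ, rfl⟩ := mem_image.1 hx
    exact e3 ξ hξ) fun x hx y hy c => by
    obtain ⟨ξ, hξ, rfl⟩ := mem_image.1 hx
    obtain ⟨η, hη, rfl⟩ := mem_image.1 hy
    obtain ⟨S, k2, k3⟩ := c
    rw [hi ξ hξ η hη ⟨Ψ S, by
      rw [c2, ← map_nsmul]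
      exact (congrArg Ψ k2).trans Ψ.map_zero, fun g => Ψ.symm.injective (by
      rw [map_sub, Q4.Tw.cob, map_sub, ← e1, Ψ.symm_apply_apply]
      exact k3 g)⟩]
  rw [one_mul] at this
  exact (card_image_of_injective s e4).symm.trans_le this

theorem ks_cl {t : Tw} {e M : ℕ} (hM : ∀ s : Finset (Gam → A), (∀ ξ ∈ s, KsQ t e ξ) →
    (∀ ξ ∈ s, ∀ η ∈ s, ksR t e ξ η → ξ = η) → s.card ≤ M) {ι : Type} [Fintype ι]
    {f : ι → Gam → A} (hf : ∀ i, KsQ t e (f i)) : ∃ c : ι → Gam → A,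
      (univ.image c).card ≤ M ∧ ∀ i j, c i = c j → ksR t e (f i) (f j) := by
  let r : Setoid ι := (ksR t e).comap f
  have k : ∀ i, ksR t e (f (Quotient.mk r i).out) (f i) := fun i => Quotient.mk_out (s := r) i
  refine ⟨fun i => f (Quotient.mk r i).out, hM _ (fun x hx => ?_) fun x hx y hy c => ?_,
    fun i j c => ?_⟩
  · obtain ⟨i, -, rfl⟩ := mem_image.1 hx
    exact hf _
  · obtain ⟨i, -, rfl⟩ := mem_image.1 hx
    obtain ⟨j, -, rfl⟩ := mem_image.1 hy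
    rw [Quotient.out_equiv_out.1 (show r _ _ from c)]
  · exact (ksR t e).trans ((ksR t e).symm (k i)) ((congrArg (ksR t e · (f j)) c).mpr (k j))

theorem ks_cor {t : Tw} {e : ℕ} {ξ : Gam → A} (sm : Sm G ξ)
    (tor : ∀ g ∈ G, (2 : O) ^ e • ξ g = 0)
    (coc : ∀ g ∈ G, ∀ h ∈ G, ξ (g * h) = ξ g + t.tw g (ξ h))
    (loc : ∀ v : Plc, ∃ S, ∀ g ∈ G ⊓ Dec v, ξ g = t.cob S g) :
    KsQ t e fun g => (2 : O) • slC t ξ g := by
  have c := slC_coc coc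
  refine ⟨(slC_sm sm).comp ((2 : O) • ·), fun g => ?_, fun g k => ?_, ⟨_, sl_inv ?_⟩, fun v => ?_⟩
  · rw [smul_comm, slC_tor tor, smul_zero]
  · rw [c, smul_add, ← pow_one (2 : O), sl_two]
  · rw [← c, B2.cc_mul_cc, sl_one c]
  · obtain ⟨S, hS⟩ := slC_loc loc v
    exact sl_half c hS

theorem ks_lin {t : Tw} {e : ℕ} {ξ η : Gam → A} (hξ : Zt t e ξ) (hη : Zt t e η) (a b : O) :
    KsQ t e fun g => (2 : O) • slC t (fun x => a • ξ x + b • η x) g := by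
  refine ks_cor (hξ.sm.comp₂ hη.sm fun P Q => a • P + b • Q) (fun g hg => ?_)
    (fun g hg k hk => ?_) fun v => ?_
  · rw [smul_add, smul_comm _ a, smul_comm _ b, hξ.tor g hg, hη.tor g hg, smul_zero, smul_zero,
      add_zero]
  · rw [hξ.coc g hg k hk, hη.coc g hg k hk, map_add, tw_smul t hg, tw_smul t hg]
    module
  · obtain ⟨R, hR⟩ := hξ.loc' v
    obtain ⟨R', hR'⟩ := hη.loc' v
    exact ⟨a • R + b • R', fun g hg => by
      rw [hR g hg, hR' g hg, t.cob_add, Pi.add_apply, sl_cob t hg.1, sl_cob t hg.1]⟩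

theorem ks_val (k : ℕ) (d d' : O) (h : ¬ (w ^ k ∣ d ∧ w ^ k ∣ d')) : ∃ b ≤ k, ∃ u u' : O,
    d = w ^ b * u ∧ d' = w ^ b * u' ∧ (¬ w ∣ u ∨ ¬ w ∣ u') := by
  induction k with
  | zero => exact (h (by simp)).elim
  | succ k ih =>
    by_cases c : w ^ k ∣ d ∧ w ^ k ∣ d'
    · obtain ⟨⟨u, rfl⟩, u', rfl⟩ := c
      refine ⟨k, k.le_succ, u, u', rfl, rfl, not_and_or.1 fun c => h ?_⟩
      rw [pow_succ]
      exact ⟨mul_dvd_mul_left _ c.1, mul_dvd_mul_left _ c.2⟩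
    · obtain ⟨b, hb, r⟩ := ih c
      exact ⟨b, hb.trans k.le_succ, r⟩

/-- The Gaussian integer with given coordinates. -/
def ksO {M : ℕ} (x : Fin M × Fin M) : O := ⟨(x.1 : ℕ), (x.2 : ℕ)⟩

theorem ksO_inj {a : ℕ} {x y : Fin (2 ^ a) × Fin (2 ^ a)} (h : w ^ (2 * a) ∣ ksO x - ksO y) :
    x = y := by
  have h1 : (((2 ^ a : ℕ) : ℤ) : O) ∣ ksO x - ksO y := by
    refine Dvd.dvd.trans ⟨ii ^ a, ?_⟩ h
    rw [Int.cast_natCast, Nat.cast_pow, Nat.cast_ofNat, ← mul_pow, pow_mul]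
    exact congrArg (· ^ a) (by decide)
  obtain ⟨h2, h3⟩ := (Zsqrtd.intCast_dvd _ _).1 h1
  exact Prod.ext
    (Fin.ext ((Nat.modEq_iff_dvd.2 h2).symm.eq_of_lt_of_lt x.1.2 y.1.2))
    (Fin.ext ((Nat.modEq_iff_dvd.2 h3).symm.eq_of_lt_of_lt x.2.2 y.2.2))

theorem sel2 (t : Tw) (h : B2.Stmt.CorankLE (QP.EQ t.N) 1) : ∃ n : ℕ, ∀ (e : ℕ) (ξ η : Gam → A),
    Zt t e ξ → Zt t e η → ∃ (u u' : O) (S : A) (m a : ℕ), (¬ w ∣ u ∨ ¬ w ∣ u') ∧ 2 * a ≤ e + n ∧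
      (2 : O) ^ m • S = 0 ∧ ∀ g ∈ G, (2 : O) ^ a • (u • ξ g + u' • η g) = t.cob S g := by
  obtain ⟨C, hC⟩ := ks_count t h
  refine ⟨C + 5, fun e ξ η hξ hη => ?_⟩
  obtain ⟨a, a1, a2⟩ : ∃ a, e + C ≤ 2 * a ∧ 2 * a ≤ e + C + 1 := ⟨(e + C + 1) / 2, by omega⟩
  obtain ⟨c, c1, c2⟩ := ks_cl (hC e) fun x : (Fin (2 ^ a) × Fin (2 ^ a)) × Fin (2 ^ a) × Fin (2 ^ a) =>
    ks_lin hξ hη (ksO x.1) (ksO x.2)
  obtain ⟨c', c3, c4⟩ := ks_cl (hC e) fun x : (Fin (2 ^ a) × Fin (2 ^ a)) × Fin (2 ^ a) × Fin (2 ^ a) =>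
    ks_lin hξ hη (ii * ksO x.1) (ii * ksO x.2)
  have lt : C * 2 ^ e < 2 ^ a * 2 ^ a := by
    rw [← pow_add, ← two_mul]
    refine lt_of_lt_of_le ?_ (Nat.pow_le_pow_right two_pos a1)
    rw [pow_add, mul_comm]
    exact mul_lt_mul_of_pos_left Nat.lt_two_pow_self (by positivity)
  obtain ⟨x, -, y, -, ne, k⟩ := exists_ne_map_eq_of_card_lt_of_maps_to (s := univ)
    (t := univ.image c ×ˢ univ.image c') (f := fun x => (c x, c' x)) (by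
      simp only [card_product, card_univ, Fintype.card_prod, Fintype.card_fin]
      exact Nat.mul_lt_mul'' (c1.trans_lt lt) (c3.trans_lt lt)) fun x _ =>
      mem_coe.2 (mem_product.2 ⟨mem_image_of_mem _ (mem_univ _), mem_image_of_mem _ (mem_univ _)⟩)
  obtain ⟨S, s1, s2⟩ := c2 x y (congrArg Prod.fst k)
  obtain ⟨S', s3, s4⟩ := c4 x y (congrArg Prod.snd k)
  obtain ⟨b, hb, u, u', d1, d2, hu⟩ := ks_val (2 * a) (ksO x.1 - ksO y.1) (ksO x.2 - ksO y.2)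
    fun k => ne (Prod.ext (ksO_inj k.1) (ksO_inj k.2))
  obtain ⟨q, hq⟩ : w ^ b ∣ (2 : O) ^ a := by
    rw [Q4.two_eq, mul_pow, ← pow_mul]
    exact (pow_dvd_pow _ hb).mul_left _
  refine ⟨u, u', q • (S + -ii • S'), e, a + 2, hu, by omega, ?_, fun g hg => ?_⟩
  · rw [smul_comm, smul_add, smul_comm _ (-ii), s1, s3, smul_zero, add_zero, smul_zero]
  have i2 : ∀ P : A, ii • ii • P = -P := fun P => by
    rw [← mul_smul, show ii * ii = -1 by decide, neg_one_smul]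
  have k4 : (4 : O) • ((ksO x.1 • ξ g + ksO x.2 • η g) - (ksO y.1 • ξ g + ksO y.2 • η g)) =
      t.cob (S + -ii • S') g := by
    rw [t.cob_add, Pi.add_apply, sl_cob t hg, ← s2, ← s4]
    simp only [slC_mem hg, mul_smul, ← smul_add ii, sl_ii]
    generalize ksO x.1 • ξ g + ksO x.2 • η g = P
    generalize ksO y.1 • ξ g + ksO y.2 • η g = Q
    simp only [smul_sub, smul_comm (-ii) (2 : O), smul_add, neg_smul, smul_neg, i2, neg_neg]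
    module
  rw [sl_cob t hg, ← k4, add_sub_add_comm, ← sub_smul, ← sub_smul, d1, d2, pow_add, hq]
  module

end Pool.Agent.Lib.MP_696deb_nt.EU
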