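import Pool.Agent.Lib.MP_696deb_nt.EU.T3
import Pool.Agent.Lib.MP_696deb_nt.EU.LimA

/-! The tower: the formal properties. -/

set_option autoImplicit false

open scoped Classical NNReal
open Finset PowerSeries

namespace Pool.Agent.Lib.MP_696deb_nt.EU

namespace Cx

variable (c : Cx)

theorem t4_const {b : Bool} {g : Gam} (h : ∀ k, c.ρ b k g = C (c.r0 b g))
    (h0 : c.r0 b g - 1 ≠ 0) {I : Ideal La} (hI : Pr I) : (ul fun k => c.ρ b k g) - 1 ∉ I := by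
  rw [funext h, ul_const, ← map_one (C : Ow →+* La), ← map_sub]
  exact hI.C_notMem h0

theorem t4_gw (b : Bool) {I : Ideal La} (hI : Pr I) : (ul fun k => c.ρ b k (gw 0)) - 1 ∉ I :=
  c.t4_const (fun k => c.ρ_w2 b k (gw_spec.1 0)) (c.r0_gw b) hI

theorem t4_one {y : ℕ → La} (h : ∀ k, y k - 1 ∈ aa k) : ul y = 1 :=
  (ul_congr (.of_forall h)).trans (ul_const 1)

theorem ok_vp : ∀ b I, Pr I → c.dat.ρ b c.dat.g0 - 1 ∉ I := by
  exact fun b I hI => c.t4_const (fun k => c.ρ_σ b k c.i0) (c.r0_σ b c.i0).2.1 hI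

theorem ok_ne : ∀ I, Pr I → ∃ i, c.dat.ρ false (c.dat.e i) - 1 ∉ I := by
  exact fun I hI => ne_lim (c.chr false) hI (gw_Hw 0) (c.t4_gw false hI)

theorem ok_pres : ∀ {n : ℕ} (s : c.dat.St n) (b : Bool),
    Pres (c.dat.ρ b) (c.dat.gen s) (c.dat.φ s) (c.dat.L s b) (c.dat.Z s b) := by
  exact fun s b => pres_lim (Stg.adm s b) (Stg.val s b)

theorem ok_deep : ∀ {n : ℕ} (s : c.dat.St n) (b : Bool) (i : Jx c.κ n), i.deep →
    c.dat.ρ b (c.dat.φ s i) = 1 ∧ c.dat.ρ b (c.dat.gen s (.inl i)) = 1 := by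
  exact fun s b i hi => ⟨t4_one fun k => (Stg.deep s b k hi).1,
    (congrArg ul (funext fun k => (Stg.deep s b k hi).2.1)).trans (ul_const 1)⟩

theorem ok_W_mem : ∀ {n : ℕ} (s : c.dat.St n) (I : Ideal La), ∀ f ∈ c.dat.Z s false I,
    (fun i => f (c.dat.e i)) ∈ c.dat.W I := by
  exact fun s I => WL_mem

theorem ok_lw : ∀ I, Pr I → ∀ d ∉ I,
    ¬ ∀ y : Fin 4 → La, ∃ v ∈ c.dat.W I, ∀ i, v i - d * y i ∈ I := by
  exact fun I hI d hd => lw_lim c.dual hI (gw_Hw 0) (c.t4_gw true hI) hd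

theorem ok_unit : ∀ {n : ℕ} (s : c.dat.St n) (i : Jx c.κ n), i.deep → IsUnit (c.dat.u s i) := by
  exact fun s i _ => uL_unit _ i

theorem lim_σ (i : c.κ) {I : Ideal La} (hI : Pr I) :
    (ul fun k => c.ρ false k (c.tp i).σ) - 1 ∉ I := by
  exact c.t4_const (fun k => c.ρ_σ false k i) (c.r0_σ false i).2.1 hI

theorem lim_lam_σ {I : Ideal La} (hI : Pr I) (h : X ∉ I) :
    (ul fun k => c.ρ false k (c.lv k).lam.σ) - 1 ∉ I := by
  have _ := hI
  have e := t4_one c.ρ_lam'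
  rw [ul_mul, ul_const] at e
  intro k
  refine h ?_
  convert I.mul_mem_right (-(1 + X)) k using 1
  linear_combination e

theorem lim_lam_φ {I : Ideal La} (hI : Pr I) (h : X ∈ I) :
    (ul fun k => c.ρ false k (c.lv k).lam.φ) - 1 ∉ I := by
  intro k
  rw [eq_X_mul_shift_add_const (_ - 1), I.add_mem_iff_right (I.mul_mem_right _ h)] at k
  have e : constantCoeff ((ul fun k => c.ρ false k (c.lv k).lam.φ) - 1) = 0 :=
    by_contra fun e => hI.C_notMem e k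
  rw [map_sub, map_one, sub_eq_zero, ← coeff_zero_eq_constantCoeff_apply, ul, coeff_mk] at e
  obtain ⟨j, hj⟩ := (ulO_spec (fun k => coeff 0 (c.ρ false k (c.lv k).lam.φ)) 2).exists
  rw [e, coeff_zero_eq_constantCoeff_apply, ρ_const] at hj
  refine (c.lv j).r3 (Dvd.dvd.trans ⟨wO * oW ⟨0, -1⟩ ^ 2, ?_⟩ (?_ : (2 : Ow) ^ 2 ∣ _))
  · rw [lb_two]
    ring
  · simpa [Cb.r0, starRingEnd_apply] using map_dvd (starRingEnd Ow) hj

theorem ok_recip : ∀ I, Pr I → ∀ {n : ℕ} (s : c.dat.St n), ∀ f ∈ c.dat.Z s true I,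
    ∀ f' ∈ c.dat.Z s false I, (∀ i, f' (c.dat.e i) ∈ I) → ∑ i : Jx c.κ n with i.deep, c.dat.u s i *
      (f' (c.dat.φ s i) * f (c.dat.gen s (.inl i)) -
        f' (c.dat.gen s (.inl i)) * f (c.dat.φ s i)) ∈ I := by
  intro I hI n s
  refine recip_lim c.dual (Stg.adm s true) (Stg.adm s false) hI Jx.deep (fun k i hi => ?_)
    fun i hi => ?_
  · obtain ⟨h1, h2, h3⟩ := Stg.deep s false k hi
    exact ⟨h1, by rw [h2, sub_self]; exact zero_mem _, (pow_dvd_pow 2 (by omega)).trans h3⟩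
  · obtain ⟨j, rfl⟩ := Jx.not_deep.1 hi
    change (ul fun k => c.ρ false k (Stg.t s k (Jx.emb j)).σ) - 1 ∉ I ∨
      (ul fun k => c.ρ false k (Stg.t s k (Jx.emb j)).φ) - 1 ∉ I
    simp only [Stg.base]
    rcases j with _ | j
    · by_cases h : X ∈ I
      · exact .inr (c.lim_lam_φ hI h)
      · exact .inl (c.lim_lam_σ hI h)
    · exact .inl (c.lim_σ j hI)

theorem ok_N_ρ : ∀ {n : ℕ} (s : c.dat.St n) (b : Bool), ∀ x ∈ c.dat.N s, c.dat.ρ b x = 1 := by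
  exact fun s b x hx => t4_one fun k => (hx k).ρ b

theorem ok_comm : ∀ {n : ℕ} (s : c.dat.St n) (g : GG),
    cmt c.dat.g0 (cmt c.dat.g0 g) ∈ c.dat.N s := by
  exact fun s g k => Stg.inN_cmt s k (g k).2

end Cx

end Pool.Agent.Lib.MP_696deb_nt.EU
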