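import Pool.Agent.Lib.MP_696deb_nt.EU.Main
import Pool.Agent.Lib.MP_696deb_nt.EU.KTop
import Pool.Agent.Lib.MP_696deb_nt.EU.KT1
import Pool.Agent.Lib.MP_696deb_nt.EU.KT2
import Pool.Agent.Lib.MP_696deb_nt.EU.KStep

/-! Rank at most one: a first derivative of bounded valuation. -/

set_option autoImplicit false

open scoped Classical NNReal
open Finset PowerSeries

namespace Pool.Agent.Lib.MP_696deb_nt.EU

theorem exists_cb5 {D : ℤ} (hD : QA.Fam D) {q : ℕ} (hq : q.Prime) (h2 : q ≠ 2) (h5 : q ≠ 5)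
    (hv : Odd (padicValInt q D)) {φ : O → O} (hφ : Phi D φ) :
    ∃ c : Cb, c.t.N = D ∧ c.φ = φ ∧ ¬ (c.tp c.i0).π ∣ 5 ∧ ¬ (c.α true).π ∣ 5 := by
  let t : Tw := ⟨Q4.q4 D, D, hD.ne, Q4.q4_pow D⟩
  choose tp htp using fun i : {π : O | Prime π ∧ Prim π ∧ π ∣ (D : O)} => exists_tp i.2.1 i.2.2.1
  have dv : ∀ i, (tp i).π ∣ (D : O) := fun i => htp i ▸ i.2.2.2
  obtain ⟨α, a1, a2, a3⟩ := exists_alpha (D := 5 * D) (mul_ne_zero (by norm_num) hD.ne)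
  simp only [Int.cast_mul, Int.cast_ofNat] at a2
  obtain ⟨Q, q1, q2, q3, q4⟩ := exists_Q0 t
  obtain ⟨v, rfl⟩ := B2.exists_plc hq
  obtain ⟨π, p1, p2, p3⟩ := g1_pi h2
  have p4 : π ∣ ((v.p : ℤ) : O) := (g1_lt p1 p3).1 (g1_p v)
  have hp := Fact.mk hq
  have p5 : π ∣ (D : O) := p4.trans (map_dvd (Int.castRingHom O)
    (pow_one (v.p : ℤ) ▸ (padicValInt_dvd_iff 1 D).2 (.inr hv.pos)))
  have p6 : (tp ⟨π, p1, p2, p5⟩).v.p = v.p := (Nat.prime_dvd_prime_iff_eq (B2.Plc.prime _) hq).1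
    (Int.natCast_dvd_natCast.1 (c8_dvd _ (by rw [htp]; exact p4)))
  refine ⟨⟨t, φ, hφ, _, (c8_fin (Int.cast_ne_zero.2 hD.ne)).fintype, tp,
    fun i j e => Subtype.ext (by rwa [htp, htp] at e), dv, fun p k1 k2 => ?_,
    fun i => rho0_sigma' t _ fun k => ?_, ⟨π, p1, p2, p5⟩, rho0_sigma t _ (p6 ▸ hv), α, a1,
    fun b => (a2 b).1, fun b k => (a2 b).2 (k.mul_left 5), a3, Q, q1, q2, q3, q4⟩, rfl, rfl,
    fun k => h5 ((Nat.prime_dvd_prime_iff_eq hq Nat.prime_five).1 (Int.natCast_dvd_natCast.1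
      (p6 ▸ c8_dvd (n := 5) _ k))), fun k => (a2 true).2 (k.mul_right _)⟩
  · by_cases k : w ∣ p
    · exact .inl (g1_w.associated_of_dvd k1 k).symm.dvd
    obtain ⟨n, hn⟩ := exists_prim (C4_red k)
    have u : Associated (ii ^ n * p) p := associated_unit_mul_left _ _
      ((IsUnit.of_mul_eq_one (-ii) (by decide)).pow n)
    exact .inr ⟨⟨_, u.symm.prime k1, hn, u.dvd.trans k2⟩, by rw [htp]; exact u.symm.dvd⟩
  · have := hD.val (tp i).v.prime (c8_dvd _ (dv i))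
    change 4 ∣ padicValInt _ D at k
    omega

theorem kur_main {D : ℤ} (hD : QA.Fam D) {q : ℕ} (hq : q.Prime) (h2 : q ≠ 2) (h5 : q ≠ 5)
    (hv : Odd (padicValInt q D)) (h : B2.Stmt.CorankLE (QP.EQ D) 1) {φ : O → O} (hφ : Phi D φ)
    (hz : ∀ m : ℕ, 0 < m → 8 * D.natAbs ∣ m → ∀ (b d : O) (R : Finset O), IsCoprime b m →
      IsCoprime d m → EA.IsRep m R → ∑ a ∈ R with Prim a, io (star (φ a)) * dl b (a • tq d m) = 0) :
    ∃ (b : TP) (e a : ℕ), nm b.π % 8 = 5 ∧ ¬ b.π ∣ (D : O) ∧ ¬ b.π ∣ 5 ∧ ∀ v, ∃ u ≥ v,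
      ∃ (r : TP) (x : Ix r u), AdmR D φ b.π r u ∧
        w2.V (2 ^ a) ≤ w2.V (kur φ ((D.natAbs * 2 ^ (e + 3) : ℕ) : O) b.π x) := by
  obtain ⟨c, rfl, rfl, h6, h7⟩ := exists_cb5 hD hq h2 h5 hv hφ
  let d : Cx := ⟨c, fun k => (c.exists_lv k).some⟩
  have k : ¬ c.Small := fun hs => Dat.Ok2.false (Sp := d.Sp) ⟨d.ok, d.ok_erl (c.van hz),
    d.ok_sel2 h, d.ok_conj, d.ok_recip', d.ok_step1 h6, d.ok_erl1 hs⟩
  unfold Cb.Small at k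
  push Not at k
  obtain ⟨e, a, k⟩ := k
  exact ⟨c.α true, e, a, c.α5 _, c.α_nd _, h7, k⟩

end Pool.Agent.Lib.MP_696deb_nt.EU
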