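import Pool.Agent.Lib.MP_696deb_nt.EU.P2

/-! Kummer cocycles of equivariant families of algebraic numbers. -/

set_option autoImplicit false

open scoped Classical NNReal
open Finset

namespace Pool.Agent.Lib.MP_696deb_nt.EU

/-- The logarithm of a root of unity. -/
noncomputable def lg (e : ℕ) (x : Qbar) : ZMod (2 ^ e) :=
  if h : ∃ a : ZMod (2 ^ e), x = zeta e ^ a.val then h.choose else 0

theorem lg_spec {e : ℕ} {x : Qbar} (h : x ^ 2 ^ e = 1) : x = zeta e ^ (lg e x).val := by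
  rw [lg, dif_pos (B2.exists_zeta_val h)]
  exact (B2.exists_zeta_val h).choose_spec

theorem kf_lg (e : ℕ) (a : ZMod (2 ^ e)) : lg e (zeta e ^ a.val) = a :=
  B2.zeta_val_inj (lg_spec (B2.b3b_pow e a)).symm

theorem kf_ne {e : ℕ} {x : Qbar} (h : x ^ 2 ^ e = 1) : x ≠ 0 := fun k => by
  rw [k, zero_pow (by positivity)] at h
  exact zero_ne_one h

theorem lg_one (e : ℕ) : lg e 1 = 0 := by
  simpa using kf_lg e 0

theorem lg_mul {e : ℕ} {x y : Qbar} (h : x ^ 2 ^ e = 1) (k : y ^ 2 ^ e = 1) :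
    lg e (x * y) = lg e x + lg e y := by
  conv_lhs => rw [lg_spec h, lg_spec k, ← B2.zeta_val_add, kf_lg]

theorem lg_div {e : ℕ} {x y : Qbar} (h : x ^ 2 ^ e = 1) (k : y ^ 2 ^ e = 1) :
    lg e (x / y) = lg e x - lg e y := by
  rw [eq_sub_iff_add_eq, ← lg_mul (by rw [div_pow, h, k, div_one]) k,
    div_mul_cancel₀ _ (kf_ne k)]

theorem lg_prod {e : ℕ} {ι : Type} (s : Finset ι) {x : ι → Qbar} (h : ∀ i ∈ s, x i ^ 2 ^ e = 1) :
    lg e (∏ i ∈ s, x i) = ∑ i ∈ s, lg e (x i) := by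
  induction s using Finset.induction_on with
  | empty => simpa using lg_one e
  | insert i s hi ih =>
    have k : ∀ j ∈ s, x j ^ 2 ^ e = 1 := fun j hj => h j (mem_insert_of_mem hj)
    rw [prod_insert hi, sum_insert hi, lg_mul (h i (mem_insert_self _ _))
      (by rw [← prod_pow]; exact prod_eq_one k), ih k]

theorem lg_act {e : ℕ} {x : Qbar} (h : x ^ 2 ^ e = 1) (g : Gam) : lg e (g x) = cy e g * lg e x := by
  conv_lhs => rw [lg_spec h, B2.smul_zeta_val, kf_lg]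

theorem root_eq {e : ℕ} {v : Plc} (hv : v.p ≠ 2) {x y : Qbar} (h : x ^ 2 ^ e = 1)
    (k : y ^ 2 ^ e = 1) (hV : v.V (x - y) < 1) : x = y := by
  have h0 := kf_ne k
  refine (div_eq_one_iff_eq h0).1 (v.eq_one_of_root (n := 2 ^ e) (fun d =>
    hv ((Nat.prime_dvd_prime_iff_eq v.prime Nat.prime_two).1 (v.prime.dvd_of_dvd_pow d)))
    (by rw [div_pow, h, k, div_one]) ?_)
  rwa [div_sub_one h0, map_div₀, v.V_root_of_unity (by positivity) k, div_one]

variable {X X' R : Type} [MulAction Gam X] [MulAction Gam X'] [CommRing R] {H : Subgroup Gam}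
  {e : ℕ} {S : Finset X} {y y' : X → Qbar} {g h g0 : Gam}

/-- Roots of an equivariant family. -/
structure Fam (H : Subgroup Gam) (e : ℕ) (S : Finset X) (y : X → Qbar) : Prop where
  stab : ∀ g ∈ H, ∀ x ∈ S, g • x ∈ S
  sm : ∀ x ∈ S, Sm H fun g => g • x
  ne : ∀ x ∈ S, y x ≠ 0
  eqv : ∀ g ∈ H, ∀ x ∈ S, g (y x ^ 2 ^ e) = y (g • x) ^ 2 ^ e

/-- The Kummer cocycle of the family. -/
noncomputable def kc (e : ℕ) (y : X → Qbar) (g : Gam) (x : X) : ZMod (2 ^ e) :=
  lg e (g (y (g⁻¹ • x)) / y x)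

/-- The weighted sum of the Kummer cocycle. -/
noncomputable def FF (f : ZMod (2 ^ e) →+* R) (S : Finset X) (y : X → Qbar) (W : X → R) (g : Gam) :
    R := ∑ x ∈ S, f (kc e y g x) * W x

/-- The comparison of two choices of roots. -/
noncomputable def XX (f : ZMod (2 ^ e) →+* R) (S : Finset X) (y y' : X → Qbar) (W : X → R) : R :=
  ∑ x ∈ S, f (lg e (y x / y' x)) * W x

/-- The translate of a weight. -/
def tr (W : X → R) (g : Gam) (x : X) : R := W (g • x)

/-- The rigidified sum. -/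
noncomputable def kap (f : ZMod (2 ^ e) →+* R) (S : Finset X) (y : X → Qbar) (vp : R) (g0 : Gam)
    (W : X → R) (g : Gam) : R :=
  vp * FF f S y W g - f (cy e g) * FF f S y (tr W g) g0 + FF f S y W g0

/-- The product over the fibres of a map. -/
noncomputable def push (S : Finset X) (p : X → X') (y : X → Qbar) (x' : X') : Qbar :=
  ∏ x ∈ S with p x = x', y x

variable (f : ZMod (2 ^ e) →+* R) {W W' : X → R}

theorem Fam.mono (k : Fam H e S y) {H' : Subgroup Gam} (hH : H' ≤ H) : Fam H' e S y :=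
  ⟨fun g hg => k.stab g (hH hg), fun x hx => (k.sm x hx).mono hH, k.ne,
    fun g hg => k.eqv g (hH hg)⟩

theorem Fam.sub (k : Fam H e S y) {S' : Finset X} (h1 : S' ⊆ S)
    (h2 : ∀ g ∈ H, ∀ x ∈ S', g • x ∈ S') : Fam H e S' y :=
  ⟨h2, fun x hx => k.sm x (h1 hx), fun x hx => k.ne x (h1 hx),
    fun g hg x hx => k.eqv g hg x (h1 hx)⟩

theorem Fam.mul (k : Fam H e S y) (k' : Fam H e S y') : Fam H e S fun x => y x * y' x :=
  ⟨k.stab, k.sm, fun x hx => mul_ne_zero (k.ne x hx) (k'.ne x hx), fun g hg x hx => by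
    rw [mul_pow, mul_pow, map_mul, k.eqv g hg x hx, k'.eqv g hg x hx]⟩

theorem Fam.pow (k : Fam H e S y) (n : ℕ) : Fam H e S fun x => y x ^ n :=
  ⟨k.stab, k.sm, fun x hx => pow_ne_zero _ (k.ne x hx), fun g hg x hx => by
    rw [pow_right_comm, map_pow, k.eqv g hg x hx, pow_right_comm]⟩

theorem Fam.of_pow (k : Fam H e S y) (k' : ∀ x ∈ S, y' x ^ 2 ^ e = y x ^ 2 ^ e) :
    Fam H e S y' :=
  ⟨k.stab, k.sm, fun x hx d => pow_ne_zero (2 ^ e) (k.ne x hx) (by
    rw [← k' x hx, d, zero_pow (by positivity)]), fun g hg x hx => by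
    rw [k' x hx, k' _ (k.stab g hg x hx), k.eqv g hg x hx]⟩

theorem Fam.inv (k : Fam H e S y) (hg : g ∈ H) {x : X} (hx : x ∈ S) : g⁻¹ • x ∈ S :=
  k.stab _ (inv_mem hg) x hx

theorem Fam.root (k : Fam H e S y) (hg : g ∈ H) {x : X} (hx : x ∈ S) :
    (g (y (g⁻¹ • x)) / y x) ^ 2 ^ e = 1 := by
  rw [div_pow, ← map_pow, k.eqv g hg _ (k.inv hg hx), smul_inv_smul,
    div_self (pow_ne_zero _ (k.ne x hx))]

theorem Fam.prod_act {β : Type} [CommMonoid β] (k : Fam H e S y) (hg : g ∈ H) (F : X → β) :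
    ∏ x ∈ S, F (g • x) = ∏ x ∈ S, F x :=
  prod_nbij' (g • ·) (g⁻¹ • ·) (fun _ d => k.stab g hg _ d) (fun _ d => k.inv hg d)
    (fun _ _ => inv_smul_smul _ _) (fun _ _ => smul_inv_smul _ _) fun _ _ => rfl

theorem Fam.sum_act {β : Type} [AddCommMonoid β] (k : Fam H e S y) (hg : g ∈ H) (F : X → β) :
    ∑ x ∈ S, F (g • x) = ∑ x ∈ S, F x :=
  k.prod_act hg (β := Multiplicative β) F

theorem Fam.kc_mul (k : Fam H e S y) (hg : g ∈ H) (hh : h ∈ H) {x : X} (hx : x ∈ S) :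
    kc e y (g * h) x = kc e y g x + cy e g * kc e y h (g⁻¹ • x) := by
  have h1 := k.root hh (k.inv hg hx)
  rw [kc, kc, kc, ← lg_act h1, ← lg_mul (k.root hg hx) (by rw [← map_pow, h1, map_one]),
    AlgEquiv.mul_apply, mul_inv_rev, mul_smul, map_div₀, mul_comm (_ / y x),
    div_mul_div_cancel₀ ((map_ne_zero g).2 (k.ne _ (k.inv hg hx)))]

theorem kf_inv {α : Type} {F : Gam → α} (k : Sm H F) : Sm H fun g => F g⁻¹ := by
  obtain ⟨U, h1, h2, h3⟩ := k
  refine ⟨U, h1, h2, fun g hg l hl d => h3 _ (inv_mem hg) _ (inv_mem hl) ?_⟩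
  rw [show g⁻¹⁻¹ * l⁻¹ = g * (g⁻¹ * l)⁻¹ * g⁻¹ by group]
  exact h2.conj_mem _ (inv_mem d) _

theorem kf_sum {ι β : Type} [AddCommMonoid β] (s : Finset ι) {F : ι → Gam → β}
    (k : ∀ i ∈ s, Sm H (F i)) : Sm H fun g => ∑ i ∈ s, F i g :=
  (B2.Sm.pi (ι := s) fun i => k i.1 i.2).comp (fun z => ∑ i : s, z i) |>.congr fun g _ =>
    sum_coe_sort s fun i => F i g

theorem Fam.sm_kc (k : Fam H e S y) {x : X} (hx : x ∈ S) : Sm H fun g => kc e y g x :=
  ((B2.Sm.pi (ι := S) fun i => B2.sm_apply (H := H) (y i.1)).comp₂ (kf_inv (k.sm x hx)) fun z Q =>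
    lg e ((if d : Q ∈ S then z ⟨Q, d⟩ else 0) / y x)).congr fun g hg => by
      rw [kc, dif_pos (k.inv hg hx)]

theorem Fam.fib (k : Fam H e S y) {p : X → X'} (h3 : ∀ g ∈ H, ∀ x ∈ S, p (g • x) = g • p x)
    (hg : g ∈ H) {β : Type} [CommMonoid β] (F : X → β) (x' : X') :
    ∏ x ∈ S with p x = x', F (g • x) = ∏ x ∈ S with p x = g • x', F x := by
  rw [prod_filter, prod_filter, ← k.prod_act hg fun x => if p x = g • x' then F x else 1]
  refine prod_congr rfl fun x hx => ?_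
  simp only [h3 g hg x hx, smul_left_cancel_iff]

theorem Fam.push (k : Fam H e S y) {S' : Finset X'} {p : X → X'}
    (h1 : ∀ g ∈ H, ∀ x ∈ S', g • x ∈ S') (h2 : ∀ x ∈ S', Sm H fun g => g • x)
    (h3 : ∀ g ∈ H, ∀ x ∈ S, p (g • x) = g • p x) : Fam H e S' (push S p y) :=
  ⟨h1, h2, fun _ _ => prod_ne_zero_iff.2 fun x hx => k.ne x (mem_filter.1 hx).1,
    fun g hg x' _ => by
      rw [EU.push, EU.push, ← prod_pow, ← prod_pow, map_prod,
        ← k.fib h3 hg (fun x => y x ^ 2 ^ e) x']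
      exact prod_congr rfl fun x hx => k.eqv g hg x (mem_filter.1 hx).1⟩

theorem FF_congr (k : ∀ x ∈ S, W x = W' x) : FF f S y W g = FF f S y W' g :=
  sum_congr rfl fun x hx => by rw [k x hx]

theorem FF_add : FF f S y (fun x => W x + W' x) g = FF f S y W g + FF f S y W' g := by
  simp only [FF, mul_add, sum_add_distrib]

theorem FF_smul (a : R) : FF f S y (fun x => a * W x) g = a * FF f S y W g := by
  simp only [FF, mul_sum, mul_left_comm]

theorem FF_map {R' : Type} [CommRing R'] (π : R →+* R') :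
    π (FF f S y W g) = FF (π.comp f) S y (fun x => π (W x)) g := by
  simp only [FF, map_sum, map_mul, RingHom.comp_apply]

theorem FF_union {S' : Finset X} (k : Disjoint S S') :
    FF f (S ∪ S') y W g = FF f S y W g + FF f S' y W g := sum_union k

theorem FF_mul (k : Fam H e S y) (k' : Fam H e S y') (hg : g ∈ H) :
    FF f S (fun x => y x * y' x) W g = FF f S y W g + FF f S y' W g := by
  rw [FF, FF, FF, ← sum_add_distrib]
  refine sum_congr rfl fun x hx => ?_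
  rw [← add_mul, ← map_add, kc, kc, kc, ← lg_mul (k.root hg hx) (k'.root hg hx), map_mul,
    mul_div_mul_comm]

theorem FF_pow (k : Fam H e S y) (hg : g ∈ H) (n : ℕ) :
    FF f S (fun x => y x ^ n) W g = n * FF f S y W g := by
  induction n with
  | zero => simp [FF, kc, lg_one]
  | succ n ih =>
    simp only [pow_succ]
    rw [FF_mul f (k.pow n) k hg, ih]
    push_cast
    ring

theorem FF_root (k : Fam H e S y) (k' : ∀ x ∈ S, y' x ^ 2 ^ e = y x ^ 2 ^ e) (hg : g ∈ H) :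
    FF f S y W g = FF f S y' W g + (f (cy e g) * XX f S y y' (tr W g) - XX f S y y' W) := by
  have k2 := k.of_pow k'
  have t : ∀ x ∈ S, (y x / y' x) ^ 2 ^ e = 1 := fun x hx => by
    rw [div_pow, k' x hx, div_self (pow_ne_zero _ (k.ne x hx))]
  have e1 : XX f S y y' (tr W g) = ∑ x ∈ S, f (lg e (y (g⁻¹ • x) / y' (g⁻¹ • x))) * W x := by
    rw [XX, ← k.sum_act (inv_mem hg)]
    simp only [tr, smul_inv_smul]
  rw [e1, FF, FF, XX, mul_sum, ← sum_sub_distrib, ← sum_add_distrib]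
  refine sum_congr rfl fun x hx => ?_
  have t1 := t _ (k.inv hg hx)
  have t2 : g (y (g⁻¹ • x) / y' (g⁻¹ • x)) ^ 2 ^ e = 1 := by rw [← map_pow, t1, map_one]
  rw [← mul_assoc, ← sub_mul, ← add_mul, ← map_mul, ← map_sub, ← map_add, ← lg_act t1,
    ← lg_div t2 (t x hx), kc, kc,
    ← lg_mul (k2.root hg hx) (by rw [div_pow, t2, t x hx, div_one]), map_div₀]
  have a1 := (map_ne_zero g).2 (k2.ne _ (k.inv hg hx))
  have a2 := k2.ne x hx
  have a3 := k.ne x hx
  congr 3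
  field_simp

theorem FF_push (k : Fam H e S y) {S' : Finset X'} {p : X → X'} (h0 : ∀ x ∈ S, p x ∈ S')
    (h3 : ∀ g ∈ H, ∀ x ∈ S, p (g • x) = g • p x) (hg : g ∈ H) (V : X' → R) :
    FF f S y (fun x => V (p x)) g = FF f S' (push S p y) V g := by
  rw [FF, FF, ← sum_fiberwise_of_maps_to h0]
  refine sum_congr rfl fun x' _ => ?_
  rw [kc, push, push, ← k.fib h3 (inv_mem hg) y x', map_prod, ← prod_div_distrib,
    lg_prod _ fun x hx => k.root hg (mem_filter.1 hx).1, map_sum, sum_mul]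
  exact sum_congr rfl fun x hx => by rw [(mem_filter.1 hx).2, kc]

theorem FF_bij {S' : Finset X'} {p : X → X'} (h0 : Set.BijOn p S S') {z : X' → Qbar}
    (h3 : ∀ x ∈ S, p (g⁻¹ • x) = g⁻¹ • p x) (V : X' → R) :
    FF f S (fun x => z (p x)) (fun x => V (p x)) g = FF f S' z V g :=
  sum_nbij p (fun _ hx => h0.mapsTo hx) h0.injOn h0.surjOn fun x hx => by
    rw [kc, kc, h3 x hx]

theorem FF_coc (k : Fam H e S y) (hg : g ∈ H) (hh : h ∈ H) :
    FF f S y W (g * h) = FF f S y W g + f (cy e g) * FF f S y (tr W g) h := by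
  have e1 : FF f S y (tr W g) h = ∑ x ∈ S, f (kc e y h (g⁻¹ • x)) * W x := by
    rw [FF, ← k.sum_act (inv_mem hg)]
    simp only [tr, smul_inv_smul]
  rw [e1, FF, FF, mul_sum, ← sum_add_distrib]
  refine sum_congr rfl fun x hx => ?_
  rw [k.kc_mul hg hh hx, map_add, map_mul]
  ring

theorem sm_FF (k : Fam H e S y) : Sm H (FF f S y W) :=
  kf_sum S fun x hx => (k.sm_kc hx).comp fun a => f a * W x

theorem zc_FF (k : Fam H e S y) {θ : Gam → R} (hW : ∀ g ∈ H, ∀ x ∈ S, W (g • x) = θ g * W x) :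
    Zc H (fun g => f (cy e g) * θ g) (FF f S y W) :=
  ⟨sm_FF f k, fun g hg h hh => by
    rw [FF_coc f k hg hh, FF_congr f (W := tr W g) (W' := fun x => θ g * W x) (hW g hg), FF_smul,
      smul_eq_mul, mul_assoc]⟩

theorem XX_tr (k : Fam H e S y) {a : R} (hW : ∀ x ∈ S, W (g • x) = a * W x) :
    XX f S y y' (tr W g) = a * XX f S y y' W := by
  rw [XX, XX, mul_sum]
  exact sum_congr rfl fun x hx => by rw [tr, hW x hx, mul_left_comm]

theorem kap_congr {vp : R} (k : Fam H e S y) (hg : g ∈ H) (k' : ∀ x ∈ S, W x = W' x) :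
    kap f S y vp g0 W g = kap f S y vp g0 W' g := by
  rw [kap, kap, FF_congr f (g := g) k', FF_congr f (g := g0) k',
    FF_congr f (W := tr W g) (W' := tr W' g) fun x hx => k' _ (k.stab g hg x hx)]

theorem kf_FF_sum {ι : Type} (s : Finset ι) (a : ι → R) (V : ι → X → R) :
    FF f S y (fun x => ∑ i ∈ s, a i * V i x) g = ∑ i ∈ s, a i * FF f S y (V i) g := by
  simp only [FF, mul_sum]
  rw [sum_comm]
  simp only [mul_left_comm]

theorem kap_sum {vp : R} {ι : Type} (s : Finset ι) (a : ι → R) (V : ι → X → R) :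
    kap f S y vp g0 (fun x => ∑ i ∈ s, a i * V i x) g = ∑ i ∈ s, a i * kap f S y vp g0 (V i) g := by
  rw [kap, show tr (fun x => ∑ i ∈ s, a i * V i x) g = fun x => ∑ i ∈ s, a i * tr (V i) g x from rfl,
    kf_FF_sum, kf_FF_sum, kf_FF_sum, mul_sum, mul_sum, ← sum_sub_distrib, ← sum_add_distrib]
  exact sum_congr rfl fun i _ => by rw [kap]; ring

theorem kap_map {vp : R} {R' : Type} [CommRing R'] (π : R →+* R') :
    π (kap f S y vp g0 W g) = kap (π.comp f) S y (π vp) g0 (fun x => π (W x)) g := by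
  simp only [kap, map_add, map_sub, map_mul, FF_map]
  rfl

theorem sm_kap {vp : R} (k : Fam H e S y) : Sm H (kap f S y vp g0 W) := by
  have h1 : Sm H fun g => FF f S y (tr W g) g0 :=
    kf_sum S fun x hx => (k.sm x hx).comp fun Q => f (kc e y g0 x) * W Q
  exact (sm_FF f k).comp₂ ((B2.sm_cy e).comp₂ h1 fun a b => f a * b)
    fun a b => vp * a - b + FF f S y W g0

theorem kap_coc {vp : R} (k : Fam H e S y) (hg : g ∈ H) (hh : h ∈ H) (h0 : g0 ∈ H)
    (h1 : cy e g0 = 1) (hW : ∀ x ∈ S, W (g • g0 • x) = (1 + vp) * W (g • x)) :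
    kap f S y vp g0 W (g * h) = kap f S y vp g0 W g + f (cy e g) * kap f S y vp g0 (tr W g) h := by
  have e1 : tr (tr W g) h = tr W (g * h) := funext fun x => by rw [tr, tr, tr, mul_smul]
  rw [kap, kap, kap, e1, FF_coc f k hg hh, B2.b3b_cy, map_mul]
  ring

theorem kap_root {vp : R} (k : Fam H e S y) (k' : ∀ x ∈ S, y' x ^ 2 ^ e = y x ^ 2 ^ e) (hg : g ∈ H)
    (h0 : g0 ∈ H) (h1 : cy e g0 = 1) (hW : ∀ x ∈ S, W (g0 • x) = (1 + vp) * W x)
    (hW' : ∀ x ∈ S, W (g • g0 • x) = (1 + vp) * W (g • x)) :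
    kap f S y vp g0 W g = kap f S y' vp g0 W g := by
  rw [kap, kap, FF_root f k k' hg, FF_root f (W := W) k k' h0, FF_root f (W := tr W g) k k' h0,
    XX_tr f k hW, XX_tr f (W := tr W g) (g := g0) k hW', h1, map_one]
  ring

end Pool.Agent.Lib.MP_696deb_nt.EU
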