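import Pool.Agent.Lib.MP_696deb_nt.EU.P3

/-! Existence of cocycles with given values at the generators. -/

set_option autoImplicit false

open scoped Classical NNReal
open Finset

namespace Pool.Agent.Lib.MP_696deb_nt.EU

variable {R : Type} [CommRing R] {ι : Type} {t : ι → TP} {ρ : Gam → R} {H : Subgroup Gam}
  {M : Type} [AddCommGroup M] [Module R M] {c c' : Gam → M}

/-- An extension of a module by the module with two elements. -/
structure P4Ext {N : Type} [AddCommGroup N] [Module R N] (ε : ZMod 2 →+ M) (π : M →ₗ[R] N)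
    (s : N → M) : Prop where
  inj : Function.Injective ε
  fix : ∀ u : R, IsUnit u → ∀ z, u • ε z = ε z
  zero : ∀ z, π (ε z) = 0
  ker : ∀ m, π m = 0 → ε (Function.invFun ε m) = m
  sec : ∀ y, π (s y) = y

theorem p4_ext [Lo2 R] [Finite M] [Nontrivial M] : ∃ (W : Submodule R M) (ε : ZMod 2 →+ M)
    (s : M ⧸ W → M), W ≠ ⊥ ∧ P4Ext ε W.mkQ s := by
  obtain ⟨x, h0, h1, h2⟩ := Lo2.exists_soc (R := R) (M := M)
  have h3 : x + x = 0 := by
    rw [← neg_eq_iff_add_eq_zero, ← neg_one_smul R, h1 _ isUnit_one.neg]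
  let ε : ZMod 2 →+ M := .mk' (fun z => if z = 0 then 0 else x) fun a b => by
    fin_cases a <;> fin_cases b
    · exact (add_zero _).symm
    · exact (zero_add _).symm
    · exact (add_zero _).symm
    · exact h3.symm
  have e1 : ε 1 = x := rfl
  refine ⟨R ∙ x, ε, Function.surjInv (R ∙ x).mkQ_surjective, by simpa using h0,
    (injective_iff_map_eq_zero ε).2 fun a ha => ?_, fun u hu a => ?_, fun a => ?_,
    fun m hm => Function.invFun_eq ?_, Function.surjInv_eq _⟩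
  · fin_cases a
    exacts [rfl, absurd ha h0]
  · fin_cases a
    exacts [smul_zero u, h1 u hu]
  · fin_cases a
    exacts [map_zero _, (Submodule.Quotient.mk_eq_zero _).2 (Submodule.mem_span_singleton_self x)]
  · obtain ⟨a, rfl⟩ := Submodule.mem_span_singleton.1 ((Submodule.Quotient.mk_eq_zero _).1 hm)
    by_cases ha : IsUnit a
    exacts [⟨1, (h1 a ha).symm⟩, ⟨0, (h2 a ha).symm⟩]

/-- The obstruction. -/
noncomputable def p4ob (ε : ZMod 2 →+ M) (ρ : Gam → R) (b : Gam → M) (g h : Gam) : ZMod 2 :=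
  Function.invFun ε (b g + ρ g • b h - b (g * h))

namespace P4Ext

variable {N : Type} [AddCommGroup N] [Module R N] {ε : ZMod 2 →+ M} {π : M →ₗ[R] N} {s : N → M}
  (E : P4Ext ε π s) (hρ : Chr ρ) {d : Gam → N} (hd : Zc G ρ d)
include E hρ

theorem coc {χ : Gam → ZMod 2} (h : B4bG G χ) : Zc G ρ fun g => ε (χ g) :=
  ⟨h.1.comp ε, fun g hg k hk => by
    simp only [h.2 g hg k hk, map_add, E.fix _ (hρ.isUnit hg)]⟩

include hd

omit hρ in
theorem ob {g h : Gam} (hg : g ∈ G) (hh : h ∈ G) :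
    ε (p4ob ε ρ (fun g => s (d g)) g h) = s (d g) + ρ g • s (d h) - s (d (g * h)) :=
  E.ker _ (by rw [map_sub, map_add, map_smul, E.sec, E.sec, E.sec, hd.2 g hg h hh, sub_self])

theorem c2 : C2 1 G (p4ob ε ρ fun g => s (d g)) := by
  have h1 := hd.1.comp s
  refine ⟨((h1.left.comp₂ (hρ.sm.left.comp₂ h1.right (· • ·)) (· + ·)).comp₂ h1.mul (· - ·)).comp
    (Function.invFun ε), fun g hg h hh k hk => ?_⟩
  rw [B2.cy_one_eq, one_mul]
  refine E.inj ((map_add ε _ _).trans (Eq.trans ?_ (map_add ε _ _).symm))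
  rw [← E.fix _ (hρ.isUnit hg), E.ob hd hh hk, E.ob hd hg (mul_mem hh hk),
    E.ob hd (mul_mem hg hh) hk, E.ob hd hg hh, hρ.mul g hg h hh, mul_assoc]
  module

theorem spl_iff (hH : H ≤ G) : Spl 1 H (p4ob ε ρ fun g => s (d g)) ↔
    ∃ c : Gam → M, Zc H ρ c ∧ ∀ g ∈ H, π (c g) = d g := by
  have h1 := (hd.1.comp s).mono hH
  constructor
  · rintro ⟨β, h2, h3⟩
    refine ⟨fun g => s (d g) - ε (β g), ⟨h1.comp₂ (h2.comp ε) (· - ·), fun g hg h hh => ?_⟩,
      fun g _ => by rw [map_sub, E.sec, E.zero, sub_zero]⟩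
    have := E.ob hd (hH hg) (hH hh)
    rw [h3 g hg h hh, B2.cy_one_eq, one_mul] at this
    have e := ((map_sub ε _ _).trans (congrArg (· - _) (map_add ε _ _))).symm.trans this
    rw [smul_sub, E.fix _ (hρ.isUnit (hH hg))]
    linear_combination (norm := module) e
  · rintro ⟨c, h2, h3⟩
    have h4 : ∀ g ∈ H, ε (Function.invFun ε (s (d g) - c g)) = s (d g) - c g := fun g hg =>
      E.ker _ (by rw [map_sub, E.sec, h3 g hg, sub_self])
    refine ⟨fun g => Function.invFun ε (s (d g) - c g),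
      (h1.comp₂ h2.1 (· - ·)).comp (Function.invFun ε), fun g hg h hh => ?_⟩
    rw [B2.cy_one_eq, one_mul]
    refine E.inj (Eq.trans ?_ ((map_sub ε _ _).trans (congrArg (· - _) (map_add ε _ _))).symm)
    rw [E.ob hd (hH hg) (hH hh), ← E.fix _ (hρ.isUnit (hH hg)) (Function.invFun _ (_ - c h)),
      h4 g hg, h4 h hh, h4 _ (mul_mem hg hh), h2.2 g hg h hh]
    module

theorem inv_off (F : CFT) {v : Plc} (h1 : ∀ σ ∈ Ine v, ρ σ - 1 = 0) (h2 : ∀ σ ∈ Ine v, d σ = 0) :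
    F.inv 1 G v (p4ob ε ρ fun g => s (d g)) = 0 := by
  refine F.unr op_G ((E.c2 hρ hd).mono inf_le_left) fun g hg h hh σ hσ σ' hσ' => ?_
  have k : ∀ g ∈ G, ∀ σ ∈ G ⊓ Ine v, d (g * σ) = d g := fun g hg σ hσ => by
    rw [hd.2 g hg σ hσ.1, h2 σ hσ.2, smul_zero, add_zero]
  have e : g * σ * (h * σ') = g * h * (h⁻¹ * σ * h⁻¹⁻¹ * σ') := by group
  have m : h⁻¹ * σ * h⁻¹⁻¹ * σ' ∈ G ⊓ Ine v := mul_mem
    ⟨normal_G.conj_mem _ hσ.1 _, B2.conj_mem_Ine (inv_mem hh.2) hσ.2⟩ hσ'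
  simp only [p4ob]
  rw [e, k _ (mul_mem hg.1 hh.1) _ m, k g hg.1 σ hσ, k h hh.1 σ' hσ', hρ.mul g hg.1 σ hσ.1,
    sub_eq_zero.1 (h1 σ hσ.2), mul_one]

/-- A cocycle lifts if it lifts at the given primes. -/
theorem lift (hu : Unr t fun g => ρ g - 1) (hu' : Unr t d)
    (hl : ∀ i, ∃ c : Gam → M, Zc (G ⊓ Dec (t i).v) ρ c ∧ ∀ g ∈ G ⊓ Dec (t i).v, π (c g) = d g) :
    ∃ c : Gam → M, Zc G ρ c ∧ Unr t c ∧ ∀ g ∈ G, π (c g) = d g := by
  obtain ⟨F⟩ := B2.m_cft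
  have h2 := E.c2 hρ hd
  have h3 : ∀ v : Plc, v.p ≠ 2 → F.inv 1 G v (p4ob ε ρ fun g => s (d g)) = 0 := fun v hv => by
    rcases off_or t hv with h | ⟨i, g, hg, rfl⟩
    · exact E.inv_off hρ hd F (hu v h) (hu' v h)
    · rw [F.inv_smul op_G tc_G h2 hg, F.zero_iff op_G (h2.mono inf_le_left)]
      exact (E.spl_iff hρ hd inf_le_left).2 (hl i)
  have h4 := F.recip {w2} op_G h2 (.inl tc_G)
    (fun v hv v' hv' _ _ _ => (mem_singleton.1 hv).trans (mem_singleton.1 hv').symm)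
    fun v hv => h3 v fun e => (conj_w2 e).elim fun g hg => hv _ (mem_singleton_self _) g hg.1 hg.2
  rw [sum_singleton] at h4
  obtain ⟨c, c1, c2⟩ := (E.spl_iff hρ hd le_rfl).1 (F.abhn op_G h2 (.inl tc_G) fun v => by
    by_cases hv : v.p = 2
    · obtain ⟨g, hg, rfl⟩ := conj_w2 hv
      rw [F.inv_smul op_G tc_G h2 hg, h4]
    · exact h3 v hv)
  have k0 : ∀ v, Off t v → ∀ σ ∈ Ine v, ε (Function.invFun ε (c σ)) = c σ := fun v hv σ hσ =>
    E.ker _ ((c2 σ (ine_le hv.1 hσ)).trans (hu' v hv σ hσ))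
  have k1 : c 1 = 0 := by
    have := c1.2 1 (one_mem _) 1 (one_mem _)
    rwa [mul_one, hρ.one, one_smul, left_eq_add] at this
  obtain ⟨χ, x1, x2⟩ := exists_fix t (f := fun g => Function.invFun ε (c g)) (c1.1.comp _)
    (fun v hv σ hσ σ' hσ' => E.inj (by
      rw [map_add, k0 v hv _ (mul_mem hσ hσ'), k0 v hv _ hσ, k0 v hv _ hσ',
        c1.2 _ (ine_le hv.1 hσ) _ (ine_le hv.1 hσ'), sub_eq_zero.1 (hu v hv σ hσ), one_smul]))
    fun v hv σ hσ g hg => congrArg _ (by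
      have m := ine_le hv.1 hσ
      have e := c1.2 g hg _ (inv_mem hg)
      rw [mul_inv_cancel, k1] at e
      rw [c1.2 _ (mul_mem hg m) _ (inv_mem hg), c1.2 g hg σ m, hρ.mul g hg σ m,
        sub_eq_zero.1 (hu v hv σ hσ), mul_one, ← k0 v hv σ hσ, E.fix _ (hρ.isUnit hg),
        add_right_comm, ← e, zero_add])
  exact ⟨fun g => c g - ε (χ g), c1.sub (E.coc hρ x1),
    fun v hv σ hσ => by simp only [x2 v hv σ hσ, k0 v hv σ hσ, sub_self],
    fun g hg => by rw [map_sub, E.zero, sub_zero, c2 g hg]⟩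

end P4Ext

theorem exists_coc [Lo2 R] [Finite M] [Fintype ι] (h : Adm t ρ) {L : Gam → ι ⊕ Fin 2 → R}
    (hL : Val t ρ L) (x : ι ⊕ Fin 2 → M)
    (hx : ∀ i, (ρ (t i).σ - 1) • ∑ j, L (t i).φ j • x j = (ρ (t i).φ - 1) • x (.inl i)) :
    ∃ c : Gam → M, Zc G ρ c ∧ Unr t c ∧ ∀ j, c (gen t j) = x j := by
  induction hn : Nat.card M using Nat.strong_induction_on generalizing M with | _ n ih => ?_
  rcases subsingleton_or_nontrivial M with hM | hM
  · exact ⟨fun _ => 0, ⟨B2.Sm.const _, fun _ _ _ _ => Subsingleton.elim _ _⟩, fun _ _ _ _ => rfl,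
      fun _ => Subsingleton.elim _ _⟩
  obtain ⟨W, ε, s, hW, E⟩ := p4_ext (R := R) (M := M)
  have : Finite (M ⧸ W) := .of_surjective _ W.mkQ_surjective
  obtain ⟨d, d1, d2, d3⟩ := ih _ (hn ▸ (Nat.card_le_card_of_surjective _ W.mkQ_surjective).lt_of_ne
    fun e => hW (W.ker_mkQ ▸ LinearMap.ker_eq_bot.2
      ((Nat.bijective_iff_surjective_and_card _).2 ⟨W.mkQ_surjective, e.symm⟩).1))
    (fun j => W.mkQ (x j)) (fun i => by
      simpa only [map_smul, map_sum] using congrArg W.mkQ (hx i)) rfl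
  obtain ⟨m, hm⟩ := Lo2.kill R
  obtain ⟨c, c1, c2, c3⟩ := E.lift h.chr d1 h.unr d2 fun i => by
    obtain ⟨c, c1, c2, c3⟩ := exists_tame h.chr (h.geo i) (hx i)
    refine ⟨c, c1, fun g hg => (t i).tm.ext (hm _) (h.chr.act inf_le_left) (c1.lin W.mkQ)
      (d1.mono inf_le_left) ((congrArg _ c3).trans (d3 (.inl i)).symm) ?_ hg⟩
    simp only [c2, hL _ d d1 d2 _ (t i).φ_mem, d3, map_smul, map_sum]
  obtain ⟨χ, x1, x2, x3⟩ := sur2 h.inj fun j => Function.invFun ε (x j - c (gen t j))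
  refine ⟨fun g => c g + ε (χ g), c1.add (E.coc h.chr x1),
    fun v hv σ hσ => by simp only [c2 v hv σ hσ, x2 v hv σ hσ, map_zero, add_zero], fun j => ?_⟩
  beta_reduce
  rw [x3, E.ker _ (by rw [map_sub, c3 _ (gen_mem t j), d3, sub_self]), add_sub_cancel]

end Pool.Agent.Lib.MP_696deb_nt.EU
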