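import Pool.Agent.Lib.MP_696deb_nt.EU.Mwx
import Pool.Agent.Lib.MP_696deb_nt.EU.Lc

/-! The class of the elliptic units modulo the prime above two. -/

set_option autoImplicit false

open scoped Classical NNReal
open Finset

namespace Pool.Agent.Lib.MP_696deb_nt.EU

variable {R : Type} [CommRing R] {e s : ℕ} {lam : TP} {T : R}

/-- The tautological character of the tower. -/
noncomputable def gam (x : Ix lam s) (T : R) (a : O) : R := (1 + T) ^ (x.ind a).val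

/-- The class at the lowest level. -/
noncomputable def FX (f : ZMod (2 ^ e) →+* R) (x : Ix lam s) (T : R) (b : O) : Gam → R :=
  FF f (Xi lam.π) (fun ξ => yb b e (pick lam.π ξ)) fun ξ => gam x T (co lam.π (pick lam.π ξ))

theorem gam_mul (x : Ix lam s) (hT : (1 + T) ^ 2 ^ s = 1) {a a' : O} (h : ¬ lam.π ∣ a)
    (h' : ¬ lam.π ∣ a') : gam x T (a * a') = gam x T a * gam x T a' := by
  rw [gam, gam, gam, x.mul _ _ h h', ← pow_add, ZMod.val_add, ← pow_eq_pow_mod _ hT]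

theorem mw_per (x : Ix lam s) {a a' : O} (h : lam.π ∣ a - a') : gam x T a = gam x T a' := by
  rw [gam, gam, x.per _ _ h]

theorem mw_zero (x : Ix lam s) {a : O} (h : x.ind a = 0) : gam x T a = 1 := by
  rw [gam, h, ZMod.val_zero, pow_zero]

theorem mw_nd {a m : O} (hl : lam.π ∣ m) (h : IsCoprime a m) : ¬ lam.π ∣ a := fun k =>
  lam.prime.not_isUnit (h.isUnit_of_dvd' k hl)

theorem chr_gam (x : Ix lam s) (hT : (1 + T) ^ 2 ^ s = 1) : Chr fun g => gam x T (cm lam.π g) := by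
  have p0 := lam.prime.ne_zero
  exact ⟨(sm_cm p0).comp _, by rw [mw_per x (cm_one p0), mw_zero x x.one], fun g hg h hh => by
    rw [mw_per x (cm_mul p0 hg hh), gam_mul x hT (c5_cm lam hg) (c5_cm lam hh)]⟩

theorem kb_gam (x : Ix lam s) (hT : (1 + T) ^ 2 ^ s = 1) {m b : O} (hm : m ≠ 0) (h3 : w ^ 3 ∣ m)
    (hl : lam.π ∣ m) (hb : Q4.red b = 1) (hc : IsCoprime m b) :
    Kb m b (gam x T) fun g => gam x T (cm lam.π g) := by
  refine ⟨hm, h3, hb, hc, fun a a' h => mw_per x (hl.trans h), fun g hg a ha _ => ?_, chr_gam x hT⟩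
  rw [gam_mul x hT (mw_nd hl (cm_cop hm hg)) (mw_nd hl ha), mw_per x (cm_of_dvd hm hg hl)]

theorem mw_odd (f : ZMod (2 ^ e) →+* R) (h2 : (2 : R) = 0) {a : ZMod (2 ^ e)} (h : Odd a.val) :
    f a = 1 := by
  obtain ⟨k, hk⟩ := h
  rw [hom_val, hk]
  push_cast
  rw [h2, zero_mul, zero_add]

theorem cy_char2 (f : ZMod (2 ^ e) →+* R) (h2 : (2 : R) = 0) (g : Gam) : f (cy e g) = 1 := by
  refine (Nat.even_or_odd (cy e g).val).elim (fun ⟨k, hk⟩ => ?_) (mw_odd f h2)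
  have h0 : f (cy e g) = 0 := by
    rw [hom_val, hk, Nat.cast_add, ← two_mul, h2, zero_mul]
  have h1 : IsUnit (f (cy e g)) := ((B2.cyc_unit g).map (PadicInt.toZModPow e)).map f
  rw [h0] at h1 ⊢
  exact isUnit_zero_iff.1 h1

theorem mw_smul (x : Ix lam s) (hT : (1 + T) ^ 2 ^ s = 1) {a : O} (ha : ¬ lam.π ∣ a) {Q : A}
    (h0 : Q ≠ 0) (h : lam.π • Q = 0) :
    gam x T (co lam.π (a • Q)) = gam x T a * gam x T (co lam.π Q) := by
  have p0 := lam.prime.ne_zero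
  rw [mw_per x (co_smul p0 a h), gam_mul x hT ha fun k =>
    h0 ((co_spec p0 h).symm.trans ((EA.tq_eq_zero p0).2 k))]

theorem mw_wt (x : Ix lam s) (hT : (1 + T) ^ 2 ^ s = 1) (P : A) (h : lam.π • P = 0) :
    gam x T (co lam.π (ii • P)) = gam x T (co lam.π P) := by
  by_cases h0 : P = 0
  · rw [h0, smul_zero]
  · rw [mw_smul x hT (c5_ii lam) h0 h, mw_zero x x.unit, one_mul]

theorem mw_unit [Lo2 R] (x : Ix lam s) (h2 : (2 : R) = 0) (hu : ¬ IsUnit T) {a : O}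
    (h : Odd (x.ind a).val) : ∃ u, IsUnit u ∧ 1 - gam x T a = T * u := by
  have := Lo2.loc (R := R)
  obtain ⟨u, h1, h3⟩ := odd_pow_sub hu (h2 ▸ not_isUnit_zero) h
  exact ⟨-u, h1.neg, by rw [mul_neg, ← h3, neg_sub, gam]⟩

variable [Lo2 R] (f : ZMod (2 ^ e) →+* R) (x : Ix lam s)

theorem mw1 (h2 : (2 : R) = 0) (hT : (1 + T) ^ 2 ^ s = 1) (hu : ¬ IsUnit T) {b : O}
    (hb : Q4.red b = 1) {κ : Type} [Fintype κ] (t : κ → TP) (hi : ∀ i j, (t i).π = (t j).π → i = j)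
    (hl : ∀ i, (t i).π ≠ lam.π) (ho : ∀ i, Odd (x.ind (t i).π).val) {m : O} (hm : m ≠ 0)
    (h1 : w ^ 3 * lam.π * ∏ i, (t i).π ∣ m) (h3 : ∀ p, Prime p → p ∣ m → p ∣ w * lam.π * ∏ i, (t i).π)
    (hc : IsCoprime m b) : ∃ u y : R, IsUnit u ∧ ∀ g ∈ G, FE f m b (gam x T) g =
      T ^ Fintype.card κ * u * FE f (w ^ 3 * lam.π) b (gam x T) g +
        (gam x T (cm lam.π g) - 1) * y := by
  have kb : ∀ S : Finset κ, Kb (w ^ 3 * lam.π * ∏ i ∈ S, (t i).π) b (gam x T)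
      fun g => gam x T (cm lam.π g) := fun S => by
    have d := (mul_dvd_mul_left (w ^ 3 * lam.π)
      (prod_dvd_prod_of_subset _ _ (fun i => (t i).π) S.subset_univ)).trans h1
    exact kb_gam x hT (ne_zero_of_dvd_ne_zero hm d) ((dvd_mul_right _ _).mul_right _)
      ((dvd_mul_left _ _).mul_right _) hb (hc.of_isCoprime_of_dvd_left d)
  have key : ∀ S : Finset κ, ∃ u y : R, IsUnit u ∧ ∀ g ∈ G,
      FE f (w ^ 3 * lam.π * ∏ i ∈ S, (t i).π) b (gam x T) g = T ^ S.card * u *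
        FE f (w ^ 3 * lam.π) b (gam x T) g + (gam x T (cm lam.π g) - 1) * y := fun S => by
    induction S using Finset.induction_on with
    | empty => exact ⟨1, 0, isUnit_one, fun g _ => by simp⟩
    | insert i S hS ih =>
      obtain ⟨u, y, h4, h5⟩ := ih
      have nl := (t i).not_dvd lam (hl i)
      obtain ⟨z, hz⟩ := (kb S).euler f (t i) (fun d => by
        rcases (t i).prime.dvd_or_dvd d with d | d
        · exact ((t i).prime.dvd_or_dvd d).elim (mw_nd dvd_rfl (mw_cop (t i) 3)) nl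
        · obtain ⟨j, hj, d⟩ := ((t i).prime.dvd_finsetProd_iff _).1 d
          exact (t i).not_dvd (t j) (fun k => hS (hi i j k ▸ hj)) d)
        (hc.of_isCoprime_of_dvd_left (((dvd_prod_of_mem _ (mem_univ i)).mul_left _).trans h1))
      obtain ⟨u', h6, h7⟩ := mw_unit x h2 hu (ho i)
      refine ⟨u' * u, T * u' * y + z, h6.mul h4, fun g hg => ?_⟩
      rw [prod_insert hS, mul_comm (t i).π, ← mul_assoc, hz g hg, h5 g hg, cy_char2 f h2,
        mw_per x (cm_frob (t i) nl), h7, card_insert_of_notMem hS]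
      ring
  obtain ⟨u, y, h4, h5⟩ := key univ
  obtain ⟨n, rfl⟩ := h1
  obtain ⟨z, hz⟩ := (kb univ).ram f (right_ne_zero_of_mul hm) fun p hp d =>
    (h3 p hp (d.mul_left _)).trans (mul_dvd_mul_right (mul_dvd_mul_right
      (dvd_pow_self w three_ne_zero) _) _)
  refine ⟨u, y + z, h4, fun g hg => ?_⟩
  rw [hz g hg, h5 g hg, cy_char2 f h2, card_univ]
  ring

theorem mw2 (h2 : (2 : R) = 0) (hT : (1 + T) ^ 2 ^ s = 1) (hu : ¬ IsUnit T) {b : O}
    (hb : Q4.red b = 1) (hc : IsCoprime lam.π b) (ho : Odd (x.ind w).val) :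
    ∃ u y : R, IsUnit u ∧ ∀ g ∈ G, FE f (w ^ 3 * lam.π) b (gam x T) g =
      T * u * FX f x T b g + (gam x T (cm lam.π g) - 1) * y := by
  have p0 := lam.prime.ne_zero
  have m0 := mul_ne_zero mw_w3 p0
  have b0 := EA.ne_of_red hb
  obtain ⟨a, c, ha⟩ := EA.cop_w lam.red
  have ca : IsCoprime a lam.π := ⟨w, c, by rwa [mul_comm]⟩
  have aw : ∀ P : A, lam.π • P = 0 → w • a • P = P := fun P h => by
    rw [smul_smul, mul_comm, eq_sub_of_add_eq ha, sub_smul, mul_smul, h, smul_zero, sub_zero,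
      one_smul]
  have k0 := mw_fam p0 hb hc.symm e
  have k1 := fam_Im m0 (dvd_mul_right _ _) hb e
  have bij := mw_bij p0 ca
  have hI : ∀ P ∈ Im (w ^ 3 * lam.π), w ^ 3 • P ≠ 0 ∧ lam.π • w ^ 3 • P = 0 := fun P h =>
    ⟨((mw_Im lam).1 h).2, by rw [smul_smul, mul_comm, Im_kill m0 h]⟩
  have eq : ∀ g ∈ G, ∀ P ∈ Im (w ^ 3 * lam.π),
      xco (w ^ 3 • g • P) ^ 2 = g • xco (w ^ 3 • P) ^ 2 := fun g hg P _ => by
    rw [mw_act, act_smul hg]
  have k2 := k1.push (p := fun P => xco (w ^ 3 • P) ^ 2) k0.stab k0.sm eq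
  have k3 : Fam G e (Xi lam.π) fun ξ => yb b e (pick lam.π (xco (a • pick lam.π ξ) ^ 2)) :=
    ⟨k0.stab, k0.sm, fun ξ h => k0.ne _ (bij.mapsTo h), fun g hg ξ h => by
      rw [mw_eqv p0 hg h]
      exact k0.eqv g hg _ (bij.mapsTo h)⟩
  have pw : ∀ ξ ∈ Xi lam.π, (push (Im (w ^ 3 * lam.π)) (fun P => xco (w ^ 3 • P) ^ 2) (yb b e) ξ *
      yb b e (pick lam.π (xco (a • pick lam.π ξ) ^ 2))) ^ 2 ^ e = yb b e (pick lam.π ξ) ^ 2 ^ e :=
    fun ξ h => by
      obtain ⟨⟨q0, q1⟩, q⟩ := mw_pick p0 h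
      generalize pick lam.π ξ = Q at q0 q1 q
      have n1 : ∀ P : A, lam.π • P = 0 → lam.π • a • P = 0 := fun P h => by
        rw [smul_comm, h, smul_zero]
      have n0 : ∀ P : A, P ≠ 0 → lam.π • P = 0 → a • P ≠ 0 := fun P h0 h k =>
        h0 (EA.cop_smul ca h k)
      have e2 : w ^ 2 • a • a • a • Q = a • Q := by
        rw [sq, mul_smul, aw _ (n1 _ (n1 _ q1)), aw _ (n1 _ q1)]
      have e3 := mw_push lam hb (n0 _ (n0 _ (n0 _ q0 q1) (n1 _ q1)) (n1 _ (n1 _ q1)))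
        (n1 _ (n1 _ (n1 _ q1)))
      rw [pow_succ' w 2, mul_smul w _ (a • _), e2, aw _ q1, q, ← pow_succ'] at e3
      rw [mul_pow, push, ← prod_pow]
      simp only [yb, rt2_pow]
      rw [e3, mw_inv (ub b) p0 (fun P _ => EA.ub_ii b0 P) (n0 _ q0 q1) (n1 _ q1), mul_comm,
        EA.ub_w hb ((aw _ q1).symm ▸ q0), aw _ q1]
  obtain ⟨u, h4, h5⟩ := mw_unit x h2 hu ho
  refine ⟨u, -XX f (Xi lam.π) (fun ξ => yb b e (pick lam.π ξ)) (fun ξ =>
    push (Im (w ^ 3 * lam.π)) (fun P => xco (w ^ 3 • P) ^ 2) (yb b e) ξ *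
      yb b e (pick lam.π (xco (a • pick lam.π ξ) ^ 2)))
    fun ξ => gam x T (co lam.π (pick lam.π ξ)), h4, fun g hg => ?_⟩
  have s1 : FE f (w ^ 3 * lam.π) b (gam x T) g = _ :=
    (FF_congr f fun P h => by
      rw [mw_inv (fun P => gam x T (co lam.π P)) p0 (mw_wt x hT) (hI P h).1 (hI P h).2,
        mw_per x (co_down p0 mw_w3 (mul_comm lam.π _ ▸ Im_kill m0 h)), mul_comm]).trans
    (FF_push f k1 (S' := Xi lam.π) (p := fun P => xco (w ^ 3 • P) ^ 2)
      (fun P h => mw_mem p0 (hI P h).1 (hI P h).2) eq hg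
      fun ξ => gam x T (co lam.π (pick lam.π ξ)))
  have s2 := FF_root f (W := fun ξ => gam x T (co lam.π (pick lam.π ξ))) k0 pw hg
  have s3 := FF_bij f (g := g) bij (z := fun ξ => yb b e (pick lam.π ξ))
    (fun ξ h => mw_eqv p0 (inv_mem hg) h) fun ξ => gam x T (co lam.π (pick lam.π ξ))
  have s4 : FF f (Xi lam.π) (fun ξ => yb b e (pick lam.π (xco (a • pick lam.π ξ) ^ 2)))
      (fun ξ => gam x T (co lam.π (pick lam.π ξ))) g = gam x T w * FX f x T b g := by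
    rw [FX, ← s3, ← FF_smul]
    refine FF_congr f fun ξ h => ?_
    obtain ⟨⟨q0, q1⟩, -⟩ := mw_pick p0 h
    have n0 : a • pick lam.π ξ ≠ 0 := fun k => q0 (EA.cop_smul ca q1 k)
    have n1 : lam.π • a • pick lam.π ξ = 0 := by rw [smul_comm, q1, smul_zero]
    rw [mw_inv (fun P => gam x T (co lam.π P)) p0 (mw_wt x hT) n0 n1,
      ← mw_smul x hT (mw_nd dvd_rfl (EA.cop_w lam.red)) n0 n1, aw _ q1]
  rw [FF_mul f k2 k3 hg, ← s1, s4, cy_char2 f h2, XX_tr f k0 (a := gam x T (cm lam.π g))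
    fun ξ h => by
      obtain ⟨⟨q0, q1⟩, -⟩ := mw_pick p0 h
      rw [(mw_gen (fun P => gam x T (co lam.π P)) p0 (mw_wt x hT) hg h).2, cm_spec p0 hg q1,
        mw_smul x hT (c5_cm lam hg) q0 q1]] at s2
  rw [← h5, sub_mul, one_mul]
  unfold FX at s2 ⊢
  linear_combination -s2

/-- The norm of the elliptic unit of prime conductor. -/
theorem mw3 (α : TP) (h5 : nm α.π % 8 = 5) (hw : chB (io w) α.φ = 0) (hl : α.π ≠ lam.π)
    (ho : Odd (x.ind α.π).val) {N : Qbar} (hN : N = ∏ ξ ∈ Xi lam.π, ub α.π (pick lam.π ξ))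
    (h0 : N ≠ 0) (hx : Fx G N) : chB N (gw 0) = 1 := by
  have p0 := lam.prime.ne_zero
  have l0 := EA.io_ne p0
  have lx := io_fx lam.π
  have nd := lam.not_dvd α hl.symm
  have co := (lam.prime.irreducible.coprime_iff_not_dvd.2 nd).symm
  obtain ⟨j, hj⟩ : ∃ j, (Xb α.π).card = 2 * (2 * j + 1) := by
    have := EA.card_Xb α.red
    unfold nm at h5
    exact ⟨(Xb α.π).card / 4, by omega⟩
  have fx : Fx G (N * io lam.π * (io lam.π ^ j * io lam.π ^ j)) := fun g hg => by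
    simp only [map_mul, map_pow, hx g hg, lx g hg]
  have ch : ∀ g ∈ G, chB (N * io lam.π * (io lam.π ^ j * io lam.π ^ j)) g =
      chB N g + chB (io lam.π) g := fun g hg => by
    rw [Sm.chB_mul (mul_ne_zero h0 l0) (mul_self_ne_zero.2 (pow_ne_zero _ l0))
      (by rw [map_mul, hx g hg, lx g hg]) (by rw [map_mul, map_pow, lx g hg]),
      Sm.chB_sq (by rw [map_pow, lx g hg]), add_zero, Sm.chB_mul h0 l0 (hx g hg) (lx g hg)]
  have nk : ∀ v : Plc, v.V (io lam.π) = 1 → ∀ ξ ∈ Xi lam.π, ∀ R, α.π • R = 0 →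
      pick lam.π ξ + R ∉ Kr v := fun v hv ξ h R r => by
    obtain ⟨⟨q0, q1⟩, -⟩ := mw_pick p0 h
    refine EA.not_Kr hv (c := α.π) ?_ ?_ <;> rw [smul_add, r, add_zero]
    · rw [smul_comm, q1, smul_zero]
    · exact fun k => q0 (EA.cop_smul co q1 k)
  have V1 : ∀ v : Plc, v.p ≠ 2 → v.V (N * io lam.π * (io lam.π ^ j * io lam.π ^ j)) = 1 :=
    fun v hv => by
      simp only [map_mul, map_pow, hN, map_prod]
      rcases (EA.V_io_le v lam.π).eq_or_lt with h | h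
      · rw [h, prod_eq_one fun ξ k => EA.ub_unit hv α.red (nk v h ξ k)]
        simp
      · have e1 : ∏ ξ ∈ Xi lam.π, v.V (ub α.π (pick lam.π ξ)) =
            (∏ ξ ∈ Xi lam.π, v.V ξ) ^ (2 * j + 1) := by
          rw [← prod_pow]
          refine prod_congr rfl fun ξ k => ?_
          obtain ⟨⟨q0, q1⟩, q⟩ := mw_pick p0 k
          rw [ub_pole α.red hv ((g1_eq lam.prime h).2 nd) (EA.mem_Kr_of lam.prime lam.red h q1) q0,
            hj, pow_mul, ← map_pow, q]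
        have e2 : ∏ S ∈ (En lam.π).erase 0, v.V (xco S ^ 2) = (∏ ξ ∈ Xi lam.π, v.V ξ) ^ 4 := by
          rw [← prod_pow, ← prod_fiberwise_of_maps_to (g := fun S : A => xco S ^ 2) (t := Xi lam.π)
            fun S h => mem_image_of_mem _ h]
          refine prod_congr rfl fun ξ k => ?_
          obtain ⟨⟨q0, q1⟩, q⟩ := mw_pick p0 k
          have := mw_fib (fun S => v.V (xco S ^ 2)) lam.red q0 q1
          simp only [mw_x, q, prod_const, card_range] at this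
          exact this
        have e3 : (v.V (io lam.π) * ∏ ξ ∈ Xi lam.π, v.V ξ) ^ 4 = 1 := by
          rw [mul_pow, ← e2, ← map_prod, prod_pow, ← map_pow, ← map_mul,
            show 4 = 2 * 2 from rfl, pow_mul, ← mul_pow, EA.x_prod (EA.prim_T2 lam.prim), one_pow,
            map_one]
        have e4 := congrArg (· ^ (2 * j + 1)) ((pow_eq_one_iff.1 e3).resolve_right four_ne_zero)
        simp only [one_pow] at e4
        rw [e1, ← e4]
        ring
  obtain ⟨a, b, hab⟩ := chi_two (b4_chB (fun k => by simpa [k] using V1 α.v α.odd) fx)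
    fun v hv σ hσ => chB_ine hv fx (V1 v hv) hσ
  have a1 := hab _ α.φ_mem
  have a2 := hab _ (gw_mem 0)
  rw [ch _ α.φ_mem, hw, chB_frob_one α hx (hN ▸ EA.V_prod_one _ fun ξ h => EA.ub_one α.prime α.red
      α.lt (add_zero (pick lam.π ξ) ▸ nk _ (α.V_eq.2 (α.not_dvd lam hl)) ξ h 0 (smul_zero _))),
    (Sm.F2_cases (chB (io ii) α.φ)).resolve_left fun k => by
      have := (chB_ii_frob α).1 k
      omega,
    (Sm.F2_cases (chB (io lam.π) α.φ)).resolve_left fun k => Nat.not_even_iff_odd.2 ho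
      (x.ig_frob α hl ▸ (x.ig_par α.φ_mem).2 k)] at a1
  rw [ch _ (gw_mem 0), gw_spec.2.1, gw_spec.2.2.1, (x.ig_par (gw_mem 0)).1 (by
    rw [x.ig_w2 (gw_spec.1 0), ZMod.val_zero]
    exact Even.zero)] at a2
  simp only [mul_one, mul_zero, add_zero, zero_add] at a1 a2
  exact a2.trans a1.symm

theorem mw4 (h2 : (2 : R) = 0) (hu : ¬ IsUnit T) (α : TP) (h5 : nm α.π % 8 = 5)
    (hw : chB (io w) α.φ = 0) (hl : α.π ≠ lam.π) (ho : Odd (x.ind α.π).val) :
    IsUnit (FX f x T α.π (gw 0)) := by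
  have := Lo2.loc (R := R)
  have p0 := lam.prime.ne_zero
  have hg := gw_mem 0
  have k := mw_fam p0 α.red
    (lam.prime.irreducible.coprime_iff_not_dvd.2 (lam.not_dvd α hl.symm)).symm e
  have k1 := k.push (S' := {0}) (p := fun _ => (0 : Qbar))
    (fun g _ z hz => by rw [mem_singleton.1 hz, smul_zero, mem_singleton])
    (fun z hz => (B2.Sm.const 0).congr fun g _ => by rw [mem_singleton.1 hz, smul_zero])
    fun g _ _ _ => (smul_zero g).symm
  have k2 := FF_push f k (S' := {0}) (p := fun _ => (0 : Qbar)) (fun _ _ => mem_singleton_self _)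
    (fun g _ _ _ => (smul_zero g).symm) hg fun _ => 1
  have y0 := k1.ne 0 (mem_singleton_self _)
  have yx := fun g hg => k1.eqv g hg 0 (mem_singleton_self _)
  have y1 := lg_spec (k1.root hg (mem_singleton_self _))
  have yN : push (Xi lam.π) (fun _ => (0 : Qbar)) (fun ξ => yb α.π e (pick lam.π ξ)) 0 ^ 2 ^ e =
      ∏ ξ ∈ Xi lam.π, ub α.π (pick lam.π ξ) := by
    rw [push, filter_true_of_mem fun _ _ => rfl, ← prod_pow]
    simp only [yb, rt2_pow]
  rw [FF, FF, sum_singleton, mul_one, kc] at k2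
  simp only [smul_zero] at k2 yx y1
  generalize push (Xi lam.π) (fun _ => (0 : Qbar)) (fun ξ => yb α.π e (pick lam.π ξ)) 0 = Y
    at k2 y0 yx y1 yN
  have y2 := mw3 x α h5 hw hl ho yN (pow_ne_zero _ y0) yx
  have y3 : Odd (lg e (gw 0 Y / Y)).val := Nat.not_even_iff_odd.1 fun ⟨j, hj⟩ => by
    cases e with
    | zero => exact hu (@isUnit_of_subsingleton _ _
        (@RingHom.codomain_trivial _ _ _ _ f (inferInstanceAs (Subsingleton (ZMod 1)))) T)
    | succ m =>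
      rw [hj, div_eq_iff y0] at y1
      rw [(c5_zero (z := Y ^ 2 ^ m) (by rw [← pow_add, ← mul_two, ← pow_succ])).2 (by
        rw [map_pow, y1, mul_pow, ← pow_mul, ← two_mul, mul_comm 2 j, mul_assoc j, ← pow_succ',
          pow_mul', (B2.zeta_prim (m + 1)).pow_eq_one, one_pow, one_mul])] at y2
      exact zero_ne_one y2
  rw [mw_odd f h2 y3] at k2
  refine (IsLocalRing.isUnit_or_isUnit_one_sub_self _).resolve_right fun h =>
    hu (isUnit_of_dvd_unit ?_ h)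
  rw [← k2, FX, FF, ← sum_sub_distrib]
  refine dvd_sum fun ξ _ => ?_
  rw [← mul_sub, ← dvd_neg, ← mul_neg, neg_sub]
  simpa [gam] using (sub_dvd_pow_sub_pow (1 + T) 1 _).mul_left _

theorem mw (h2 : (2 : R) = 0) (hT : (1 + T) ^ 2 ^ s = 1) (hu : ¬ IsUnit T) (α : TP)
    (h5 : nm α.π % 8 = 5) (hw : chB (io w) α.φ = 0) (hα : Odd (x.ind α.π).val)
    (hw' : Odd (x.ind w).val) {κ : Type} [Fintype κ] (t : κ → TP)
    (hi : ∀ i j, (t i).π = (t j).π → i = j)
    (hl : ∀ i, (t i).π ≠ lam.π) (ho : ∀ i, Odd (x.ind (t i).π).val) {m : O} (hm : m ≠ 0)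
    (h1 : w ^ 3 * lam.π * ∏ i, (t i).π ∣ m) (h3 : ∀ p, Prime p → p ∣ m → p ∣ w * lam.π * ∏ i, (t i).π)
    (hc : IsCoprime m α.π) :
    ∃ u : R, IsUnit u ∧ FE f m α.π (gam x T) (gw 0) = T ^ (Fintype.card κ + 1) * u := by
  have d := (dvd_mul_right _ _).trans h1
  have c := hc.of_isCoprime_of_dvd_left ((dvd_mul_left _ _).trans d)
  obtain ⟨u, y, h4, h6⟩ := mw1 f x h2 hT hu α.red t hi hl ho hm h1 h3 hc
  obtain ⟨u', y', h7, h8⟩ := mw2 f x h2 hT hu α.red c hw'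
  refine ⟨_, (h4.mul h7).mul (mw4 f x h2 hu α h5 hw (fun k => mw_nd dvd_rfl c.symm (k ▸ dvd_rfl))
    hα), ?_⟩
  rw [h6 _ (gw_mem 0), h8 _ (gw_mem 0), mw_zero x (x.ig_w2 (gw_spec.1 0))]
  ring

end Pool.Agent.Lib.MP_696deb_nt.EU
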