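import Pool.Agent.Lib.MP_696deb_nt.EU.T1

/-! The auxiliary primes exist. -/

set_option autoImplicit false

open scoped Classical NNReal
open Finset PowerSeries

namespace Pool.Agent.Lib.MP_696deb_nt.EU

theorem t9_mul {a : O} (ha : a ≠ 0) {g h : Gam} (hg : g ∈ G) (hh : h ∈ G) :
    chB (io a) (g * h) = chB (io a) g + chB (io a) h := (p1_b4 ha).2 g hg h hh

theorem t9_conj (a : O) (g : Gam) : chB (io a) (cc * g * cc⁻¹) = chB (io (star a)) g := by
  have e : cc⁻¹ (Sm.rt (io a)) * cc⁻¹ (Sm.rt (io a)) = io (star a) := by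
    rw [← map_mul, Sm.rt_mul_self]
    refine cc.injective ((cc.apply_symm_apply _).trans ?_)
    rw [cc_io, star_star]
  have k : chB (io a) (cc * g * cc⁻¹) = 0 ↔ chB (io (star a)) g = 0 := by
    rw [c5_zero (Sm.rt_mul_self _), c5_zero e]
    exact (cc.eq_symm_apply (x := Sm.rt (io a)) (y := g (cc⁻¹ (Sm.rt (io a))))).symm
  have : ∀ x y : ZMod 2, (x = 0 ↔ y = 0) → x = y := by decide
  exact this _ _ k

theorem t9_first : ∃ g ∈ G, cyc g = 1 ∧ chB (io w) g = 1 := by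
  have hg := gw_mem 0
  have h1 := normal_G.conj_mem _ hg cc
  obtain ⟨-, k1, k2, -⟩ := gw_spec
  refine ⟨cc * gw 0 * cc⁻¹ * (gw 0)⁻¹, mul_mem h1 (inv_mem hg), ?_, ?_⟩
  · rw [B2.cyc_mul, B2.cyc_mul, B2.cyc_mul, mul_right_comm (cyc cc), ← B2.cyc_mul, mul_inv_cancel,
      B2.cyc_one, one_mul, ← B2.cyc_mul, mul_inv_cancel, B2.cyc_one]
  · have e := t9_mul p1_w hg (inv_mem hg)
    rw [mul_inv_cancel, p1_one (p1_b4 p1_w).2, k2, zero_add] at e
    rw [t9_mul p1_w h1 (inv_mem hg), ← e, t9_conj, show star w = ii ^ 3 * w by decide,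
      p1_mul (pow_ne_zero 3 p1_ii) p1_w hg, p1_pow 3 hg, k1, k2]
    decide

theorem t9_fix {ι : Type} (t : ι → TP) (hi : ∀ i j, (t i).π = (t j).π → i = j) (x : ι → ZMod 2)
    (S : Finset ι) : ∃ g ∈ G, cyc g = 1 ∧ chB (io w) g = 1 ∧ ∀ i ∈ S, chB (io (t i).π) g = x i := by
  induction S using Finset.induction_on with
  | empty =>
    obtain ⟨g, hg, h1, h2⟩ := t9_first
    exact ⟨g, hg, h1, h2, by simp⟩
  | insert i S hS ih =>
    obtain ⟨g, hg, h1, h2, h3⟩ := ih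
    by_cases h : chB (io (t i).π) g = x i
    · exact ⟨g, hg, h1, h2, (forall_mem_insert _ _ _).2 ⟨h, h3⟩⟩
    have k := (t i).σ_mem
    refine ⟨g * (t i).σ, mul_mem hg k, by rw [B2.cyc_mul, h1, (t i).cyc_σ, one_mul], by
      rw [t9_mul p1_w hg k, h2, p1_unr_w (t i).odd (t i).σ_ine, add_zero],
      (forall_mem_insert _ _ _).2 ⟨?_, fun j hj => ?_⟩⟩
    · rw [t9_mul (t i).prime.ne_zero hg k, chB_sigma]
      have : ∀ a b : ZMod 2, ¬ a = b → a + 1 = b := by decide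
      exact this _ _ h
    · rw [t9_mul (t j).prime.ne_zero hg k, h3 j hj, p1_sig _ (t j).prime (t j).prim,
        if_neg fun e => hS (hi j i e ▸ hj), add_zero]

theorem t9_two : ¬ wO ^ 3 ∣ 2 := fun h => by
  have u : IsUnit (oW ⟨0, -1⟩) :=
    (IsUnit.of_mul_eq_one (⟨0, 1⟩ : O) (show (⟨0, -1⟩ * ⟨0, 1⟩ : O) = 1 by decide)).map oW
  rw [lb_two, pow_succ', pow_two, mul_dvd_mul_iff_left prime_wO.ne_zero,
    mul_dvd_mul_iff_left prime_wO.ne_zero] at h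
  exact unit_iff_wO.1 u h

theorem t9_pow (t : Tw) {g : Gam} (hg : g ∈ G) (n : ℕ) : rho0 t (g ^ n) = rho0 t g ^ n := by
  induction n with
  | zero => rw [pow_zero, pow_zero, rho0_one]
  | succ n ih => rw [pow_succ, rho0_mul t (pow_mem hg n) hg, ih, pow_succ]

theorem t9_rho (t : Tw) : ∃ U, Nice U ∧ ∀ u ∈ U, wO ^ 3 ∣ rho0 t u - 1 := by
  have iv : ∀ g ∈ G, rho0 t g * rho0 t g⁻¹ = 1 := fun g hg => by
    rw [← rho0_mul t hg (inv_mem hg), mul_inv_cancel, rho0_one]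
  let U : Subgroup Gam :=
    { carrier := {g | g ∈ G ∧ wO ^ 3 ∣ rho0 t g - 1}
      one_mem' := ⟨one_mem _, by rw [rho0_one, sub_self]; exact dvd_zero _⟩
      mul_mem' := fun {a b} ha hb => ⟨mul_mem ha.1 hb.1, by
        rw [rho0_mul t ha.1 hb.1]
        convert (ha.2.mul_right (rho0 t b)).add hb.2 using 1
        ring⟩
      inv_mem' := fun {a} ha => ⟨inv_mem ha.1, by
        convert (ha.2.mul_right (rho0 t a⁻¹)).neg_right using 1
        linear_combination iv a ha.1⟩ }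
  refine ⟨U, ⟨fun g hg => hg.1, ?_, fun g hg u hu => ⟨normal_G.conj_mem u hu.1 g, ?_⟩,
    fun g hg => ⟨2, pow_mem hg _, ?_⟩⟩, fun u hu => hu.2⟩
  · obtain ⟨V, u1, -, u3⟩ := sm_rho0 t 2
    refine Subgroup.isOpen_mono (H₁ := G ⊓ V) (fun g hg => ⟨hg.1, ?_⟩) (op_G.inf u1)
    have e := u3 g hg.1 1 (one_mem _) (by simpa using hg.2)
    rw [Ideal.Quotient.eq, Ideal.mem_span_singleton, rho0_one] at e
    refine Dvd.dvd.trans ⟨wO * oW ⟨0, -1⟩ ^ 2, ?_⟩ e
    rw [lb_two]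
    ring
  · rw [rho0_mul t (mul_mem hg hu.1) (inv_mem hg), rho0_mul t hg hu.1, mul_right_comm, iv g hg,
      one_mul]
    exact hu.2
  · obtain ⟨a, ha⟩ := rho0_w t hg
    rw [t9_pow t hg, sub_eq_iff_eq_add'.1 ha, show (1 + wO * a) ^ 2 ^ 2 - 1 =
      wO * a * (wO * a + 2) * (wO * (wO * a ^ 2) + 2 * (1 + wO * a)) by ring, pow_three']
    exact mul_dvd_mul (mul_dvd_mul (dvd_mul_right _ _) ((dvd_mul_right _ _).add la_two))
      ((dvd_mul_right _ _).add (la_two.mul_right _))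

namespace Cb

variable (c : Cb)

theorem exists_g (s : ℕ) : ∃ g ∈ G, cy s g = 1 ∧ chB (io w) g = 1 ∧ (∀ i, chB (io (c.tp i).π) g = 1) ∧
    chB (io (c.α true).π) g = 1 ∧ chB (io (c.α false).π) g = 0 ∧ ¬ wO ^ 3 ∣ rho0 c.t g - 1 := by
  obtain ⟨g, hg, h1, h2, h3⟩ := t9_fix (Sum.elim c.tp c.α) (by
    rintro (i | a) (j | b) e
    · rw [c.inj i j e]
    · exact absurd (show (c.α b).π ∣ _ from e ▸ c.dvd i) (c.α_nd b)
    · exact absurd (show (c.α a).π ∣ _ from e.symm ▸ c.dvd j) (c.α_nd a)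
    · cases a <;> cases b
      exacts [rfl, absurd e c.α_ne, absurd e.symm c.α_ne, rfl])
    (Sum.elim (fun _ => 1) fun b => bif b then 1 else 0) univ
  by_cases h : wO ^ 3 ∣ rho0 c.t g - 1
  · have k := c.g0_mem
    have q : ∀ a : O, a ≠ 0 → chB (io a) (g * (c.g0 * c.g0)) = chB (io a) g := fun a ha => by
      rw [t9_mul ha hg (mul_mem k k), t9_mul ha k k, CharTwo.add_self_eq_zero, add_zero]
    have r : rho0 c.t (c.g0 * c.g0) = -1 := by
      have : oW ii * oW ii = -1 := by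
        rw [← map_mul, show ii * ii = -1 by decide, map_neg, map_one]
      rw [rho0_mul c.t k k]
      rcases c.sig0 with e | e <;> rw [g0, e]
      · exact this
      · rw [neg_mul_neg, this]
    refine ⟨g * (c.g0 * c.g0), mul_mem hg (mul_mem k k), by
      rw [cy, B2.cyc_mul, B2.cyc_mul, h1, c.cyc_g0, one_mul, one_mul, map_one],
      (q _ p1_w).trans h2, fun i => (q _ (c.tp i).prime.ne_zero).trans (h3 (.inl i) (mem_univ _)),
      (q _ (c.α true).prime.ne_zero).trans (h3 (.inr true) (mem_univ _)),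
      (q _ (c.α false).prime.ne_zero).trans (h3 (.inr false) (mem_univ _)), fun e => t9_two ?_⟩
    rw [rho0_mul c.t hg (mul_mem k k), r] at e
    convert (h.add e).neg_right using 1
    ring
  · exact ⟨g, hg, by rw [cy, h1, map_one], h2, fun i => h3 (.inl i) (mem_univ _),
      h3 (.inr true) (mem_univ _), h3 (.inr false) (mem_univ _), h⟩

theorem exists_lv (k : ℕ) : Nonempty (Lv c k) := by
  obtain ⟨s, hs, ord⟩ := exists_ord k
  obtain ⟨g, hg, h1, h2, h3, h4, h5, h6⟩ := c.exists_g (s + 2)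
  obtain ⟨U1, n1, u1⟩ := nice_cy (s + 2)
  obtain ⟨U2, n2, u2⟩ := t9_rho c.t
  let a : Option (c.κ ⊕ Bool) → O := fun i => i.elim w fun j => (Sum.elim c.tp c.α j).π
  have a0 : ∀ i, a i ≠ 0 := by
    rintro (_ | j)
    exacts [p1_w, (Sum.elim c.tp c.α j).prime.ne_zero]
  obtain ⟨U3, n3, u3⟩ := nice_fin (p := fun i u => chB (io (a i)) u = 0) fun i =>
    nice_hom (m := 1) (p1_b4 (a0 i)).1 (p1_b4 (a0 i)).2
  obtain ⟨l, n, hn, hB, -, hu⟩ := cheb ((n1.inf n2).inf n3) hg c.t.N.natAbs.primeFactors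
  have hφ := l.φ_mem
  obtain ⟨u, e, ⟨m1, m2⟩, m3⟩ : ∃ u, g ^ n = l.φ * u ∧ (u ∈ U1 ∧ u ∈ U2) ∧ u ∈ U3 :=
    ⟨_, (mul_inv_cancel_left _ _).symm, hu⟩
  have hG := n1.le m1
  have d : 2 ^ (s + 2) ∣ nm l.π - 1 := by
    let f : Gam →* ZMod (2 ^ (s + 2)) := ⟨⟨cy (s + 2), g1_cy_one _⟩, B2.b3b_cy _⟩
    have e1 : f g ^ n = f l.φ * f u := by rw [← map_pow, e, map_mul]
    change cy _ g ^ n = cy _ l.φ * cy _ u at e1
    rw [h1, u1 u m1, one_pow, mul_one, cy, l.cyc_φ, map_natCast,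
      ← Nat.cast_one (R := ZMod (2 ^ (s + 2))), ZMod.natCast_eq_natCast_iff] at e1
    exact (Nat.modEq_iff_dvd' (by have := l.nm_mod; omega)).1 e1
  obtain ⟨x⟩ := exists_ix l (by omega) d
  have nd : ¬ l.π ∣ (c.t.N : O) := l.V_eq.1 (by
    rw [map_intCast]
    exact l.v.V_int_eq_one.2 fun e => hB (Nat.mem_primeFactors.2
      ⟨l.v.prime, Int.natCast_dvd.1 e, Int.natAbs_ne_zero.2 c.t.ne⟩))
  have ne : ∀ b, (c.α b).π ≠ l.π := fun b e => by
    have k1 := c.α5 b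
    have k2 : 8 ∣ nm l.π - 1 := (pow_dvd_pow 2 (show 3 ≤ s + 2 by omega)).trans d
    rw [e] at k1
    omega
  have par : ∀ i, ¬ l.π ∣ a i → (Even (x.ind (a i)).val ↔ chB (io (a i)) g = 0) := fun i hi => by
    have p : ∀ m : ℕ, chB (io (a i)) (g ^ (2 * m + 1)) = chB (io (a i)) g := fun m => by
      rw [pow_succ, two_mul, pow_add, t9_mul (a0 i) (mul_mem (pow_mem hg m) (pow_mem hg m)) hg,
        t9_mul (a0 i) (pow_mem hg m) (pow_mem hg m), CharTwo.add_self_eq_zero, zero_add]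
    obtain ⟨m, rfl⟩ := hn
    rw [x.par _ hi, ← chB_frob l hi, ← p m, e, t9_mul (a0 i) hφ hG, u3 u m3 i, add_zero]
  have od : ∀ i, ¬ l.π ∣ a i → chB (io (a i)) g = 1 → Odd (x.ind (a i)).val := fun i hi e =>
    Nat.not_even_iff_odd.1 fun k => one_ne_zero (e.symm.trans ((par i hi).1 k))
  have na : ∀ b, ¬ l.π ∣ (c.α b).π := fun b => l.not_dvd _ (ne b).symm
  refine ⟨⟨l, s, x, ord, nd, ne, od none (l.V_eq.1 (p1_V_w l.odd)) h2,
    fun i => od (some (.inl i)) (fun e => nd (e.trans (c.dvd i))) (h3 i),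
    od (some (.inr true)) (na true) h4, (par (some (.inr false)) (na false)).2 h5, fun r => h6 ?_⟩⟩
  obtain ⟨v, v1, v2⟩ := odd_pow_sub (t := rho0 c.t g - 1)
    (fun q => unit_iff_wO.1 q (rho0_w c.t hg)) (fun q => unit_iff_wO.1 q la_two) hn
  rw [add_sub_cancel, ← t9_pow c.t hg, e, rho0_mul c.t hφ hG] at v2
  rw [← v1.dvd_mul_right, ← v2]
  convert (r.mul_right (rho0 c.t u)).add (u2 u m2) using 1
  ring

end Cb

end Pool.Agent.Lib.MP_696deb_nt.EU
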