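import Pool.Agent.Lib.MP_696deb_nt.EU.T5
import Pool.Agent.Lib.MP_696deb_nt.EU.T6
import Pool.Agent.Lib.MP_696deb_nt.EU.T8
import Pool.Agent.Lib.MP_696deb_nt.EU.T9
import Pool.Agent.Lib.MP_696deb_nt.EU.C8
import Pool.Agent.Lib.MP_696deb_nt.EU.TopD

/-! The end of the argument. -/

set_option autoImplicit false

open scoped Classical NNReal
open Finset PowerSeries

namespace Pool.Agent.Lib.MP_696deb_nt.EU

theorem Cx.ok (c : Cx) : c.dat.Ok :=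
  ⟨c.ok_vp, c.ok_ne, c.ok_pres, c.ok_deep, c.ok_W_mem, c.ok_lw, c.ok_unit, c.ok_recip, c.ok_N_ρ,
    c.ok_comm, c.ok_step, c.ok_kap_mem, c.ok_kap_φ, c.ok_F_mem, c.ok_kap0, c.ok_σ_w, c.ok_φ_T,
    c.ok_σ_lam, c.ok_L_lam, c.ok_gi_w, c.ok_F_T, c.ok_sym, c.ok_cc_T, c.ok_cc_0, c.ok_cc_ev,
    c.ok_k_mem, c.ok_ind⟩

theorem Cx.ok1 (c : Cx) (h : B2.Stmt.CorankLE (QP.EQ c.t.N) 0) (hv : c.Van) : c.dat.Ok1 :=
  ⟨c.ok, c.ok_sel h, c.ok_erl hv⟩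

theorem conv : QA.Conv := fun D hD q hq h2 hv h F hF hp hz => by
  obtain ⟨φ, h1, h3, h4, h5⟩ := EA.final4 hD
  obtain ⟨c, rfl, rfl⟩ := exists_cb hD hq h2 hv ⟨h1, h3, h4⟩
  exact (Cx.ok1 ⟨c, fun k => (c.exists_lv k).some⟩ h (c.van (h5 F hF hp hz))).false

end Pool.Agent.Lib.MP_696deb_nt.EU
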