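import Pool.Agent.Lib.MP_696deb_nt.EU.Es
import Pool.Agent.Lib.MP_696deb_nt.EU.C6

/-! Points of prime order modulo units. -/

set_option autoImplicit false

open scoped Classical NNReal
open Finset

namespace Pool.Agent.Lib.MP_696deb_nt.EU

/-- The squares of the abscissas. -/
noncomputable def Xi (n : O) : Finset Qbar := ((En n).erase 0).image fun P => xco P ^ 2

/-- A point with given square of the abscissa. -/
noncomputable def pick (n : O) (ξ : Qbar) : A :=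
  if h : ∃ P ∈ (En n).erase 0, xco P ^ 2 = ξ then h.choose else 0

variable {n a b : O} {P Q : A} {ξ : Qbar} {g : Gam} {e : ℕ}

theorem mw_pick (hn : n ≠ 0) (h : ξ ∈ Xi n) :
    (pick n ξ ≠ 0 ∧ n • pick n ξ = 0) ∧ xco (pick n ξ) ^ 2 = ξ := by
  have k := mem_image.1 h
  rw [pick, dif_pos k, ← EA.mem_En0 hn]
  exact k.choose_spec

theorem mw_mem (hn : n ≠ 0) (h0 : Q ≠ 0) (h : n • Q = 0) : xco Q ^ 2 ∈ Xi n :=
  mem_image_of_mem _ ((EA.mem_En0 hn).2 ⟨h0, h⟩)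

theorem mw_ne (k : ℕ) (h : Q ≠ 0) : ii ^ k • Q ≠ 0 := fun e =>
  h ((c6_unit_ii.pow k).smul_eq_zero.1 e)

theorem mw_x (k : ℕ) (P : A) : xco (ii ^ k • P) ^ 2 = xco P ^ 2 := by
  induction k with
  | zero => rw [pow_zero, one_smul]
  | succ k ih => rw [pow_succ' ii, mul_smul, EA.x_ii, neg_sq, ih]

theorem mw_orb (hP : P ≠ 0) (hQ : Q ≠ 0) (h : xco P ^ 2 = xco Q ^ 2) :
    ∃ k < 4, P = ii ^ k • Q := by
  rcases sq_eq_sq_iff_eq_or_eq_neg.1 h with e | e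
  · rcases EA.x_eq hP hQ e with e | e
    · exact ⟨0, by omega, by rwa [pow_zero, one_smul]⟩
    · exact ⟨2, by omega, by rwa [show ii ^ 2 = -1 by decide, neg_one_smul]⟩
  · rcases EA.x_eq hP (pow_one ii ▸ mw_ne 1 hQ) (e.trans (EA.x_ii Q).symm) with e | e
    · exact ⟨1, by omega, by rwa [pow_one]⟩
    · exact ⟨3, by omega, by rwa [show ii ^ 3 = -ii by decide, neg_smul]⟩

theorem mw_inv {β : Type} (F : A → β) (hn : n ≠ 0) (hF : ∀ P, n • P = 0 → F (ii • P) = F P)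
    (h0 : Q ≠ 0) (h : n • Q = 0) : F (pick n (xco Q ^ 2)) = F Q := by
  obtain ⟨⟨p0, -⟩, p⟩ := mw_pick hn (mw_mem hn h0 h)
  obtain ⟨k, -, e⟩ := mw_orb p0 h0 p
  rw [e]
  clear e
  induction k with
  | zero => rw [pow_zero, one_smul]
  | succ k ih => rw [pow_succ' ii, mul_smul, hF _ (by rw [smul_comm, h, smul_zero]), ih]

theorem mw_can (hc : IsCoprime a n) (p0 : P ≠ 0) (p : n • P = 0) (q0 : Q ≠ 0) (q : n • Q = 0) :
    xco (a • P) ^ 2 = xco (a • Q) ^ 2 ↔ xco P ^ 2 = xco Q ^ 2 := by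
  refine ⟨fun h => ?_, fun h => ?_⟩
  · obtain ⟨k, -, e⟩ := mw_orb (fun e => p0 (EA.cop_smul hc p e)) (fun e => q0 (EA.cop_smul hc q e)) h
    rw [sub_eq_zero.1 (EA.cop_smul (S := P - ii ^ k • Q) hc
      (by rw [smul_sub, smul_comm, p, q, smul_zero, sub_zero])
      (by rw [smul_sub, smul_comm, e, sub_self])), mw_x]
  · obtain ⟨k, -, e⟩ := mw_orb p0 q0 h
    rw [e, smul_comm, mw_x]

/-- The fibres have four elements. -/
theorem mw_fib {β : Type} [CommMonoid β] (F : A → β) (hr : Q4.red n = 1) (h0 : Q ≠ 0)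
    (h : n • Q = 0) : ∏ S ∈ (En n).erase 0 with xco S ^ 2 = xco Q ^ 2, F S =
      ∏ k ∈ range 4, F (ii ^ k • Q) := by
  have hn := EA.ne_of_red hr
  have key : ∀ j < 4, ∀ k < 4, j = k ∨ 2 ^ 4 = (ii ^ j - ii ^ k) ^ 3 * (ii ^ j - ii ^ k) ∨
      2 ^ 4 = -4 * (ii ^ j - ii ^ k) ^ 3 * (ii ^ j - ii ^ k) := by decide
  refine (prod_bij (fun k _ => ii ^ k • Q) (fun k _ => mem_filter.2 ⟨(EA.mem_En0 hn).2
    ⟨mw_ne k h0, by rw [smul_comm, h, smul_zero]⟩, mw_x k Q⟩) (fun j hj k hk e => ?_)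
    (fun S hS => ?_) fun _ _ => rfl).symm
  · rw [← sub_eq_zero, ← sub_smul] at e
    refine (key j (mem_range.1 hj) k (mem_range.1 hk)).resolve_right fun c =>
      h0 (EA.cop_smul ((EA.cop_two hr).pow_left (m := 4)) h ?_)
    rcases c with c | c <;> rw [c, mul_smul, e, smul_zero]
  · obtain ⟨k, hk, e⟩ := mw_orb ((EA.mem_En0 hn).1 (mem_filter.1 hS).1).1 h0 (mem_filter.1 hS).2
    exact ⟨k, mem_range.2 hk, e.symm⟩

theorem mw_act (g : Gam) (Q : A) : g • xco Q ^ 2 = xco (g • Q) ^ 2 := by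
  rw [xco_act, ← map_pow]
  rfl

theorem mw_gen {β : Type} (F : A → β) (hn : n ≠ 0) (hF : ∀ P, n • P = 0 → F (ii • P) = F P)
    (hg : g ∈ G) (h : ξ ∈ Xi n) : g • ξ ∈ Xi n ∧ F (pick n (g • ξ)) = F (g • pick n ξ) := by
  obtain ⟨⟨p0, p1⟩, p⟩ := mw_pick hn h
  have q0 : g • pick n ξ ≠ 0 := (smul_ne_zero_iff_ne g).2 p0
  have q1 : n • g • pick n ξ = 0 := by rw [← act_smul hg, p1, smul_zero]
  have q : g • ξ = xco (g • pick n ξ) ^ 2 := by rw [← mw_act, p]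
  rw [q]
  exact ⟨mw_mem hn q0 q1, mw_inv F hn hF q0 q1⟩

theorem mw_fam (hn : n ≠ 0) (hb : Q4.red b = 1) (hc : IsCoprime b n) (e : ℕ) :
    Fam G e (Xi n) fun ξ => yb b e (pick n ξ) := by
  have b0 := EA.ne_of_red hb
  have k := fun g (hg : g ∈ G) ξ (h : ξ ∈ Xi n) =>
    mw_gen (ub b) hn (fun P _ => EA.ub_ii b0 P) hg h
  refine ⟨fun g hg ξ h => (k g hg ξ h).1, fun ξ h => ?_, fun ξ h e0 => ?_, fun g hg ξ h => ?_⟩
  · rw [← (mw_pick hn h).2]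
    exact ((sm_act G _).comp fun P => xco P ^ 2).congr fun g _ => (mw_act g _).symm
  · obtain ⟨⟨p0, p1⟩, -⟩ := mw_pick hn h
    refine EA.ub_ne hb (fun k => p0 (EA.cop_smul hc p1 k)) ?_
    rw [← rt2_pow e (ub _ _), show rt2 e (ub b _) = 0 from e0, zero_pow (pow_pos two_pos e).ne']
  · rw [yb, yb, rt2_pow, rt2_pow, (k g hg ξ h).2, ub_act b0 hg]

theorem mw_bij (hn : n ≠ 0) (hc : IsCoprime a n) :
    Set.BijOn (fun ξ => xco (a • pick n ξ) ^ 2) (Xi n) (Xi n) := by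
  have m : Set.MapsTo (fun ξ => xco (a • pick n ξ) ^ 2) (Xi n) (Xi n) := fun ξ h => by
    obtain ⟨⟨p0, p1⟩, -⟩ := mw_pick hn h
    exact mw_mem hn (fun e => p0 (EA.cop_smul hc p1 e)) (by rw [smul_comm, p1, smul_zero])
  refine ((Xi n).finite_toSet.injOn_iff_bijOn_of_mapsTo m).1 fun ξ h ξ' h' e => ?_
  obtain ⟨⟨p0, p1⟩, p⟩ := mw_pick hn h
  obtain ⟨⟨q0, q1⟩, q⟩ := mw_pick hn h'
  rw [← p, ← q]
  exact (mw_can hc p0 p1 q0 q1).1 e

theorem mw_eqv (hn : n ≠ 0) (hg : g ∈ G) (h : ξ ∈ Xi n) :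
    xco (a • pick n (g • ξ)) ^ 2 = g • xco (a • pick n ξ) ^ 2 := by
  rw [mw_act, act_smul hg]
  exact (mw_gen (fun P => xco (a • P) ^ 2) hn
    (fun P _ => by rw [smul_comm, EA.x_ii, neg_sq]) hg h).2

theorem mw_w3 : w ^ 3 ≠ 0 := by decide

theorem mw_cop (t : TP) (k : ℕ) : IsCoprime (w ^ k) t.π := (EA.cop_w t.red).pow_left

theorem mw_Im (t : TP) : P ∈ Im (w ^ 3 * t.π) ↔ t.π • P = tq 1 (w ^ 3) ∧ w ^ 3 • P ≠ 0 := by
  have p0 := t.prime.ne_zero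
  have m0 := mul_ne_zero mw_w3 p0
  have k : ∀ a, w ^ 3 • tq a (w ^ 3 * t.π) ≠ 0 ↔ IsCoprime a t.π := fun a => by
    rw [mul_comm, tq_down p0 mw_w3, Ne, EA.tq_eq_zero p0, isCoprime_comm,
      t.prime.irreducible.coprime_iff_not_dvd]
  rw [mem_Im m0]
  refine ⟨?_, fun ⟨h1, h2⟩ => ?_⟩
  · rintro ⟨a, h1, h2, rfl⟩
    rw [tq_down mw_w3 p0, tq_eq_iff mw_w3, k]
    exact ⟨prim_iff.1 h2, h1.of_mul_right_right⟩
  · have h3 := co_spec m0 (P := P) (by rw [mul_smul, h1, m_tq mw_w3])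
    rw [← h3, tq_down mw_w3 p0, tq_eq_iff mw_w3] at h1
    rw [← h3, k] at h2
    exact ⟨_, (cop_of_dvd h1 isCoprime_one_left).mul_right h2, prim_iff.2 h1, h3.symm⟩

/-- The product over a fibre at the level `w ^ 3 * π`. -/
theorem mw_push (t : TP) (hb : Q4.red b = 1) (h0 : Q ≠ 0) (h : t.π • Q = 0) :
    ∏ P ∈ Im (w ^ 3 * t.π) with xco (w ^ 3 • P) ^ 2 = xco (w ^ 3 • Q) ^ 2, ub b P =
      ub b (w ^ 2 • Q + Q4.T) := by
  have p0 := t.prime.ne_zero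
  have b0 := EA.ne_of_red hb
  have g1 : t.π • tq 1 (w ^ 3) = tq 1 (w ^ 3) := by
    rw [EA.smul_tq _ _ mw_w3, tq_eq_iff mw_w3, mul_one]
    exact prim_iff.1 t.prim
  have g2 : w ^ 2 • tq 1 (w ^ 3) = Q4.T := by
    have : w ^ 2 • tq 1 (w ^ 3) ∈ En w := by
      rw [EA.mem_En p1_w, smul_smul, ← pow_succ', m_tq mw_w3]
    rw [EA.En_w, mem_insert, mem_singleton, EA.smul_tq_one mw_w3] at this
    exact this.resolve_left fun e => g1_w.not_dvd_one ((mul_dvd_mul_iff_left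
      (pow_ne_zero 2 p1_w)).1 (by rwa [mul_one, ← pow_succ]))
  have g3 := m_tq mw_w3 1
  have hI := fun P => mw_Im (P := P) t
  generalize tq 1 (w ^ 3) = G0 at g1 g2 g3 hI
  have g4 : ∀ R, w ^ 3 • (G0 + R) = w ^ 3 • R := fun R => by rw [smul_add, g3, zero_add]
  have hT : ∀ c d : O, c = w ^ 2 + d * w ^ 3 → Q4.T = c • G0 := fun c d e => by
    rw [e, add_smul, mul_smul, g3, smul_zero, add_zero, g2]
  have nz : ∀ R, R ≠ 0 → t.π • R = 0 → w • w • (G0 + R) ≠ 0 := fun R r0 r e =>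
    r0 (EA.cop_smul (mw_cop t 3) r (by
      rw [← g4, pow_succ', sq, mul_smul, mul_smul, e, smul_zero]))
  have two : ∀ R, R ≠ 0 → t.π • R = 0 → ub b (G0 + R) * ub b (G0 + -R) = ub b (w • (G0 + R)) :=
    fun R r0 r => by
      rw [← EA.ub_w hb fun e => nz R r0 r (by rw [e, smul_zero]), ← EA.ub_neg b0 (G0 + -R),
        hT (-2) ii (by decide)]
      congr 2
      module
  have e1 : ∏ P ∈ Im (w ^ 3 * t.π) with xco (w ^ 3 • P) ^ 2 = xco (w ^ 3 • Q) ^ 2, ub b P =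
      ∏ S ∈ (En t.π).erase 0 with xco S ^ 2 = xco Q ^ 2, ub b (G0 + S) := by
    refine (prod_bij (fun S _ => G0 + S) (fun S hS => ?_) (fun _ _ _ _ e => add_left_cancel e)
      (fun P hP => ?_) fun _ _ => rfl).symm
    · obtain ⟨s0, s⟩ := (EA.mem_En0 p0).1 (mem_filter.1 hS).1
      rw [mem_filter, hI, g4, smul_add, g1, s, add_zero, mw_can (mw_cop t 3) s0 s h0 h]
      exact ⟨⟨rfl, fun e => s0 (EA.cop_smul (mw_cop t 3) s e)⟩, (mem_filter.1 hS).2⟩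
    · obtain ⟨S, rfl⟩ : ∃ S, P = G0 + S := ⟨P - G0, (add_sub_cancel _ _).symm⟩
      rw [mem_filter, hI, g4, smul_add, g1, add_eq_left] at hP
      have s0 : S ≠ 0 := fun e => hP.1.2 (by rw [e, smul_zero])
      exact ⟨S, mem_filter.2 ⟨(EA.mem_En0 p0).2 ⟨s0, hP.1.1⟩,
        (mw_can (mw_cop t 3) s0 hP.1.1 h0 h).1 hP.2⟩, rfl⟩
  have e2 : w • (G0 + ii • Q) = ii • (w • (G0 + Q) + Q4.T) := by
    rw [hT (-w ^ 2) ⟨-1, 1⟩ (by decide)]
    match_scalars <;> decide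
  rw [e1, mw_fib _ t.red h0 h, prod_range_succ, prod_range_succ, prod_range_succ, prod_range_one,
    pow_zero, one_smul, pow_one, show ii ^ 2 = -1 by decide, neg_one_smul,
    show ii ^ 3 = -ii by decide, neg_smul, mul_right_comm (ub b _), mul_assoc, two Q h0 h,
    two _ (pow_one ii ▸ mw_ne 1 h0) (by rw [smul_comm, h, smul_zero]), e2, EA.ub_ii b0,
    EA.ub_w hb (nz Q h0 h), smul_smul, ← sq, smul_add, g2, add_comm]

end Pool.Agent.Lib.MP_696deb_nt.EU
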