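import Pool.Agent.Lib.MP_696deb_nt.EU.P1

/-! Cocycles with values in finite modules over a local ring. -/

set_option autoImplicit false

open scoped Classical NNReal
open Finset

namespace Pool.Agent.Lib.MP_696deb_nt.EU

variable {R : Type} [CommRing R] {ι : Type} {t : ι → TP} {ρ : Gam → R} {H : Subgroup Gam}
  {M : Type} [AddCommGroup M] [Module R M] {c c' : Gam → M}

theorem p2_max (R : Type) [CommRing R] [Lo2 R] :
    ∃ n : ℕ, ∀ x ∈ IsLocalRing.maximalIdeal R ^ n, x = 0 := by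
  obtain ⟨n, hn⟩ := IsArtinianRing.isNilpotent_jacobson_bot (R := R)
  rw [IsLocalRing.jacobson_eq_maximalIdeal _ bot_ne_top] at hn
  exact ⟨n, fun x hx => by rwa [hn] at hx⟩

theorem p2_sub [Lo2 R] {u : R} (h : IsUnit u) : ¬ IsUnit (u - 1) :=
  (Lo2.res u).resolve_left (not_not.2 h)

theorem p2_two [Lo2 R] : ¬ IsUnit (2 : R) :=
  (Lo2.res 2).resolve_right (by rw [show (2 : R) - 1 = 1 by ring]; exact not_not.2 isUnit_one)

theorem p2_one_sub [Lo2 R] {r : R} (h : ¬ IsUnit r) (s : R) : IsUnit (1 - s * r) :=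
  IsLocalRing.isUnit_one_sub_self_of_mem_nonunits _ fun k => h (isUnit_of_mul_isUnit_right k)

theorem Lo2.two_pow (R : Type) [CommRing R] [Lo2 R] : ∃ m : ℕ, (2 : R) ^ m = 0 := by
  obtain ⟨n, hn⟩ := p2_max R
  exact ⟨n, hn _ (Ideal.pow_mem_pow p2_two n)⟩

theorem Lo2.kill (R : Type) [CommRing R] [Lo2 R] :
    ∃ m : ℕ, ∀ (M : Type) [AddCommGroup M] [Module R M] (x : M), 2 ^ m • x = 0 := by
  obtain ⟨m, hm⟩ := Lo2.two_pow R
  refine ⟨m, fun M _ _ x => ?_⟩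
  rw [← Nat.cast_smul_eq_nsmul R, Nat.cast_pow, Nat.cast_ofNat, hm, zero_smul]

theorem Lo2.pow_one [Lo2 R] {u : R} (h : IsUnit u) : ∃ n : ℕ, u ^ 2 ^ n = 1 := by
  obtain ⟨n, hn⟩ := p2_max R
  have k : ∀ j : ℕ, u ^ 2 ^ j - 1 ∈ IsLocalRing.maximalIdeal R ^ j := fun j => by
    induction j with
    | zero => simp
    | succ j ih =>
      rw [show u ^ 2 ^ (j + 1) - 1 = (u ^ 2 ^ j - 1) * (u ^ 2 ^ j - 1 + 2) by ring, pow_succ]
      exact Ideal.mul_mem_mul ih (add_mem (p2_sub (h.pow _)) p2_two)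
  exact ⟨n, sub_eq_zero.1 (hn _ (k n))⟩

/-- A submodule of index two. -/
theorem Lo2.exists_fun [Lo2 R] [Finite M] [Nontrivial M] : ∃ f : M →+ ZMod 2,
    Function.Surjective f ∧ (∀ u x, IsUnit u → f ((u : R) • x) = f x) ∧
      ∀ u x, ¬ IsUnit u → f ((u : R) • x) = 0 := by
  obtain ⟨N, hN, -⟩ := (eq_top_or_exists_le_coatom (⊥ : Submodule R M)).resolve_left bot_ne_top
  have k0 : ∀ z, z ∉ N → ∀ y, ∃ r : R, y - r • z ∈ N := fun z hz y => by
    have e : N ⊔ Submodule.span R {z} = ⊤ := hN.2 _ (lt_of_le_of_ne le_sup_left fun e =>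
      hz (e ▸ Submodule.mem_sup_right (Submodule.mem_span_singleton_self z)))
    obtain ⟨n, hn, _, hr, rfl⟩ := Submodule.mem_sup.1 (e ▸ Submodule.mem_top : y ∈ N ⊔ _)
    obtain ⟨r, rfl⟩ := Submodule.mem_span_singleton.1 hr
    exact ⟨r, by rwa [add_sub_cancel_right]⟩
  have k1 : ∀ r : R, ¬ IsUnit r → ∀ y, r • y ∈ N := fun r hr y => by
    by_contra hz
    obtain ⟨s, hs⟩ := k0 _ hz y
    obtain ⟨a, ha⟩ := (p2_one_sub hr s).exists_left_inv
    refine hz (N.smul_mem r ?_)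
    have e : y = a • (y - s • r • y) := by
      rw [smul_smul, ← one_smul R y, smul_smul, mul_one, ← sub_smul, smul_smul, ha]
    exact e ▸ N.smul_mem a hs
  have k2 : ∀ y z, y ∉ N → z ∉ N → y + z ∈ N := fun y z hy hz => by
    obtain ⟨r, hr⟩ := k0 z hz y
    by_cases hu : IsUnit r
    · have e : y + z = y - r • z + (r - 1) • z + (2 : R) • z := by module
      exact e ▸ add_mem (add_mem hr (k1 _ (p2_sub hu) z)) (k1 _ p2_two z)
    · exact absurd (by simpa using add_mem hr (k1 r hu z)) hy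
  refine ⟨AddMonoidHom.mk' (fun y => if y ∈ N then 0 else 1) fun y z => ?_, fun a => ?_,
    fun u x hu => ?_, fun u x hu => if_pos (k1 u hu x)⟩
  · by_cases hy : y ∈ N <;> by_cases hz : z ∈ N
    · rw [if_pos hy, if_pos hz, if_pos (add_mem hy hz), add_zero]
    · rw [if_pos hy, if_neg hz, if_neg fun k => hz ((N.add_mem_iff_right hy).1 k), zero_add]
    · rw [if_neg hy, if_pos hz, if_neg fun k => hy ((N.add_mem_iff_left hz).1 k), add_zero]
    · rw [if_neg hy, if_neg hz, if_pos (k2 y z hy hz)]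
      rfl
  · rcases (by decide : ∀ a : ZMod 2, a = 0 ∨ a = 1) a with rfl | rfl
    · exact ⟨0, map_zero _⟩
    · obtain ⟨x, -, hx⟩ := SetLike.exists_of_lt hN.1.lt_top
      exact ⟨x, if_neg hx⟩
  · have e : u • x = (u - 1) • x + x := by module
    exact if_congr (by rw [e]; exact N.add_mem_iff_right (k1 _ (p2_sub hu) x)) rfl rfl

/-- A submodule of order two. -/
theorem Lo2.exists_soc [Lo2 R] [Finite M] [Nontrivial M] : ∃ x : M, x ≠ 0 ∧
    (∀ u : R, IsUnit u → u • x = x) ∧ ∀ u : R, ¬ IsUnit u → u • x = 0 := by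
  obtain ⟨N, hN, -⟩ := (eq_bot_or_exists_atom_le (⊤ : Submodule R M)).resolve_left top_ne_bot
  obtain ⟨x, hx, h0⟩ := Submodule.exists_mem_ne_zero_of_ne_bot hN.1
  have k : ∀ u : R, ¬ IsUnit u → u • x = 0 := fun u hu => by
    by_contra hz
    have e : Submodule.span R {u • x} = N := (hN.le_iff.1 ((Submodule.span_singleton_le_iff_mem
      _ _).2 (N.smul_mem u hx))).resolve_left fun k => hz (Submodule.span_singleton_eq_bot.1 k)
    obtain ⟨s, hs⟩ := Submodule.mem_span_singleton.1 (e ▸ hx : x ∈ Submodule.span R {u • x})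
    obtain ⟨a, ha⟩ := (p2_one_sub hu s).exists_left_inv
    refine h0 ?_
    rw [← one_smul R x, ← ha, mul_smul, sub_smul, one_smul, mul_smul, hs, sub_self, smul_zero]
  refine ⟨x, h0, fun u hu => ?_, k⟩
  have e := k _ (p2_sub hu)
  rwa [sub_smul, one_smul, sub_eq_zero] at e

theorem p2_inv (h : Chr ρ) {g : Gam} (hg : g ∈ G) : ρ g * ρ g⁻¹ = 1 := by
  rw [← h.mul g hg _ (inv_mem hg), mul_inv_cancel, h.one]

theorem Chr.isUnit (h : Chr ρ) {g : Gam} (hg : g ∈ G) : IsUnit (ρ g) :=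
  IsUnit.of_mul_eq_one _ (p2_inv h hg)

theorem Chr.pow (h : Chr ρ) {g : Gam} (hg : g ∈ G) (n : ℕ) : ρ (g ^ n) = ρ g ^ n := by
  induction n with
  | zero => rw [pow_zero, pow_zero, h.one]
  | succ n ih => rw [pow_succ, h.mul _ (pow_mem hg n) g hg, ih, pow_succ]

theorem Chr.conj (h : Chr ρ) {g k : Gam} (hg : g ∈ G) (hk : k ∈ G) : ρ (g * k * g⁻¹) = ρ k := by
  rw [h.mul _ (mul_mem hg hk) _ (inv_mem hg), h.mul g hg k hk, mul_right_comm, p2_inv h hg, one_mul]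

theorem Chr.act [Lo2 R] (h : Chr ρ) (hH : H ≤ G) : Act H (sa M ρ) := by
  refine ⟨(h.sm.mono hH).comp fun r => DistribSMul.toAddMonoidHom M r, fun x => ?_,
    fun g hg k hk x => ?_, fun g hg => ?_⟩
  · rw [sa_apply, h.one, one_smul]
  · rw [sa_apply, sa_apply, sa_apply, h.mul g (hH hg) k (hH hk), mul_smul]
  · obtain ⟨n, hn⟩ := Lo2.pow_one (h.isUnit (hH hg))
    exact ⟨n, fun x => by rw [sa_apply, h.pow (hH hg), hn, one_smul]⟩

theorem Chr.map {R' : Type} [CommRing R'] (f : R →+* R') (h : Chr ρ) : Chr fun g => f (ρ g) :=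
  ⟨h.sm.comp f, by rw [h.one, map_one], fun g hg k hk => by rw [h.mul g hg k hk, map_mul]⟩

theorem Chr.cob (h : Chr ρ) (hH : H ≤ G) (x : M) : Zc H ρ fun g => (ρ g - 1) • x :=
  ⟨(h.sm.mono hH).comp fun r => (r - 1) • x, fun g hg k hk => by
    simp only [h.mul g (hH hg) k (hH hk)]
    module⟩

theorem Zc.mono (h : Zc H ρ c) {H' : Subgroup Gam} (k : H' ≤ H) : Zc H' ρ c :=
  ⟨h.1.mono k, fun g hg x hx => h.2 g (k hg) x (k hx)⟩

theorem Zc.add (h : Zc H ρ c) (k : Zc H ρ c') : Zc H ρ fun g => c g + c' g :=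
  ⟨h.1.comp₂ k.1 (· + ·), fun g hg x hx => by
    simp only [h.2 g hg x hx, k.2 g hg x hx]
    module⟩

theorem Zc.sub (h : Zc H ρ c) (k : Zc H ρ c') : Zc H ρ fun g => c g - c' g :=
  ⟨h.1.comp₂ k.1 (· - ·), fun g hg x hx => by
    simp only [h.2 g hg x hx, k.2 g hg x hx]
    module⟩

theorem Zc.lin (h : Zc H ρ c) {M' : Type} [AddCommGroup M'] [Module R M'] (f : M →ₗ[R] M') :
    Zc H ρ fun g => f (c g) :=
  ⟨h.1.comp f, fun g hg x hx => by simp only [h.2 g hg x hx, map_add, map_smul]⟩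

theorem Zc.smul (h : Zc H ρ c) (a : R) : Zc H ρ fun g => a • c g :=
  ⟨h.1.comp (a • ·), fun g hg x hx => by
    simp only [h.2 g hg x hx]
    module⟩

theorem Zc.map {R' : Type} [CommRing R'] (f : R →+* R') {c : Gam → R} (h : Zc H ρ c) :
    Zc H (fun g => f (ρ g)) fun g => f (c g) :=
  ⟨h.1.comp f, fun g hg x hx => by simp only [h.2 g hg x hx, map_add, smul_eq_mul, map_mul]⟩

theorem Zc.congr {ρ' : Gam → R} (h : Zc H ρ c) (k : ∀ g ∈ H, ρ' g = ρ g) (k' : ∀ g ∈ H, c' g = c g) :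
    Zc H ρ' c' :=
  ⟨h.1.congr fun g hg => (k' g hg).symm, fun g hg x hx => by
    rw [k' _ (mul_mem hg hx), k' g hg, k' x hx, k g hg, h.2 g hg x hx]⟩

theorem Adm.map {R' : Type} [CommRing R'] (f : R →+* R') (h : Adm t ρ) :
    Adm t fun g => f (ρ g) := by
  refine ⟨h.inj, h.chr.map f, fun v hv σ hσ => ?_, fun i => ?_⟩
  · show f (ρ σ) - 1 = 0
    rw [sub_eq_zero.1 (h.unr v hv σ hσ), map_one, sub_self]
  · have e := congrArg f (h.geo i)
    rw [map_sum, map_zero] at e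
    simpa only [Geo, map_pow] using e

theorem Val.map [Fintype ι] {R' : Type} [CommRing R'] (f : R →+* R') {L : Gam → ι ⊕ Fin 2 → R}
    (h : Val t ρ L) : Val t (fun g => f (ρ g)) fun g j => f (L g j) := by
  intro M _ _ _ c hc hu g hg
  let _ : Module R M := Module.compHom M f
  exact h M c hc hu g hg

/-- Devissage. -/
theorem Zc.zero_of [Lo2 R] [Finite M] (hρ : Chr ρ) (hH : H ≤ G) (h : Zc H ρ c) (S : Set Gam)
    (h0 : ∀ g ∈ S, c g = 0)
    (hd : ∀ χ, B4bG H χ → (∀ g ∈ S, g ∈ H → χ g = 0) → ∀ g ∈ H, χ g = 0) : ∀ g ∈ H, c g = 0 := by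
  by_contra hc
  push Not at hc
  obtain ⟨g0, hg0, hne⟩ := hc
  have hm : ∀ g ∈ H, c g ∈ Submodule.span R (c '' H) := fun g hg =>
    Submodule.subset_span ⟨g, hg, rfl⟩
  have : Nontrivial (Submodule.span R (c '' H)) :=
    ⟨⟨⟨c g0, hm g0 hg0⟩, 0, fun e => hne (congrArg Subtype.val e)⟩⟩
  obtain ⟨f, f1, f2, f3⟩ := Lo2.exists_fun (R := R) (M := Submodule.span R (c '' H))
  let φ : M → ZMod 2 := fun x => if hx : x ∈ Submodule.span R (c '' H) then f ⟨x, hx⟩ else 0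
  have hφ : ∀ x hx, φ x = f ⟨x, hx⟩ := fun x hx => dif_pos hx
  have k := hd (fun g => φ (c g)) ⟨h.1.comp φ, fun g hg x hx => by
      beta_reduce
      rw [hφ _ (hm _ (mul_mem hg hx)), hφ _ (hm g hg), hφ _ (hm x hx),
        ← f2 (ρ g) ⟨c x, _⟩ (hρ.isUnit (hH hg)), ← map_add]
      exact congrArg f (Subtype.ext (h.2 g hg x hx))⟩ fun g hg _ => by
    rw [h0 g hg, hφ 0 (zero_mem _)]
    exact map_zero f
  have k2 : ∀ x hx, f ⟨x, hx⟩ = 0 := fun x hx => by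
    induction hx using Submodule.span_induction with
    | mem x hx =>
      obtain ⟨g, hg, rfl⟩ := hx
      exact (hφ _ _).symm.trans (k g hg)
    | zero => exact map_zero f
    | add x y hx hy e e' =>
      exact (map_add f ⟨x, hx⟩ ⟨y, hy⟩).trans (by rw [e, e', add_zero])
    | smul a x hx e =>
      by_cases ha : IsUnit a
      · exact (f2 a ⟨x, hx⟩ ha).trans e
      · exact f3 a ⟨x, hx⟩ ha
  obtain ⟨x, hx⟩ := f1 1
  exact absurd ((k2 x.1 x.2).symm.trans hx) (by decide)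

theorem Zc.zero_gen [Lo2 R] [Finite M] (hρ : Chr ρ) (h : Zc G ρ c) (hu : Unr t c)
    (h0 : ∀ j, c (gen t j) = 0) : ∀ g ∈ G, c g = 0 := by
  refine h.zero_of hρ le_rfl ({σ | ∃ v, Off t v ∧ σ ∈ Ine v} ∪ Set.range (gen t)) ?_
    fun χ hχ k => det2 (t := t) hχ (fun v hv σ hσ => k σ (Or.inl ⟨v, hv, hσ⟩) (ine_le hv.1 hσ))
      fun j => k _ (Or.inr ⟨j, rfl⟩) (gen_mem t j)
  rintro g (⟨v, hv, hσ⟩ | ⟨j, rfl⟩)
  exacts [hu v hv g hσ, h0 j]

theorem Zc.zero_ew [Lo2 R] [Finite M] (hρ : Chr ρ) (h : Zc Hw ρ c) (h0 : ∀ j, c (ew j) = 0) :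
    ∀ g ∈ Hw, c g = 0 := by
  refine h.zero_of hρ inf_le_left (Set.range ew) ?_
    fun χ hχ k => ew_spec.2 χ hχ fun j => k _ ⟨j, rfl⟩ (ew_mem j)
  rintro g ⟨j, rfl⟩
  exact h0 j

theorem unr_mono {N : Type} [Zero N] {f : Gam → N} {t' : Option ι → TP}
    (ht : ∀ i, t' (some i) = t i) (h : Unr t f) : Unr t' f :=
  fun v hv => h v ⟨hv.1, fun i => ht i ▸ hv.2 (some i)⟩

theorem unr_of_zero [Lo2 R] [Finite M] {t' : Option ι → TP} (ht : ∀ i, t' (some i) = t i)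
    (hρ : Chr ρ) (hu : Unr t fun g => ρ g - 1) (h : Zc G ρ c) (k : Unr t' c)
    (h0 : c (t' none).σ = 0) : Unr t c := by
  intro v hv σ hσ
  by_cases h1 : v.V (io (t' none).π) = 1
  · refine k v ⟨hv.1, fun i => ?_⟩ σ hσ
    rcases i with _ | i
    exacts [h1, ht i ▸ hv.2 i]
  obtain ⟨t0, rfl⟩ := exists_tp_v hv.1
  obtain ⟨g, hg, e⟩ := (t' none).conj (t0.V_lt.2 (not_not.1 fun k => h1 (t0.V_eq.2 k)))
  obtain ⟨m, hm⟩ := Lo2.kill R
  have h2 : Off t (t' none).v := ⟨(t' none).odd, fun i => by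
    rw [← hv.2 i, ← e, B2.smul_V, io_fx _ _ (inv_mem hg)]⟩
  refine B2.Coc.unr_smul (w := (t' none).v) (hρ.act le_rfl) (zc_iff.1 h) (fun τ hτ x => ?_)
    (fun τ hτ => ?_) hg σ ⟨ine_le hv.1 hσ, e ▸ hσ⟩
  · rw [sa_apply, sub_eq_zero.1 (hu _ h2 τ hτ.2), one_smul]
  · exact (t' none).tm.zero_ine (hm M) (hρ.act inf_le_left) (zc_iff.1 (h.mono inf_le_left)) h0 hτ.2

/-- Natural expressions. -/
theorem p2_nat [Lo2 R] {J K : Type} [Fintype J] [Fintype K] (g : Gam) (a : K → R) (x : K → Gam)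
    (y : J → Gam) (h : ∀ (M : Type) [AddCommGroup M] [Module R M] [Finite M] (c : Gam → M),
      Zc G ρ c → Unr t c → (∀ j, c (y j) = 0) → c g = ∑ k, a k • c (x k)) :
    ∃ β : J → R, ∀ (M : Type) [AddCommGroup M] [Module R M] [Finite M] (c : Gam → M),
      Zc G ρ c → Unr t c → c g = ∑ k, a k • c (x k) + ∑ j, β j • c (y j) := by
  by_contra hc
  push Not at hc
  choose M i1 i2 i3 c hc hu hne using hc
  let C : Gam → ∀ β, M β := fun g β => c β g
  have hC : Zc G ρ C := ⟨B2.Sm.pi fun β => (hc β).1, fun g hg k hk =>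
    funext fun β => (hc β).2 g hg k hk⟩
  let N := Submodule.span R (Set.range fun j => C (y j))
  have : Finite ((∀ β, M β) ⧸ N) := Finite.of_surjective _ N.mkQ_surjective
  have e := h _ (fun g => N.mkQ (C g)) (hC.lin _) (fun v hv σ hσ => by
    beta_reduce
    rw [show C σ = 0 from funext fun β => hu β v hv σ hσ, map_zero]) fun j =>
      (Submodule.Quotient.mk_eq_zero N).2 (Submodule.subset_span ⟨j, rfl⟩)
  have e2 : C g - ∑ k, a k • C (x k) ∈ N := by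
    rw [← Submodule.Quotient.mk_eq_zero, ← N.mkQ_apply, map_sub, e, map_sum]
    simp only [map_smul, sub_self]
  obtain ⟨β, hβ⟩ := (Submodule.mem_span_range_iff_exists_fun R).1 e2
  have e3 := congrFun hβ β
  simp only [Finset.sum_apply, Pi.smul_apply, Pi.sub_apply] at e3
  exact hne β (sub_eq_iff_eq_add'.1 e3.symm)

theorem exists_val [Lo2 R] [Fintype ι] (t : ι → TP) (hρ : Chr ρ) : ∃ L, Val t ρ L := by
  have k := fun g (hg : g ∈ G) => p2_nat (t := t) (ρ := ρ) (K := Empty) g (fun _ => 0) (fun _ => 1)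
    (gen t) fun M _ _ _ c hc hu h0 => by rw [hc.zero_gen hρ hu h0 g hg, Fintype.sum_empty]
  choose L hL using k
  refine ⟨fun g => if hg : g ∈ G then L g hg else 0, fun M _ _ _ c hc hu g hg => ?_⟩
  beta_reduce
  rw [hL g hg M c hc hu, Fintype.sum_empty, zero_add, dif_pos hg]

theorem Val.ext [Lo2 R] [Fintype ι] {L : Gam → ι ⊕ Fin 2 → R} (h : Val t ρ L) (hρ : Chr ρ)
    (hu : Unr t fun g => ρ g - 1) {t' : Option ι → TP} (ht : ∀ i, t' (some i) = t i) :
    ∃ L', Val t' ρ L' ∧ ∀ g j, L' g (Sum.map some id j) = L g j := by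
  have k := fun g (hg : g ∈ G) => p2_nat (t := t') (ρ := ρ) (J := Unit) g (L g) (gen t)
    (fun _ => (t' none).σ) fun M _ _ _ c hc hu' h0 =>
      h M c hc (unr_of_zero ht hρ hu hc hu' (h0 ())) g hg
  choose β hβ using k
  refine ⟨fun g => Sum.elim (fun o => o.elim (if hg : g ∈ G then β g hg () else 0)
    fun i => L g (Sum.inl i)) fun j => L g (Sum.inr j), fun M _ _ _ c hc hu' g hg => ?_,
    fun g j => by rcases j with i | j <;> rfl⟩
  rw [hβ g hg M c hc hu']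
  simp only [Fintype.sum_sum_type, Fintype.sum_option, Sum.elim_inl, Sum.elim_inr, Option.elim,
    gen, ht, dif_pos hg, Fintype.sum_unique]
  abel

end Pool.Agent.Lib.MP_696deb_nt.EU
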