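import Pool.Agent.Lib.MP_696deb_nt.EU.S1
import Pool.Agent.Lib.MP_696deb_nt.B2.B3a

/-! Roots near one, and a logarithm of finite level. -/

set_option autoImplicit false

open scoped Classical NNReal
open Finset

namespace Pool.Agent.Lib.MP_696deb_nt.EU

open B2

section

variable {v : Plc} {a r s : Qbar}

theorem s2_two (v : Plc) : v.V 2 ≤ 1 := by simpa using v.V_int_le 2

theorem s2_add (h : v.V (r - 1) < v.V 2) (k : v.V (s - 1) < v.V 2) : v.V (r + s) = v.V 2 := by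
  rw [show r + s = 2 + (r - 1 + (s - 1)) by ring,
    v.V.map_add_eq_of_lt_left (v.V.map_add_lt h k)]

theorem root_uniq (m : ℕ) (h : v.V (r - 1) < v.V 2) (k : v.V (s - 1) < v.V 2)
    (e : r ^ 2 ^ m = s ^ 2 ^ m) : r = s := by
  have p2 : 0 < v.V 2 := b3a_pos v two_ne_zero
  have sq : ∀ {r : Qbar}, v.V (r - 1) < v.V 2 → v.V (r ^ 2 - 1) < v.V 2 := fun {r} h => by
    rw [show r ^ 2 - 1 = (r - 1) * (r + 1) by ring, map_mul, s2_add h (by simpa using p2)]
    exact (mul_le_of_le_one_right' (s2_two v)).trans_lt h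
  induction m generalizing r s with
  | zero => simpa using e
  | succ m ih =>
    rw [pow_succ', pow_mul, pow_mul] at e
    refine (sq_eq_sq_iff_eq_or_eq_neg.1 (ih (sq h) (sq k) e)).resolve_right fun e' => ?_
    have := s2_add h k
    rw [e', neg_add_cancel, map_zero] at this
    exact p2.ne this

theorem root_near (m : ℕ) (h : v.V (a - 1) < v.V (2 ^ (m + 1))) :
    ∃ r, r ^ 2 ^ m = a ∧ v.V (r - 1) < v.V 2 := by
  induction m generalizing a with
  | zero => exact ⟨a, by simp, by simpa using h⟩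
  | succ m ih =>
    obtain ⟨s, -, s2, s3⟩ := exists_sqrt (D := ⊥) bot_le (a := a)
      (fun g hg => by rw [Subgroup.mem_bot.1 hg]; rfl) (h.trans_le (by
        rw [show (2 : Qbar) ^ (m + 1 + 1) = 2 ^ m * 4 by ring, map_mul, map_pow]
        exact mul_le_of_le_one_left' (pow_le_one' (s2_two v) m)))
    rw [← s3, pow_succ, map_mul] at h
    obtain ⟨r, r1, r2⟩ := ih (lt_of_mul_lt_mul_right h zero_le)
    exact ⟨r, by rw [pow_succ, pow_mul, r1, s2], r2⟩

/-- Families of numbers that are close to one. -/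
theorem KF.spl_near {X : Type} [MulAction Gam X] {H : Subgroup Gam} {e : ℕ} {S : Finset X}
    {x κ : Gam → X → ZMod (2 ^ e)} {a : X → Qbar} (hH : H ≤ Dec v) (hS : St H S) (hx : PC H S x)
    (h : KF H S a κ) (k : ∀ P ∈ S, v.V (a P - 1) < v.V (2 ^ (e + 1))) : Spl e H (SS S x κ) := by
  choose! y y1 y2 using fun P hP => root_near e (k P hP)
  refine h.spl_root hS hx y y1 fun g hg P hP => root_uniq e ?_ (y2 P hP) ?_
  · rw [← map_one g, ← map_sub, mem_Dec.1 (hH hg)]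
    exact y2 _ (hS.inv hg hP)
  · obtain ⟨z, z0, z1⟩ := h
    rw [← map_pow, y1 _ (hS.inv hg hP), y1 P hP, ← (z0 P hP).2, ← (z0 _ (hS.inv hg hP)).2, map_pow,
      z1 g hg P hP, mul_pow, b3b_pow, mul_one]

end

section

variable {R : Type} [CommRing R] {a b x : R} {N : ℕ}

theorem lo_exp (y : R) (k : ℕ) : ∃ t, (1 + 2 * y) ^ 2 ^ k = 1 + 2 ^ k * (2 * y + 2 * y ^ 2 * t) := by
  induction k with
  | zero => exact ⟨0, by ring⟩
  | succ k ih =>
    obtain ⟨t, ht⟩ := ih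
    exact ⟨t + 2 ^ k * (1 + y * t) ^ 2, by rw [pow_succ, pow_mul, ht]; ring⟩

theorem lo_lift {j : ℕ} (ha : 2 ∣ a - 1) (hb : 2 ∣ b - 1) (h : 2 ^ j ∣ a - b) (k : ℕ) :
    2 ^ (j + k) ∣ a ^ 2 ^ k - b ^ 2 ^ k := by
  induction k with
  | zero => simpa using h
  | succ k ih =>
    rw [pow_succ 2 k, pow_mul, pow_mul, sq_sub_sq, ← add_assoc, pow_succ']
    refine mul_dvd_mul ?_ ih
    have := ((ha.trans (sub_one_dvd_pow_sub_one a (2 ^ k))).add
      (hb.trans (sub_one_dvd_pow_sub_one b (2 ^ k)))).add (dvd_refl 2)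
    rwa [show a ^ 2 ^ k - 1 + (b ^ 2 ^ k - 1) + 2 = a ^ 2 ^ k + b ^ 2 ^ k by ring] at this

/-- The logarithm of level `N`. -/
noncomputable def lo (N : ℕ) (a : R) : R :=
  if h : ∃ l, a ^ 2 ^ N = 1 + 2 ^ N * l then h.choose else 0

theorem lo_spec (N : ℕ) (ha : 2 ∣ a - 1) : a ^ 2 ^ N = 1 + 2 ^ N * lo N a := by
  have : ∃ l, a ^ 2 ^ N = 1 + 2 ^ N * l := by
    obtain ⟨y, e⟩ := ha
    obtain ⟨t, ht⟩ := lo_exp y N
    exact ⟨_, by rw [eq_add_of_sub_eq' e, ht]⟩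
  rw [lo, dif_pos this]
  exact this.choose_spec

theorem two_dvd_mul (ha : 2 ∣ a - 1) (hb : 2 ∣ b - 1) : 2 ∣ a * b - 1 := by
  rw [show a * b - 1 = (a - 1) * b + (b - 1) by ring]
  exact (ha.mul_right b).add hb

variable [IsDomain R] [CharZero R]

theorem lo_mul (ha : 2 ∣ a - 1) (hb : 2 ∣ b - 1) : 2 ^ N ∣ lo N (a * b) - (lo N a + lo N b) := by
  refine ⟨lo N a * lo N b, mul_left_cancel₀ (pow_ne_zero N (two_ne_zero (α := R))) ?_⟩
  have := lo_spec N (two_dvd_mul ha hb)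
  rw [mul_pow, lo_spec N ha, lo_spec N hb] at this
  linear_combination -this

theorem lo_congr (ha : 2 ∣ a - 1) (hb : 2 ∣ b - 1) (h : 2 ^ N ∣ a - b) :
    2 ^ N ∣ lo N a - lo N b := by
  have := lo_lift ha hb h N
  rwa [lo_spec N ha, lo_spec N hb, add_sub_add_left_eq_sub, ← mul_sub, pow_add,
    mul_dvd_mul_iff_left (pow_ne_zero N two_ne_zero)] at this

theorem lo_small {e n : ℕ} (h : e < n) (k : 2 ^ n ∣ x) : 2 ^ (e + n) ∣ lo (e + n) (1 + x) - x := by
  obtain ⟨j, rfl⟩ := Nat.exists_eq_add_of_lt h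
  obtain ⟨y, rfl⟩ := k
  obtain ⟨t, ht⟩ := lo_exp (2 ^ (e + j) * y) (e + (e + j + 1))
  have e1 : 2 ^ (e + j + 1) * y = 2 * (2 ^ (e + j) * y) := by ring
  rw [e1, lo_spec _ (by simp), add_right_inj,
    mul_right_inj' (pow_ne_zero _ two_ne_zero)] at *
  exact ⟨2 ^ j * y ^ 2 * t, by rw [ht]; ring⟩

end

theorem hom_two {e : ℕ} {M : Type} [Ring M] (l : M →+ ZMod (2 ^ e)) {a b : M}
    (h : 2 ^ e ∣ a - b) : l a = l b := by
  obtain ⟨c, k⟩ := h
  rw [← sub_eq_zero, ← map_sub, k, ← Nat.cast_ofNat (R := M), ← Nat.cast_pow, ← nsmul_eq_mul, map_nsmul,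
    nsmul_eq_mul, ZMod.natCast_self, zero_mul]

/-- Additive maps lift to higher levels. -/
theorem exists_lift {e : ℕ} (l : GaussianInt →+ ZMod (2 ^ e)) (n : ℕ) :
    ∃ l' : GaussianInt →+ ZMod (2 ^ (e + n)), ∀ z, inc n (l z) = l' (2 ^ n * z) := by
  obtain ⟨p, hp⟩ := dn_surj n (l 1)
  obtain ⟨q, hq⟩ := dn_surj n (l ⟨0, 1⟩)
  let l' : GaussianInt →+ ZMod (2 ^ (e + n)) :=
    { toFun := fun z => z.re * p + z.im * q
      map_zero' := by simp
      map_add' := fun a b => by simp only [Zsqrtd.re_add, Zsqrtd.im_add, Int.cast_add]; ring }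
  refine ⟨l', fun z => ?_⟩
  have k : l z = dn e n (l' z) := by
    change _ = dn e n (z.re * p + z.im * q)
    rw [map_add, map_mul, map_mul, map_intCast, map_intCast, hp, hq, ← zsmul_eq_mul,
      ← zsmul_eq_mul, ← map_zsmul, ← map_zsmul, ← map_add]
    exact congrArg l (by ext <;> simp)
  rw [k, inc_dn, ← Nat.cast_ofNat (R := GaussianInt), ← Nat.cast_pow, ← nsmul_eq_mul, map_nsmul,
    nsmul_eq_mul, Nat.cast_pow, Nat.cast_ofNat]

end Pool.Agent.Lib.MP_696deb_nt.EU
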