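import Pool.Agent.Lib.MP_696deb_nt.EU.S3
import Pool.Agent.Lib.MP_696deb_nt.EU.C7

/-! The explicit reciprocity law at finite level. -/

set_option autoImplicit false

open scoped Classical NNReal
open Finset

namespace Pool.Agent.Lib.MP_696deb_nt.EU

section

variable {v : Plc} {γ η : ℝ≥0} {ι : Type} {P Q : A} {b : O}

theorem V_mul_le {x y : Qbar} {s t : ℝ≥0} (h : v.V x ≤ s) (k : v.V y ≤ t) : v.V (x * y) ≤ s * t := by
  rw [map_mul]
  exact mul_le_mul' h k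

theorem V_prod_le (s : Finset ι) {f : ι → Qbar} (h1 : η ≤ 1) (h : ∀ i ∈ s, v.V (f i - 1) ≤ η) :
    v.V (∏ i ∈ s, f i - 1) ≤ η := by
  induction s using Finset.induction_on with
  | empty => simp
  | insert i s hi ih =>
    have a1 := h i (mem_insert_self _ _)
    have a2 := ih fun j hj => h j (mem_insert_of_mem hj)
    rw [prod_insert hi, show f i * ∏ j ∈ s, f j - 1 =
      (f i - 1) * (∏ j ∈ s, f j - 1) + (f i - 1) + (∏ j ∈ s, f j - 1) by ring]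
    exact v.V.map_add_le (v.V.map_add_le ((V_mul_le a1 a2).trans (mul_le_of_le_one_left' h1)) a1) a2

theorem V_tanh (s : Finset ι) {t : ι → Qbar} (h1 : η ≤ 1) (h : ∀ i ∈ s, v.V (t i) ≤ η) :
    v.V (∏ i ∈ s, (1 + t i) - ∏ i ∈ s, (1 - t i) - 2 * ∑ i ∈ s, t i) ≤ η ^ 3 ∧
      v.V (∏ i ∈ s, (1 + t i) + ∏ i ∈ s, (1 - t i) - 2) ≤ η ^ 2 := by
  induction s using Finset.induction_on with
  | empty => norm_num
  | insert i s hi ih =>
    have a1 := h i (mem_insert_self _ _)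
    have a0 := fun j hj => h j (mem_insert_of_mem hj)
    obtain ⟨a2, a3⟩ := ih a0
    have a4 := v.V.map_sub_le (V_prod_le s (f := fun i => 1 + t i) h1 (by simpa using a0))
      (V_prod_le s (f := fun i => 1 - t i) h1 (by simpa using a0))
    rw [prod_insert hi, prod_insert hi, sum_insert hi]
    constructor
    · convert v.V.map_add_le a2 ((V_mul_le a1 a3).trans (pow_succ' η 2).ge) using 2
      ring
    · convert v.V.map_add_le a3 ((V_mul_le a1 a4).trans (sq η).ge) using 2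
      ring

theorem x_fac (hP : P ∉ Kr v) (hQ : Q ∈ Kr v) (h0 : 0 < γ) (h1 : γ ≤ 1) (h2 : η < 1)
    (hz : v.V (zc Q) ≤ γ * η) {r : Qbar} (hr : γ ≤ v.V (xco P - r)) : ∃ D t : Qbar,
    (v.V D ≤ η ^ 2 ∧ v.V t ≤ η ∧ v.V (t - zc Q * (2 * yco P / (xco P - r))) ≤ η ^ 3) ∧
    xco (P + Q) - r = (xco P - r) * ((1 + D) * (1 + t)) ∧
    xco (P - Q) - r = (xco P - r) * ((1 + D) * (1 - t)) := by
  obtain ⟨δ, ε, e1, e2, e3, e4⟩ := x_shift hP hQ
  have a0 := h0.trans_le hr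
  have a1 : xco P - r ≠ 0 := v.V.ne_zero_iff.1 a0.ne'
  have dv : ∀ (x : Qbar) (k : ℕ), v.V x ≤ v.V (zc Q) ^ (k + 1) →
      v.V (x / (xco P - r)) ≤ η ^ (k + 1) := fun x k h => by
    rw [map_div₀, div_le_iff₀ a0]
    refine h.trans ((pow_le_pow_left' hz _).trans ?_)
    rw [mul_pow, mul_comm, pow_succ γ]
    exact mul_le_mul_right ((mul_le_of_le_one_left' (pow_le_one' h1 k)).trans hr) _
  have b1 := dv δ 1 e3
  have b2 := dv _ 2 e4
  have b3 := dv (2 * yco P * zc Q) 0 ((V_mul_le (V_mul_le (s2_two v) (EA.V_y hP)) le_rfl).trans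
    (by simp))
  have b4 : v.V (1 + δ / (xco P - r)) = 1 :=
    v.V.map_one_add_of_lt (b1.trans_lt (pow_lt_one' h2 two_ne_zero))
  have b5 : 1 + δ / (xco P - r) ≠ 0 := v.V.ne_zero_iff.1 (b4 ▸ one_ne_zero)
  have b6 : xco P - r + δ ≠ 0 := fun e => b5 (by field_simp; linear_combination e)
  have b7 : v.V (ε / (xco P - r) / (1 + δ / (xco P - r)) - zc Q * (2 * yco P / (xco P - r))) ≤
      η ^ 3 := by
    have := v.V.map_sub_le b2 ((V_mul_le b3 b1).trans (pow_add η 1 2).ge)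
    rw [← div_one (v.V _), ← b4, ← map_div₀] at this
    convert this using 2
    field_simp
    ring
  refine ⟨δ / (xco P - r), ε / (xco P - r) / (1 + δ / (xco P - r)), ⟨b1, ?_, b7⟩, ?_, ?_⟩
  · have := v.V.map_add_le (b7.trans (pow_le_of_le_one zero_le h2.le three_ne_zero))
      (b3.trans (pow_one η).le)
    convert this using 2
    ring
  · rw [e1]; field_simp; ring
  · rw [e2]; field_simp; ring

theorem ub_fac (hb : Q4.red b = 1) {f : Qbar → Qbar}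
    (h : ∀ r ∈ Xb b, xco Q - r = (xco P - r) * f r) : ub b Q = ub b P * ∏ r ∈ Xb b, f r := by
  rw [ub, ub, div_mul_eq_mul_div]
  congr 1
  rw [EA.u0, EA.u0, ← prod_mul_distrib]
  refine prod_congr rfl fun r hr => ?_
  have := EA.Xb_ne hb hr
  field_simp
  linear_combination -h r hr

/-- The expansions of the elliptic units along a family of points of the formal group. -/
theorem ub_exp (hb : Q4.red b = 1) {S : Finset A} {al : A → A} (h0 : 0 < γ) (h1 : γ ≤ 1)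
    (h2 : η < 1) (hP : ∀ P ∈ S, P ∉ Kr v ∧ b • P ≠ 0 ∧ ∀ r ∈ Xb b, γ ≤ v.V (xco P - r))
    (hQ : ∀ P ∈ S, al P ∈ Kr v ∧ v.V (zc (al P)) ≤ γ * η)
    (hL : ∑ P ∈ S, zc (al P) * dl b P = 0) :
    v.V (∏ P ∈ S, ub b (P + al P) / ub b (P - al P) - 1) ≤ η ^ 3 ∧ ∀ P ∈ S,
      v.V (ub b (P + al P) * ub b (P - al P) / (ub b P * ub b P) - 1) ≤ η ^ 2 := by
  choose! D t h3 h4 h5 using fun P (k : P ∈ S) r (hr : r ∈ Xb b) =>
    x_fac (hP P k).1 (hQ P k).1 h0 h1 h2 (hQ P k).2 ((hP P k).2.2 r hr)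
  have u0 := fun P k => EA.ub_ne hb (hP P k).2.1
  have one : ∀ {x : Qbar} (k : ℕ), v.V x ≤ η ^ (k + 1) → v.V (1 + x) = 1 := fun k h =>
    v.V.map_one_add_of_lt (h.trans_lt (pow_lt_one' h2 k.succ_ne_zero))
  refine ⟨?_, fun P k => ?_⟩
  · have a1 : ∀ p ∈ S ×ˢ Xb b, v.V (t p.1 p.2) ≤ η := fun p hp =>
      (h3 _ (mem_product.1 hp).1 _ (mem_product.1 hp).2).2.1
    have a2 := (V_tanh _ h2.le a1).1
    have a3 : v.V (∏ p ∈ S ×ˢ Xb b, (1 - t p.1 p.2)) = 1 := by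
      rw [map_prod]
      refine prod_eq_one fun p hp => ?_
      rw [sub_eq_add_neg]
      exact one 0 (by simpa using a1 p hp)
    have a4 : ∏ P ∈ S, ub b (P + al P) / ub b (P - al P) =
        (∏ p ∈ S ×ˢ Xb b, (1 + t p.1 p.2)) / ∏ p ∈ S ×ˢ Xb b, (1 - t p.1 p.2) := by
      rw [prod_product, prod_product, ← prod_div_distrib]
      refine prod_congr rfl fun P k => ?_
      rw [ub_fac hb (h4 P k), ub_fac hb (h5 P k), mul_div_mul_left _ _ (u0 P k), prod_mul_distrib,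
        prod_mul_distrib, mul_div_mul_left _ _ (prod_ne_zero_iff.2 fun r hr =>
          v.V.ne_zero_iff.1 (one 1 (h3 P k r hr).1 ▸ one_ne_zero))]
    have a5 : v.V (∑ p ∈ S ×ˢ Xb b, t p.1 p.2) ≤ η ^ 3 := by
      rw [← sub_zero (∑ p ∈ S ×ˢ Xb b, t p.1 p.2), ← hL, sum_product, ← sum_sub_distrib]
      refine v.V.map_sum_le fun P k => ?_
      rw [← dl_eq hb, mul_sum, ← sum_sub_distrib]
      exact v.V.map_sum_le fun r hr => (h3 P k r hr).2.2
    rw [a4, div_sub_one (v.V.ne_zero_iff.1 (a3 ▸ one_ne_zero)), map_div₀, a3, div_one]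
    simpa using v.V.map_add_le a2 ((V_mul_le (s2_two v) a5).trans (one_mul _).le)
  · rw [ub_fac hb (h4 P k), ub_fac hb (h5 P k), mul_mul_mul_comm,
      mul_div_cancel_left₀ _ (mul_ne_zero (u0 P k) (u0 P k)), ← prod_mul_distrib]
    have e2 := pow_le_one' h2.le 2
    refine V_prod_le _ e2 fun r hr => ?_
    obtain ⟨a1, a2, -⟩ := h3 P k r hr
    have a3 := (V_mul_le a2 a2).trans (sq η).ge
    have a4 := V_prod_le (v := v) univ (f := ![1 + D P r, 1 + D P r, 1 - t P r * t P r]) e2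
      fun i _ => by fin_cases i <;> simp [a1, -map_mul, a3]
    rw [Fin.prod_univ_three] at a4
    convert a4 using 2
    simp only [Matrix.cons_val]
    ring

theorem zc_pow {θ : ℝ≥0} (hQ : Q ∈ Kr v) (h : v.V 2 ≤ θ) (k : v.V (zc Q) ^ 2 ≤ θ) (j : ℕ) :
    v.V (zc ((2 : O) ^ j • Q)) ≤ θ ^ j := by
  induction j with
  | zero => simpa using (EA.V_zc_lt hQ).le
  | succ j ih =>
    have h1 := (EA.zc_smul ((Kr v).smul_mem (2 ^ j) hQ) 2).2
    have h2 := (pow_le_pow_left' (EA.zc_smul hQ (2 ^ j)).1 2).trans k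
    rw [pow_succ' (2 : O), mul_smul, ← sub_add_cancel (zc _) (io 2 * zc ((2 : O) ^ j • Q)),
      pow_succ' θ]
    exact v.V.map_add_le (h1.trans ((pow_succ _ 2).le.trans (mul_le_mul' h2 ih)))
      (V_mul_le (by rwa [map_ofNat]) ih)

theorem V_two_lt : w2.V 2 < 1 := by
  have h := w2.hV
  rw [w2_p, Nat.cast_ofNat] at h
  rw [h]
  norm_num

theorem exists_tau (hQ : Q ∈ Kr w2) :
    ∃ c : ℕ, ∀ j, w2.V (zc ((2 : O) ^ (j + c) • Q)) ≤ w2.V 2 ^ j := by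
  obtain ⟨c, hc⟩ := exists_pow_lt_of_lt_one (B2.b3a_pos w2 two_ne_zero)
    (max_lt V_two_lt (pow_lt_one' (EA.V_zc_lt hQ) two_ne_zero))
  have h := (zc_pow hQ (le_max_left _ _) (le_max_right _ _) c).trans hc.le
  refine ⟨c, fun j => ?_⟩
  rw [pow_add, mul_smul]
  exact zc_pow ((Kr w2).smul_mem _ hQ) le_rfl
    ((pow_le_of_le_one zero_le (h.trans V_two_lt.le) two_ne_zero).trans h) j

theorem zc_unit {u : O} (h : u ^ 4 = 1) (P : A) : zc (u • P) = io u * zc P := by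
  rcases QF.f1_roots (show ii * ii = -1 by decide) h with rfl | rfl | rfl | rfl
  · simp
  · simp [EA.zc_neg]
  · exact EA.zc_ii P
  · rw [neg_smul, EA.zc_neg, EA.zc_ii, map_neg, neg_mul]

end

section

variable {t : Tw} {φ : O → O} {m : O} {g : Gam} {P : A}

theorem w3_dvd (hm : ((8 * t.N : ℤ) : O) ∣ m) : w ^ 3 ∣ m :=
  ((show w ^ 3 ∣ (8 : O) from ⟨⟨-2, -2⟩, by decide⟩).mul_right (t.N : O)).trans
    (by simpa using hm)

theorem Phi.unit_co (hφ : Phi t.N φ) (h0 : m ≠ 0) (hm : ((8 * t.N : ℤ) : O) ∣ m) (hP : P ∈ Im m) :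
    φ (co m P) ^ 4 = 1 ∧ φ (co m P) * star (φ (co m P)) = 1 :=
  hφ.unit t.ne ((co_cop h0 hP).of_isCoprime_of_dvd_right
    (Dvd.dvd.trans ⟨4, by push_cast; ring⟩ hm))

theorem Phi.act_al (hφ : Phi t.N φ) (h0 : m ≠ 0) (hm : ((8 * t.N : ℤ) : O) ∣ m) (hg : g ∈ G)
    (hP : P ∈ Im m) (Q : A) :
    g • star (φ (co m (g⁻¹ • P))) • Q = star (φ (co m P)) • t.tw g Q := by
  rw [hφ.per' hm (co_inv h0 hg (Im_kill h0 hP)), hφ.gch.mul, hφ.link t h0 hm hg, act_smul hg,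
    tw_eq t hg, smul_smul, star_mul', mul_right_comm, mul_comm (star _) (un _),
    (un_four (Q4.zq_four t.ne t.pw g)).2, one_mul]

/-- The explicit reciprocity law. -/
theorem erl_core (hφ : Phi t.N φ) {b π : O} (hb : Q4.red b = 1) (hp : Prime π)
    (hπ : Q4.red π = 1) (h1 : π ∣ (t.N : O)) (h2 : ¬ π ∣ b) {Q0 : A} (hQ : Q0 ∈ Kr w2)
    (hf : ∀ g ∈ Hw, t.tw g Q0 = Q0) : ∃ c : ℕ, ∀ (e n τ : ℕ) (d : ℤ) (m : O), m = d * 2 ^ n →
    m ≠ 0 → e < n → ((8 * t.N : ℤ) : O) ∣ m → e + n + c ≤ 3 * τ →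
    ∑ P ∈ Im m, io (star (φ (co m P))) * dl b P = 0 → ∀ Q1 : A, (2 : O) ^ e • Q1 = Q0 →
    ∀ (l : O →+ ZMod (2 ^ e)) (W : A → O),
    (∀ P ∈ Im m, 2 ^ e ∣ W P * star (co m P) - φ (co m P)) →
    ∀ κ : Gam → A → ZMod (2 ^ e), KF Hw (Im m) (ub b) κ → Spl e Hw fun g h => 2 ^ (τ + 1) *
      SS (Im m) (fun g P => l (d * star (co (2 ^ e) (t.cob Q1 g)) * W P)) κ g h := by
  obtain ⟨c1, hc1⟩ := x_bd hb
  obtain ⟨c2, hc2⟩ := exists_tau hQ
  refine ⟨3 * (c1 + c2) + 2, fun e n τ d m hd h0 hn hm hτ hL Q1 hQ1 l W hW κ hκ => ?_⟩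
  obtain ⟨j, rfl⟩ : ∃ j, τ = c1 + j + c2 := ⟨τ - c1 - c2, by omega⟩
  have hH : Hw ≤ G := inf_le_left
  have w3 := w3_dvd hm
  have b0 := EA.ne_of_red hb
  have hS := st_Im hH h0 w3
  have un := fun P k => hφ.unit_co (P := P) h0 hm k
  have nm : ∀ P ∈ Im m, ∀ R, b • R = 0 → P + R ∉ Kr w2 := fun P k R hR =>
    Im_notMem_w2 h0 hp hπ ((h1.mul_left 8).trans (by simpa using hm)) k h2 hR
  have hV : ∀ P ∈ Im m, 2 ^ e ∣ star (W P) * φ (co m P) * co m P - 1 := fun P k => by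
    obtain ⟨z, hz⟩ := hW P k
    have := congrArg star hz
    simp only [star_sub, star_mul', star_star, star_pow, star_ofNat] at this
    exact ⟨star z * φ (co m P), by linear_combination φ (co m P) * this + (un P k).2⟩
  let l' : O →+ ZMod (2 ^ e) := l.comp (starAddEquiv (R := O)).toAddMonoidHom
  have hω := wt_om hH h0 w3 ((pow_dvd_pow 2 hn.le).trans (hd ▸ dvd_mul_left _ _))
    (l'.comp (AddMonoidHom.mulLeft (d : O))) hV
  obtain ⟨χ, β, x1, x2, x3⟩ := xc_dv hH h0 w3 hd hn l' hV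
  let a1 : A → A := fun P => star (φ (co m P)) • (2 : O) ^ (c1 + j + c2) • Q1
  let al : A → A := fun P => star (φ (co m P)) • (2 : O) ^ (c1 + j + c2) • Q0
  have a2 : ∀ P, (2 : O) ^ e • a1 P = al P := fun P => by
    rw [smul_comm, smul_comm ((2 : O) ^ e), hQ1]
  have a3 : ∀ g ∈ Hw, ∀ P ∈ Im m, g • a1 (g⁻¹ • P) - a1 P =
      (star (φ (co m P)) * 2 ^ (c1 + j + c2)) • t.cob Q1 g := fun g hg P k => by
    rw [hφ.act_al h0 hm (hH hg) k, tw_smul t (hH hg), Q4.Tw.cob, smul_sub, mul_smul, mul_smul]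
  have a4 : ∀ g ∈ Hw, (2 : O) ^ e • t.cob Q1 g = 0 := fun g hg => by
    rw [Q4.Tw.cob, smul_sub, ← tw_smul t (hH hg), hQ1, hf g hg, sub_self]
  have ea : Eqv e Hw (Im m) a1 := fun g hg P k => by
    rw [a3 g hg P k, smul_comm, a4 g hg, smul_zero]
  have ep : Eqv e Hw (Im m) (dv e m) := eqv_dv hH h0
  have kr : ∀ P, al P ∈ Kr w2 := fun P => (Kr w2).smul_mem _ ((Kr w2).smul_mem _ hQ)
  have sp : ∀ P ∈ Im m, (2 : O) ^ e • (dv e m P + a1 P) = P + al P := fun P k => by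
    rw [smul_add, a2, dv_spec h0 (Im_kill h0 k)]
  have sm : ∀ P ∈ Im m, (2 : O) ^ e • (dv e m P - a1 P) = P - al P := fun P k => by
    rw [smul_sub, a2, dv_spec h0 (Im_kill h0 k)]
  have np : ∀ P ∈ Im m, b • (2 : O) ^ e • (dv e m P + a1 P) ≠ 0 := fun P k z =>
    nm P k (-(P + al P)) (by rw [smul_neg, ← sp P k, z, neg_zero]) (by simpa using kr P)
  have nn : ∀ P ∈ Im m, b • (2 : O) ^ e • (dv e m P - a1 P) ≠ 0 := fun P k z =>
    nm P k (-(P - al P)) (by rw [smul_neg, ← sm P k, z, neg_zero]) (by simpa using kr P)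
  have kf : ∀ {Q : A → A}, Eqv e Hw (Im m) Q → (∀ P ∈ Im m, b • (2 : O) ^ e • Q P ≠ 0) →
      ∃ k : Gam → A → ZMod (2 ^ e), KF Hw (Im m) (fun P => ub b ((2 : O) ^ e • Q P)) k :=
    fun h k => exists_KF e (fun P hP => EA.ub_ne hb (k P hP)) fun g hg P hP => by
      rw [← ub_act b0 (hH hg), h.act hH hg hP]
  obtain ⟨kp, hkp⟩ := kf (ep.add ea) np
  obtain ⟨km, hkm⟩ := kf (ep.sub ea) nn
  have p2 : 0 < w2.V 2 := B2.b3a_pos w2 two_ne_zero
  obtain ⟨y1, y2⟩ := ub_exp (v := w2) (S := Im m) (al := al) (γ := w2.V 2 ^ c1) (η := w2.V 2 ^ j)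
    hb (pow_pos p2 _) (pow_le_one' V_two_lt.le _) (pow_lt_one' V_two_lt (by omega))
    (fun P k => ⟨add_zero P ▸ nm P k 0 (smul_zero _), fun z => nm P k (-P)
      (by rw [smul_neg, z, neg_zero]) (by simp), map_pow w2.V 2 c1 ▸ hc1 P (nm P k)⟩)
    (fun P _ => ⟨kr P, (EA.zc_smul ((Kr w2).smul_mem _ hQ) _).1.trans
      ((hc2 _).trans (pow_add _ _ _).le)⟩) (by
      rw [← mul_zero (zc ((2 : O) ^ (c1 + j + c2) • Q0)), ← hL, mul_sum]
      refine sum_congr rfl fun P k => ?_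
      rw [zc_unit (by rw [← star_pow, (un P k).1, star_one])]
      ring)
  have lt : ∀ {s k : ℕ}, k < j * s → (w2.V 2 ^ j) ^ s < w2.V (2 ^ k) := fun h => by
    rw [map_pow, ← pow_mul]
    exact pow_lt_pow_right_of_lt_one₀ p2 V_two_lt h
  have kp' := hkp.congr (a' := fun P => ub b (P + al P)) fun P k => by rw [sp P k]
  have km' := hkm.congr (a' := fun P => ub b (P - al P)) fun P k => by rw [sm P k]
  obtain ⟨r, r1, r2⟩ := B2.exists_root (D := Hw) inf_le_right (e + n) (fun g hg => by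
    rw [← hS.prod hg, map_prod, hS.prod hg fun P => ub b (P + al P) / ub b (P - al P)]
    refine prod_congr rfl fun P k => ?_
    rw [map_div₀, ← ub_act b0 (hH hg), ← ub_act b0 (hH hg), ← sp _ (hS.inv hg k),
      ← sm _ (hS.inv hg k), (ep.add ea).act hH hg k, (ep.sub ea).act hH hg k, sp P k, sm P k])
    (y1.trans_lt (lt (by omega)))
  refine spl_congr (spl_polar
    (ss_congr (hω.spl hH hS (ep.add ea) hb np hkp) fun g hg P k => (hω.xc_add ep ea hg k).symm)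
    (ss_congr (hω.spl hH hS (ep.sub ea) hb nn hkm) fun g hg P k => (hω.xc_sub ep ea hg k).symm)
    ((kp'.div km').spl_hom (op_G.closed.inter (B2.closed_Dec w2)) hS (hω.pc hH hS ep) x1 x2 β x3
      r1 r2)
    (((kp'.mul km').div (hκ.mul hκ)).spl_near inf_le_right hS (hω.pc hH hS ea)
      fun P k => (y2 P k).trans_lt (lt (by omega)))) fun g hg h _ => ?_
  rw [pow_succ', mul_assoc, SS, SS, mul_sum]
  refine congrArg _ (sum_congr rfl fun P k => ?_)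
  obtain ⟨z, hz⟩ := co_smul (two_ne e) (star (φ (co m P)) * 2 ^ (c1 + j + c2)) (a4 g hg)
  rw [← mul_assoc, ← mul_assoc, XC, a3 g hg P k, om, eq_add_of_sub_eq hz]
  congr 2
  rw [← Nat.cast_ofNat (R := ZMod (2 ^ e)), ← Nat.cast_pow, ← nsmul_eq_mul, ← map_nsmul]
  refine hom_two l ⟨-(d * W P * star (φ (co m P)) * star z), ?_⟩
  change _ - star ((d : O) * _) = _
  simp only [star_add, star_mul', star_star, star_pow, star_ofNat, star_intCast, nsmul_eq_mul,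
    Nat.cast_pow, Nat.cast_ofNat]
  linear_combination (-(d * W P * 2 ^ (c1 + j + c2) * star (co (2 ^ e) (t.cob Q1 g)))) *
    (un P k).2

end

end Pool.Agent.Lib.MP_696deb_nt.EU
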