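import Pool.Agent.Lib.MP_696deb_nt.EU.SelG
import Pool.Agent.Lib.MP_696deb_nt.Q4.EllT

/-! Selmer classes over the field of Gaussian numbers. -/

set_option autoImplicit false

open scoped Classical NNReal
open Finset

namespace Pool.Agent.Lib.MP_696deb_nt.EU

/-- Selmer cocycles over the field of Gaussian numbers. -/
structure Zt (t : Tw) (e : ℕ) (ξ : Gam → A) : Prop where
  sm : Sm G ξ
  tor : ∀ g ∈ G, (2 : O) ^ e • ξ g = 0
  coc : ∀ g ∈ G, ∀ h ∈ G, ξ (g * h) = ξ g + t.tw g (ξ h)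
  loc : ∀ v : Plc, (∃ g ∈ G, ∃ S, ∀ h ∈ G ⊓ Dec (g • v), ξ h = t.cob S h) ∨
    (v.p ≠ 2 ∧ ¬ (v.p : ℤ) ∣ t.N ∧ ∀ σ ∈ Ine v, ξ σ = 0)

theorem Zt.loc' {t : Tw} {e : ℕ} {ξ : Gam → A} (h : Zt t e ξ) (v : Plc) :
    ∃ S, ∀ g ∈ G ⊓ Dec v, ξ g = t.cob S g := by
  rcases h.loc v with ⟨g, hg, S, hS⟩ | ⟨h1, h2, h3⟩
  · refine ⟨t.tw g⁻¹ (S + ξ g), fun k hk => ?_⟩
    have m : g * k * g⁻¹ ∈ G := mul_mem (mul_mem hg hk.1) (inv_mem hg)
    have e1 := h.coc _ m g hg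
    rw [inv_mul_cancel_right, h.coc g hg k hk.1,
      hS _ ⟨m, B2.mem_Dec_smul.2 (by simpa [mul_assoc] using hk.2)⟩] at e1
    have e2 : t.tw g (ξ k) = t.tw (g * k * g⁻¹) (S + ξ g) - (S + ξ g) := by
      rw [eq_sub_of_add_eq' e1, Q4.Tw.cob, map_add]
      abel
    have e3 := congrArg (t.tw g⁻¹) e2
    rw [← t.tw_mul, inv_mul_cancel, t.tw_one, map_sub, ← t.tw_mul] at e3
    rw [e3, Q4.Tw.cob, ← t.tw_mul, mul_assoc, inv_mul_cancel_left]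
  · exact unr_kum t h1 h2 (h.sm.mono inf_le_left) (fun g hg => h.tor g hg.1)
      (fun g hg k hk => h.coc g hg.1 k hk.1) h3

section

variable {t : Tw} {e : ℕ} {ξ c : Gam → A}

theorem sl_cc : cc ∉ G := B2.cc_notMem one_pos

theorem sl_two (t : Tw) (k : ℕ) (g : Gam) (P : A) :
    t.tw g ((2 : O) ^ k • P) = (2 : O) ^ k • t.tw g P := by
  have h : ∀ Q : A, (2 : O) ^ k • Q = 2 ^ k • Q := fun Q => by
    rw [← Nat.cast_smul_eq_nsmul O, Nat.cast_pow, Nat.cast_ofNat]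
  rw [h, h, map_nsmul]

theorem sl_ii (t : Tw) (P : A) : t.tw cc (ii • P) = -(ii • t.tw cc P) := by
  have h : cc II = -II := (B2.rt_or (-1) cc).resolve_left fun e => sl_cc (mem_G.2 e)
  have h4 : (zq t.ρ cc * II) ^ 4 = 1 := by rw [mul_pow, t.four, Q4.II_four, mul_one]
  rw [Q4.ii_smul, Q4.ii_smul, Q4.Tw.tw, Q4.JJ, Q4.vm_comp (t.four cc) Q4.II_four,
    Q4.vm_comp Q4.II_four (t.four cc), RingHom.id_apply, RingHom.coe_coe, h, mul_neg,
    Q4.vm_neg h4, mul_comm II]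
  rfl

theorem sl_cob (t : Tw) {g : Gam} (hg : g ∈ G) (a : O) (S : A) :
    t.cob (a • S) g = a • t.cob S g := by
  rw [Q4.Tw.cob, Q4.Tw.cob, tw_smul t hg, smul_sub]

/-- The extension of a function on `G` along the representatives `1`, `cc`. -/
noncomputable def slE (ξ : Gam → A) (x : Gam) : A := if x ∈ G then ξ x else ξ (x * cc)

/-- The transfer. -/
noncomputable def slC (t : Tw) (ξ : Gam → A) (x : Gam) : A := slE ξ x + t.tw cc (slE ξ (cc * x))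

theorem sl_conj {g : Gam} (hg : g ∈ G) : cc * g * cc ∈ G := by
  simpa only [inv_eq_of_mul_eq_one_right B2.cc_mul_cc] using normal_G.conj_mem g hg cc

theorem sl_not {g : Gam} (hg : g ∈ G) : cc * g ∉ G := fun k =>
  sl_cc ((mul_mem_cancel_right hg).1 k)

theorem slC_mem {g : Gam} (hg : g ∈ G) : slC t ξ g = ξ g + t.tw cc (ξ (cc * g * cc)) := by
  rw [slC, slE, slE, if_pos hg, if_neg (sl_not hg)]

theorem slE_mul (coc : ∀ g ∈ G, ∀ h ∈ G, ξ (g * h) = ξ g + t.tw g (ξ h)) {g : Gam} (hg : g ∈ G)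
    (x : Gam) : slE ξ (g * x) = ξ g + t.tw g (slE ξ x) := by
  by_cases hx : x ∈ G
  · rw [slE, slE, if_pos hx, if_pos (mul_mem hg hx), coc g hg x hx]
  · rw [slE, slE, if_neg hx, if_neg (mt (mul_mem_cancel_left hg).1 hx), mul_assoc,
      coc g hg _ (B2.mul_mem_GK hx sl_cc)]

theorem slE_sm (sm : Sm G ξ) : Sm ⊤ (slE ξ) := by
  obtain ⟨U, h1, h2, h3⟩ := sm
  refine B2.b1a_open (U ⊓ G) (h1.inf op_G) fun g _ k _ e => ?_
  by_cases hg : g ∈ G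
  · have hk : k ∈ G := (mul_mem_cancel_left (inv_mem hg)).1 e.2
    rw [slE, slE, if_pos hg, if_pos hk, h3 g hg k hk e.1]
  · have hk : k ∉ G := fun hk => hg (inv_mem_iff.1 ((mul_mem_cancel_right hk).1 e.2))
    rw [slE, slE, if_neg hg, if_neg hk]
    refine h3 _ (B2.mul_mem_GK hg sl_cc) _ (B2.mul_mem_GK hk sl_cc) ?_
    rw [show (g * cc)⁻¹ * (k * cc) = cc⁻¹ * (g⁻¹ * k) * cc⁻¹⁻¹ by group]
    exact h2.conj_mem _ e.1 _

theorem slC_sm (sm : Sm G ξ) : Sm ⊤ (slC t ξ) := by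
  have h := (slE_sm sm).conj (H' := ⊤) cc 1 fun _ _ => trivial
  simp only [mul_one] at h
  exact (slE_sm sm).comp₂ h fun P Q => P + t.tw cc Q

theorem slE_tor (tor : ∀ g ∈ G, (2 : O) ^ e • ξ g = 0) (x : Gam) : (2 : O) ^ e • slE ξ x = 0 := by
  unfold slE
  split_ifs with hx
  exacts [tor x hx, tor _ (B2.mul_mem_GK hx sl_cc)]

theorem slC_tor (tor : ∀ g ∈ G, (2 : O) ^ e • ξ g = 0) (x : Gam) :
    (2 : O) ^ e • slC t ξ x = 0 := by
  rw [slC, smul_add, ← sl_two, slE_tor tor, slE_tor tor, map_zero, add_zero]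

theorem slC_coc (coc : ∀ g ∈ G, ∀ h ∈ G, ξ (g * h) = ξ g + t.tw g (ξ h)) (x y : Gam) :
    slC t ξ (x * y) = slC t ξ x + t.tw x (slC t ξ y) := by
  have c2 : ∀ z, cc * (cc * z) = z := fun z => by rw [← mul_assoc, B2.cc_mul_cc, one_mul]
  by_cases hx : x ∈ G
  · have e1 : cc * (x * y) = cc * x * cc * (cc * y) := by rw [mul_assoc _ cc, c2, mul_assoc]
    rw [slC_mem hx, slC, slC, e1, slE_mul coc hx, slE_mul coc (sl_conj hx), map_add, map_add,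
      ← t.tw_mul, ← t.tw_mul, mul_assoc cc, c2]
    abel
  · have h1 := B2.mul_mem_GK hx sl_cc
    have h2 := B2.mul_mem_GK sl_cc hx
    have e1 : slE ξ (x * y) = ξ (x * cc) + t.tw (x * cc) (slE ξ (cc * y)) := by
      rw [← slE_mul coc h1, mul_assoc, c2]
    rw [slC, slC, slC, e1, ← mul_assoc, slE_mul coc h2, map_add, map_add, ← t.tw_mul, ← t.tw_mul,
      c2, show slE ξ x = ξ (x * cc) from if_neg hx, show slE ξ (cc * x) = ξ (cc * x) from if_pos h2]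
    abel

theorem sl_one (coc : ∀ g h, c (g * h) = c g + t.tw g (c h)) : c 1 = 0 := by
  have h := coc 1 1
  rwa [mul_one, t.tw_one, left_eq_add] at h

theorem sl_inv {x : Gam} {P : A} (h : P + t.tw x P = 0) : (2 : O) • P = t.cob (-P) x := by
  rw [Q4.Tw.cob, map_neg, neg_eq_of_add_eq_zero_left h, two_smul, sub_neg_eq_add]

theorem sl_half (coc : ∀ g h, c (g * h) = c g + t.tw g (c h)) {D : Subgroup Gam} {S : A}
    (h : ∀ g ∈ G ⊓ D, c g = t.cob S g) : ∃ S', ∀ g ∈ D, (2 : O) • c g = t.cob S' g := by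
  have e2 : ∀ g, (2 : O) • t.cob S g = t.cob (S + S) g := fun g => by
    rw [t.cob_add, two_smul, Pi.add_apply]
  by_cases hD : D ≤ G
  · exact ⟨S + S, fun g hg => by rw [h g ⟨hD hg, hg⟩, e2]⟩
  obtain ⟨d, d1, d2⟩ := SetLike.not_le_iff_exists.1 hD
  have k : ∀ g l, c (g * l) - t.cob S (g * l) = c g - t.cob S g + t.tw g (c l - t.cob S l) :=
    fun g l => by
      rw [coc, t.cob_mul, map_sub]
      abel
  have k0 : ∀ g ∈ G, g ∈ D → c g - t.cob S g = 0 := fun g a b => sub_eq_zero.2 (h g ⟨a, b⟩)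
  have k1 : ∀ x ∈ D, x ∉ G → c x - t.cob S x = c d - t.cob S d := fun x a b => by
    have := k d (d⁻¹ * x)
    rwa [mul_inv_cancel_left, k0 _ (B2.mul_mem_GK (mt inv_mem_iff.1 d2) b)
      (mul_mem (inv_mem d1) a), map_zero, add_zero] at this
  refine ⟨-(c d - t.cob S d) + (S + S), fun g hg => ?_⟩
  rw [t.cob_add, Pi.add_apply, ← e2, ← sub_eq_iff_eq_add, ← smul_sub]
  by_cases a : g ∈ G
  · have := k g d
    rw [k1 _ (mul_mem hg d1) (mt (mul_mem_cancel_left a).1 d2), k0 g a hg, zero_add] at this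
    rw [k0 g a hg, smul_zero, Q4.Tw.cob, map_neg, ← this, sub_self]
  · rw [← k1 g hg a]
    exact sl_inv ((k g g).symm.trans (k0 _ (B2.mul_mem_GK a a) (mul_mem hg hg)))

theorem slC_loc (loc : ∀ v : Plc, ∃ S, ∀ g ∈ G ⊓ Dec v, ξ g = t.cob S g) (v : Plc) :
    ∃ S, ∀ g ∈ G ⊓ Dec v, slC t ξ g = t.cob S g := by
  obtain ⟨S, hS⟩ := loc v
  obtain ⟨S', hS'⟩ := loc (cc • v)
  refine ⟨S + t.tw cc S', fun g hg => ?_⟩
  have e1 : cc⁻¹ * (cc * g * cc) * cc = g := by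
    rw [mul_assoc cc g, inv_mul_cancel_left, mul_assoc, B2.cc_mul_cc, mul_one]
  rw [slC_mem hg.1, hS g hg, hS' _ ⟨sl_conj hg.1, B2.mem_Dec_smul.2 (e1.symm ▸ hg.2)⟩, t.cob_add,
    Pi.add_apply, Q4.Tw.cob.eq_1 t S', Q4.Tw.cob.eq_1 t (t.tw cc S'), map_sub, ← t.tw_mul,
    ← t.tw_mul, mul_assoc cc g, ← mul_assoc cc, B2.cc_mul_cc, one_mul]

end

theorem sel1 (t : Tw) (h : B2.Stmt.CorankLE (QP.EQ t.N) 0) : ∃ n : ℕ, ∀ (e : ℕ) (ξ : Gam → A),
    Zt t e ξ → ∃ (S : A) (m : ℕ), (2 : O) ^ m • S = 0 ∧ ∀ g ∈ G, (2 : O) ^ n • ξ g = t.cob S g := by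
  obtain ⟨n, hn⟩ := sel_kill t h
  have key : ∀ (e : ℕ) (ξ : Gam → A), Sm G ξ → (∀ g ∈ G, (2 : O) ^ e • ξ g = 0) →
      (∀ g ∈ G, ∀ h ∈ G, ξ (g * h) = ξ g + t.tw g (ξ h)) →
      (∀ v : Plc, ∃ S, ∀ g ∈ G ⊓ Dec v, ξ g = t.cob S g) →
      ∃ S : A, (2 : O) ^ e • S = 0 ∧ ∀ g, (2 : O) ^ n • (2 : O) • slC t ξ g = t.cob S g :=
    fun e ξ sm tor coc loc => by
      have c := slC_coc coc
      refine hn e _ ((slC_sm sm).comp ((2 : O) • ·)) (fun g => ?_) (fun g k => ?_)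
        ⟨_, sl_inv ?_⟩ fun v => ?_
      · rw [smul_comm, slC_tor tor, smul_zero]
      · rw [c, smul_add, ← pow_one (2 : O), sl_two]
      · rw [← c, B2.cc_mul_cc, sl_one c]
      · obtain ⟨S, hS⟩ := slC_loc loc v
        exact sl_half c hS
  refine ⟨n + 2, fun e ξ hξ => ?_⟩
  obtain ⟨S, s1, s2⟩ := key e ξ hξ.sm hξ.tor hξ.coc hξ.loc'
  obtain ⟨S', s3, s4⟩ := key e (fun g => ii • ξ g) (hξ.sm.comp (ii • ·))
    (fun g hg => by rw [smul_comm, hξ.tor g hg, smul_zero])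
    (fun g hg k hk => by rw [hξ.coc g hg k hk, smul_add, tw_smul t hg]) fun v =>
      (hξ.loc' v).elim fun R hR => ⟨ii • R, fun g hg => by rw [hR g hg, sl_cob t hg.1]⟩
  refine ⟨S + -ii • S', e, by rw [smul_add, smul_comm, s1, s3, smul_zero, add_zero],
    fun g hg => ?_⟩
  have i2 : ∀ P : A, ii • ii • P = -P := fun P => by
    rw [← mul_smul, show ii * ii = -1 by decide, neg_one_smul]
  rw [t.cob_add, Pi.add_apply, sl_cob t hg, ← s2, ← s4, slC_mem hg, slC_mem hg, sl_ii,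
    smul_comm (-ii), smul_comm (-ii), neg_smul, smul_add ii, smul_neg ii, i2, i2]
  module

end Pool.Agent.Lib.MP_696deb_nt.EU
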