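import Pool.Agent.Lib.MP_696deb_nt.EU.C7
import Pool.Agent.Lib.MP_696deb_nt.QP.Par
import Pool.Agent.Lib.MP_696deb_nt.Q4.Link

/-! Unramified classes are local coboundaries. -/

set_option autoImplicit false

open scoped Classical NNReal
open Finset

namespace Pool.Agent.Lib.MP_696deb_nt.EU

/-- Unramified cocycles at a good odd place come from points. -/
theorem unr_kum (t : Tw) {v : Plc} (hv : v.p ≠ 2) (hN : ¬ (v.p : ℤ) ∣ t.N) {e : ℕ} {ξ : Gam → A}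
    (sm : Sm (G ⊓ Dec v) ξ) (tor : ∀ g ∈ G ⊓ Dec v, (2 : O) ^ e • ξ g = 0)
    (coc : ∀ g ∈ G ⊓ Dec v, ∀ h ∈ G ⊓ Dec v, ξ (g * h) = ξ g + t.tw g (ξ h))
    (unr : ∀ σ ∈ Ine v, ξ σ = 0) : ∃ S, ∀ g ∈ G ⊓ Dec v, ξ g = t.cob S g := by
  obtain ⟨r, rfl⟩ := exists_tp_v hv
  have h1 : ¬ r.π ∣ un (zq t.ρ r.φ) * r.π - 1 := fun k =>
    r.prime.not_isUnit (isUnit_of_dvd_one ((dvd_sub_right (dvd_mul_left _ _)).1 k))
  have h2 : ¬ r.π ∣ 2 := r.V_eq.1 (by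
    rw [map_ofNat, ← Int.cast_ofNat, r.v.V_int_eq_one]
    exact fun k => hv ((Nat.prime_dvd_prime_iff_eq r.v.prime Nat.prime_two).1
      (Int.natCast_dvd_natCast.1 k)))
  have h3 : ¬ r.π ∣ 2 ^ e * (un (zq t.ρ r.φ) * r.π - 1) := fun k =>
    (r.prime.dvd_or_dvd k).elim (fun k => h2 (r.prime.dvd_of_dvd_pow k)) h1
  obtain ⟨S, hS⟩ := exists_div (n := un (zq t.ρ r.φ) * r.π - 1)
    (fun k => h1 (k ▸ dvd_zero _)) (ξ r.φ)
  have h4 : (2 ^ e * (un (zq t.ρ r.φ) * r.π - 1)) • S = 0 := by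
    rw [mul_smul, hS, tor _ r.tm.φ_mem]
  have h5 : ξ r.φ = t.cob S r.φ := by
    rw [Q4.Tw.cob, tw_eq t r.φ_mem, act_frob r h3 h4, ← hS, sub_smul, one_smul, mul_smul]
  have h6 : ∀ σ ∈ Ine r.v, t.cob S σ = 0 := fun σ hσ => by
    have k := rho0_ine t hv hN hσ
    rw [rho0, psi_ine hv hσ, mul_one] at k
    rw [Q4.Tw.cob, tw_eq t (ine_le hv hσ), act_ine hv (r.V_eq.2 h3) hσ h4,
      oW_inj (k.trans (map_one oW).symm), one_smul, sub_self]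
  have h7 : ∀ n : ℕ, ξ (r.φ ^ n) = t.cob S (r.φ ^ n) := fun n => by
    induction n with
    | zero => rw [pow_zero, unr 1 (one_mem _), h6 1 (one_mem _)]
    | succ n ih => rw [pow_succ, coc _ (pow_mem r.tm.φ_mem n) _ r.tm.φ_mem, t.cob_mul, ih, h5]
  refine ⟨S, fun g hg => ?_⟩
  obtain ⟨U, u1, -, u3⟩ := sm.comp₂ ((t.lc_cob S).mono le_top) (· - ·)
  obtain ⟨n, σ, hσ, k⟩ := r.tm.dg hg u1
  have h8 := u3 _ (mul_mem (pow_mem r.tm.φ_mem n) (r.tm.ine_le hσ)) g hg k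
  simp only [coc _ (pow_mem r.tm.φ_mem n) _ (r.tm.ine_le hσ), t.cob_mul, h7, unr σ hσ, h6 σ hσ,
    sub_self] at h8
  exact sub_eq_zero.1 h8.symm

/-- Selmer cocycles over the rational numbers are killed by a fixed power of two. -/
theorem sel_kill (t : Tw) (h : B2.Stmt.CorankLE (QP.EQ t.N) 0) : ∃ n : ℕ, ∀ (e : ℕ) (ξ : Gam → A),
    Sm ⊤ ξ → (∀ g, (2 : O) ^ e • ξ g = 0) → (∀ g h, ξ (g * h) = ξ g + t.tw g (ξ h)) →
    (∃ S, ξ cc = t.cob S cc) → (∀ v : Plc, ∃ S, ∀ g ∈ Dec v, ξ g = t.cob S g) →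
    ∃ S : A, (2 : O) ^ e • S = 0 ∧ ∀ g, (2 : O) ^ n • ξ g = t.cob S g := by
  obtain ⟨C, hC⟩ := h
  obtain ⟨n, o, ho, hn⟩ := Nat.exists_eq_two_pow_mul_odd C.factorial_ne_zero
  refine ⟨n, fun e ξ sm tor coc inf loc => ?_⟩
  have c2 : ∀ (k : ℕ) (P : A), (2 : O) ^ k • P = 2 ^ k • P := fun k P => by
    rw [← Nat.cast_smul_eq_nsmul O, Nat.cast_pow, Nat.cast_ofNat]
  simp only [c2] at tor ⊢
  let _ := QP.cw t.N t.ne
  let Ψ : Pool.Agent.B6.EE ≃+ A := Q4.linkPsi t.ne t.pw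
  have e1 : ∀ (g : Gam) (P : A), g • Ψ.symm P = Ψ.symm (t.tw g P) := fun g P =>
    Ψ.injective ((Q4.link_pm t.ne t.pw t.pw (g : Qbar →+* Qbar) (Ψ.symm P)).trans (by
      rw [Ψ.apply_symm_apply]
      exact congrArg (t.tw g) (Ψ.apply_symm_apply P)))
  have e2 : ∀ (j : ℕ) (S : A) (g : Gam), ξ g = t.cob S g → Ψ.symm (j • ξ g) =
      Pool.Agent.B6.tw 1 g (Ψ.symm (j • S)) - Ψ.symm (j • S) := fun j S g k => by
    rw [QP.tw_one, e1, k, Q4.Tw.cob, smul_sub, map_sub, map_nsmul (t.tw g)]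
  let η : ℕ → Gam → Pool.Agent.B6.EE := fun j g => Ψ.symm (j • ξ g)
  have e3 : ∀ j, B2.Stmt.IsSel (QP.EQ t.N) (2 ^ e) (η j) := fun j => QP.lkq_isSel
    ⟨sm.comp fun P => Ψ.symm (j • P), fun g k => by
      simp only [QP.tw_one, e1, coc, smul_add, map_add, map_nsmul (t.tw g)],
      fun v => (loc v).elim fun S k => ⟨_, fun g hg => e2 j S g (k g hg)⟩,
      inf.elim fun S k => ⟨_, e2 j S _ k⟩⟩ fun g => by
      rw [← map_nsmul, smul_comm, tor, smul_zero, map_zero]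
  obtain ⟨j, hj, j', hj', k1, S, k2, k3⟩ : ∃ j ∈ range (C + 1), ∃ j' ∈ range (C + 1), j ≠ j' ∧
      B2.Stmt.Cohom (QP.EQ t.N) (2 ^ e) (η j) (η j') := by
    by_contra! k
    have := hC e ((range (C + 1)).image η) (fun x hx => by
      obtain ⟨j, -, rfl⟩ := mem_image.1 hx
      exact e3 j) fun x hx y hy c => by
      obtain ⟨j, hj, rfl⟩ := mem_image.1 hx
      obtain ⟨j', hj', rfl⟩ := mem_image.1 hy
      rw [by_contra fun e => k j hj j' hj' e c]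
    rw [card_image_of_injOn fun j hj j' hj' c => by_contra fun e => k j hj j' hj' e
      ⟨0, smul_zero _, fun g => by rw [c, sub_self]; exact (sub_zero _).symm⟩, card_range, zero_mul] at this
    omega
  have k4 : ∀ g, ((j : ℤ) - j') • ξ g = t.cob (Ψ S) g := fun g => Ψ.symm.injective (by
    rw [sub_smul, natCast_zsmul, natCast_zsmul, map_sub, Q4.Tw.cob, map_sub, ← e1,
      Ψ.symm_apply_apply]
    exact k3 g)
  obtain ⟨d, hd⟩ : (j : ℤ) - j' ∣ C.factorial := Int.natAbs_dvd.1 (Int.natCast_dvd_natCast.2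
    (Nat.dvd_factorial (by omega) (by rw [mem_range] at hj hj'; omega)))
  obtain ⟨x, y, k5⟩ : IsCoprime (o : ℤ) (2 ^ e : ℕ) :=
    Nat.isCoprime_iff_coprime.2 (Nat.Coprime.pow_right _ (Nat.coprime_two_right.2 ho))
  refine ⟨(x * d) • Ψ S, by
    rw [smul_comm, ← map_nsmul]
    exact (congrArg (fun P => (x * d) • Ψ P) k2).trans ((congrArg _ Ψ.map_zero).trans (smul_zero _)), fun g => ?_⟩
  have k6 : ((2 ^ n : ℕ) : ℤ) = x * d * (j - j') + (2 ^ n : ℕ) * y * (2 ^ e : ℕ) := by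
    rw [hn, Nat.cast_mul] at hd
    linear_combination x * hd - (2 ^ n : ℕ) * k5
  rw [t.cob_zsmul, Pi.smul_apply, ← k4, ← natCast_zsmul, k6, add_smul, mul_smul _ (_ - _),
    mul_smul _ ((2 ^ e : ℕ) : ℤ), natCast_zsmul, tor, smul_zero, add_zero]

end Pool.Agent.Lib.MP_696deb_nt.EU
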