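import Pool.Agent.Lib.MP_696deb_nt.EU.Lim
import Pool.Agent.Lib.MP_696deb_nt.EU.Kol
import Pool.Agent.Lib.MP_696deb_nt.EU.C7

/-! The tower: definitions. -/

set_option autoImplicit false

open scoped Classical NNReal
open Finset PowerSeries

namespace Pool.Agent.Lib.MP_696deb_nt.EU

/-- An inverse modulo a power of two. -/
noncomputable def iv (e : ℕ) (x : O) : O := if h : ∃ y, (2 : O) ^ e ∣ y * x - 1 then h.choose else 0

/-- The weight modulo a power of two. -/
noncomputable def Tht (φ : O → O) (e : ℕ) (a : O) : O := φ a * iv e (star a)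

/-- The data that do not depend on the level. -/
structure Cb where
  t : Tw
  φ : O → O
  phi : Phi t.N φ
  κ : Type
  fin : Fintype κ
  tp : κ → TP
  inj : ∀ i j, (tp i).π = (tp j).π → i = j
  dvd : ∀ i, (tp i).π ∣ (t.N : O)
  all : ∀ p : O, Prime p → p ∣ (t.N : O) → p ∣ w ∨ ∃ i, p ∣ (tp i).π
  sig : ∀ i, rho0 t (tp i).σ = oW ii ∨ rho0 t (tp i).σ = -oW ii ∨ rho0 t (tp i).σ = -1
  i0 : κ
  sig0 : rho0 t (tp i0).σ = oW ii ∨ rho0 t (tp i0).σ = -oW ii
  α : Bool → TP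
  α_ne : (α false).π ≠ (α true).π
  α5 : ∀ b, nm (α b).π % 8 = 5
  α_nd : ∀ b, ¬ (α b).π ∣ (t.N : O)
  α_w : chB (io w) (α true).φ = 0
  Q0 : A
  Q_mem : Q0 ∈ Kr w2
  Q_ne : Q0 ≠ 0
  Q_fix : ∀ g ∈ Hw, t.tw g Q0 = Q0
  Q_deep : w2.V (zc Q0) ^ 2 < w2.V (io w)

attribute [instance] Cb.fin

/-- The auxiliary prime of level `k`. -/
structure Lv (c : Cb) (k : ℕ) where
  lam : TP
  s : ℕ
  x : Ix lam s
  ord : ∑ i ∈ range (2 ^ s), (1 + X : La) ^ i ∈ aa k
  nd : ¬ lam.π ∣ (c.t.N : O)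
  ne : ∀ b, (c.α b).π ≠ lam.π
  ow : Odd (x.ind w).val
  oπ : ∀ i, Odd (x.ind (c.tp i).π).val
  oα : Odd (x.ind (c.α true).π).val
  eα : Even (x.ind (c.α false).π).val
  r3 : ¬ wO ^ 3 ∣ rho0 c.t lam.φ - 1

/-- All the data. -/
structure Cx extends Cb where
  lv : ∀ k, Lv toCb k

/-- The primes of the base among the primes of stage `n`. -/
def Jx.emb {κ : Type} : ∀ {n : ℕ}, Option κ → Jx κ n
  | 0, i => i
  | _ + 1, i => some (Jx.emb i)

/-- Reduction modulo the variable and a power of two. -/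
noncomputable abbrev JX (j : ℕ) : Ideal La := Ideal.span {X} ⊔ aa j

/-- The Gaussian integers in the quotient. -/
noncomputable def oq (J : Ideal La) : O →+* La ⧸ J :=
  (Ideal.Quotient.mk J).comp ((C : Ow →+* La).comp oW)

namespace Cb

variable (c : Cb)

/-- The two characters at the bottom of the tower. -/
noncomputable def r0 : Bool → Gam → Ow
  | true, g => rho0 c.t g
  | false, g => star (rho0 c.t g)

/-- The conductor at the bottom of the tower. -/
noncomputable def m0 (e : ℕ) : O := ((c.t.N.natAbs * 2 ^ (e + 3) : ℕ) : O)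

/-- The rigidifying element. -/
noncomputable def g0 : Gam := (c.tp c.i0).σ

/-- A division point of the local point. -/
noncomputable def Q1 (e : ℕ) : A :=
  (exists_div (n := (2 : O) ^ e) (pow_ne_zero e two_ne_zero) c.Q0).choose

theorem Q1_spec (e : ℕ) : (2 : O) ^ e • c.Q1 e = c.Q0 :=
  (exists_div (n := (2 : O) ^ e) (pow_ne_zero e two_ne_zero) c.Q0).choose_spec

/-- The conjugate of the Kummer cocycle of the local point. -/
noncomputable def ks (k : ℕ) (g : Gam) : La :=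
  C (oW (star (co (2 ^ (k + 1)) (c.t.cob (c.Q1 (k + 1)) g))))

/-- The central value vanishes. -/
def Van : Prop := ∀ (e : ℕ) (b : Bool),
  ∑ P ∈ Im (c.m0 e), io (star (c.φ (co (c.m0 e) P))) * dl (c.α b).π P = 0

end Cb

namespace Cx

variable (c : Cx)

/-- The primes of the base. -/
noncomputable def t0 (k : ℕ) : Option c.κ → TP
  | none => (c.lv k).lam
  | some i => c.tp i

/-- The exponents. -/
noncomputable def ex : Bool → ℕ → Gam → ℕ
  | true, k, g => ((c.lv k).x.ig g).val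
  | false, k, g => (-(c.lv k).x.ig g).val

/-- The two characters. -/
noncomputable def ρ (b : Bool) (k : ℕ) (g : Gam) : La := C (c.r0 b g) * (1 + X) ^ c.ex b k g

/-- The character of the weight. -/
noncomputable def θ (k : ℕ) (g : Gam) : La := c.ρ true k g * C (algebraMap ℤ_[2] Ow (cyc g⁻¹))

/-- The conductor. -/
noncomputable def m (k : ℕ) : O := c.m0 (k + 1) * (c.lv k).lam.π

/-- The weight. -/
noncomputable def Wt (k : ℕ) (a : O) : La :=
  C (oW (Tht c.φ (k + 1) a)) * (1 + X) ^ ((c.lv k).x.ind a).val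

/-- The weight in a quotient. -/
noncomputable def Wq (J : Ideal La) (k : ℕ) (a : O) : La ⧸ J := Ideal.Quotient.mk J (c.Wt k a)

/-- The classes of the elliptic units. -/
noncomputable def Fk (b : Bool) (k : ℕ) : Gam → La :=
  lft (FE (fa k) (c.m k) (c.α b).π (c.Wq (aa k) k))

/-- The Euler factors. -/
noncomputable def ck (b : Bool) (k : ℕ) : La :=
  c.θ k (c.α (!b)).φ * (1 - c.ρ true k (c.α b).φ)

/-- Stages. -/
structure Stg (n : ℕ) where
  t : ℕ → Jx c.κ n → TP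
  J : ∀ k, Finset (DP (k + 1))
  L : Bool → ℕ → Gam → Jx c.κ n ⊕ Fin 2 → La
  base : ∀ k i, t k (Jx.emb i) = c.t0 k i
  toJ : ∀ k i, i.deep → ∃ r ∈ J k, r.t = t k i
  ofJ : ∀ k, ∀ r ∈ J k, ∃ i, i.deep ∧ r.t = t k i
  inj : ∀ k i j, (t k i).π = (t k j).π → i = j
  good : ∀ k b, Good (c.m k) (c.α b).π (md (aa k) (c.θ k)) c.g0 (J k)
  val : ∀ b k, Val (t k) (md (aa k) (c.ρ b k)) (mdL (aa k) (L b k))

variable {c}

/-- The derived classes. -/
noncomputable def Stg.kp {n : ℕ} (s : c.Stg n) (b : Bool) (k : ℕ) : Gam → La :=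
  lft (kol (fa k) (c.m k) (c.α b).π (c.Wq (aa k) k) (md (aa k) (c.θ k)) c.g0 (s.J k))

/-- The conditions on the Frobenius element of a new prime. -/
structure Stg.InN {n : ℕ} (s : c.Stg n) (k : ℕ) (g : Gam) : Prop where
  ρ : ∀ b, c.ρ b k g - 1 ∈ aa k
  cy : cy (k + 3) g = 1
  ig : ∀ r ∈ s.J k, r.x.ig g = 0
  rt : ∀ r ∈ s.J k, g (rt2 (k + 1) (io r.t.π)) = rt2 (k + 1) (io r.t.π)

/-- The stage `s'` has one more prime than `s`. -/
structure Stg.Ex {n : ℕ} (s : c.Stg n) (s' : c.Stg (n + 1)) : Prop where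
  t : ∀ k i, s'.t k (some i) = s.t k i
  L : ∀ k g j, s'.L true k g (old j) = s.L true k g j
  J : ∀ k, ∃ r, r ∉ s.J k ∧ r.t = s'.t k none ∧ s'.J k = insert r (s.J k)

end Cx

end Pool.Agent.Lib.MP_696deb_nt.EU
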