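import Pool.Agent.Lib.MP_696deb_nt.EU.T3
import Pool.Agent.Lib.MP_696deb_nt.EU.T2
import Pool.Agent.Lib.MP_696deb_nt.EU.LimA
import Pool.Agent.Lib.MP_696deb_nt.EU.Sel
import Pool.Agent.Lib.MP_696deb_nt.EU.Ind

/-! The bottom of the tower. -/

set_option autoImplicit false

open scoped Classical NNReal
open Finset PowerSeries

namespace Pool.Agent.Lib.MP_696deb_nt.EU

/-- The torsion point that belongs to the conjugate of a residue class. -/
noncomputable def xi (j : ℕ) (z : La ⧸ JX j) : A :=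
  star (oq_surj j z).choose • tq 1 (2 ^ (j + 1))

theorem t7_star {R : Type} [CommRing R] [StarRing R] {e : ℕ} {a : R} (h : (2 : R) ^ e ∣ a) :
    (2 : R) ^ e ∣ star a := by
  obtain ⟨b, rfl⟩ := h
  exact ⟨star b, by rw [star_mul', star_pow, star_ofNat]⟩

theorem t7_ne (e : ℕ) : (2 : O) ^ e ≠ 0 := pow_ne_zero e two_ne_zero

theorem xi_oq (j : ℕ) (a : O) : xi j (oq (JX j) a) = star a • tq 1 (2 ^ (j + 1)) := by
  refine (EA.smul_tq_eq (t7_ne _)).2 ?_
  rw [← star_sub]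
  exact t7_star (oq_zero.1 (by rw [map_sub, (oq_surj j _).choose_spec, sub_self]))

theorem xi_add (j : ℕ) (z z' : La ⧸ JX j) : xi j (z + z') = xi j z + xi j z' := by
  obtain ⟨a, rfl⟩ := oq_surj j z
  obtain ⟨b, rfl⟩ := oq_surj j z'
  rw [← map_add, xi_oq, xi_oq, xi_oq, star_add, add_smul]

theorem xi_mul (j : ℕ) (a : O) (z : La ⧸ JX j) : xi j (oq (JX j) a * z) = star a • xi j z := by
  obtain ⟨b, rfl⟩ := oq_surj j z
  rw [← map_mul, xi_oq, xi_oq, star_mul', mul_smul]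

theorem xi_eq_zero {j : ℕ} {z : La ⧸ JX j} : xi j z = 0 ↔ z = 0 := by
  obtain ⟨a, rfl⟩ := oq_surj j z
  rw [xi_oq, EA.smul_tq_one (t7_ne _), oq_zero]
  exact ⟨fun h => star_star a ▸ t7_star h, t7_star⟩

theorem xi_sub (j : ℕ) (z z' : La ⧸ JX j) : xi j (z - z') = xi j z - xi j z' :=
  (AddMonoidHom.mk' (xi j) (xi_add j)).map_sub z z'

theorem xi_inj {j : ℕ} {z z' : La ⧸ JX j} (h : xi j z = xi j z') : z = z' :=
  sub_eq_zero.1 (xi_eq_zero.1 (by rw [xi_sub, h, sub_self]))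

theorem xi_tor (j : ℕ) (z : La ⧸ JX j) : (2 : O) ^ (j + 1) • xi j z = 0 := by
  rw [xi, smul_comm, (EA.smul_tq_one (t7_ne _)).2 dvd_rfl, smul_zero]

namespace Cx

variable (c : Cx) {j k : ℕ} {g : Gam}

theorem xi_ρ (j k : ℕ) (hg : g ∈ G) (z : La ⧸ JX j) :
    xi j (md (JX j) (c.ρ false k) g * z) = c.t.tw g (xi j z) := by
  obtain ⟨a, ha⟩ := exists_ap (j + 1) (rho0 c.t g)
  have e : md (JX j) (c.ρ false k) g = oq (JX j) (star a) := Ideal.Quotient.eq.2 (mem_X_sup.2 (by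
    have := t7_star ha
    rw [star_sub, ← oW_star] at this
    rwa [map_sub, c.ρ_const, RingHom.comp_apply, constantCoeff_C]))
  rw [e, xi_mul, star_star, tw_rho0 c.t hg (xi_tor j z) ha]

theorem xi_cob (j k : ℕ) (hg : g ∈ G) (z : La ⧸ JX j) :
    xi j ((md (JX j) (c.ρ false k) g - 1) * z) = c.t.cob (xi j z) g := by
  rw [sub_mul, one_mul, xi_sub, c.xi_ρ j k hg, Q4.Tw.cob]

theorem xi_ks (h : j ≤ k) (hg : g ∈ Hw) :
    xi j (md (JX j) (c.ks k) g) = c.t.cob ((2 : O) ^ (k - j) • c.Q1 (k + 1)) g := by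
  have e : (2 : O) ^ (k + 1) = 2 ^ (k - j) * 2 ^ (j + 1) := by
    rw [← pow_add, ← add_assoc, Nat.sub_add_cancel h]
  have k0 : (2 : O) ^ (k + 1) • c.t.cob (c.Q1 (k + 1)) g = 0 := by
    rw [← sl_cob _ hg.1, c.Q1_spec, Q4.Tw.cob, c.Q_fix g hg, sub_self]
  refine (xi_oq j _).trans ?_
  rw [star_star, sl_cob _ hg.1, ← EA.tq_eq _ (t7_ne _), ← EA.tq_mul (t7_ne (k - j)) _ (t7_ne _),
    ← e, ← EA.smul_tq _ _ (t7_ne _), co_spec (t7_ne _) k0]

theorem xi_km (h : j ≤ k) (hg : g ∈ Hw) (z : La ⧸ JX j) (b : O) :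
    xi j (z * (md (JX j) (c.ρ false k) g - 1) + oq (JX j) b * md (JX j) (c.ks k) g) =
      c.t.cob (xi j z + star b • (2 : O) ^ (k - j) • c.Q1 (k + 1)) g := by
  rw [xi_add, mul_comm z, c.xi_cob j k hg.1, xi_mul, c.xi_ks h hg, c.t.cob_add, Pi.add_apply,
    sl_cob _ hg.1 (star b)]

theorem zc_ks (h : j ≤ k) : Zc Hw (md (JX j) (c.ρ false k)) (md (JX j) (c.ks k)) := by
  have s : Sm Hw fun g => c.t.tw g (c.Q1 (k + 1)) :=
    ((B2.sm_apply c.t.ρ).comp₂ (sm_act Hw (c.Q1 (k + 1))) fun r P => un (r / c.t.ρ) • P).congr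
      fun g hg => (tw_eq c.t hg.1 _).symm
  refine ⟨s.comp fun P => oq (JX j) (star (co (2 ^ (k + 1)) (P - c.Q1 (k + 1)))),
    fun g hg g' hg' => xi_inj ?_⟩
  rw [xi_add, smul_eq_mul, c.xi_ρ j k hg.1, c.xi_ks h hg, c.xi_ks h hg', c.xi_ks h (mul_mem hg hg'),
    c.t.cob_mul]

theorem ok_k_mem : c.dat.k ∈ c.dat.W (Ideal.span {X}) :=
  ⟨c.ks, fun j => (ev_ge j).mono fun _ h => c.zc_ks h, rfl⟩

/-- The local form of a cocycle whose values at two are Kummer values. -/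
theorem km_loc {f : ℕ → Gam → La} (hf : LW (c.ρ false) (Ideal.span {X}) f) {d x y : La}
    (h : ∀ i, d * lim f (ewL i) - (x * (lim (c.ρ false) (ewL i) - 1) + y * c.dat.k i) ∈
      Ideal.span {(X : La)}) (j : ℕ) :
    ∀ᶠ k in UU, ∀ g ∈ Hw, d * f k g - (x * (c.ρ false k g - 1) + y * c.ks k g) ∈ JX j := by
  have e : ∀ i, ∀ᶠ k in UU,
      d * f k (ew i) - (x * (c.ρ false k (ew i) - 1) + y * c.ks k (ew i)) ∈ JX j := fun i => by
    refine ul_mem_iff.1 ?_ j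
    rw [ul_sub, ul_add, ul_mul, ul_mul, ul_mul, ul_sub, ul_const, ul_const, ul_const, ul_const]
    exact h i
  refine (((Filter.eventually_all.2 e).and (hf j)).and (ev_ge j)).mono fun k hk g hg => ?_
  have := pr_X.lo2 j
  have r : Chr (md (JX j) (c.ρ false k)) := (c.chr false k).fac (aa_le_sup hk.2 _)
  have m : ∀ g, Ideal.Quotient.mk (JX j) (d * f k g - (x * (c.ρ false k g - 1) + y * c.ks k g)) =
      Ideal.Quotient.mk (JX j) d • md (JX j) (f k) g -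
        ((md (JX j) (c.ρ false k) g - 1) • Ideal.Quotient.mk (JX j) x +
          Ideal.Quotient.mk (JX j) y • md (JX j) (c.ks k) g) := fun g => by
    simp only [md, map_sub, map_add, map_mul, map_one, smul_eq_mul, mul_comm]
  exact Ideal.Quotient.eq_zero_iff_mem.1 ((m g).trans (((hk.1.2.smul _).sub
    ((r.cob inf_le_left _).add ((c.zc_ks hk.2).smul _))).zero_ew r
      (fun i => (m _).symm.trans (Ideal.Quotient.eq_zero_iff_mem.2 (hk.1.1 i))) g hg))

theorem ok_ind : ∀ x y : La, (∀ i, x * (c.dat.ρ false (c.dat.e i) - 1) + y * c.dat.k i ∈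
    Ideal.span {(X : La)}) → y ∈ Ideal.span {(X : La)} := by
  intro x y h
  obtain ⟨n, hn⟩ := ind_dvd (t := c.t) c.Q_mem c.Q_ne c.Q_deep
  refine mem_span_X.2 (eq_zero_Ow fun e => ?_)
  obtain ⟨k, h1, h2⟩ := ((c.km_loc (d := 0) (x := x) (y := y) LW.zero
    (fun i => by rw [zero_mul, zero_sub]; exact neg_mem (h i)) (e + n)).and (ev_ge (e + n))).exists
  obtain ⟨b, hb⟩ := oq_surj (e + n) (Ideal.Quotient.mk _ y)
  have k1 := hn (e + 1) (star b) _ (fun g hg => sub_eq_zero.1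
    ((c.xi_km h2 hg (Ideal.Quotient.mk _ x) b).symm.trans (xi_eq_zero.2 (by
      have := Ideal.Quotient.eq_zero_iff_mem.2 (h1 g hg)
      rw [zero_mul, zero_sub, map_neg, neg_eq_zero, map_add, map_mul, map_mul, map_sub,
        map_one] at this
      rwa [hb])))) (by
    rw [add_right_comm, smul_add, xi_tor, zero_add, smul_comm, smul_smul ((2 : O) ^ _), ← pow_add,
      add_right_comm, Nat.add_sub_cancel' h2, c.Q1_spec])
  have k2 := mem_X_sup.1 (Ideal.Quotient.eq.1 hb)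
  rw [map_sub, RingHom.comp_apply, constantCoeff_C] at k2
  have k3 : (2 : Ow) ^ e ∣ oW b :=
    dvd_oW.2 ((pow_dvd_pow 2 e.le_succ).trans (star_star b ▸ t7_star k1))
  simpa using k3.sub ((pow_dvd_pow 2 (by omega)).trans k2)

/-- The element that makes all cocycles locally trivial at the primes of the base. -/
noncomputable def δ (k : ℕ) : La :=
  (c.ρ false k (c.lv k).lam.φ - 1) * ∏ i, (c.ρ false k (c.tp i).σ - 1)

theorem sel_fin (h : B2.Stmt.CorankLE (QP.EQ c.t.N) 0) : ∃ n : ℕ, ∀ j k, j ≤ k → ∀ f : Gam → La,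
    Zc G (md (JX j) (c.ρ false k)) (md (JX j) f) → Unr (c.t0 k) (md (JX j) f) → ∀ x y : La,
    (∀ g ∈ Hw, f g - (x * (c.ρ false k g - 1) + y * c.ks k g) ∈ JX j) → ∀ g ∈ G,
    2 ^ n * c.δ k * ((c.ρ false k c.g0 - 1) * f g - (c.ρ false k g - 1) * f c.g0) ∈ JX j := by
  obtain ⟨n, hn⟩ := sel1 c.t h
  refine ⟨n, fun j k hjk f hf hu x y hl g hg => ?_⟩
  have := pr_X.lo2 j
  have ad : Adm (c.t0 k) (md (JX j) (c.ρ false k)) := (c.adm0 false k).fac (aa_le_sup hjk _)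
  have hD : Ideal.Quotient.mk (JX j) (c.δ k) = (md (JX j) (c.ρ false k) (c.lv k).lam.φ - 1) *
      ∏ i, (md (JX j) (c.ρ false k) (c.tp i).σ - 1) := by
    simp only [δ, md, map_mul, map_prod, map_sub, map_one]
  generalize hd : Ideal.Quotient.mk (JX j) (c.δ k) = D at hD
  have tame : ∀ i, ∃ u, ∀ h ∈ G ⊓ Dec (c.t0 k i).v,
      D * md (JX j) f h = (md (JX j) (c.ρ false k) h - 1) * u := by
    rintro (_ | i)
    · exact ⟨_, fun h hh => by
        have e := (hf.mono inf_le_left).cob_φ ad.chr (ad.geo none) h hh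
        rw [hD, mul_right_comm]
        exact (congrArg (· * _) e).trans (mul_assoc _ _ _)⟩
    · obtain ⟨E, hE⟩ : md (JX j) (c.ρ false k) (c.tp i).σ - 1 ∣ D :=
        hD ▸ (dvd_prod_of_mem _ (mem_univ i)).mul_left _
      exact ⟨_, fun h hh => by
        have e := (hf.mono inf_le_left).cob_σ ad.chr (ad.geo (some i)) h hh
        rw [hE, mul_right_comm]
        exact (congrArg (· * _) e).trans (mul_assoc _ _ _)⟩
  have z : Zt c.t (j + 1) fun g => xi j (D * md (JX j) f g) := by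
    refine ⟨hf.1.comp fun z => xi j (D * z), fun g _ => xi_tor _ _, fun g hg h hh => ?_,
      fun v => ?_⟩
    · rw [hf.2 g hg h hh, mul_add, xi_add, smul_eq_mul, mul_left_comm, c.xi_ρ j k hg]
    by_cases hv : v.p = 2
    · obtain ⟨a, ha, rfl⟩ := conj_w2 hv
      obtain ⟨b, hb⟩ := oq_surj j (D * Ideal.Quotient.mk _ y)
      refine .inl ⟨a⁻¹, inv_mem ha, xi j (D * Ideal.Quotient.mk _ x) +
        star b • (2 : O) ^ (k - j) • c.Q1 (k + 1), fun h hh => ?_⟩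
      rw [inv_smul_smul] at hh
      refine Eq.trans (congrArg (xi j) ?_) (c.xi_km hjk hh (D * Ideal.Quotient.mk _ x) b)
      rw [hb, md, Ideal.Quotient.eq.2 (hl h hh), map_add, map_mul, map_mul, map_sub, map_one,
        mul_add, mul_assoc, mul_assoc]
      rfl
    rcases off_or (c.t0 k) hv with ho | ⟨i, a, ha, rfl⟩
    · exact .inr ⟨hv, c.off ⟨hv, fun i => ho.2 (some i)⟩, fun σ hσ => by
        rw [hu v ho σ hσ, mul_zero, xi_eq_zero]⟩
    · obtain ⟨u, e⟩ := tame i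
      refine .inl ⟨a⁻¹, inv_mem ha, xi j u, fun h hh => ?_⟩
      rw [inv_smul_smul] at hh
      rw [e h hh, c.xi_cob j k hh.1]
  obtain ⟨S, m, h1, h2⟩ := hn _ _ z
  have e : ∀ g ∈ G, xi j (oq (JX j) (2 ^ n) * (D * md (JX j) f g)) = c.t.cob S g := fun g hg => by
    rw [xi_mul, star_pow, star_ofNat, h2 g hg]
  obtain ⟨a, ha⟩ := exists_ap m (rho0 c.t g)
  obtain ⟨b, hb⟩ := exists_ap m (rho0 c.t c.g0)
  refine Ideal.Quotient.eq_zero_iff_mem.1 (xi_eq_zero.1 ?_)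
  rw [show Ideal.Quotient.mk (JX j) (2 ^ n * c.δ k *
      ((c.ρ false k c.g0 - 1) * f g - (c.ρ false k g - 1) * f c.g0)) =
      (md (JX j) (c.ρ false k) c.g0 - 1) * (oq (JX j) (2 ^ n) * (D * md (JX j) f g)) -
      (md (JX j) (c.ρ false k) g - 1) * (oq (JX j) (2 ^ n) * (D * md (JX j) f c.g0)) by
    simp only [← hd, md, map_mul, map_sub, map_one, map_pow, map_ofNat]
    ring, xi_sub, c.xi_cob j k hg, c.xi_cob j k c.g0_mem, e g hg, e _ c.g0_mem]
  simp only [Q4.Tw.cob, map_sub, tw_rho0 c.t hg h1 ha, tw_rho0 c.t c.g0_mem h1 hb,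
    tw_smul c.t hg, tw_smul c.t c.g0_mem]
  rw [smul_comm a b]
  abel

end Cx

end Pool.Agent.Lib.MP_696deb_nt.EU
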