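import Pool.Agent.Lib.MP_696deb_nt.EU.Sys

/-! Rigidified cocycles. -/

set_option autoImplicit false

open scoped Classical NNReal
open Finset Matrix PowerSeries

namespace Pool.Agent.Lib.MP_696deb_nt.EU

theorem topA_one {Γ : Type} [Group Γ] (ρ : Γ →* La) (a b : Γ) : ρ (cmt a b) = 1 := by
  have h : ∀ g, ρ g * ρ g⁻¹ = 1 := fun g => by rw [← map_mul, mul_inv_cancel, map_one]
  rw [cmt, map_mul, map_mul, map_mul, mul_right_comm (ρ a), h, one_mul, h]

theorem topA_cmt {Γ : Type} [Group Γ] {ρ : Γ →* La} {I : Ideal La} {c : Γ → La}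
    (h : ∀ g k, c (g * k) - (c g + ρ g * c k) ∈ I) (a b : Γ) :
    c (cmt a b) - ((ρ a - 1) * c b - (ρ b - 1) * c a) ∈ I := by
  have h1 := h (cmt a b) (b * a)
  rw [topA_one, show cmt a b * (b * a) = a * b by simp [cmt, mul_assoc]] at h1
  convert I.sub_mem (I.sub_mem (h a b) h1) (h b a) using 1
  ring

theorem topA_nat {I : Ideal La} (h : Pr I) {t : ℕ} (ht : t ≠ 0) : (t : La) ∉ I := by
  rw [← map_natCast (C : Ow →+* La)]
  refine h.C_notMem fun e => ht ?_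
  rw [← map_natCast oW, ← map_zero oW] at e
  exact_mod_cast oW_inj e

theorem topA_rel {Γ ι : Type} [Group Γ] [Fintype ι] (ρ : Γ →* La) (gen : ι ⊕ Fin 2 → Γ)
    (φ : ι → Γ) (L : Γ → ι ⊕ Fin 2 → La) (i : ι) (x : ι ⊕ Fin 2 → La) :
    relR ρ gen φ L i ⬝ᵥ x =
      (ρ (gen (.inl i)) - 1) * (L (φ i) ⬝ᵥ x) - (ρ (φ i) - 1) * x (.inl i) := by
  have e : relR ρ gen φ L i = (ρ (gen (.inl i)) - 1) • L (φ i) -
      (ρ (φ i) - 1) • (Pi.single (.inl i) 1 : ι ⊕ Fin 2 → La) := rfl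
  rw [e, sub_dotProduct, smul_dotProduct, smul_dotProduct, single_one_dotProduct, smul_eq_mul,
    smul_eq_mul]

theorem topA_dot {ι : Type} [Fintype ι] {I : Ideal La} (l : ι → La) {x : ι → La}
    (h : ∀ j, x j ∈ I) : l ⬝ᵥ x ∈ I := I.sum_mem fun j _ => I.mul_mem_left _ (h j)

namespace Dat

variable {Γ κ : Type} [Group Γ] [Fintype κ] {D : Dat Γ κ} {n : ℕ} {s : D.St n} {b : Bool}
  {I : Ideal La} {c c' : Γ → La}

theorem Ok.val_cmt (h : D.Ok) (hc : c ∈ D.Z s b I) (g : Γ) :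
    c (cmt D.g0 (cmt D.g0 g)) - (D.ρ b D.g0 - 1) * D.hat b c g ∈ I := by
  have k := (h.pres s b).coc I c hc
  have h1 := topA_cmt k D.g0 (cmt D.g0 g)
  rw [topA_one] at h1
  convert I.add_mem h1 (I.mul_mem_left (D.ρ b D.g0 - 1) (topA_cmt k D.g0 g)) using 1
  rw [hat]
  ring

theorem Ok.topA_pow (h : D.Ok) (hc : c ∈ D.Z s b I) {x y : Γ} (hx : x ∈ D.N s) (hy : y ∈ D.N s)
    (t : ℕ) : c (x * y ^ t) - (c x + t * c y) ∈ I := by
  induction t with
  | zero => simp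
  | succ t ih =>
    have k := (h.pres s b).coc I c hc (x * y ^ t) y
    rw [h.N_ρ s b _ (mul_mem hx (pow_mem hy t))] at k
    rw [pow_succ, ← mul_assoc]
    convert I.add_mem k ih using 1
    push_cast
    ring

theorem Ok.topA_sub (h : D.Ok) (hI : Pr I) (hc : c ∈ D.Z s b I) {x y : Γ} (hx : x ∈ D.N s)
    (hy : y ∈ D.N s) (k : c x ∉ I ∨ c y ∉ I) : {t : ℕ | c (x * y ^ t) ∈ I}.Subsingleton := by
  have k1 : ∀ t t' : ℕ, c (x * y ^ t) ∈ I → c (x * y ^ t') ∈ I → ¬ t < t' := fun t t' a a' e => by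
    obtain ⟨d, rfl⟩ := Nat.exists_eq_add_of_lt e
    have b1 := (I.sub_mem_iff_right a).1 (h.topA_pow hc hx hy t)
    have b2 := (I.sub_mem_iff_right a').1 (h.topA_pow hc hx hy (t + d + 1))
    have b3 : ((d + 1 : ℕ) : La) * c y ∈ I := by
      convert I.sub_mem b2 b1 using 1
      push_cast
      ring
    have b4 := (hI.1.mem_or_mem b3).resolve_left (topA_nat hI d.succ_ne_zero)
    exact k.elim (fun k => k ((I.add_mem_iff_left (I.mul_mem_left _ b4)).1 b1)) fun k => k b4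
  exact fun t a t' a' => le_antisymm (not_lt.1 (k1 t' t a' a)) (not_lt.1 (k1 t t' a a'))

theorem Ok.common (h : D.Ok) (s : D.St n) {m : ℕ} (c : Fin m → Γ → La) (b : Fin m → Bool)
    (J : Fin m → Ideal La) (hc : ∀ i, Pr (J i) ∧ c i ∈ D.Z s (b i) (J i))
    (h0 : ∀ i, ∃ g, D.hat (b i) (c i) g ∉ J i) : ∃ x ∈ D.N s, ∀ i, c i x ∉ J i := by
  suffices k : ∀ T : Finset (Fin m), ∃ x ∈ D.N s, ∀ i ∈ T, c i x ∉ J i from
    (k univ).imp fun x hx => ⟨hx.1, fun i => hx.2 i (mem_univ i)⟩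
  intro T
  induction T using Finset.induction_on with
  | empty => exact ⟨1, one_mem _, fun i hi => absurd hi (notMem_empty i)⟩
  | insert j T _ ih =>
    obtain ⟨x, hx, k⟩ := ih
    obtain ⟨g, hg⟩ := h0 j
    have hy := h.comm s g
    have k1 : c j (cmt D.g0 (cmt D.g0 g)) ∉ J j := fun e =>
      ((hc j).1.1.mem_or_mem (((J j).sub_mem_iff_right e).1 (h.val_cmt (hc j).2 g))).elim
        (h.vp _ _ (hc j).1) hg
    obtain ⟨t, ht⟩ := ((insert j T).finite_toSet.biUnion fun i hi =>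
      (h.topA_sub (hc i).1 (hc i).2 hx hy ((mem_insert.1 hi).symm.imp (k i)
        fun e : i = j => e ▸ k1)).finite).exists_notMem
    exact ⟨_, mul_mem hx (pow_mem hy t), fun i hi e => ht (Set.mem_biUnion hi e)⟩

/-- A new prime at which the given cocycles do not vanish. -/
theorem Ok.new (h : D.Ok) (s : D.St n) {m : ℕ} (c : Fin m → Γ → La) (b : Fin m → Bool)
    (J : Fin m → Ideal La) (hc : ∀ i, Pr (J i) ∧ c i ∈ D.Z s (b i) (J i))
    (h0 : ∀ i, ∃ g, D.hat (b i) (c i) g ∉ J i) :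
    ∃ s' : D.St (n + 1), D.Ext s s' ∧ ∀ i, c i (D.φ s' none) ∉ J i := by
  obtain ⟨x, hx, k⟩ := h.common s c b J hc h0
  obtain ⟨s', t, h1, h2, h3⟩ := h.step s x hx m c b J hc
  exact ⟨s', h1, fun i e =>
    k i (((J i).unit_mul_mem_iff_mem h2).1 (((J i).sub_mem_iff_right e).1 (h3 i)))⟩

theorem Ok.two (h : D.Ok) (hI : Pr I) (c : Fin 3 → Γ → La) (hc : ∀ i, c i ∈ D.Z s b I)
    (hx : Indep I fun i j => c i (D.gen s j)) : ∃ i j, D.Two b I (c i) (c j) := by
  have _ := hc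
  have z : ∀ v : Fin 3 → La, (∀ g, ∑ i, v i * D.hat b (c i) g ∈ I) → ∑ i, v i * c i D.g0 ∈ I →
      ∀ i, v i ∈ I := fun v h1 h2 => hx v fun j => by
    refine (hI.1.mem_or_mem ?_).resolve_left (h.vp b I hI)
    convert I.add_mem (h1 (D.gen s j)) (I.mul_mem_left (D.ρ b (D.gen s j) - 1) h2) using 1
    simp only [hat, Fin.sum_univ_three]
    ring
  have key : ∀ u u' : Fin 3 → La, (∀ g, ∑ i, u i * D.hat b (c i) g ∈ I) →
      (∀ g, ∑ i, u' i * D.hat b (c i) g ∈ I) → (¬ ∀ i, u i ∈ I) → ∀ k, u k ∈ I → u' k ∈ I :=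
    fun u u' h1 h2 h3 k h4 => by
      have h5 := z (fun k => (∑ i, u i * c i D.g0) * u' k - (∑ i, u' i * c i D.g0) * u k)
        (fun g => by
          convert I.sub_mem (I.mul_mem_left (∑ i, u i * c i D.g0) (h2 g))
            (I.mul_mem_left (∑ i, u' i * c i D.g0) (h1 g)) using 1
          simp only [Fin.sum_univ_three]
          ring)
        (by
          convert I.zero_mem using 1
          simp only [Fin.sum_univ_three]
          ring) k
      exact (hI.1.mem_or_mem ((I.sub_mem_iff_left (I.mul_mem_left _ h4)).1 h5)).resolve_left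
        fun e => h3 (z u h1 e)
  by_contra hn
  simp only [not_exists, Two, not_forall] at hn
  obtain ⟨t1, t2, a1, a2⟩ := hn 0 1
  obtain ⟨s1, s2, b1, b2⟩ := hn 0 2
  obtain ⟨r1, r2, c1, c2⟩ := hn 1 2
  have e : ∀ g, ∑ i, ![0, r1, r2] i * D.hat b (c i) g ∈ I := fun g => by
    simpa [Fin.sum_univ_three] using c1 g
  exact c2 ⟨key ![s1, 0, s2] _ (fun g => by simpa [Fin.sum_univ_three] using b1 g) e
      (fun k => b2 ⟨k 0, k 2⟩) 1 I.zero_mem,
    key ![t1, t2, 0] _ (fun g => by simpa [Fin.sum_univ_three] using a1 g) e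
      (fun k => a2 ⟨k 0, k 1⟩) 2 I.zero_mem⟩

theorem Ok.ker (h : D.Ok) (hI : Pr I) (hc : c ∈ D.Z s true I) (ht : D.Tr s I c) (i : Jx κ n) :
    (D.B s *ᵥ fun j => c (D.gen s j)) i ∈ I := by
  have k := (h.pres s true).val I hI c hc (D.φ s i)
  change D.B s i ⬝ᵥ _ ∈ I
  rw [B]
  split_ifs with e
  · exact (I.sub_mem_iff_right (ht i e)).1 k
  · rw [topA_rel]
    convert I.sub_mem ((h.pres s true).rel I hI c hc i)
      (I.mul_mem_left (D.ρ true (D.gen s (.inl i)) - 1) k) using 1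
    ring

theorem Ok.of_ker (h : D.Ok) (hI : Pr I) {x : Jx κ n ⊕ Fin 2 → La} (hx : ∀ i, (D.B s *ᵥ x) i ∈ I) :
    ∃ c ∈ D.Z s true I, D.Tr s I c ∧ ∀ j, c (D.gen s j) - x j ∈ I := by
  have k : ∀ i, D.B s i ⬝ᵥ x ∈ I := hx
  obtain ⟨c, hc, k1⟩ := (h.pres s true).ex I hI x fun i => by
    by_cases e : i.deep
    · rw [topA_rel, (h.deep s true i e).1, (h.deep s true i e).2]
      simp
    · simpa only [B, if_neg e] using k i
  refine ⟨c, hc, fun i e => ?_, k1⟩
  have k2 := k i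
  simp only [B, if_pos e] at k2
  convert I.add_mem (I.add_mem ((h.pres s true).val I hI c hc (D.φ s i))
    (topA_dot (D.L s true (D.φ s i)) k1)) k2 using 1
  simp only [dotProduct, mul_sub, sum_sub_distrib]
  ring

theorem Ok.hat_wd (h : D.Ok) (hI : Pr I) (k : ∀ g, D.hat true c g ∈ I)
    (l l' : Jx κ n ⊕ Fin 2 → La) :
    wd (fun j => D.ρ true (D.gen s j) - 1) (fun j => c (D.gen s j)) l l' ∈ I := by
  have e : ∀ l : Jx κ n ⊕ Fin 2 → La, (D.ρ true D.g0 - 1) * (l ⬝ᵥ fun j => c (D.gen s j)) -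
      (l ⬝ᵥ fun j => D.ρ true (D.gen s j) - 1) * c D.g0 ∈ I := fun l => by
    convert topA_dot l fun j => k (D.gen s j) using 1
    simp only [dotProduct, mul_sum, sum_mul, ← sum_sub_distrib, hat]
    exact sum_congr rfl fun j _ => by ring
  refine (hI.1.mem_or_mem ?_).resolve_left (h.vp true I hI)
  convert I.sub_mem (I.mul_mem_left (l ⬝ᵥ fun j => D.ρ true (D.gen s j) - 1) (e l'))
    (I.mul_mem_left (l' ⬝ᵥ fun j => D.ρ true (D.gen s j) - 1) (e l)) using 1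
  rw [wd]
  ring

theorem Ext.B {s' : D.St (n + 1)} (h : D.Ext s s') (i : Jx κ n) (j : Jx κ n ⊕ Fin 2) :
    D.B s' (some i) (old j) = D.B s i j := by
  have e : Jx.deep (n := n + 1) (some i) ↔ i.deep := Iff.rfl
  by_cases k : i.deep
  · simp only [Dat.B, if_pos k, if_pos (e.2 k), h.φ, h.L]
  · have e1 : D.gen s' (.inl (some i)) = D.gen s (.inl i) := h.gen (.inl i)
    simp only [Dat.B, if_neg k, if_neg (mt e.1 k), relR, h.φ, h.L, e1, Pi.single_apply]
    congr 2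
    have e2 : (old j = (.inl (some i) : Option (Jx κ n) ⊕ Fin 2)) ↔ j = .inl i := by
      rcases j with j | j <;> simp [old]
    by_cases e3 : j = .inl i
    · exact (if_pos (e2.2 e3)).trans (if_pos e3).symm
    · exact (if_neg (mt e2.1 e3)).trans (if_neg e3).symm

theorem Ext.B_none {s' : D.St (n + 1)} (h : D.Ext s s') (j : Jx κ n ⊕ Fin 2) :
    D.B s' none (old j) = D.L s true (D.φ s' none) j := by
  have e : Jx.deep (κ := κ) (n := n + 1) none := trivial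
  simp only [Dat.B, if_pos e, h.L]

theorem sum_deep_succ (f : Jx κ (n + 1) → La) :
    ∑ i : Jx κ (n + 1) with i.deep, f i = f none + ∑ i : Jx κ n with i.deep, f (some i) := by
  rw [sum_filter, sum_filter]
  refine (Fintype.sum_option (α := Jx κ n) _).trans ?_
  exact congrArg₂ (· + ·) (if_pos trivial) (sum_congr rfl fun i _ => if_congr Iff.rfl rfl rfl)

end Dat

end Pool.Agent.Lib.MP_696deb_nt.EU
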